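import Pool.Agent.Helper84.Eve.Config

open MeasureTheory ProbabilityTheory Set Filter
open scoped ENNReal Topology

namespace Pool.Agent.Helper84.Eve

variable {Λ : Measure ℝ}

lemma low_eq_imp {K : Finset ℕ} {i a : ℕ} (hi : i ∉ K) (h : low K i = a) : i = pos K a := by
  apply le_antisymm _ (pos_le_iff.2 h.ge)
  rcases Nat.eq_zero_or_pos i with hi' | hi'
  · subst hi'; exact Nat.zero_le _
  · obtain ⟨j, rfl⟩ : ∃ j, i = j + 1 := ⟨i - 1, by omega⟩
    have : low K j < a := by
      unfold low at h ⊢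
      rw [cnt_succ, if_neg hi] at h
      have := cnt_le K j
      omega
    have := lt_pos_iff.2 this
    omega

lemma anc_eq_anc_iff {K : Finset ℕ} {i j : ℕ} : anc K i = anc K j ↔ i = j ∨ (i ∈ K ∧ j ∈ K) := by
  constructor
  · intro h
    by_cases hl : IsLeast (K : Set ℕ) (anc K i)
    · have key : ∀ k, anc K k = anc K i → k ∈ K := by
        intro k hk
        by_contra hkK
        have h1 : low K k = anc K i := by
          unfold anc at hk
          rw [if_neg hkK] at hk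
          exact hk
        have h2 := low_eq_imp hkK h1
        rw [pos_of_cnt_le (cnt_of_isLeast hl)] at h2
        apply hkK
        rw [h2]; simpa using hl.1
      right
      exact ⟨key i rfl, key j h.symm⟩
    · left
      rw [(anc_eq_iff hl i).1 rfl, ← (anc_eq_iff hl j).1 h.symm]
  · rintro (h | ⟨h1, h2⟩)
    · rw [h]
    · unfold anc; rw [if_pos h1, if_pos h2]

/-- two maps into `Fin n` with the same fibres differ by a permutation -/
lemma exists_perm_of_ker {ι : Type*} {n : ℕ} (f g : ι → Fin n)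
    (h : ∀ i j, f i = f j ↔ g i = g j) : ∃ π : Equiv.Perm (Fin n), ∀ i, f i = π (g i) := by
  classical
  let F : {x // x ∈ Set.range g} → {x // x ∈ Set.range f} := fun y => ⟨f y.2.choose, ⟨_, rfl⟩⟩
  have hF : ∀ i, F ⟨g i, ⟨i, rfl⟩⟩ = ⟨f i, ⟨i, rfl⟩⟩ := by
    intro i
    apply Subtype.ext
    exact (h _ _).2 (⟨i, rfl⟩ : g i ∈ Set.range g).choose_spec
  have hbij : Function.Bijective F := by
    constructor
    · rintro ⟨_, ⟨i, rfl⟩⟩ ⟨_, ⟨j, rfl⟩⟩ hij
      rw [hF, hF] at hij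
      apply Subtype.ext
      exact (h _ _).1 (Subtype.ext_iff.1 hij)
    · rintro ⟨_, ⟨i, rfl⟩⟩
      exact ⟨⟨g i, ⟨i, rfl⟩⟩, hF i⟩
  let e := Equiv.ofBijective F hbij
  refine ⟨e.extendSubtype, fun i => ?_⟩
  rw [Equiv.extendSubtype_apply_of_mem e (g i) ⟨i, rfl⟩]
  have : e ⟨g i, ⟨i, rfl⟩⟩ = F ⟨g i, ⟨i, rfl⟩⟩ := rfl
  rw [this, hF]

/-- preimage of a pattern under a permutation -/
def pre {n : ℕ} (σ : Equiv.Perm (Fin n)) (K : Finset ℕ) : Finset ℕ :=
  (Finset.univ.filter fun i : Fin n => (σ i : ℕ) ∈ K).map Fin.valEmbedding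

lemma mem_pre {n : ℕ} {σ : Equiv.Perm (Fin n)} {K : Finset ℕ} {i : Fin n} :
    (i : ℕ) ∈ pre σ K ↔ (σ i : ℕ) ∈ K := by
  unfold pre
  simp only [Finset.mem_map, Finset.mem_filter, Finset.mem_univ, true_and,
    Fin.valEmbedding_apply]
  constructor
  · rintro ⟨j, h1, h2⟩
    have : j = i := Fin.ext h2
    rwa [← this]
  · intro h; exact ⟨i, h, rfl⟩

lemma pre_mem {n : ℕ} (σ : Equiv.Perm (Fin n)) (K : Finset ℕ) :
    pre σ K ∈ (Finset.range n).powerset := by
  rw [Finset.mem_powerset]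
  intro j hj
  unfold pre at hj
  simp only [Finset.mem_map, Finset.mem_filter, Finset.mem_univ, true_and,
    Fin.valEmbedding_apply] at hj
  obtain ⟨i, _, rfl⟩ := hj
  simp

lemma pre_pre {n : ℕ} (σ τ : Equiv.Perm (Fin n)) (K : Finset ℕ) :
    pre σ (pre τ K) = pre (σ.trans τ) K := by
  ext j
  constructor
  · intro hj
    have h1 := Finset.mem_powerset.1 (pre_mem σ (pre τ K)) hj
    have hjn : j < n := by simpa using h1
    have h2 : ((⟨j, hjn⟩ : Fin n) : ℕ) ∈ pre σ (pre τ K) := hj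
    rw [mem_pre, mem_pre] at h2
    have h3 : ((⟨j, hjn⟩ : Fin n) : ℕ) ∈ pre (σ.trans τ) K := mem_pre.2 h2
    exact h3
  · intro hj
    have h1 := Finset.mem_powerset.1 (pre_mem (σ.trans τ) K) hj
    have hjn : j < n := by simpa using h1
    have h2 : ((⟨j, hjn⟩ : Fin n) : ℕ) ∈ pre (σ.trans τ) K := hj
    rw [mem_pre] at h2
    have h3 : ((⟨j, hjn⟩ : Fin n) : ℕ) ∈ pre σ (pre τ K) := by
      rw [mem_pre, mem_pre]; exact h2
    exact h3

lemma pre_refl {n : ℕ} {K : Finset ℕ} (hK : K ∈ (Finset.range n).powerset) :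
    pre (Equiv.refl (Fin n)) K = K := by
  ext j
  constructor
  · intro hj
    have h1 := Finset.mem_powerset.1 (pre_mem (Equiv.refl (Fin n)) K) hj
    have hjn : j < n := by simpa using h1
    have h2 : ((⟨j, hjn⟩ : Fin n) : ℕ) ∈ pre (Equiv.refl (Fin n)) K := hj
    rw [mem_pre] at h2
    exact h2
  · intro hj
    have hjn : j < n := by simpa using Finset.mem_powerset.1 hK hj
    have h2 : ((⟨j, hjn⟩ : Fin n) : ℕ) ∈ pre (Equiv.refl (Fin n)) K := by
      rw [mem_pre]; exact hj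
    exact h2

lemma card_pre {n : ℕ} (σ : Equiv.Perm (Fin n)) {K : Finset ℕ}
    (hK : K ∈ (Finset.range n).powerset) : (pre σ K).card = K.card := by
  classical
  have h1 : ∀ K' ∈ (Finset.range n).powerset, ∀ τ : Equiv.Perm (Fin n),
      (pre τ K').card ≤ K'.card := by
    intro K' hK' τ
    unfold pre
    rw [Finset.card_map]
    apply Finset.card_le_card_of_injOn (fun i => (τ i : ℕ))
    · intro i hi
      simpa using hi
    · intro i _ j _ hij
      exact τ.injective (Fin.ext hij)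
  apply le_antisymm (h1 K hK σ)
  have h2 := h1 (pre σ K) (pre_mem σ K) σ.symm
  rwa [pre_pre, Equiv.symm_trans_self, pre_refl hK] at h2

lemma sum_pre {n : ℕ} (σ : Equiv.Perm (Fin n)) (f : Finset ℕ → ℝ≥0∞) :
    ∑ κ ∈ (Finset.range n).powerset, f (pre σ κ) = ∑ κ ∈ (Finset.range n).powerset, f κ := by
  apply Finset.sum_nbij' (fun κ => pre σ κ) (fun κ => pre σ.symm κ)
  · intro κ _; exact pre_mem σ κ
  · intro κ _; exact pre_mem σ.symm κ
  · intro κ hκ
    rw [pre_pre, Equiv.symm_trans_self, pre_refl hκ]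
  · intro κ hκ
    rw [pre_pre, Equiv.self_trans_symm, pre_refl hκ]
  · intro κ _; rfl

lemma wS_single (hs : Λ (Icc 0 1)ᶜ = 0) {n : ℕ} {K : Finset ℕ}
    (hK : K ∈ (Finset.range n).powerset) :
    wS Λ n {K} = ∫⁻ u, ENNReal.ofReal u ^ K.card * ENNReal.ofReal (1 - u) ^ (n - K.card)
      ∂(nu Λ) := by
  classical
  unfold wS
  have hK' := Finset.mem_powerset.1 hK
  have : {q : ℝ × (ℕ → ℝ) | pat n (0, q) ∈ ({K} : Set (Finset ℕ))} =
      {q : ℝ × (ℕ → ℝ) | (∀ j ∈ K, q.2 j < q.1) ∧ ∀ j ∈ Finset.range n \ K, ¬ q.2 j < q.1} := by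
    ext q
    simp only [mem_ofPred_eq, mem_singleton_iff, Finset.mem_sdiff, Finset.mem_range]
    constructor
    · intro h
      refine ⟨fun j hj => ?_, fun j hj h2 => hj.2 ?_⟩
      · rw [← h] at hj; exact (mem_pat.1 hj).2
      · rw [← h]; exact mem_pat.2 ⟨hj.1, h2⟩
    · rintro ⟨h1, h2⟩
      ext j
      rw [mem_pat]
      constructor
      · rintro ⟨h3, h4⟩
        by_contra h5
        exact h2 j ⟨h3, h5⟩ h4
      · intro hj
        exact ⟨by simpa using hK' hj, h1 j hj⟩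
  rw [this, mk_marks hs (Finset.disjoint_sdiff), Finset.card_sdiff_of_subset hK',
    Finset.card_range]

lemma wt_pre (hs : Λ (Icc 0 1)ᶜ = 0) {n : ℕ} (h : ℝ) (σ : Equiv.Perm (Fin n)) {K : Finset ℕ}
    (hK : K ∈ (Finset.range n).powerset) : wt Λ n h (pre σ K) = wt Λ n h K := by
  unfold wt
  have h1 : (pre σ K = ∅) ↔ K = ∅ := by
    rw [← Finset.card_eq_zero, card_pre σ hK, Finset.card_eq_zero]
  congr 1
  by_cases h2 : K = ∅
  · rw [if_pos (h1.2 h2), if_pos h2]
  · rw [if_neg (fun h3 => h2 (h1.1 h3)), if_neg h2, wS_single hs hK, wS_single hs (pre_mem σ K),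
      card_pre σ hK]

/-- `anc` on `Fin n` -/
noncomputable def ancF (n : ℕ) (K : Finset ℕ) (i : Fin n) : Fin n :=
  ⟨anc K i, lt_of_le_of_lt (anc_le K i) i.2⟩

/-- composition of a list of patterns -/
noncomputable def ancL (n : ℕ) : List (Finset ℕ) → Fin n → Fin n
  | [], i => i
  | κ :: l, i => ancF n κ (ancL n l i)

lemma ancF_comm {n : ℕ} (K : Finset ℕ) (σ : Equiv.Perm (Fin n)) :
    ∃ π : Equiv.Perm (Fin n), ∀ i, ancF n K (σ i) = π (ancF n (pre σ K) i) := by
  apply exists_perm_of_ker (fun i => ancF n K (σ i)) (fun i => ancF n (pre σ K) i)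
  intro i j
  simp only [ancF, Fin.mk.injEq]
  rw [anc_eq_anc_iff, anc_eq_anc_iff, mem_pre, mem_pre]
  have : ((σ i : ℕ) = σ j) ↔ ((i : ℕ) = j) := by
    rw [Fin.val_inj, Fin.val_inj, σ.injective.eq_iff]
  rw [this]

lemma wsum_sum (w : Finset ℕ → ℝ≥0∞) (n m : ℕ) {ι : Type*} (s : Finset ι)
    (c : ι → ℝ≥0∞) (F : ι → List (Finset ℕ) → ℝ≥0∞) :
    wsum w n m (fun l => ∑ i ∈ s, c i * F i l) = ∑ i ∈ s, c i * wsum w n m (F i) := by
  induction m generalizing F with
  | zero => rfl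
  | succ m ih =>
    unfold wsum
    simp_rw [ih, Finset.mul_sum]
    rw [Finset.sum_comm]
    apply Finset.sum_congr rfl
    intro i _
    apply Finset.sum_congr rfl
    intro κ _
    ring

/-- invariance of the chain under permutations of the levels -/
lemma wsum_perm (hs : Λ (Icc 0 1)ᶜ = 0) (n : ℕ) (h : ℝ) (m : ℕ) (σ : Equiv.Perm (Fin n)) :
    ∀ F : (Fin n → Fin n) → ℝ≥0∞, (∀ (π : Equiv.Perm (Fin n)) (A : Fin n → Fin n),
      F (fun i => π (A i)) = F A) →
      wsum (wt Λ n h) n m (fun l => F (fun i => ancL n l (σ i))) =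
        wsum (wt Λ n h) n m (fun l => F (ancL n l)) := by
  induction m with
  | zero =>
    intro F hF
    unfold wsum
    exact hF σ (fun i => i)
  | succ m ih =>
    intro F hF
    set G : (Fin n → Fin n) → ℝ≥0∞ := fun A =>
      ∑ κ ∈ (Finset.range n).powerset, wt Λ n h κ * F (fun i => ancF n κ (A i)) with hG
    have hGinv : ∀ (π : Equiv.Perm (Fin n)) (A : Fin n → Fin n), G (fun i => π (A i)) = G A := by
      intro π A
      simp only [hG]
      rw [← sum_pre π (fun κ => wt Λ n h κ * F (fun i => ancF n κ (A i)))]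
      apply Finset.sum_congr rfl
      intro κ hκ
      rw [wt_pre hs h π hκ]
      congr 1
      obtain ⟨π', hπ'⟩ := ancF_comm κ π
      have : (fun i => ancF n κ (π (A i))) = fun i => π' (ancF n (pre π κ) (A i)) := by
        funext i; exact hπ' (A i)
      rw [this]
      exact hF π' _
    have key : ∀ τ : Fin n → Fin n, wsum (wt Λ n h) n (m + 1) (fun l => F (fun i => ancL n l (τ i)))
        = wsum (wt Λ n h) n m (fun l => G (fun i => ancL n l (τ i))) := by
      intro τ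
      simp only [hG]
      rw [wsum_sum (wt Λ n h) n m (Finset.range n).powerset (wt Λ n h)
        (fun κ l => F (fun i => ancF n κ (ancL n l (τ i))))]
      rfl
    rw [key σ, ih G hGinv]
    exact (key id).symm

end Pool.Agent.Helper84.Eve
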