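import Pool.Agent.Helper84.Eve.Moment

open MeasureTheory ProbabilityTheory Set Filter
open scoped ENNReal Topology

namespace Pool.Agent.Helper84.Eve

set_option linter.unusedSectionVars false

/-- the empirical measure of the first `n + 1` terms -/
noncomputable def empP (x : ℕ → ℝ) (n : ℕ) : Measure ℝ :=
  ((n : ℝ≥0∞) + 1)⁻¹ • ∑ i : Fin (n + 1), Measure.dirac (x i)

instance (x : ℕ → ℝ) (n : ℕ) : IsProbabilityMeasure (empP x n) := by
  constructor
  unfold empP
  rw [Measure.smul_apply, Measure.finsetSum_apply]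
  simp only [measure_univ, Finset.sum_const, Finset.card_univ, Fintype.card_fin, nsmul_eq_mul,
    mul_one, smul_eq_mul]
  push_cast
  exact ENNReal.inv_mul_cancel (by simp) (by simp)

lemma empP_apply (x : ℕ → ℝ) (n : ℕ) {B : Set ℝ} (hB : MeasurableSet B) :
    (empP x n B).toReal = emp x (n + 1) B := by
  unfold empP emp
  rw [Measure.smul_apply, Measure.finsetSum_apply]
  simp only [Measure.dirac_apply' _ hB, smul_eq_mul]
  rw [ENNReal.toReal_mul, ENNReal.toReal_sum]
  · rw [ENNReal.toReal_inv]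
    have h1 : ((n : ℝ≥0∞) + 1).toReal = (n : ℝ) + 1 := by
      rw [ENNReal.toReal_add (by simp) (by simp)]; simp
    rw [h1, mul_comm, ← div_eq_mul_inv]
    push_cast
    congr 1
    apply Finset.sum_congr rfl
    intro i _
    by_cases h : x i ∈ B
    · simp [h]
    · simp [h]
  · intro i _
    by_cases h : x i ∈ B
    · simp [h]
    · simp [h]

lemma aem_liminf {α : Type*} [MeasurableSpace α] {μ : Measure α} {f : ℕ → α → ℝ≥0∞}
    (hf : ∀ n, AEMeasurable (f n) μ) : AEMeasurable (fun ω => liminf (fun n => f n ω) atTop) μ := by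
  refine ⟨fun ω => liminf (fun n => (hf n).mk (f n) ω) atTop,
    Measurable.liminf fun n => (hf n).measurable_mk, ?_⟩
  have h1 : ∀ᵐ ω ∂μ, ∀ n, f n ω = (hf n).mk (f n) ω := ae_all_iff.2 fun n => (hf n).ae_eq_mk
  filter_upwards [h1] with ω hω
  congr 1
  funext n
  exact hω n

lemma integral_empP (x : ℕ → ℝ) (n : ℕ) {f : ℝ → ℝ} :
    ∫ y, f y ∂(empP x n) = (∑ i ∈ Finset.range (n + 1), f (x i)) / (n + 1 : ℕ) := by
  unfold empP
  rw [integral_smul_measure, integral_finsetSum_measure]
  · rw [← Fin.sum_univ_eq_sum_range (fun i => f (x i)) (n + 1)]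
    have h1 : (((n : ℝ≥0∞) + 1)⁻¹).toReal = ((n : ℝ) + 1)⁻¹ := by
      rw [ENNReal.toReal_inv, ENNReal.toReal_add (by simp) (by simp)]; simp
    rw [h1]
    simp only [integral_dirac, smul_eq_mul]
    push_cast
    rw [div_eq_inv_mul]
  · intro i _
    exact integrable_dirac (by simp)

lemma EmpLimit.tendsto_emp {x : ℕ → ℝ} {μ : Measure ℝ} (h : EmpLimit x μ) {a b : ℝ}
    (ha : μ {a} = 0) (hb : μ {b} = 0) :
    Tendsto (fun n => emp x n (Ico a b)) atTop (𝓝 (μ (Ico a b)).toReal) := by
  obtain ⟨hp, hf⟩ := h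
  let μP : ProbabilityMeasure ℝ := ⟨μ, hp⟩
  let μs : ℕ → ProbabilityMeasure ℝ := fun n => ⟨empP x n, inferInstance⟩
  have hlim : Tendsto μs atTop (𝓝 μP) := by
    rw [ProbabilityMeasure.tendsto_iff_forall_integral_tendsto]
    intro f
    have h1 := hf f f.continuous ⟨‖f‖, fun y => by
      have := f.norm_coe_le_norm y
      simpa using this⟩
    have h2 := (tendsto_add_atTop_iff_nat 1).2 h1
    refine h2.congr fun n => ?_
    exact (integral_empP x n).symm
  have hfr : (μP : Measure ℝ) (frontier (Ico a b)) = 0 := by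
    have h1 : frontier (Ico a b) ⊆ {a} ∪ {b} := by
      rcases lt_or_ge a b with hab | hab
      · rw [frontier_Ico hab]; intro x hx; simpa [or_comm] using hx
      · rw [Ico_eq_empty (not_lt.2 hab)]; simp
    refine measure_mono_null h1 ?_
    exact measure_union_null ha hb
  have h1 := ProbabilityMeasure.tendsto_measure_of_null_frontier_of_tendsto' hlim hfr
  have h2 := (ENNReal.tendsto_toReal (measure_ne_top μ (Ico a b))).comp h1
  rw [← tendsto_add_atTop_iff_nat 1]
  refine h2.congr fun n => ?_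
  exact empP_apply x n measurableSet_Ico

variable {Ω : Type*} [MeasurableSpace Ω] {P : Measure Ω} [IsProbabilityMeasure P] {Λ : Measure ℝ}

/-- tent function -/
noncomputable def tent (c δ y : ℝ) : ℝ := max 0 (1 - |y - c| / δ)

lemma tent_cont (c δ : ℝ) : Continuous (tent c δ) := by unfold tent; fun_prop

lemma tent_nonneg (c δ y : ℝ) : 0 ≤ tent c δ y := le_max_left _ _

lemma tent_le {δ : ℝ} (hδ : 0 < δ) (c y : ℝ) : tent c δ y ≤ 1 := by
  unfold tent
  apply max_le zero_le_one
  have : 0 ≤ |y - c| / δ := by positivity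
  linarith

lemma tent_self (c δ : ℝ) : tent c δ c = 1 := by simp [tent]

lemma tent_zero {δ : ℝ} (hδ : 0 < δ) {c y : ℝ} (h : y ∉ Ioo (c - δ) (c + δ)) :
    tent c δ y = 0 := by
  unfold tent
  apply max_eq_left
  have h1 : δ ≤ |y - c| := by
    by_contra hc
    rw [not_le, abs_lt] at hc
    exact h ⟨by linarith [hc.1], by linarith [hc.2]⟩
  have : 1 ≤ |y - c| / δ := by rwa [le_div_iff₀ hδ, one_mul]
  linarith

/-- the limit measure has no atom at a fixed point -/
lemma ae_no_atom (hr : DustRegime Λ) (L : Lookdown P Λ) (T : ℕ) (ρ : Ω → Measure ℝ)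
    (hρ : ∀ᵐ ω ∂P, EmpLimit (fun i => L.ξ T i ω) (ρ ω)) (c : ℝ) : ∀ᵐ ω ∂P, ρ ω {c} = 0 := by
  set δ : ℕ → ℝ := fun m => 1 / ((m : ℝ) + 1) with hδ
  have hδ0 : ∀ m, 0 < δ m := fun m => by simp only [hδ]; positivity
  set A : ℕ → ℕ → Ω → ℝ≥0∞ := fun m n ω =>
    ENNReal.ofReal ((∑ i ∈ Finset.range n, tent c (δ m) (L.ξ T i ω)) / n) with hA
  have hAm : ∀ m n, AEMeasurable (A m n) P := by
    intro m n
    apply AEMeasurable.ennreal_ofReal
    apply AEMeasurable.div_const
    apply Finset.aemeasurable_fun_sum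
    intro i _
    exact (tent_cont c (δ m)).measurable.comp_aemeasurable (aemeas hr L T i)
  have hAint : ∀ m n, ∫⁻ ω, A m n ω ∂P ≤ ENNReal.ofReal (2 * δ m) := by
    intro m n
    rcases Nat.eq_zero_or_pos n with hn | hn
    · subst hn; simp [hA]
    have hn0 : (0 : ℝ) < n := by exact_mod_cast hn
    have h1 : ∀ ω, A m n ω = (∑ i ∈ Finset.range n, ENNReal.ofReal (tent c (δ m) (L.ξ T i ω))) *
        (n : ℝ≥0∞)⁻¹ := by
      intro ω
      simp only [hA]
      rw [ENNReal.ofReal_div_of_pos hn0, ENNReal.ofReal_sum_of_nonneg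
        (fun i _ => tent_nonneg _ _ _), ENNReal.ofReal_natCast, div_eq_mul_inv]
    simp_rw [h1]
    have hn1 : (n : ℝ≥0∞) ≠ 0 := by exact_mod_cast hn.ne'
    rw [lintegral_mul_const' _ _ (ENNReal.inv_ne_top.2 hn1), lintegral_finsetSum']
    · have h2 : ∀ i, ∫⁻ ω, ENNReal.ofReal (tent c (δ m) (L.ξ T i ω)) ∂P ≤
          ENNReal.ofReal (2 * δ m) := by
        intro i
        calc _ ≤ ∫⁻ ω, (L.ξ T i ⁻¹' Ioo (c - δ m) (c + δ m)).indicator (fun _ => 1) ω ∂P := by
              apply lintegral_mono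
              intro ω
              by_cases h3 : L.ξ T i ω ∈ Ioo (c - δ m) (c + δ m)
              · simp only
                rw [Set.indicator_of_mem (show ω ∈ L.ξ T i ⁻¹' Ioo (c - δ m) (c + δ m) from h3),
                  ENNReal.ofReal_le_one]
                exact tent_le (hδ0 m) _ _
              · simp only
                rw [tent_zero (hδ0 m) h3]; simp
          _ = P (L.ξ T i ⁻¹' Ioo (c - δ m) (c + δ m)) := by
              rw [lintegral_indicator_const₀
                ((aemeas hr L T i).nullMeasurableSet_preimage measurableSet_Ioo), one_mul]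
          _ ≤ unif (Ioo (c - δ m) (c + δ m)) := law_le hr L T i measurableSet_Ioo
          _ ≤ volume (Ioo (c - δ m) (c + δ m)) := Measure.restrict_apply_le _ _
          _ = ENNReal.ofReal (2 * δ m) := by
              rw [Real.volume_Ioo]; congr 1; ring
      calc _ ≤ (∑ i ∈ Finset.range n, ENNReal.ofReal (2 * δ m)) * (n : ℝ≥0∞)⁻¹ := by
            gcongr with i _
            exact h2 i
        _ = ENNReal.ofReal (2 * δ m) * ((n : ℝ≥0∞) * (n : ℝ≥0∞)⁻¹) := by
            simp; ring
        _ = _ := by rw [ENNReal.mul_inv_cancel hn1 (by simp), mul_one]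
    · intro i _
      apply AEMeasurable.ennreal_ofReal
      exact (tent_cont c (δ m)).measurable.comp_aemeasurable (aemeas hr L T i)
  set G : ℕ → Ω → ℝ≥0∞ := fun m ω => liminf (fun n => A m n ω) atTop with hG
  have hGint : ∀ m, ∫⁻ ω, G m ω ∂P ≤ ENNReal.ofReal (2 * δ m) := by
    intro m
    refine (lintegral_liminf_le' (hAm m)).trans ?_
    refine liminf_le_of_frequently_le' ?_
    exact Filter.Frequently.of_forall fun n => hAint m n
  have hle : ∀ᵐ ω ∂P, ∀ m, ρ ω {c} ≤ G m ω := by
    filter_upwards [hρ] with ω hω m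
    obtain ⟨hp, hf⟩ := hω
    have h1 := hf (tent c (δ m)) (tent_cont c (δ m)) ⟨1, fun y => by
      rw [abs_of_nonneg (tent_nonneg _ _ _)]; exact tent_le (hδ0 m) _ _⟩
    have h2 : G m ω = ENNReal.ofReal (∫ y, tent c (δ m) y ∂(ρ ω)) :=
      (ENNReal.tendsto_ofReal h1).liminf_eq
    rw [h2, ofReal_integral_eq_lintegral_ofReal]
    · calc ρ ω {c} = ∫⁻ y, ({c} : Set ℝ).indicator (fun _ => 1) y ∂(ρ ω) := by
            rw [lintegral_indicator_const (measurableSet_singleton c), one_mul]
        _ ≤ _ := by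
            apply lintegral_mono
            intro y
            by_cases h3 : y = c
            · subst h3; simp [tent_self]
            · simp [h3]
    · apply Integrable.of_bound (C := 1) (tent_cont c (δ m)).aestronglyMeasurable
      filter_upwards with y
      rw [Real.norm_eq_abs, abs_of_nonneg (tent_nonneg _ _ _)]
      exact tent_le (hδ0 m) _ _
    · filter_upwards with y using tent_nonneg _ _ _
  have hzero : ∫⁻ ω, ⨅ m, G m ω ∂P = 0 := by
    apply le_antisymm _ zero_le
    have h1 : Tendsto (fun m => ENNReal.ofReal (2 * δ m)) atTop (𝓝 0) := by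
      have h2 : Tendsto (fun m => 2 * δ m) atTop (𝓝 0) := by
        have := (tendsto_one_div_add_atTop_nhds_zero_nat (𝕜 := ℝ)).const_mul 2
        simpa [hδ] using this
      have := ENNReal.tendsto_ofReal h2
      simpa using this
    apply ge_of_tendsto' h1
    intro m
    refine le_trans (lintegral_mono fun ω => ?_) (hGint m)
    exact iInf_le _ m
  rw [lintegral_eq_zero_iff' (AEMeasurable.iInf fun m => aem_liminf (hAm m))] at hzero
  filter_upwards [hzero, hle] with ω h1 h2
  apply le_antisymm _ zero_le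
  have h3 : ρ ω {c} ≤ ⨅ m, G m ω := le_iInf h2
  rw [h1] at h3
  exact h3

/-- the limit measure lives on `[0,1]` -/
lemma ae_supp (hr : DustRegime Λ) (L : Lookdown P Λ) (T : ℕ) (ρ : Ω → Measure ℝ)
    (hρ : ∀ᵐ ω ∂P, EmpLimit (fun i => L.ξ T i ω) (ρ ω)) : ∀ᵐ ω ∂P, ρ ω (Icc 0 1)ᶜ = 0 := by
  have h1 : ∀ᵐ ω ∂P, ∀ i, L.ξ T i ω ∈ Icc (0 : ℝ) 1 := by
    rw [ae_all_iff]
    intro i
    rw [ae_iff]
    apply le_antisymm _ zero_le
    have h2 := law_le hr L T i (B := (Icc (0 : ℝ) 1)ᶜ) measurableSet_Icc.compl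
    have h3 : unif (Icc (0 : ℝ) 1)ᶜ = 0 := by
      unfold unif
      rw [Measure.restrict_apply measurableSet_Icc.compl]; simp
    rw [h3] at h2
    exact h2
  filter_upwards [h1, hρ] with ω h2 h3
  obtain ⟨hp, hf⟩ := h3
  set f : ℝ → ℝ := fun y => min 1 (max (-y) (y - 1) ⊔ 0) with hfd
  have hfc : Continuous f := by simp only [hfd]; fun_prop
  have hf0 : ∀ y, 0 ≤ f y := fun y => by simp only [hfd]; exact le_min zero_le_one le_sup_right
  have hf1 : ∀ y, f y ≤ 1 := fun y => by simp only [hfd]; exact min_le_left _ _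
  have h4 := hf f hfc ⟨1, fun y => by rw [abs_of_nonneg (hf0 y)]; exact hf1 y⟩
  have h5 : ∀ n : ℕ, (∑ i ∈ Finset.range n, f (L.ξ T i ω)) / (n : ℝ) = 0 := by
    intro n
    rw [Finset.sum_eq_zero, zero_div]
    intro i _
    have := h2 i
    simp only [hfd]
    have h6 : max (-(L.ξ T i ω)) (L.ξ T i ω - 1) ≤ 0 := by
      apply max_le <;> linarith [this.1, this.2]
    rw [sup_eq_right.2 h6]; simp
  simp_rw [h5] at h4
  have h6 : ∫ y, f y ∂(ρ ω) = 0 := tendsto_nhds_unique h4 tendsto_const_nhds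
  have hint : Integrable f (ρ ω) := by
    apply Integrable.of_bound (C := 1) hfc.aestronglyMeasurable
    filter_upwards with y
    rw [Real.norm_eq_abs, abs_of_nonneg (hf0 y)]
    exact hf1 y
  rw [integral_eq_zero_iff_of_nonneg hf0 hint] at h6
  rw [Filter.EventuallyEq, ae_iff] at h6
  refine measure_mono_null ?_ h6
  intro y hy
  simp only [mem_compl_iff, mem_Icc, not_and_or, not_le] at hy
  simp only [mem_ofPred_eq, Pi.zero_apply, hfd]
  apply ne_of_gt
  apply lt_min zero_lt_one
  apply lt_sup_of_lt_left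
  rcases hy with h | h
  · apply lt_max_of_lt_left; linarith
  · apply lt_max_of_lt_right; linarith

end Pool.Agent.Helper84.Eve
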