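import Pool.Agent.Helper84.Eve.Exist
import Pool.Agent.Helper84.Eve.Cells

open MeasureTheory ProbabilityTheory Set Filter
open scoped ENNReal Topology

namespace Pool.Agent.Helper84.Eve

set_option linter.unusedSectionVars false

/-- number of levels among `0..m` with type in `B` -/
noncomputable def cB (x : ℕ → ℝ) (m : ℕ) (B : Set ℝ) : ℕ := {j | j ≤ m ∧ x j ∈ B}.ncard

lemma fin_le (m : ℕ) (p : ℕ → Prop) : {j | j ≤ m ∧ p j}.Finite :=
  (Set.finite_Iic m).subset fun _ hj => hj.1

lemma origin_inj {e : Ev} {i j : ℕ} (hi : ¬ Part e i) (hj : ¬ Part e j)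
    (h : origin e i = origin e j) : i = j := by
  set n := i + j + 1 with hn
  have hi' : i < n := by omega
  have hj' : j < n := by omega
  rw [origin_eq hi', origin_eq hj'] at h
  set K := pat n e with hK
  have key : ∀ k, k ∉ K → ¬ IsLeast (K : Set ℕ) (anc K k) := by
    intro k hk hl
    unfold anc at hl
    rw [if_neg hk] at hl
    -- `low K k ∈ K` is the least element
    have h1 : low K k ∈ K := by simpa using hl.1
    have h2 : low K k ≤ k := low_le K k
    have h3 : cnt K k ≤ k - low K k := by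
      unfold cnt
      calc (K.filter (· ≤ k)).card ≤ (Finset.Ico (low K k) k).card := by
            apply Finset.card_le_card
            intro a ha
            simp only [Finset.mem_filter] at ha
            have h4 := hl.2 (show a ∈ (K : Set ℕ) by simpa using ha.1)
            simp only [Finset.mem_Ico]
            refine ⟨h4, lt_of_le_of_ne ha.2 ?_⟩
            rintro rfl
            exact hk ha.1
        _ = k - low K k := by simp
    have h5 : 1 ≤ cnt K k := by
      unfold cnt
      exact Finset.card_pos.2 ⟨low K k, by simp [h1, h2]⟩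
    unfold low at h3
    have h6 := cnt_le K k
    omega
  have hiK : i ∉ K := fun h' => hi (mem_pat.1 h').2
  have hjK : j ∉ K := fun h' => hj (mem_pat.1 h').2
  have h1 := (anc_eq_iff (key i hiK) i).1 rfl
  have h2 := (anc_eq_iff (key i hiK) j).1 h.symm
  rw [h1]; exact h2.symm

lemma step_count {x x' : ℕ → ℝ} {e : Ev} {m : ℕ} (hx : ∀ j ≤ m, x' j = x (origin e j))
    (B : Set ℝ) : cB x' m B ≤ cB x m B + {j | j ≤ m ∧ (Part e j ∧ x' j ∈ B)}.ncard := by
  unfold cB
  have h1 : {j | j ≤ m ∧ x' j ∈ B} ⊆ {j | j ≤ m ∧ (¬ Part e j ∧ x' j ∈ B)} ∪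
      {j | j ≤ m ∧ (Part e j ∧ x' j ∈ B)} := by
    intro j hj
    by_cases h : Part e j
    · right; exact ⟨hj.1, h, hj.2⟩
    · left; exact ⟨hj.1, h, hj.2⟩
  have h2 : {j | j ≤ m ∧ (¬ Part e j ∧ x' j ∈ B)}.ncard ≤ {j | j ≤ m ∧ x j ∈ B}.ncard := by
    apply Set.ncard_le_ncard_of_injOn (origin e) (ht := fin_le _ _)
    · rintro j ⟨hj1, hj2, hj3⟩
      refine ⟨(origin_le e j).trans hj1, ?_⟩
      rw [← hx j hj1]; exact hj3
    · rintro i ⟨_, hi, _⟩ j ⟨_, hj, _⟩ hij
      exact origin_inj hi hj hij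
  calc _ ≤ ({j | j ≤ m ∧ (¬ Part e j ∧ x' j ∈ B)} ∪
      {j | j ≤ m ∧ (Part e j ∧ x' j ∈ B)}).ncard :=
        Set.ncard_le_ncard h1 ((fin_le _ _).union (fin_le _ _))
    _ ≤ _ := Set.ncard_union_le _ _
    _ ≤ _ := by omega

/-- just before an event -/
lemma before {A : Set Ev} {x : ℝ → ℕ → ℝ} (hD : DynOK A x) (hA : GoodA A) {m : ℕ} {t : ℝ}
    {e : Ev} (he : e ∈ rel A t m) (hmax : ∀ e' ∈ rel A t m, e'.1 ≤ e.1) :
    ∃ s, 0 ≤ s ∧ s < e.1 ∧ (∀ e' ∈ rel A t m, e' ≠ e → e'.1 ≤ s) ∧
      rel A s m = rel A t m \ {e} ∧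
      ∀ j ≤ m, x t j = x s (origin e j) := by
  obtain ⟨hfin, hdis⟩ := hA t m
  set F' := rel A t m \ {e} with hF'
  have hfin' : F'.Finite := hfin.subset sdiff_subset
  obtain ⟨s, hsG, hs⟩ := Set.exists_max_image (insert (0 : ℝ) ((fun e : Ev => e.1) '' F'))
    id ((hfin'.image _).insert 0) ⟨0, by simp⟩
  simp only [id_eq] at hs
  have hs0 : 0 ≤ s := hs 0 (by simp)
  have hse : s < e.1 := by
    rcases hsG with h | ⟨e', he', h⟩
    · rw [h]; exact he.2.1
    · simp only at h
      rw [← h]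
      refine lt_of_le_of_ne (hmax e' he'.1) ?_
      intro h2
      exact he'.2 (hdis e' he'.1 e he h2)
  have hsle : ∀ e' ∈ rel A t m, e' ≠ e → e'.1 ≤ s := by
    intro e' h1 h2
    exact hs _ (Or.inr ⟨e', ⟨h1, h2⟩, rfl⟩)
  refine ⟨s, hs0, hse, hsle, ?_, ?_⟩
  · ext e'
    constructor
    · rintro ⟨h1, h2, h3, h4⟩
      refine ⟨⟨h1, h2, h3.trans (hse.le.trans he.2.2.1), h4⟩, ?_⟩
      intro h5
      simp only [mem_singleton_iff] at h5
      subst h5
      linarith
    · rintro ⟨⟨h1, h2, h3, h4⟩, h5⟩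
      exact ⟨h1, h2, hsle e' ⟨h1, h2, h3, h4⟩ h5, h4⟩
  · intro j hj
    have huniq : ∀ e' ∈ A, s < e'.1 → e'.1 ≤ t → 2 ≤ numPart e' j → e' = e := by
      intro e' h1 h2 h3 h4
      by_contra h5
      have := hsle e' ⟨h1, by linarith, h3, h4.trans (numPart_mono e' hj)⟩ h5
      linarith
    by_cases h2 : 2 ≤ numPart e j
    · exact hD.jump j s t hs0 (hse.le.trans he.2.2.1) e he.1 hse he.2.2.1 h2 huniq
    · rw [origin_triv (i := j) (by omega) le_rfl]
      apply hD.rest j s t hs0 (hse.le.trans he.2.2.1)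
      intro e' h3 h4 h5
      by_contra h6
      have := huniq e' h3 h4 h5 (by omega)
      subst this
      omega

/-- the events of `S` up to time `t` in which level `j` participates -/
def partS (S : Set Ev) (t : ℝ) (j : ℕ) : Set Ev := {e | 0 < e.1 ∧ e.1 ≤ t ∧ e ∈ S ∧ Part e j}

lemma dom {A : Set Ev} {x : ℝ → ℕ → ℝ} (hD : DynOK A x) (hA : GoodA A) (m : ℕ) (B : Set ℝ)
    (S : Set Ev) : ∀ (k : ℕ) (t : ℝ), 0 ≤ t → (rel A t m).ncard = k →
    (∀ e ∈ rel A t m, e ∉ S → ∀ j ≤ m, Part e j → x e.1 j ∉ B) →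
    (cB (x t) m B : ℕ∞) ≤ cB (x 0) m B + ∑ j ∈ Finset.range (m + 1), (A ∩ partS S t j).encard := by
  intro k
  induction k with
  | zero =>
    intro t ht hc _
    have h0 : rel A t m = ∅ := (Set.ncard_eq_zero (hA t m).1).1 hc
    have hx : ∀ j ≤ m, x t j = x 0 j := by
      intro j hj
      apply hD.rest j 0 t le_rfl ht
      intro e he h1 h2
      by_contra h3
      have : e ∈ rel A t m := ⟨he, h1, h2, (show 2 ≤ numPart e j by omega).trans
        (numPart_mono e hj)⟩
      rw [h0] at this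
      exact this
    have hcB : cB (x t) m B = cB (x 0) m B := by
      unfold cB
      congr 1
      ext j
      simp only [mem_ofPred_eq]
      constructor
      · rintro ⟨h1, h2⟩; exact ⟨h1, by rw [← hx j h1]; exact h2⟩
      · rintro ⟨h1, h2⟩; exact ⟨h1, by rw [hx j h1]; exact h2⟩
    rw [hcB]
    exact le_self_add
  | succ k ih =>
    intro t ht hc hB
    obtain ⟨hfin, hdis⟩ := hA t m
    have hne : (rel A t m).Nonempty := by
      rw [← Set.ncard_pos hfin]; omega
    obtain ⟨e, he, hmax⟩ := Set.exists_max_image (rel A t m) (fun e => e.1) hfin hne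
    obtain ⟨s, hs0, hse, hsle, hrel, hx⟩ := before hD hA he hmax
    have hcs : (rel A s m).ncard = k := by
      rw [hrel, Set.ncard_sdiff_singleton_of_mem he, hc]; rfl
    have hst : s ≤ t := hse.le.trans he.2.2.1
    have ih' := ih s hs0 hcs (by
      intro e' he' h1 j hj h2
      have : e' ∈ rel A t m := by rw [hrel] at he'; exact he'.1
      exact hB e' this h1 j hj h2)
    have hstep := step_count hx B
    -- no event after `e`
    have hxe : ∀ j ≤ m, x t j = x e.1 j := by
      intro j hj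
      apply hD.rest j e.1 t (hs0.trans hse.le) he.2.2.1
      intro e' he' h1 h2
      by_contra h3
      have h4 : e' ∈ rel A t m := ⟨he', he.2.1.trans h1, h2, (show 2 ≤ numPart e' j by omega).trans
        (numPart_mono e' hj)⟩
      have := hmax e' h4
      linarith
    have hmono : ∀ j, (A ∩ partS S s j).encard ≤ (A ∩ partS S t j).encard := by
      intro j
      apply Set.encard_le_encard
      rintro e' ⟨h1, h2, h3, h4⟩
      exact ⟨h1, h2, h3.trans hst, h4⟩
    by_cases heS : e ∈ S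
    · have hadd : ∀ j, Part e j → (A ∩ partS S s j).encard + 1 ≤ (A ∩ partS S t j).encard := by
        intro j hj
        have h1 : e ∉ A ∩ partS S s j := by
          rintro ⟨_, _, h2, _⟩; linarith
        rw [← Set.encard_insert_of_notMem h1]
        apply Set.encard_le_encard
        rintro e' (h2 | ⟨h2, h3, h4, h5⟩)
        · subst h2
          exact ⟨he.1, he.2.1, he.2.2.1, heS, hj⟩
        · exact ⟨h2, h3, h4.trans hst, h5⟩
      have hsum : ((({j | j ≤ m ∧ (Part e j ∧ x t j ∈ B)}.ncard : ℕ)) : ℕ∞) +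
          ∑ j ∈ Finset.range (m + 1), (A ∩ partS S s j).encard ≤
          ∑ j ∈ Finset.range (m + 1), (A ∩ partS S t j).encard := by
        classical
        have h1 : {j | j ≤ m ∧ (Part e j ∧ x t j ∈ B)} =
            ((Finset.range (m + 1)).filter fun j => Part e j ∧ x t j ∈ B : Finset ℕ) := by
          ext j
          simp only [mem_ofPred_eq, Finset.coe_filter, Finset.mem_range]
          constructor
          · rintro ⟨h2, h3⟩; exact ⟨by omega, h3⟩
          · rintro ⟨h2, h3⟩; exact ⟨by omega, h3⟩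
        rw [h1, Set.ncard_coe_finset, Finset.card_filter]
        push_cast
        rw [← Finset.sum_add_distrib]
        apply Finset.sum_le_sum
        intro j _
        by_cases h2 : Part e j ∧ x t j ∈ B
        · rw [if_pos h2, add_comm]; exact hadd j h2.1
        · rw [if_neg h2]; simpa using hmono j
      calc (cB (x t) m B : ℕ∞) ≤ ((cB (x s) m B +
            {j | j ≤ m ∧ (Part e j ∧ x t j ∈ B)}.ncard : ℕ) : ℕ∞) := by exact_mod_cast hstep
        _ = (cB (x s) m B : ℕ∞) + ({j | j ≤ m ∧ (Part e j ∧ x t j ∈ B)}.ncard : ℕ) := by push_cast; rfl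
        _ ≤ (cB (x 0) m B + ∑ j ∈ Finset.range (m + 1), (A ∩ partS S s j).encard) +
            ({j | j ≤ m ∧ (Part e j ∧ x t j ∈ B)}.ncard : ℕ) := by gcongr
        _ = cB (x 0) m B + (({j | j ≤ m ∧ (Part e j ∧ x t j ∈ B)}.ncard : ℕ) +
            ∑ j ∈ Finset.range (m + 1), (A ∩ partS S s j).encard) := by ring
        _ ≤ _ := by gcongr
    · have h1 : {j | j ≤ m ∧ (Part e j ∧ x t j ∈ B)} = ∅ := by
        ext j
        simp only [mem_ofPred_eq, mem_empty_iff_false, iff_false]
        rintro ⟨h2, h3, h4⟩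
        rw [hxe j h2] at h4
        exact hB e he heS j h2 h3 h4
      rw [h1, Set.ncard_empty, add_zero] at hstep
      calc (cB (x t) m B : ℕ∞) ≤ cB (x s) m B := by exact_mod_cast hstep
        _ ≤ cB (x 0) m B + ∑ j ∈ Finset.range (m + 1), (A ∩ partS S s j).encard := ih'
        _ ≤ _ := add_le_add le_rfl (Finset.sum_le_sum fun j _ => hmono j)

end Pool.Agent.Helper84.Eve
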