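import Pool.Agent.Helper84.Eve.Choice

open MeasureTheory ProbabilityTheory Set Filter
open scoped ENNReal Topology

namespace Pool.Agent.Helper84.Eve

lemma dust_Lam (v : ℕ → ℝ) (hv0 : ∀ j, 0 < v j) (hv : ∀ j, v j ≤ 1 / 2) :
    ∫⁻ u, ENNReal.ofReal u⁻¹ ∂(Lam v) < ∞ := by
  have hsupp : Lam v (Icc 0 1)ᶜ = 0 := by
    apply Lam_null _ measurableSet_Icc.compl
    · intro k; simp only [mem_compl_iff, not_not]
      exact ⟨(us_pos k).le, by linarith [us_le k]⟩
    · intro k; simp only [mem_compl_iff, not_not]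
      exact ⟨by linarith [hv k], by linarith [hv0 k]⟩
  rw [← m1_eq hsupp]
  exact (m1_Lam v hv0 hv).lt_top

lemma ulogu_Lam (v : ℕ → ℝ) (hv : ∀ j, v j ≤ 1 / 2) :
    ∫⁻ u in Ico 0 1, ENNReal.ofReal (-(u * Real.log u)) ∂(nu (Lam v)) = ∞ := by
  rw [← lintegral_indicator measurableSet_Ico,
    lintegral_nuLam v hv ((by fun_prop : Measurable fun u : ℝ =>
      ENNReal.ofReal (-(u * Real.log u))).indicator measurableSet_Ico)]
  rw [ENNReal.add_eq_top]
  left
  have h1 : ∀ k : ℕ, ENNReal.ofReal (cs k) * (Ico (0 : ℝ) 1).indicator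
      (fun u : ℝ => ENNReal.ofReal (-(u * Real.log u))) (us k) =
      ENNReal.ofReal (Real.log 2 * (1 / ((k + 1 : ℕ) : ℝ))) := by
    intro k
    rw [Set.indicator_of_mem (show us k ∈ Ico (0 : ℝ) 1 from
      ⟨(us_pos k).le, by linarith [us_le k]⟩),
      ← ENNReal.ofReal_mul (cs_pos k).le]
    congr 1
    have h2 : Real.log (us k) = -((k : ℝ) + 1) * Real.log 2 := by
      unfold us
      rw [Real.log_pow, one_div, Real.log_inv]
      push_cast; ring
    have h3 := cs_mul_us k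
    have h4 : cs k * -(us k * Real.log (us k)) = (cs k * us k) * (((k : ℝ) + 1) * Real.log 2) := by
      rw [h2]; ring
    rw [h4, h3]
    push_cast
    field_simp
  simp_rw [h1]
  by_contra hne
  have h2 := ENNReal.summable_toReal hne
  have h3 : Summable (fun k : ℕ => 1 / ((k + 1 : ℕ) : ℝ)) := by
    have h4 := h2.mul_left (Real.log 2)⁻¹
    refine h4.congr fun k => ?_
    have hl : 0 < Real.log 2 := Real.log_pos (by norm_num)
    rw [ENNReal.toReal_ofReal (by positivity)]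
    field_simp
  exact Real.not_summable_one_div_natCast ((summable_nat_add_iff 1).1 h3)

lemma infinite_Lam (v : ℕ → ℝ) (hv : ∀ j, v j ≤ 1 / 2) :
    ∫⁻ u, ENNReal.ofReal (u ^ 2)⁻¹ ∂(Lam v) = ∞ := by
  have h1 : ∫⁻ u, ENNReal.ofReal (u ^ 2)⁻¹ ∂(Lam v) = nu (Lam v) univ := by
    unfold nu
    rw [withDensity_apply _ MeasurableSet.univ, Measure.restrict_univ]
  rw [h1, eq_top_iff, ← ulogu_Lam v hv]
  calc ∫⁻ u in Ico 0 1, ENNReal.ofReal (-(u * Real.log u)) ∂(nu (Lam v))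
      ≤ ∫⁻ u in Ico (0 : ℝ) 1, 1 ∂(nu (Lam v)) := by
        apply lintegral_mono_ae
        filter_upwards [ae_restrict_mem measurableSet_Ico] with u hu
        rw [ENNReal.ofReal_le_one]
        rcases eq_or_lt_of_le hu.1 with h | h
        · rw [← h]; simp
        · have h2 := Real.add_one_le_exp (-1 : ℝ)
          have h3 : Real.log u⁻¹ ≤ u⁻¹ - 1 := Real.log_le_sub_one_of_pos (by positivity)
          rw [Real.log_inv] at h3
          have h4 : u * -Real.log u ≤ u * (u⁻¹ - 1) := mul_le_mul_of_nonneg_left h3 h.le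
          have h5 : u * (u⁻¹ - 1) = 1 - u := by field_simp
          linarith [hu.1]
    _ ≤ nu (Lam v) univ := by
        simp only [lintegral_const, one_mul]
        exact Measure.restrict_apply_le _ _

lemma regime_Lam (v : ℕ → ℝ) (hv0 : ∀ j, 0 < v j) (hv : ∀ j, v j ≤ 1 / 2) :
    DustRegime (Lam v) := by
  have hsupp : Lam v (Icc 0 1)ᶜ = 0 := by
    apply Lam_null _ measurableSet_Icc.compl
    · intro k; simp only [mem_compl_iff, not_not]
      exact ⟨(us_pos k).le, by linarith [us_le k]⟩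
    · intro k; simp only [mem_compl_iff, not_not]
      exact ⟨by linarith [hv k], by linarith [hv0 k]⟩
  have hzero : Lam v {0} = 0 := by
    apply Lam_null _ (measurableSet_singleton 0)
    · intro k h; exact (us_pos k).ne' h
    · intro k h
      have : 1 - v k = 0 := h
      linarith [hv k]
  refine ⟨⟨?_⟩, hsupp, hzero, dust_Lam v hv0 hv, infinite_Lam v hv⟩
  have h1 := dust_Lam v hv0 hv
  refine lt_of_le_of_lt ?_ h1
  rw [← lintegral_one]
  apply lintegral_mono_ae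
  have h2 := (ae_iff (μ := Lam v) (p := fun u => u ∈ Icc (0 : ℝ) 1)).2 hsupp
  have h3 := (ae_iff (μ := Lam v) (p := fun u => u ≠ (0 : ℝ))).2 (by simpa using hzero)
  filter_upwards [h2, h3] with u hu hu0
  rw [ENNReal.one_le_ofReal]
  have hpos : 0 < u := lt_of_le_of_ne hu.1 (Ne.symm hu0)
  exact (one_le_inv₀ hpos).2 hu.2

lemma Lam_one (v : ℕ → ℝ) (hv0 : ∀ j, 0 < v j) : Lam v {1} = 0 := by
  apply Lam_null _ (measurableSet_singleton 1)
  · intro k h
    have : us k = 1 := h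
    linarith [us_le k]
  · intro k h
    have : 1 - v k = 1 := h
    linarith [hv0 k]

/-- the first question is answered in the negative -/
theorem q1_neg : ∃ Λ : Measure ℝ, DustRegime Λ ∧ Λ {1} = 0 ∧
    ∫⁻ u in Ico 0 1, ENNReal.ofReal (-(u * Real.log u)) ∂(nu Λ) = ∞ ∧
    ∀ {Ω : Type} [MeasurableSpace Ω] (P : Measure Ω) [IsProbabilityMeasure P]
      (L : Lookdown P Λ),
      P {ω | ∃ t, 0 ≤ t ∧ ∃ i j, i ≠ j ∧ L.ξ t i ω = L.ξ 0 1 ω ∧ L.ξ t j ω = L.ξ 0 1 ω} < 1 ∧
      ¬ ∀ᵐ ω ∂P, ∀ i, ∃ t, 0 ≤ t ∧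
        ¬ Tendsto (freq (fun j => L.ξ t j ω) (L.ξ 0 i ω)) atTop (𝓝 0) := by
  obtain ⟨gs, hg⟩ := exists_gs
  have hg1 : ∀ j, 1 ≤ gs j := fun j => by have := (hg j).1; omega
  have hv0 := vs_pos hg1
  have hv := vs_le hg1
  have hr := regime_Lam (vs gs) hv0 hv
  refine ⟨Lam (vs gs), hr, Lam_one _ hv0, ulogu_Lam _ hv, ?_⟩
  intro Ω _ P _ L
  have := hr.finite
  have hm := m1_Lam (vs gs) hv0 hv
  exact ⟨criterion L hr.supp hm gs hg1 (const_lt hg), criterion' L hr.supp hm gs hg1 (const_lt hg)⟩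

end Pool.Agent.Helper84.Eve
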