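import Pool.Agent.Helper84.Eve.AtomAe
import Pool.Agent.Helper84.Eve.Regime

open MeasureTheory ProbabilityTheory Set Filter
open scoped ENNReal Topology

namespace Pool.Agent.Helper84.Eve

set_option linter.unusedSectionVars false

variable {Ω : Type*} [MeasurableSpace Ω] {P : Measure Ω} [IsProbabilityMeasure P] {Λ : Measure ℝ}

lemma atom_le_tent {μ : Measure ℝ} [IsProbabilityMeasure μ] {y ε : ℝ} (hε : 0 < ε) :
    (μ {y}).toReal ≤ ∫ z, tent y ε z ∂μ := by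
  have h1 : (μ {y}).toReal = ∫ z, ({y} : Set ℝ).indicator (fun _ => (1 : ℝ)) z ∂μ := by
    rw [integral_indicator (measurableSet_singleton y)]
    simp [measureReal_def]
  rw [h1]
  apply integral_mono_of_nonneg
  · filter_upwards with z
    exact indicator_nonneg (fun _ _ => zero_le_one) z
  · apply Integrable.of_bound (C := 1) (tent_cont y ε).aestronglyMeasurable
    filter_upwards with z
    rw [Real.norm_eq_abs, abs_of_nonneg (tent_nonneg _ _ _)]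
    exact tent_le hε _ _
  · filter_upwards with z
    by_cases h : z = y
    · rw [h, indicator_of_mem (mem_singleton y), tent_self]
    · rw [indicator_of_notMem (by simpa using h)]
      exact tent_nonneg _ _ _

/-- no weak limit has an atom at a type which is never carried by two levels -/
lemma ae_no_positive (hr : DustRegime Λ) (L : Lookdown P Λ) : ∀ᵐ ω ∂P, ∀ i,
    (∀ t, 0 ≤ t → ∀ a b, L.ξ t a ω = L.ξ 0 i ω → L.ξ t b ω = L.ξ 0 i ω → a = b) →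
    ∀ t, 0 ≤ t → ∀ μ, EmpLimit (fun j => L.ξ t j ω) μ → μ {L.ξ 0 i ω} = 0 := by
  filter_upwards [ae_atom hr L] with ω h i hi t ht μ hμ
  have := hμ.1
  have h1 : (μ {L.ξ 0 i ω}).toReal ≤ 0 := by
    apply le_of_forall_pos_le_add
    intro δ hδ
    obtain ⟨ε, hε, h2⟩ := h i hi t δ hδ
    rw [zero_add]
    exact (atom_le_tent hε).trans (h2 t ht le_rfl μ hμ)
  have h2 := le_antisymm h1 ENNReal.toReal_nonneg
  rwa [ENNReal.toReal_eq_zero_iff, or_iff_left (measure_ne_top _ _)] at h2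

/-- the same for a right-continuous version -/
lemma ae_no_positive' (hr : DustRegime Λ) (L : Lookdown P Λ) {ρ : ℝ → Ω → Measure ℝ}
    (hρ : IsFV L ρ) : ∀ᵐ ω ∂P, ∀ i,
    (∀ t, 0 ≤ t → ∀ a b, L.ξ t a ω = L.ξ 0 i ω → L.ξ t b ω = L.ξ 0 i ω → a = b) →
    ∀ t, 0 ≤ t → ρ t ω {L.ξ 0 i ω} = 0 := by
  have hq : ∀ᵐ ω ∂P, ∀ q : ℚ, 0 ≤ (q : ℝ) → EmpLimit (fun i => L.ξ q i ω) (ρ q ω) := by
    rw [ae_all_iff]
    intro q
    by_cases h : 0 ≤ (q : ℝ)
    · filter_upwards [hρ.limit q h] with ω hω _ using hω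
    · filter_upwards with ω h' using absurd h' h
  filter_upwards [ae_atom hr L, hq, hρ.cont] with ω h hq hc i hi t ht
  obtain ⟨hp, hcont⟩ := hc t ht
  have h1 : (ρ t ω {L.ξ 0 i ω}).toReal ≤ 0 := by
    apply le_of_forall_pos_le_add
    intro δ hδ
    obtain ⟨ε, hε, h2⟩ := h i hi (t + 1) δ hδ
    rw [zero_add]
    refine (atom_le_tent hε).trans ?_
    have h3 := hcont (tent (L.ξ 0 i ω) ε) (tent_cont _ _)
      ⟨1, fun z => by rw [abs_of_nonneg (tent_nonneg _ _ _)]; exact tent_le hε _ _⟩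
    have h4 : Tendsto (fun s => ∫ y, tent (L.ξ 0 i ω) ε y ∂(ρ s ω)) (𝓝[>] t)
        (𝓝 (∫ y, tent (L.ξ 0 i ω) ε y ∂(ρ t ω))) :=
      h3.mono_left (nhdsWithin_mono _ Ioi_subset_Ici_self)
    apply le_of_tendsto_of_frequently h4
    rw [frequently_nhdsWithin_iff]
    rw [(nhds_basis_Ioo_pos t).frequently_iff]
    intro η hη
    obtain ⟨q, hq1, hq2⟩ := exists_rat_btwn (show t < min (t + η) (t + 1) by
      apply lt_min <;> linarith)
    have hq3 := lt_min_iff.1 hq2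
    refine ⟨q, ⟨by linarith, hq3.1⟩, ?_, hq1⟩
    exact h2 q (by linarith) hq3.2.le _ (hq q (by linarith))
  have h2 := le_antisymm h1 ENNReal.toReal_nonneg
  rwa [ENNReal.toReal_eq_zero_iff, or_iff_left (measure_ne_top _ _)] at h2

/-- the first question is answered in the negative -/
theorem q1_strong : ∃ Λ : Measure ℝ, DustRegime Λ ∧ Λ {1} = 0 ∧
    ∫⁻ u in Ico 0 1, ENNReal.ofReal (-(u * Real.log u)) ∂(nu Λ) = ∞ ∧
    ∀ (Ω : Type*) [MeasurableSpace Ω] (P : Measure Ω) [IsProbabilityMeasure P]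
      (L : Lookdown P Λ),
      P {ω | ∃ t, 0 ≤ t ∧ ((∃ i j, i ≠ j ∧ L.ξ t i ω = L.ξ 0 1 ω ∧ L.ξ t j ω = L.ξ 0 1 ω) ∨
        ∃ μ, EmpLimit (fun i => L.ξ t i ω) μ ∧ 0 < μ {L.ξ 0 1 ω})} < 1 ∧
      ∀ ρ : ℝ → Ω → Measure ℝ, IsFV L ρ → ¬ ∀ᵐ ω ∂P, ∀ i, ∃ t, 0 ≤ t ∧ 0 < ρ t ω {L.ξ 0 i ω} := by
  obtain ⟨gs, hg⟩ := exists_gs
  have hg1 : ∀ j, 1 ≤ gs j := fun j => by have := (hg j).1; omega
  have hv0 := vs_pos hg1
  have hv := vs_le hg1
  have hr := regime_Lam (vs gs) hv0 hv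
  refine ⟨Lam (vs gs), hr, Lam_one _ hv0, ulogu_Lam _ hv, ?_⟩
  intro Ω _ P _ L
  have := hr.finite
  have hm := m1_Lam (vs gs) hv0 hv
  have hc := criterion L hr.supp hm gs hg1 (const_lt hg)
  set S := {ω | ∃ t, 0 ≤ t ∧ ∃ i j, i ≠ j ∧ L.ξ t i ω = L.ξ 0 1 ω ∧ L.ξ t j ω = L.ξ 0 1 ω} with hS
  have hnS : ∀ ω, ω ∉ S → ∀ t, 0 ≤ t → ∀ a b, L.ξ t a ω = L.ξ 0 1 ω → L.ξ t b ω = L.ξ 0 1 ω →
      a = b := by
    intro ω hω t ht a b ha hb
    by_contra hab
    exact hω ⟨t, ht, a, b, hab, ha, hb⟩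
  constructor
  · refine lt_of_le_of_lt (measure_mono_ae ?_) hc
    filter_upwards [ae_no_positive hr L] with ω hω
    rintro ⟨t, ht, h | ⟨μ, hμ, h2⟩⟩
    · exact ⟨t, ht, h⟩
    · by_contra hn
      have := hω 1 (hnS ω hn) t ht μ hμ
      rw [this] at h2
      exact lt_irrefl _ h2
  · intro ρ hρ hall
    have h3 : ∀ᵐ ω ∂P, ω ∈ S := by
      filter_upwards [hall, ae_no_positive' hr L hρ] with ω h1 h2
      by_contra hn
      obtain ⟨t, ht, h4⟩ := h1 1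
      rw [h2 1 (hnS ω hn) t ht] at h4
      exact lt_irrefl _ h4
    have h4 : P Sᶜ = 0 := h3
    have h5 : P univ ≤ P S + P Sᶜ := by
      rw [← Set.union_compl_self S]; exact measure_union_le _ _
    rw [measure_univ, h4, add_zero] at h5
    exact absurd hc (not_lt.2 h5)

end Pool.Agent.Helper84.Eve
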