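import Pool.Agent.Helper84.Eve.Defs

open MeasureTheory ProbabilityTheory Set Filter
open scoped ENNReal Topology

namespace Pool.Agent.Helper84.Eve

/-- number of elements of `K` up to `i` -/
def cnt (K : Finset ℕ) (i : ℕ) : ℕ := (K.filter (· ≤ i)).card

/-- shift map -/
def low (K : Finset ℕ) (i : ℕ) : ℕ := i - (cnt K i - 1)

/-- ancestral level -/
noncomputable def anc (K : Finset ℕ) (i : ℕ) : ℕ := if i ∈ K then sInf (K : Set ℕ) else low K i

open Classical in
/-- participants among the first `n` levels -/
noncomputable def pat (n : ℕ) (e : Ev) : Finset ℕ := (Finset.range n).filter (Part e)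

lemma mem_pat {n : ℕ} {e : Ev} {i : ℕ} : i ∈ pat n e ↔ i < n ∧ Part e i := by
  simp [pat]

lemma numPart_eq {n : ℕ} {e : Ev} {i : ℕ} (h : i < n) : numPart e i = cnt (pat n e) i := by
  classical
  unfold numPart cnt
  rw [← Set.ncard_coe_finset]
  congr 1
  ext j
  simp only [Set.mem_setOf_eq, Finset.coe_filter, mem_pat]
  constructor
  · rintro ⟨h1, h2⟩
    exact ⟨⟨by omega, h2⟩, h1⟩
  · rintro ⟨⟨_, h2⟩, h1⟩
    exact ⟨h1, h2⟩

lemma origin_eq {n : ℕ} {e : Ev} {i : ℕ} (h : i < n) : origin e i = anc (pat n e) i := by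
  classical
  unfold origin anc low
  rw [← numPart_eq h]
  by_cases hi : Part e i
  · rw [if_pos hi, if_pos (mem_pat.2 ⟨h, hi⟩)]
    have hne : {j | Part e j}.Nonempty := ⟨i, hi⟩
    have hne' : ((pat n e : Finset ℕ) : Set ℕ).Nonempty := ⟨i, by simpa using mem_pat.2 ⟨h, hi⟩⟩
    apply le_antisymm
    · apply Nat.sInf_le
      have := Nat.sInf_mem hne'
      exact (mem_pat.1 (by simpa using this)).2
    · apply Nat.sInf_le
      have h1 := Nat.sInf_mem hne
      have h2 : sInf {j | Part e j} ≤ i := Nat.sInf_le hi
      simpa using mem_pat.2 ⟨by omega, h1⟩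
  · rw [if_neg hi, if_neg]
    intro hh
    exact hi (mem_pat.1 hh).2

lemma cnt_le (K : Finset ℕ) (i : ℕ) : cnt K i ≤ i + 1 := by
  unfold cnt
  calc (K.filter (· ≤ i)).card ≤ (Finset.range (i + 1)).card := by
        apply Finset.card_le_card
        intro j hj
        simp at hj ⊢
        omega
    _ = i + 1 := by simp

lemma cnt_mono (K : Finset ℕ) {i j : ℕ} (h : i ≤ j) : cnt K i ≤ cnt K j := by
  unfold cnt
  apply Finset.card_le_card
  intro k hk
  simp at hk ⊢
  exact ⟨hk.1, by omega⟩

lemma cnt_succ (K : Finset ℕ) (i : ℕ) : cnt K (i + 1) = cnt K i + if i + 1 ∈ K then 1 else 0 := by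
  unfold cnt
  split_ifs with h
  · have : K.filter (· ≤ i + 1) = insert (i + 1) (K.filter (· ≤ i)) := by
      ext j
      simp only [Finset.mem_filter, Finset.mem_insert]
      constructor
      · rintro ⟨h1, h2⟩
        rcases Nat.lt_or_ge j (i + 1) with h3 | h3
        · right; exact ⟨h1, by omega⟩
        · left; omega
      · rintro (h1 | ⟨h1, h2⟩)
        · subst h1; exact ⟨h, le_rfl⟩
        · exact ⟨h1, by omega⟩
    rw [this, Finset.card_insert_of_notMem]
    simp
  · have : K.filter (· ≤ i + 1) = K.filter (· ≤ i) := by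
      ext j
      simp only [Finset.mem_filter]
      constructor
      · rintro ⟨h1, h2⟩
        refine ⟨h1, ?_⟩
        rcases Nat.lt_or_ge j (i + 1) with h3 | h3
        · omega
        · exfalso
          have : j = i + 1 := by omega
          subst this
          exact h h1
      · rintro ⟨h1, h2⟩
        exact ⟨h1, by omega⟩
    rw [this]; simp

lemma cnt_add_le (K : Finset ℕ) (i d : ℕ) : cnt K (i + d) ≤ cnt K i + d := by
  induction d with
  | zero => simp
  | succ d ih =>
    rw [← add_assoc, cnt_succ]
    split_ifs <;> omega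

lemma low_le (K : Finset ℕ) (i : ℕ) : low K i ≤ i := by unfold low; omega

lemma low_succ_le (K : Finset ℕ) (i : ℕ) : low K (i + 1) ≤ low K i + 1 := by
  unfold low
  rw [cnt_succ]
  have := cnt_le K i
  split_ifs <;> omega

lemma low_le_succ (K : Finset ℕ) (i : ℕ) : low K i ≤ low K (i + 1) := by
  unfold low
  rw [cnt_succ]
  have := cnt_le K i
  split_ifs <;> omega

lemma low_mono (K : Finset ℕ) : Monotone (low K) := monotone_nat_of_le_succ (low_le_succ K)

lemma low_zero (K : Finset ℕ) : low K 0 = 0 := by simp [low]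

lemma low_unbounded (K : Finset ℕ) (a : ℕ) : ∃ i, a ≤ low K i := by
  refine ⟨a + K.card, ?_⟩
  unfold low
  have : cnt K (a + K.card) ≤ K.card := Finset.card_filter_le _ _
  omega

lemma anc_le (K : Finset ℕ) (i : ℕ) : anc K i ≤ i := by
  unfold anc
  split_ifs with h
  · exact Nat.sInf_le (by simpa using h)
  · exact low_le K i

/-- position after the event of the individual at `a` -/
noncomputable def pos (K : Finset ℕ) (a : ℕ) : ℕ := sInf {i | a ≤ low K i}

lemma le_low_pos (K : Finset ℕ) (a : ℕ) : a ≤ low K (pos K a) := Nat.sInf_mem (low_unbounded K a)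

lemma pos_le_iff {K : Finset ℕ} {a i : ℕ} : pos K a ≤ i ↔ a ≤ low K i :=
  ⟨fun h => (le_low_pos K a).trans (low_mono K h), fun h => Nat.sInf_le h⟩

lemma lt_pos_iff {K : Finset ℕ} {a i : ℕ} : i < pos K a ↔ low K i < a := by
  rw [← not_le, pos_le_iff, not_le]

lemma low_pos (K : Finset ℕ) (a : ℕ) : low K (pos K a) = a := by
  apply le_antisymm _ (le_low_pos K a)
  rcases Nat.eq_zero_or_pos (pos K a) with h | h
  · rw [h, low_zero]; exact Nat.zero_le _
  · obtain ⟨j, hj⟩ : ∃ j, pos K a = j + 1 := ⟨pos K a - 1, by omega⟩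
    have h1 : low K j < a := lt_pos_iff.1 (by omega)
    have h2 := low_succ_le K j
    rw [hj]; omega

lemma le_pos (K : Finset ℕ) (a : ℕ) : a ≤ pos K a := by
  have h1 := low_pos K a
  have h2 := low_le K (pos K a)
  omega

lemma pos_lt_pos (K : Finset ℕ) {a b : ℕ} (h : a < b) : pos K a < pos K b := by
  rw [lt_pos_iff, low_pos]; exact h

lemma pos_mono (K : Finset ℕ) : Monotone (pos K) := by
  intro a b h
  rcases h.lt_or_eq with h | h
  · exact (pos_lt_pos K h).le
  · rw [h]

/-- key characterization: unless `a` is the parent, the level `pos K a` is the only one with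
ancestor `a`. -/
lemma anc_eq_iff {K : Finset ℕ} {a : ℕ} (ha : ¬ IsLeast (K : Set ℕ) a) (i : ℕ) :
    anc K i = a ↔ i = pos K a := by
  constructor
  · intro h
    have hiK : i ∉ K := by
      intro hi
      apply ha
      unfold anc at h
      rw [if_pos hi] at h
      rw [← h]
      have hne : (K : Set ℕ).Nonempty := ⟨i, by simpa using hi⟩
      exact ⟨Nat.sInf_mem hne, fun j hj => Nat.sInf_le hj⟩
    unfold anc at h
    rw [if_neg hiK] at h
    apply le_antisymm _ (pos_le_iff.2 h.ge)
    rcases Nat.eq_zero_or_pos i with hi | hi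
    · subst hi; exact Nat.zero_le _
    · obtain ⟨j, rfl⟩ : ∃ j, i = j + 1 := ⟨i - 1, by omega⟩
      have : low K j < a := by
        unfold low at h ⊢
        rw [cnt_succ, if_neg hiK] at h
        have := cnt_le K j
        omega
      have := lt_pos_iff.2 this
      omega
  · intro h
    have hl : low K i = a := by rw [h, low_pos]
    have hiK : i ∉ K := by
      intro hi
      have hne : (K : Set ℕ).Nonempty := ⟨i, by simpa using hi⟩
      have hmin : IsLeast (K : Set ℕ) (sInf (K : Set ℕ)) :=
        ⟨Nat.sInf_mem hne, fun j hj => Nat.sInf_le hj⟩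
      set m := sInf (K : Set ℕ) with hm
      have hmi : m ≤ i := hmin.2 (by simpa using hi)
      rcases hmi.lt_or_eq with h1 | h1
      · -- cnt K i ≥ 2
        obtain ⟨j, rfl⟩ : ∃ j, i = j + 1 := ⟨i - 1, by omega⟩
        have h2 : 1 ≤ cnt K j := by
          unfold cnt
          apply Finset.card_pos.2
          exact ⟨m, by simp only [Finset.mem_filter]; exact ⟨by simpa using hmin.1, by omega⟩⟩
        have h3 : low K j < a := lt_pos_iff.1 (by omega)
        unfold low at h3 hl
        rw [cnt_succ, if_pos hi] at hl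
        have := cnt_le K j
        omega
      · apply ha
        have h4 : cnt K i ≤ 1 := by
          unfold cnt
          apply Finset.card_le_one.2
          intro x hx y hy
          simp only [Finset.mem_filter] at hx hy
          have hx1 := hmin.2 (show x ∈ (K : Set ℕ) by simpa using hx.1)
          have hy1 := hmin.2 (show y ∈ (K : Set ℕ) by simpa using hy.1)
          omega
        have h5 : low K i = i := by unfold low; omega
        have : a = m := by omega
        rw [this]; exact hmin
    unfold anc
    rw [if_neg hiK, hl]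

lemma low_eq_zero {K : Finset ℕ} {g : ℕ} (h : ∀ j < g, j ∈ K) {i : ℕ} (hi : i < g) :
    low K i = 0 := by
  have : cnt K i = i + 1 := by
    apply le_antisymm (cnt_le K i)
    unfold cnt
    calc i + 1 = (Finset.range (i + 1)).card := by simp
      _ ≤ _ := by
        apply Finset.card_le_card
        intro j hj
        simp at hj ⊢
        exact ⟨h j (by omega), by omega⟩
  unfold low; omega

lemma le_pos_of_full {K : Finset ℕ} {g : ℕ} (h : ∀ j < g, j ∈ K) {a : ℕ} (ha : 1 ≤ a) :
    g ≤ pos K a := by
  by_contra hc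
  push Not at hc
  have h1 := low_pos K a
  rw [low_eq_zero h hc] at h1
  omega

lemma anc_of_cnt_le {K : Finset ℕ} {i : ℕ} (h : cnt K i ≤ 1) : anc K i = i := by
  unfold anc
  split_ifs with hi
  · have hne : (K : Set ℕ).Nonempty := ⟨i, by simpa using hi⟩
    have h1 := Nat.sInf_mem hne
    have h2 : sInf (K : Set ℕ) ≤ i := Nat.sInf_le (by simpa using hi)
    unfold cnt at h
    rw [Finset.card_le_one] at h
    apply h
    · simp only [Finset.mem_filter]; exact ⟨by simpa using h1, h2⟩
    · simp only [Finset.mem_filter]; exact ⟨hi, le_rfl⟩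
  · unfold low; omega

/-- types after a list of events (first event first) -/
noncomputable def evol : List (Finset ℕ) → (ℕ → ℝ) → (ℕ → ℝ)
  | [], X => X
  | κ :: l, X => evol l (fun i => X (anc κ i))

/-- position after a list of events -/
noncomputable def posl : List (Finset ℕ) → ℕ → ℕ
  | [], a => a
  | κ :: l, a => posl l (pos κ a)

end Pool.Agent.Helper84.Eve
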