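import Pool.Agent.Helper84.Eve.Mean

open MeasureTheory ProbabilityTheory Set Filter
open scoped ENNReal Topology

namespace Pool.Agent.Helper84.Eve

set_option linter.unusedSectionVars false

open Classical in
/-- control quantity -/
noncomputable def ZZ (A : Set Ev) (x0 : ℕ → ℝ) (y T : ℝ) (k l m : ℕ) : ℝ≥0∞ :=
  (∑ j ∈ Finset.range (m + 1),
      (((A ∩ partS {e | e.2.1 ≤ 1 / ((k : ℝ) + 1)} T j).encard : ℕ∞) : ℝ≥0∞) +
    ∑ j ∈ Finset.range (m + 1), if |x0 j - y| < 1 / ((l : ℝ) + 1) then (1 : ℝ≥0∞) else 0) /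
    ((m : ℝ≥0∞) + 1)

lemma parent_sep {A : Set Ev} {x : ℝ → ℕ → ℝ} (hD : DynOK A x) (hA : GoodA A) {y : ℝ}
    (hG : ∀ t, 0 ≤ t → ∀ i j, x t i = y → x t j = y → i = j) {e : Ev} (he : e ∈ A)
    (he0 : 0 < e.1) : ∃ ε > 0, ∀ m j, j ≤ m → Part e j → 2 ≤ numPart e m → ε ≤ |x e.1 j - y| := by
  classical
  by_cases h : ∃ m0, 2 ≤ numPart e m0
  · obtain ⟨m0, hm0⟩ := h
    have key : ∀ m j, m0 ≤ m → j ≤ m → Part e j → x e.1 j = x e.1 (sInf {j | Part e j}) := by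
      intro m j hm hj hp
      have hrel : e ∈ rel A e.1 m := ⟨he, he0, le_rfl, hm0.trans (numPart_mono e hm)⟩
      obtain ⟨s, _, _, _, _, hx⟩ := before hD hA hrel (fun e' he' => he'.2.2.1)
      have hne : {j | Part e j}.Nonempty := ⟨j, hp⟩
      have h1 : Part e (sInf {j | Part e j}) := Nat.sInf_mem hne
      have h2 : sInf {j | Part e j} ≤ j := Nat.sInf_le hp
      rw [hx j hj, hx _ (h2.trans hj)]
      unfold origin
      rw [if_pos hp, if_pos h1]
    have hne : ∃ a b, a ≠ b ∧ a ≤ m0 ∧ b ≤ m0 ∧ Part e a ∧ Part e b := by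
      have h1 : 1 < {j | j ≤ m0 ∧ Part e j}.ncard := by
        have : numPart e m0 = {j | j ≤ m0 ∧ Part e j}.ncard := rfl
        omega
      rw [Set.one_lt_ncard (fin_le _ _)] at h1
      obtain ⟨a, ha, b, hb, hab⟩ := h1
      exact ⟨a, b, hab, ha.1, hb.1, ha.2, hb.2⟩
    obtain ⟨a, b, hab, ha, hb, hpa, hpb⟩ := hne
    have hz : x e.1 (sInf {j | Part e j}) ≠ y := by
      intro hy
      apply hab
      apply hG e.1 he0.le
      · rw [key m0 a le_rfl ha hpa]; exact hy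
      · rw [key m0 b le_rfl hb hpb]; exact hy
    refine ⟨|x e.1 (sInf {j | Part e j}) - y|, abs_pos.2 (sub_ne_zero.2 hz), ?_⟩
    intro m j hj hp _
    rw [key (max m m0) j (le_max_right _ _) (hj.trans (le_max_left _ _)) hp]
  · push Not at h
    exact ⟨1, one_pos, fun m j _ _ h2 => absurd h2 (by have := h m; omega)⟩

lemma cB_eq (x : ℕ → ℝ) (m : ℕ) (y ε : ℝ) : (cB x m (Ioo (y - ε) (y + ε)) : ℝ≥0∞) =
    ∑ j ∈ Finset.range (m + 1), open Classical in if |x j - y| < ε then (1 : ℝ≥0∞) else 0 := by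
  classical
  have h1 : {j | j ≤ m ∧ x j ∈ Ioo (y - ε) (y + ε)} =
      ((Finset.range (m + 1)).filter fun j => |x j - y| < ε : Finset ℕ) := by
    ext j
    simp only [mem_ofPred_eq, Finset.coe_filter, Finset.mem_range, mem_Ioo, abs_lt]
    constructor
    · rintro ⟨h1, h2, h3⟩; exact ⟨by omega, by linarith, by linarith⟩
    · rintro ⟨h1, h2, h3⟩; exact ⟨by omega, by linarith, by linarith⟩
  unfold cB
  rw [h1, Set.ncard_coe_finset, Finset.card_filter]
  push_cast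
  rfl

lemma tent_sum_le (x : ℕ → ℝ) (m : ℕ) (y : ℝ) {ε : ℝ} (hε : 0 < ε) :
    ∑ i ∈ Finset.range (m + 1), tent y ε (x i) ≤ cB x m (Ioo (y - ε) (y + ε)) := by
  classical
  have h1 : {j | j ≤ m ∧ x j ∈ Ioo (y - ε) (y + ε)} =
      ((Finset.range (m + 1)).filter fun j => x j ∈ Ioo (y - ε) (y + ε) : Finset ℕ) := by
    ext j
    simp only [mem_ofPred_eq, Finset.coe_filter, Finset.mem_range]
    constructor
    · rintro ⟨h1, h2⟩; exact ⟨by omega, h2⟩
    · rintro ⟨h1, h2⟩; exact ⟨by omega, h2⟩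
  unfold cB
  rw [h1, Set.ncard_coe_finset, Finset.card_filter]
  push_cast
  apply Finset.sum_le_sum
  intro i _
  split_ifs with h
  · exact tent_le hε _ _
  · rw [tent_zero hε h]

/-- deterministic core: the empirical mass near `y` is uniformly small -/
lemma atom_core {A : Set Ev} {x : ℝ → ℕ → ℝ} (hD : DynOK A x) (hA : GoodA A) {y T : ℝ}
    (hG : ∀ t, 0 ≤ t → ∀ i j, x t i = y → x t j = y → i = j)
    (hbig : ∀ k : ℕ, (A ∩ {e : Ev | e.1 ≤ T ∧ 1 / ((k : ℝ) + 1) < e.2.1}).Finite)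
    (hZ : liminf (fun k => liminf (fun l => liminf (fun m => ZZ A (x 0) y T k l m) atTop) atTop)
      atTop = 0) {δ : ℝ} (hδ : 0 < δ) :
    ∃ ε > 0, ∀ t, 0 ≤ t → t ≤ T → ∀ μ, EmpLimit (x t) μ → ∫ z, tent y ε z ∂μ ≤ δ := by
  classical
  have hδ' : (0 : ℝ≥0∞) < ENNReal.ofReal δ := ENNReal.ofReal_pos.2 hδ
  obtain ⟨k, hk⟩ := (frequently_lt_of_liminf_lt (by isBoundedDefault)
    (show liminf (fun k => liminf (fun l => liminf (fun m => ZZ A (x 0) y T k l m) atTop) atTop)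
      atTop < ENNReal.ofReal δ by rw [hZ]; exact hδ')).exists
  have hl := frequently_lt_of_liminf_lt (by isBoundedDefault) hk
  have hsep : ∀ᶠ l : ℕ in atTop, ∀ e ∈ A ∩ {e : Ev | e.1 ≤ T ∧ 1 / ((k : ℝ) + 1) < e.2.1},
      0 < e.1 → ∀ m j, j ≤ m → Part e j → 2 ≤ numPart e m → 1 / ((l : ℝ) + 1) ≤ |x e.1 j - y| := by
    rw [Filter.eventually_all_finite (hbig k)]
    intro e he
    by_cases he0 : 0 < e.1
    · obtain ⟨ε, hε, h⟩ := parent_sep hD hA hG he.1 he0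
      filter_upwards [tendsto_one_div_add_atTop_nhds_zero_nat.eventually (gt_mem_nhds hε)] with l hl
        _ m j hj hp hn
      exact hl.le.trans (h m j hj hp hn)
    · filter_upwards with l h; exact absurd h he0
  obtain ⟨l, hl1, hl2⟩ := (hl.and_eventually hsep).exists
  have hm := frequently_lt_of_liminf_lt (by isBoundedDefault) hl1
  set ε : ℝ := 1 / ((l : ℝ) + 1) with hε
  have hε0 : 0 < ε := by positivity
  refine ⟨ε, hε0, ?_⟩
  intro t ht0 htT μ hμ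
  have hdom : ∀ m, (cB (x t) m (Ioo (y - ε) (y + ε)) : ℝ≥0∞) / ((m : ℝ≥0∞) + 1) ≤
      ZZ A (x 0) y T k l m := by
    intro m
    have h1 := dom hD hA m (Ioo (y - ε) (y + ε)) {e | e.2.1 ≤ 1 / ((k : ℝ) + 1)} _ t ht0 rfl (by
      intro e he heS j hj hp hB
      simp only [mem_ofPred_eq, not_le] at heS
      have h2 := hl2 e ⟨he.1, he.2.2.1.trans htT, heS⟩ he.2.1 m j hj hp he.2.2.2
      have h3 : |x e.1 j - y| < ε := by
        rw [abs_lt]; constructor <;> linarith [hB.1, hB.2]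
      linarith)
    have h2 : ((cB (x t) m (Ioo (y - ε) (y + ε)) : ℕ∞) : ℝ≥0∞) ≤
        (((cB (x 0) m (Ioo (y - ε) (y + ε)) : ℕ∞) + ∑ j ∈ Finset.range (m + 1),
          (A ∩ partS {e | e.2.1 ≤ 1 / ((k : ℝ) + 1)} t j).encard : ℕ∞) : ℝ≥0∞) := by
      exact_mod_cast h1
    unfold ZZ
    gcongr
    have h3 : ((cB (x t) m (Ioo (y - ε) (y + ε)) : ℕ∞) : ℝ≥0∞) =
      (cB (x t) m (Ioo (y - ε) (y + ε)) : ℝ≥0∞) := rfl
    rw [← h3]
    refine h2.trans ?_
    push_cast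
    have h4 := cB_eq (x 0) m y ε
    rw [add_comm]
    refine add_le_add ?_ (le_of_eq ?_)
    · have hsum : ((∑ j ∈ Finset.range (m + 1),
          (A ∩ partS {e | e.2.1 ≤ 1 / ((k : ℝ) + 1)} t j).encard : ℕ∞) : ℝ≥0∞) =
          ∑ j ∈ Finset.range (m + 1),
          (((A ∩ partS {e | e.2.1 ≤ 1 / ((k : ℝ) + 1)} t j).encard : ℕ∞) : ℝ≥0∞) :=
        map_sum ENat.toENNRealRingHom _ _
      rw [hsum]
      apply Finset.sum_le_sum
      intro j _
      have : (A ∩ partS {e | e.2.1 ≤ 1 / ((k : ℝ) + 1)} t j).encard ≤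
          (A ∩ partS {e | e.2.1 ≤ 1 / ((k : ℝ) + 1)} T j).encard := by
        apply Set.encard_le_encard
        rintro e' ⟨h1, h2, h3, h4⟩
        exact ⟨h1, h2, h3.trans htT, h4⟩
      exact_mod_cast this
    · rw [h4]
  have hlim := (hμ.2 (tent y ε) (tent_cont y ε)
    ⟨1, fun z => by rw [abs_of_nonneg (tent_nonneg _ _ _)]; exact tent_le hε0 _ _⟩).comp
    (tendsto_add_atTop_nat 1)
  apply le_of_tendsto_of_frequently hlim
  refine hm.mono fun m hm => ?_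
  simp only [Function.comp_apply]
  have h1 := tent_sum_le (x t) m y hε0
  have h2 := (hdom m).trans hm.le
  have h3 : ENNReal.ofReal ((cB (x t) m (Ioo (y - ε) (y + ε)) : ℝ) / ((m + 1 : ℕ) : ℝ)) ≤
      ENNReal.ofReal δ := by
    refine le_trans (le_of_eq ?_) h2
    rw [ENNReal.ofReal_div_of_pos (by positivity), ENNReal.ofReal_natCast, ENNReal.ofReal_natCast]
    push_cast
    rfl
  rw [ENNReal.ofReal_le_ofReal_iff hδ.le] at h3
  refine le_trans ?_ h3
  gcongr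

end Pool.Agent.Helper84.Eve
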