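import Pool.Agent.Helper84.Eve.Atom

open MeasureTheory ProbabilityTheory Set Filter
open scoped ENNReal Topology

namespace Pool.Agent.Helper84.Eve

set_option linter.unusedSectionVars false

variable {Ω : Type*} [MeasurableSpace Ω] {P : Measure Ω} [IsProbabilityMeasure P] {Λ : Measure ℝ}

lemma near_prob (L : Lookdown P Λ) {i j : ℕ} (hij : i ≠ j) {ε : ℝ} :
    P {ω | |L.ξ 0 j ω - L.ξ 0 i ω| < ε} ≤ ENNReal.ofReal (2 * ε) := by
  have h1 : IndepFun (L.ξ 0 i) (L.ξ 0 j) P := L.indep_init.indepFun hij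
  rw [indepFun_iff_map_prod_eq_prod_map_map (L.measurable_init i).aemeasurable
    (L.measurable_init j).aemeasurable, L.law_init, L.law_init] at h1
  have h2 : MeasurableSet {p : ℝ × ℝ | |p.2 - p.1| < ε} :=
    measurableSet_lt (f := fun p : ℝ × ℝ => |p.2 - p.1|) (g := fun _ => ε) (by fun_prop)
      (by fun_prop)
  have h3 : (unif.prod unif) {p : ℝ × ℝ | |p.2 - p.1| < ε} ≤ ENNReal.ofReal (2 * ε) := by
    rw [Measure.prod_apply h2]
    calc ∫⁻ x, unif (Prod.mk x ⁻¹' {p : ℝ × ℝ | |p.2 - p.1| < ε}) ∂unif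
        ≤ ∫⁻ _, ENNReal.ofReal (2 * ε) ∂unif := by
          apply lintegral_mono
          intro x
          have : Prod.mk x ⁻¹' {p : ℝ × ℝ | |p.2 - p.1| < ε} = Ioo (x - ε) (x + ε) := by
            ext y
            simp only [mem_preimage, mem_ofPred_eq, mem_Ioo, abs_lt]
            constructor
            · rintro ⟨a, b⟩; constructor <;> linarith
            · rintro ⟨a, b⟩; constructor <;> linarith
          simp only [this]
          unfold unif
          refine (Measure.restrict_le_self _).trans ?_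
          rw [Real.volume_Ioo]
          apply ENNReal.ofReal_le_ofReal
          linarith
      _ = _ := by simp
  rw [← h1, Measure.map_apply ((L.measurable_init i).prodMk (L.measurable_init j)) h2] at h3
  exact h3

lemma near_meas (L : Lookdown P Λ) (i j : ℕ) (ε : ℝ) :
    MeasurableSet {ω | |L.ξ 0 j ω - L.ξ 0 i ω| < ε} := by
  have h1 := L.measurable_init i
  have h2 := L.measurable_init j
  exact measurableSet_lt (f := fun ω => |L.ξ 0 j ω - L.ξ 0 i ω|) (g := fun _ => ε)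
    (by fun_prop) (by fun_prop)

lemma count_meas (L : Lookdown P Λ) {A : Set Ev} (hA : MeasurableSet A) :
    Measurable fun ω => (((L.N ω ∩ A).encard : ℕ∞) : ℝ≥0∞) :=
  (Measurable.of_discrete (f := fun k : ℕ∞ => (k : ℝ≥0∞))).comp (L.poisson.measurable_count A hA)

lemma ZZ_meas (L : Lookdown P Λ) (i : ℕ) (T : ℝ) (k l m : ℕ) :
    Measurable fun ω => ZZ (L.N ω) (fun j => L.ξ 0 j ω) (L.ξ 0 i ω) T k l m := by
  classical
  unfold ZZ
  apply Measurable.div_const
  apply Measurable.add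
  · apply Finset.measurable_fun_sum
    intro j _
    exact count_meas L (measurableSet_small _ _ _)
  · apply Finset.measurable_fun_sum
    intro j _
    exact Measurable.ite (near_meas L i j _) measurable_const measurable_const

lemma ZZ_mean [SFinite Λ] (L : Lookdown P Λ) (hs : Λ (Icc 0 1)ᶜ = 0) (h1 : m1 Λ ≠ ∞) (i : ℕ)
    {T : ℝ} (hT : 0 ≤ T) (k l m : ℕ) :
    ∫⁻ ω, ZZ (L.N ω) (fun j => L.ξ 0 j ω) (L.ξ 0 i ω) T k l m ∂P ≤
      ENNReal.ofReal T * (∫⁻ u in Iic (1 / ((k : ℝ) + 1)), ENNReal.ofReal u ∂(nu Λ)) +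
      ENNReal.ofReal (2 * (1 / ((l : ℝ) + 1))) + ((m : ℝ≥0∞) + 1)⁻¹ := by
  classical
  set κ := ∫⁻ u in Iic (1 / ((k : ℝ) + 1)), ENNReal.ofReal u ∂(nu Λ) with hκ
  have hκ' : κ ≠ ∞ := ne_top_of_le_ne_top h1 (setLIntegral_le_lintegral _ _)
  have hm0 : (m : ℝ≥0∞) + 1 ≠ 0 := by simp
  have hmt : (m : ℝ≥0∞) + 1 ≠ ∞ := by simp
  have hA : ∀ j, ∫⁻ ω, (((L.N ω ∩ partS {e | e.2.1 ≤ 1 / ((k : ℝ) + 1)} T j).encard : ℕ∞) : ℝ≥0∞)
      ∂P = ENNReal.ofReal T * κ := by
    intro j
    have h2 := intensity_small (Λ := Λ) hs (1 / ((k : ℝ) + 1)) hT j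
    rw [L.poisson.mean_count (measurableSet_small _ _ _), h2]
    rw [h2]
    exact ENNReal.mul_ne_top ENNReal.ofReal_ne_top hκ'
  have hB : ∀ j, ∫⁻ ω, (if |L.ξ 0 j ω - L.ξ 0 i ω| < 1 / ((l : ℝ) + 1) then (1 : ℝ≥0∞) else 0) ∂P ≤
      ENNReal.ofReal (2 * (1 / ((l : ℝ) + 1))) + if j = i then 1 else 0 := by
    intro j
    have h2 : (fun ω => if |L.ξ 0 j ω - L.ξ 0 i ω| < 1 / ((l : ℝ) + 1) then (1 : ℝ≥0∞) else 0) =
        {ω | |L.ξ 0 j ω - L.ξ 0 i ω| < 1 / ((l : ℝ) + 1)}.indicator 1 := by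
      funext ω
      simp only [indicator, mem_ofPred_eq, Pi.one_apply]
    rw [h2, lintegral_indicator_one (near_meas L i j _)]
    split_ifs with h
    · exact prob_le_one.trans le_add_self
    · rw [add_zero]
      exact near_prob L (fun h' => h h'.symm)
  calc ∫⁻ ω, ZZ (L.N ω) (fun j => L.ξ 0 j ω) (L.ξ 0 i ω) T k l m ∂P
      = (∑ j ∈ Finset.range (m + 1), ENNReal.ofReal T * κ + ∑ j ∈ Finset.range (m + 1),
        ∫⁻ ω, (if |L.ξ 0 j ω - L.ξ 0 i ω| < 1 / ((l : ℝ) + 1) then (1 : ℝ≥0∞) else 0) ∂P) /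
        ((m : ℝ≥0∞) + 1) := by
        unfold ZZ
        simp only [ENNReal.div_eq_inv_mul]
        rw [lintegral_const_mul]
        · congr 1
          rw [lintegral_add_left]
          · rw [lintegral_finsetSum, lintegral_finsetSum]
            · congr 1
              apply Finset.sum_congr rfl
              intro j _
              exact hA j
            · intro j _
              exact Measurable.ite (near_meas L i j _) measurable_const measurable_const
            · intro j _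
              exact count_meas L (measurableSet_small _ _ _)
          · apply Finset.measurable_fun_sum
            intro j _
            exact count_meas L (measurableSet_small _ _ _)
        · apply Measurable.add
          · apply Finset.measurable_fun_sum
            intro j _
            exact count_meas L (measurableSet_small _ _ _)
          · apply Finset.measurable_fun_sum
            intro j _
            exact Measurable.ite (near_meas L i j _) measurable_const measurable_const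
    _ ≤ (∑ j ∈ Finset.range (m + 1), ENNReal.ofReal T * κ + ∑ j ∈ Finset.range (m + 1),
        (ENNReal.ofReal (2 * (1 / ((l : ℝ) + 1))) + if j = i then 1 else 0)) /
        ((m : ℝ≥0∞) + 1) := by
        gcongr with j _
        exact hB j
    _ ≤ (((m : ℝ≥0∞) + 1) * (ENNReal.ofReal T * κ) +
        (((m : ℝ≥0∞) + 1) * ENNReal.ofReal (2 * (1 / ((l : ℝ) + 1))) + 1)) /
        ((m : ℝ≥0∞) + 1) := by
        rw [Finset.sum_add_distrib]
        simp only [Finset.sum_const, Finset.card_range, nsmul_eq_mul, Nat.cast_add, Nat.cast_one]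
        gcongr
        rw [Finset.sum_ite_eq']
        split_ifs <;> simp
    _ = _ := by
        rw [ENNReal.add_div, ENNReal.add_div, mul_comm, ENNReal.mul_div_cancel_right hm0 hmt,
          mul_comm ((m : ℝ≥0∞) + 1), ENNReal.mul_div_cancel_right hm0 hmt,
          one_div ((m : ℝ≥0∞) + 1), add_assoc]

lemma ae_ZZ [SFinite Λ] (L : Lookdown P Λ) (hs : Λ (Icc 0 1)ᶜ = 0) (h1 : m1 Λ ≠ ∞) (i : ℕ)
    {T : ℝ} (hT : 0 ≤ T) : ∀ᵐ ω ∂P,
    liminf (fun k => liminf (fun l => liminf (fun m =>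
      ZZ (L.N ω) (fun j => L.ξ 0 j ω) (L.ξ 0 i ω) T k l m) atTop) atTop) atTop = 0 := by
  have hme := ZZ_meas L i T
  have hm1 : ∀ k l, Measurable fun ω => liminf (fun m =>
      ZZ (L.N ω) (fun j => L.ξ 0 j ω) (L.ξ 0 i ω) T k l m) atTop :=
    fun k l => Measurable.liminf fun m => hme k l m
  have hm2 : ∀ k, Measurable fun ω => liminf (fun l => liminf (fun m =>
      ZZ (L.N ω) (fun j => L.ξ 0 j ω) (L.ξ 0 i ω) T k l m) atTop) atTop :=
    fun k => Measurable.liminf fun l => hm1 k l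
  have hm3 : Measurable fun ω => liminf (fun k => liminf (fun l => liminf (fun m =>
      ZZ (L.N ω) (fun j => L.ξ 0 j ω) (L.ξ 0 i ω) T k l m) atTop) atTop) atTop :=
    Measurable.liminf fun k => hm2 k
  set κ : ℕ → ℝ≥0∞ := fun k => ∫⁻ u in Iic (1 / ((k : ℝ) + 1)), ENNReal.ofReal u ∂(nu Λ) with hκ
  have b1 : ∀ k l, ∫⁻ ω, liminf (fun m =>
      ZZ (L.N ω) (fun j => L.ξ 0 j ω) (L.ξ 0 i ω) T k l m) atTop ∂P ≤
      ENNReal.ofReal T * κ k + ENNReal.ofReal (2 * (1 / ((l : ℝ) + 1))) := by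
    intro k l
    have hlim : Tendsto (fun m : ℕ => ENNReal.ofReal T * κ k +
        ENNReal.ofReal (2 * (1 / ((l : ℝ) + 1))) + ((m : ℝ≥0∞) + 1)⁻¹) atTop
        (𝓝 (ENNReal.ofReal T * κ k + ENNReal.ofReal (2 * (1 / ((l : ℝ) + 1))) + 0)) := by
      apply Tendsto.const_add
      have := ENNReal.tendsto_inv_nat_nhds_zero.comp (tendsto_add_atTop_nat 1)
      refine this.congr fun m => ?_
      simp only [Function.comp_apply]
      push_cast
      rfl
    rw [add_zero] at hlim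
    calc _ ≤ liminf (fun m => ∫⁻ ω, ZZ (L.N ω) (fun j => L.ξ 0 j ω) (L.ξ 0 i ω) T k l m ∂P) atTop :=
          lintegral_liminf_le fun m => hme k l m
      _ ≤ liminf (fun m : ℕ => ENNReal.ofReal T * κ k +
        ENNReal.ofReal (2 * (1 / ((l : ℝ) + 1))) + ((m : ℝ≥0∞) + 1)⁻¹) atTop :=
          liminf_le_liminf (Eventually.of_forall fun m => ZZ_mean L hs h1 i hT k l m)
      _ = _ := hlim.liminf_eq
  have b2 : ∀ k, ∫⁻ ω, liminf (fun l => liminf (fun m =>
      ZZ (L.N ω) (fun j => L.ξ 0 j ω) (L.ξ 0 i ω) T k l m) atTop) atTop ∂P ≤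
      ENNReal.ofReal T * κ k := by
    intro k
    have hlim : Tendsto (fun l : ℕ => ENNReal.ofReal T * κ k +
        ENNReal.ofReal (2 * (1 / ((l : ℝ) + 1)))) atTop
        (𝓝 (ENNReal.ofReal T * κ k + 0)) := by
      apply Tendsto.const_add
      have h2 : Tendsto (fun l : ℕ => 2 * (1 / ((l : ℝ) + 1))) atTop (𝓝 (2 * 0)) :=
        tendsto_one_div_add_atTop_nhds_zero_nat.const_mul 2
      rw [mul_zero] at h2
      have := ENNReal.tendsto_ofReal h2
      simpa using this
    rw [add_zero] at hlim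
    calc _ ≤ liminf (fun l => ∫⁻ ω, liminf (fun m =>
          ZZ (L.N ω) (fun j => L.ξ 0 j ω) (L.ξ 0 i ω) T k l m) atTop ∂P) atTop :=
          lintegral_liminf_le fun l => hm1 k l
      _ ≤ liminf (fun l : ℕ => ENNReal.ofReal T * κ k +
        ENNReal.ofReal (2 * (1 / ((l : ℝ) + 1)))) atTop :=
          liminf_le_liminf (Eventually.of_forall fun l => b1 k l)
      _ = _ := hlim.liminf_eq
  have b3 : ∫⁻ ω, liminf (fun k => liminf (fun l => liminf (fun m =>
      ZZ (L.N ω) (fun j => L.ξ 0 j ω) (L.ξ 0 i ω) T k l m) atTop) atTop) atTop ∂P = 0 := by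
    apply le_antisymm _ zero_le
    have hlim : Tendsto (fun k : ℕ => ENNReal.ofReal T * κ k) atTop
        (𝓝 (ENNReal.ofReal T * 0)) :=
      ENNReal.Tendsto.const_mul (small_tendsto h1) (Or.inr ENNReal.ofReal_ne_top)
    rw [mul_zero] at hlim
    calc _ ≤ liminf (fun k => ∫⁻ ω, liminf (fun l => liminf (fun m =>
          ZZ (L.N ω) (fun j => L.ξ 0 j ω) (L.ξ 0 i ω) T k l m) atTop) atTop ∂P) atTop :=
          lintegral_liminf_le fun k => hm2 k
      _ ≤ liminf (fun k : ℕ => ENNReal.ofReal T * κ k) atTop :=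
          liminf_le_liminf (Eventually.of_forall fun k => b2 k)
      _ = _ := hlim.liminf_eq
  rw [lintegral_eq_zero_iff hm3] at b3
  filter_upwards [b3] with ω hω using hω

/-- if no two levels ever carry the type of level `i` at time `0`, this type is not an atom of
any weak limit of the empirical measures; quantitative form, uniform in time -/
lemma ae_atom (hr : DustRegime Λ) (L : Lookdown P Λ) : ∀ᵐ ω ∂P, ∀ i,
    (∀ t, 0 ≤ t → ∀ a b, L.ξ t a ω = L.ξ 0 i ω → L.ξ t b ω = L.ξ 0 i ω → a = b) →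
    ∀ T δ : ℝ, 0 < δ → ∃ ε > 0, ∀ t, 0 ≤ t → t ≤ T → ∀ μ, EmpLimit (fun j => L.ξ t j ω) μ →
      ∫ z, tent (L.ξ 0 i ω) ε z ∂μ ≤ δ := by
  have := hr.finite
  have hm := hr.m1_ne_top
  have hZ : ∀ᵐ ω ∂P, ∀ i T : ℕ, liminf (fun k => liminf (fun l => liminf (fun m =>
      ZZ (L.N ω) (fun j => L.ξ 0 j ω) (L.ξ 0 i ω) T k l m) atTop) atTop) atTop = 0 := by
    rw [ae_all_iff]; intro i
    rw [ae_all_iff]; intro T
    exact ae_ZZ L hr.supp hm i (Nat.cast_nonneg T)
  have hb : ∀ᵐ ω ∂P, ∀ T k : ℕ,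
      (L.N ω ∩ {e : Ev | e.1 ≤ (T : ℝ) ∧ 1 / ((k : ℝ) + 1) < e.2.1}).Finite := by
    rw [ae_all_iff]; intro T
    rw [ae_all_iff]; intro k
    exact L.poisson.ae_finite (measurableSet_big _ _) (intensity_big (by positivity) _)
  filter_upwards [hZ, hb, L.ae_dyn, ae_goodA L.poisson hr.supp hm] with ω hZ hb hD hA
  intro i hi T δ hδ
  obtain ⟨T', hT'⟩ := exists_nat_ge T
  obtain ⟨ε, hε, h⟩ := atom_core hD hA hi (hb T') (hZ i T') hδ
  exact ⟨ε, hε, fun t h1 h2 μ hμ => h t h1 (h2.trans hT') μ hμ⟩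

end Pool.Agent.Helper84.Eve
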