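import Pool.Agent.Helper84.Eve.Crit

open MeasureTheory ProbabilityTheory Set Filter
open scoped ENNReal Topology

namespace Pool.Agent.Helper84.Eve

/-- sizes of the small atoms -/
noncomputable def us (k : ℕ) : ℝ := (1 / 2) ^ (k + 1)

/-- rates of the small atoms -/
noncomputable def cs (k : ℕ) : ℝ := 2 ^ (k + 1) / ((k : ℝ) + 1) ^ 2

/-- rates of the big atoms -/
noncomputable def ds (j : ℕ) : ℝ := 64 * ((j : ℝ) + 8) / 2 ^ j

lemma us_pos (k : ℕ) : 0 < us k := by unfold us; positivity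
lemma us_le (k : ℕ) : us k ≤ 1 / 2 := by
  unfold us
  calc ((1 : ℝ) / 2) ^ (k + 1) ≤ (1 / 2) ^ 1 :=
        pow_le_pow_of_le_one (by norm_num) (by norm_num) (by omega)
    _ = 1 / 2 := by norm_num
lemma cs_pos (k : ℕ) : 0 < cs k := by unfold cs; positivity
lemma ds_pos (j : ℕ) : 0 < ds j := by unfold ds; positivity
lemma cs_mul_us (k : ℕ) : cs k * us k = 1 / ((k : ℝ) + 1) ^ 2 := by
  unfold cs us
  rw [div_mul_eq_mul_div, ← mul_pow]
  norm_num
lemma ds_le (j : ℕ) : ds j ≤ 512 := by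
  unfold ds
  rw [div_le_iff₀ (by positivity)]
  have : (j : ℝ) + 8 ≤ 8 * 2 ^ j := by
    induction j with
    | zero => norm_num
    | succ j ih =>
      have h1 : (1 : ℝ) ≤ 2 ^ j := one_le_pow₀ (by norm_num)
      push_cast
      rw [pow_succ]
      linarith
  linarith

/-- the measure `Λ` -/
noncomputable def Lam (v : ℕ → ℝ) : Measure ℝ :=
  Measure.sum (fun k => ENNReal.ofReal (cs k * us k ^ 2) • Measure.dirac (us k)) +
    Measure.sum (fun j => ENNReal.ofReal (ds j * (1 - v j) ^ 2) • Measure.dirac (1 - v j))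

lemma lintegral_Lam (v : ℕ → ℝ) {f : ℝ → ℝ≥0∞} (hf : Measurable f) :
    ∫⁻ u, f u ∂(Lam v) = ∑' k, ENNReal.ofReal (cs k * us k ^ 2) * f (us k) +
      ∑' j, ENNReal.ofReal (ds j * (1 - v j) ^ 2) * f (1 - v j) := by
  unfold Lam
  rw [lintegral_add_measure, lintegral_sum_measure, lintegral_sum_measure]
  simp_rw [lintegral_smul_measure, lintegral_dirac' _ hf, smul_eq_mul]

lemma lintegral_nuLam (v : ℕ → ℝ) (hv : ∀ j, v j ≤ 1 / 2) {f : ℝ → ℝ≥0∞} (hf : Measurable f) :
    ∫⁻ u, f u ∂(nu (Lam v)) = ∑' k, ENNReal.ofReal (cs k) * f (us k) +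
      ∑' j, ENNReal.ofReal (ds j) * f (1 - v j) := by
  rw [lintegral_nu hf, lintegral_Lam v (by fun_prop)]
  congr 2
  · funext k
    rw [← mul_assoc, ← ENNReal.ofReal_mul (by have := cs_pos k; positivity)]
    congr 2
    have := us_pos k
    field_simp
  · funext j
    rw [← mul_assoc, ← ENNReal.ofReal_mul (by have := ds_pos j; positivity)]
    congr 2
    have : 0 < 1 - v j := by linarith [hv j]
    field_simp

lemma Lam_null (v : ℕ → ℝ) {S : Set ℝ} (hS : MeasurableSet S) (h1 : ∀ k, us k ∉ S)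
    (h2 : ∀ j, 1 - v j ∉ S) : Lam v S = 0 := by
  unfold Lam
  rw [Measure.add_apply, Measure.sum_apply _ hS, Measure.sum_apply _ hS]
  simp [Measure.dirac_apply' _ hS, h1, h2]

lemma summable_ds : Summable ds := by
  have h1 : Summable (fun j : ℕ => 64 * ((j : ℝ) * (1 / 2) ^ j) + 512 * (1 / 2) ^ j) := by
    apply Summable.add
    · apply Summable.mul_left
      have := summable_pow_mul_geometric_of_norm_lt_one 1 (r := (1 / 2 : ℝ)) (by norm_num)
      simpa using this
    · exact (summable_geometric_of_lt_one (by norm_num) (by norm_num)).mul_left _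
  refine h1.congr fun j => ?_
  unfold ds
  rw [one_div, inv_pow]
  field_simp
  ring

lemma sum_sq : ∑' k : ℕ, ENNReal.ofReal (1 / ((k : ℝ) + 1) ^ 2) ≤ 2 := by
  have h1 : ∀ n : ℕ, ∑ k ∈ Finset.range (n + 1), 1 / ((k : ℝ) + 1) ^ 2 ≤
      2 - 1 / ((n : ℝ) + 1) := by
    intro n
    induction n with
    | zero => norm_num
    | succ n ih =>
      rw [Finset.sum_range_succ]
      have h2 : 1 / (((n + 1 : ℕ) : ℝ) + 1) ^ 2 ≤ 1 / ((n : ℝ) + 1) - 1 / (((n + 1 : ℕ) : ℝ) + 1) := by
        push_cast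
        rw [div_sub_div _ _ (by positivity) (by positivity), div_le_div_iff₀ (by positivity)
          (by positivity)]
        nlinarith [(Nat.cast_nonneg n : (0 : ℝ) ≤ n)]
      linarith
  apply ENNReal.tsum_le_of_sum_range_le
  intro n
  rw [← ENNReal.ofReal_sum_of_nonneg (fun _ _ => by positivity)]
  have h3 : ∑ k ∈ Finset.range n, 1 / ((k : ℝ) + 1) ^ 2 ≤ 2 := by
    calc ∑ k ∈ Finset.range n, 1 / ((k : ℝ) + 1) ^ 2
        ≤ ∑ k ∈ Finset.range (n + 1), 1 / ((k : ℝ) + 1) ^ 2 := by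
          rw [Finset.sum_range_succ]
          have : (0 : ℝ) ≤ 1 / ((n : ℝ) + 1) ^ 2 := by positivity
          linarith
      _ ≤ 2 - 1 / ((n : ℝ) + 1) := h1 n
      _ ≤ 2 := by
          have : (0 : ℝ) ≤ 1 / ((n : ℝ) + 1) := by positivity
          linarith
  calc ENNReal.ofReal (∑ k ∈ Finset.range n, 1 / ((k : ℝ) + 1) ^ 2) ≤ ENNReal.ofReal 2 :=
        ENNReal.ofReal_le_ofReal h3
    _ = 2 := by simp

/-- contribution of the small atoms to `phi` -/
noncomputable def sm (a : ℕ) : ℝ≥0∞ :=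
  ∑' k : ℕ, ENNReal.ofReal (1 / ((k : ℝ) + 1) ^ 2) * ENNReal.ofReal (1 - us k) ^ a

lemma sm_le (a : ℕ) : sm a ≤ 2 := by
  refine le_trans (ENNReal.tsum_le_tsum fun k => ?_) sum_sq
  calc _ ≤ ENNReal.ofReal (1 / ((k : ℝ) + 1) ^ 2) * 1 := by
        gcongr
        apply pow_le_one₀ (by simp)
        rw [ENNReal.ofReal_le_one]
        linarith [us_pos k]
    _ = _ := mul_one _

lemma sm_term_le (a k : ℕ) : ENNReal.ofReal (1 / ((k : ℝ) + 1) ^ 2) *
    ENNReal.ofReal (1 - us k) ^ a ≤ ENNReal.ofReal (1 / ((k : ℝ) + 1) ^ 2) := by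
  calc _ ≤ ENNReal.ofReal (1 / ((k : ℝ) + 1) ^ 2) * 1 := by
        gcongr
        apply pow_le_one₀ (by simp)
        rw [ENNReal.ofReal_le_one]
        linarith [us_pos k]
    _ = _ := mul_one _

lemma sm_tendsto : Tendsto sm atTop (𝓝 0) := by
  have h1 := tendsto_lintegral_of_dominated_convergence (μ := (Measure.count : Measure ℕ))
    (F := fun a k => ENNReal.ofReal (1 / ((k : ℝ) + 1) ^ 2) * ENNReal.ofReal (1 - us k) ^ a)
    (f := fun _ => 0) (fun k => ENNReal.ofReal (1 / ((k : ℝ) + 1) ^ 2))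
    (fun n => measurable_of_countable _)
    (fun n => Eventually.of_forall fun k => sm_term_le n k)
    (by
      rw [lintegral_count]
      exact ne_top_of_le_ne_top (by simp) sum_sq)
    (Eventually.of_forall fun k => by
      have h2 : Tendsto (fun a => ENNReal.ofReal (1 - us k) ^ a) atTop (𝓝 0) := by
        apply ENNReal.tendsto_pow_atTop_nhds_zero_of_lt_one
        rw [ENNReal.ofReal_lt_one]
        linarith [us_pos k]
      have h3 := ENNReal.Tendsto.const_mul (a := ENNReal.ofReal (1 / ((k : ℝ) + 1) ^ 2)) h2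
        (Or.inr ENNReal.ofReal_ne_top)
      simpa using h3)
  have h5 : (fun n => ∫⁻ k : ℕ, ENNReal.ofReal (1 / ((k : ℝ) + 1) ^ 2) *
      ENNReal.ofReal (1 - us k) ^ n ∂(Measure.count : Measure ℕ)) = sm := by
    funext n
    rw [lintegral_count]
    rfl
  rw [h5] at h1
  simpa using h1

lemma exists_gs : ∃ gs : ℕ → ℕ, ∀ j, 2 * j + 2 ≤ gs j ∧
    ENNReal.ofReal (2 ^ j / 32) * sm (gs j) ≤ ENNReal.ofReal ((1 / 2) ^ j / 64) := by
  have h1 : ∀ j : ℕ, ∃ g, 2 * j + 2 ≤ g ∧
      ENNReal.ofReal (2 ^ j / 32) * sm g ≤ ENNReal.ofReal ((1 / 2) ^ j / 64) := by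
    intro j
    have h2 := ENNReal.Tendsto.const_mul (a := ENNReal.ofReal (2 ^ j / 32)) sm_tendsto
      (Or.inr ENNReal.ofReal_ne_top)
    rw [mul_zero] at h2
    have h3 : (0 : ℝ≥0∞) < ENNReal.ofReal ((1 / 2) ^ j / 64) := by
      rw [ENNReal.ofReal_pos]; positivity
    obtain ⟨g, h4, h5⟩ := ((h2.eventually (gt_mem_nhds h3)).and
      (eventually_ge_atTop (2 * j + 2))).exists
    exact ⟨g, h5, h4.le⟩
  choose gs hgs using h1
  exact ⟨gs, hgs⟩

lemma phi_Lam (v : ℕ → ℝ) (hv : ∀ j, v j ≤ 1 / 2) (a : ℕ) :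
    phi (Lam v) a = sm a + ∑' j, ENNReal.ofReal (ds j) *
      (ENNReal.ofReal (1 - v j) * ENNReal.ofReal (v j) ^ a) := by
  unfold phi
  rw [lintegral_nuLam v hv (by fun_prop)]
  congr 1
  · unfold sm
    congr 1
    funext k
    rw [← mul_assoc, ← ENNReal.ofReal_mul (cs_pos k).le, cs_mul_us]
  · congr 1
    funext j
    rw [sub_sub_cancel]

lemma sum_half : ∑' j : ℕ, ENNReal.ofReal ((1 / 2) ^ (j + 1)) ≤ 1 := by
  rw [← ENNReal.ofReal_tsum_of_nonneg (fun _ => by positivity)
    ((summable_nat_add_iff 1).2 (summable_geometric_of_lt_one (by norm_num) (by norm_num)))]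
  rw [ENNReal.ofReal_le_one]
  have h1 : ∑' j : ℕ, ((1 : ℝ) / 2) ^ (j + 1) = 1 := by
    simp_rw [pow_succ]
    rw [tsum_mul_right, tsum_geometric_of_lt_one (by norm_num) (by norm_num)]
    norm_num
  rw [h1]

lemma big_le (v : ℕ → ℝ) (hv0 : ∀ j, 0 < v j) (hv : ∀ j, v j ≤ 1 / 2)
    (hdv : ∀ j, ds j * v j ≤ (1 / 2) ^ (j + 1)) (a : ℕ) :
    ∑' j, ENNReal.ofReal (ds j) * (ENNReal.ofReal (1 - v j) * ENNReal.ofReal (v j) ^ (a + 1)) ≤
      ENNReal.ofReal ((1 / 2) ^ a) := by
  calc ∑' j, ENNReal.ofReal (ds j) *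
        (ENNReal.ofReal (1 - v j) * ENNReal.ofReal (v j) ^ (a + 1))
      ≤ ∑' j : ℕ, ENNReal.ofReal ((1 / 2) ^ (j + 1)) * ENNReal.ofReal ((1 / 2) ^ a) := by
        apply ENNReal.tsum_le_tsum
        intro j
        rw [← ENNReal.ofReal_pow (hv0 j).le, ← ENNReal.ofReal_mul (by linarith [hv j]),
          ← ENNReal.ofReal_mul (ds_pos j).le, ← ENNReal.ofReal_mul (by positivity)]
        apply ENNReal.ofReal_le_ofReal
        have h1 : v j ^ a ≤ (1 / 2) ^ a := pow_le_pow_left₀ (hv0 j).le (hv j) a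
        have h2 : 0 ≤ v j ^ a := pow_nonneg (hv0 j).le a
        calc ds j * ((1 - v j) * v j ^ (a + 1)) = (ds j * v j) * v j ^ a * (1 - v j) := by ring
          _ ≤ (ds j * v j) * v j ^ a * 1 := by
              gcongr
              · have := ds_pos j; have := hv0 j; positivity
              · linarith [hv0 j]
          _ ≤ (1 / 2) ^ (j + 1) * (1 / 2) ^ a := by
              rw [mul_one]
              exact mul_le_mul (hdv j) h1 h2 (by positivity)
    _ ≤ 1 * ENNReal.ofReal ((1 / 2) ^ a) := by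
        rw [ENNReal.tsum_mul_right]
        gcongr
        exact sum_half
    _ = _ := one_mul _

lemma phi_le (v : ℕ → ℝ) (hv0 : ∀ j, 0 < v j) (hv : ∀ j, v j ≤ 1 / 2)
    (hdv : ∀ j, ds j * v j ≤ (1 / 2) ^ (j + 1)) (a : ℕ) :
    phi (Lam v) (a + 1) ≤ sm (a + 1) + ENNReal.ofReal ((1 / 2) ^ a) := by
  rw [phi_Lam v hv]
  gcongr
  exact big_le v hv0 hv hdv a

lemma psi_ge (v : ℕ → ℝ) (hv : ∀ j, v j ≤ 1 / 2) (j g : ℕ)
    (hg : g * v j ≤ 1 / 2) : ENNReal.ofReal (ds j / 2) ≤ psi (Lam v) g := by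
  unfold psi
  rw [lintegral_nuLam v hv (by fun_prop)]
  refine le_trans ?_ le_add_self
  refine le_trans ?_ (ENNReal.le_tsum j)
  rw [← ENNReal.ofReal_pow (by linarith [hv j]), ← ENNReal.ofReal_mul (ds_pos j).le]
  apply ENNReal.ofReal_le_ofReal
  have h1 : 1 / 2 ≤ (1 - v j) ^ g := by
    have := one_add_mul_le_pow (a := -v j) (by linarith [hv j]) g
    have h2 : 1 + (g : ℝ) * -v j = 1 - g * v j := by ring
    rw [h2, ← sub_eq_add_neg] at this
    linarith
  have := ds_pos j
  nlinarith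

lemma m1_Lam (v : ℕ → ℝ) (hv0 : ∀ j, 0 < v j) (hv : ∀ j, v j ≤ 1 / 2) : m1 (Lam v) ≠ ∞ := by
  unfold m1
  rw [lintegral_nuLam v hv (by fun_prop)]
  apply ENNReal.add_ne_top.2
  constructor
  · refine ne_top_of_le_ne_top (by simp : (2 : ℝ≥0∞) ≠ ∞) (le_trans (le_of_eq ?_) sum_sq)
    congr 1
    funext k
    rw [← ENNReal.ofReal_mul (cs_pos k).le, cs_mul_us]
  · have h1 := summable_ds.tsum_ofReal_ne_top
    refine ne_top_of_le_ne_top h1 (ENNReal.tsum_le_tsum fun j => ?_)
    rw [← ENNReal.ofReal_mul (ds_pos j).le]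
    apply ENNReal.ofReal_le_ofReal
    have := ds_pos j
    nlinarith [hv0 j]

/-- values of the parameters -/
noncomputable def vs (gs : ℕ → ℕ) (j : ℕ) : ℝ := 1 / (1024 * 2 ^ j * (gs j : ℝ))

lemma vs_pos {gs : ℕ → ℕ} (hg : ∀ j, 1 ≤ gs j) (j : ℕ) : 0 < vs gs j := by
  unfold vs
  have : (0 : ℝ) < gs j := by exact_mod_cast hg j
  positivity

lemma vs_mul {gs : ℕ → ℕ} (hg : ∀ j, 1 ≤ gs j) (j : ℕ) : gs j * vs gs j ≤ 1 / 2 := by
  unfold vs
  have h1 : (0 : ℝ) < gs j := by exact_mod_cast hg j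
  have h2 : (1 : ℝ) ≤ 2 ^ j := one_le_pow₀ (by norm_num)
  rw [mul_one_div, div_le_div_iff₀ (by positivity) (by norm_num)]
  nlinarith

lemma vs_le {gs : ℕ → ℕ} (hg : ∀ j, 1 ≤ gs j) (j : ℕ) : vs gs j ≤ 1 / 2 := by
  have h1 : (1 : ℝ) ≤ gs j := by exact_mod_cast hg j
  have := vs_mul hg j
  have := vs_pos hg j
  nlinarith

lemma ds_vs {gs : ℕ → ℕ} (hg : ∀ j, 1 ≤ gs j) (j : ℕ) : ds j * vs gs j ≤ (1 / 2) ^ (j + 1) := by
  have h1 : (1 : ℝ) ≤ gs j := by exact_mod_cast hg j
  have h2 := ds_le j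
  have h3 : vs gs j ≤ 1 / (1024 * 2 ^ j) := by
    unfold vs
    apply one_div_le_one_div_of_le (by positivity)
    have : (0 : ℝ) < 1024 * 2 ^ j := by positivity
    nlinarith
  calc ds j * vs gs j ≤ 512 * (1 / (1024 * 2 ^ j)) := by
        apply mul_le_mul h2 h3 (vs_pos hg j).le (by norm_num)
    _ = (1 / 2) ^ (j + 1) := by
        rw [pow_succ, one_div_pow]
        field_simp
        norm_num

lemma exp_le_half (j : ℕ) : Real.exp (-((j : ℝ) + 8)) ≤ (1 / 2) ^ (j + 8) := by
  have h1 : Real.exp (-1) ≤ 1 / 2 := by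
    have := Real.exp_neg_one_lt_half
    linarith
  calc Real.exp (-((j : ℝ) + 8)) = Real.exp (-1) ^ (j + 8) := by
        rw [← Real.exp_nat_mul]; congr 1; push_cast; ring
    _ ≤ _ := pow_le_pow_left₀ (Real.exp_pos _).le h1 _

/-- the constant of the criterion is less than one -/
lemma const_lt {gs : ℕ → ℕ} (hg : ∀ j, 2 * j + 2 ≤ gs j ∧
    ENNReal.ofReal (2 ^ j / 32) * sm (gs j) ≤ ENNReal.ofReal ((1 / 2) ^ j / 64)) :
    (ENNReal.ofReal (1 / 32) * phi (Lam (vs gs)) 1 +
      ∑' j, ENNReal.ofReal (2 ^ j / 32) * phi (Lam (vs gs)) (gs j)) +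
      ∑' j, ENNReal.ofReal (Real.exp (-(ENNReal.ofReal (2 ^ j / 32) *
        psi (Lam (vs gs)) (gs j)).toReal)) < 1 := by
  have hg1 : ∀ j, 1 ≤ gs j := fun j => by have := (hg j).1; omega
  have hv0 := vs_pos hg1
  have hv := vs_le hg1
  have hdv := ds_vs hg1
  have hm := m1_Lam (vs gs) hv0 hv
  have h1 : ENNReal.ofReal (1 / 32) * phi (Lam (vs gs)) 1 ≤ ENNReal.ofReal (3 / 32) := by
    have h2 := phi_le (vs gs) hv0 hv hdv 0
    have h3 := sm_le (0 + 1)
    calc ENNReal.ofReal (1 / 32) * phi (Lam (vs gs)) 1 ≤ ENNReal.ofReal (1 / 32) *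
          (2 + ENNReal.ofReal ((1 / 2) ^ 0)) := by
          gcongr
          exact h2.trans (by gcongr)
      _ = ENNReal.ofReal (3 / 32) := by
          rw [pow_zero, show (2 : ℝ≥0∞) = ENNReal.ofReal 2 by simp,
            ← ENNReal.ofReal_add (by norm_num) (by norm_num), ← ENNReal.ofReal_mul (by norm_num)]
          congr 1; norm_num
  have h2 : ∑' j, ENNReal.ofReal (2 ^ j / 32) * phi (Lam (vs gs)) (gs j) ≤
      ENNReal.ofReal (1 / 16) := by
    calc ∑' j, ENNReal.ofReal (2 ^ j / 32) * phi (Lam (vs gs)) (gs j)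
        ≤ ∑' j : ℕ, ENNReal.ofReal (1 / 16) * ENNReal.ofReal ((1 / 2) ^ (j + 1)) := by
          apply ENNReal.tsum_le_tsum
          intro j
          obtain ⟨a, ha⟩ : ∃ a, gs j = a + 1 := ⟨gs j - 1, by have := hg1 j; omega⟩
          have h3 := phi_le (vs gs) hv0 hv hdv a
          rw [← ha] at h3
          have h4 : ENNReal.ofReal (2 ^ j / 32) * ENNReal.ofReal ((1 / 2) ^ a) ≤
              ENNReal.ofReal ((1 / 2) ^ j / 64) := by
            rw [← ENNReal.ofReal_mul (by positivity)]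
            apply ENNReal.ofReal_le_ofReal
            have h5 : ((1 : ℝ) / 2) ^ a ≤ (1 / 2) ^ (2 * j + 1) := by
              apply pow_le_pow_of_le_one (by norm_num) (by norm_num)
              have := (hg j).1; omega
            calc (2 : ℝ) ^ j / 32 * (1 / 2) ^ a ≤ 2 ^ j / 32 * (1 / 2) ^ (2 * j + 1) := by gcongr
              _ = (1 / 2) ^ j / 64 := by
                rw [pow_succ, pow_mul, one_div_pow, one_div_pow]
                have : ((2 : ℝ) ^ 2) ^ j = 2 ^ j * 2 ^ j := by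
                  rw [← pow_mul, ← pow_add]; congr 1; ring
                rw [one_div_pow, this]
                field_simp
                norm_num
          calc ENNReal.ofReal (2 ^ j / 32) * phi (Lam (vs gs)) (gs j)
              ≤ ENNReal.ofReal (2 ^ j / 32) * (sm (gs j) + ENNReal.ofReal ((1 / 2) ^ a)) := by
                gcongr
            _ ≤ ENNReal.ofReal ((1 / 2) ^ j / 64) + ENNReal.ofReal ((1 / 2) ^ j / 64) := by
                rw [mul_add]
                exact add_le_add (hg j).2 h4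
            _ = ENNReal.ofReal (1 / 16) * ENNReal.ofReal ((1 / 2) ^ (j + 1)) := by
                rw [← ENNReal.ofReal_add (by positivity) (by positivity),
                  ← ENNReal.ofReal_mul (by norm_num)]
                congr 1
                rw [pow_succ]; ring
      _ ≤ ENNReal.ofReal (1 / 16) * 1 := by
          rw [ENNReal.tsum_mul_left]
          gcongr
          exact sum_half
      _ = _ := mul_one _
  have h3 : ∑' j, ENNReal.ofReal (Real.exp (-(ENNReal.ofReal (2 ^ j / 32) *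
        psi (Lam (vs gs)) (gs j)).toReal)) ≤ ENNReal.ofReal (1 / 128) := by
    calc ∑' j, ENNReal.ofReal (Real.exp (-(ENNReal.ofReal (2 ^ j / 32) *
          psi (Lam (vs gs)) (gs j)).toReal))
        ≤ ∑' j : ℕ, ENNReal.ofReal (1 / 128) * ENNReal.ofReal ((1 / 2) ^ (j + 1)) := by
          apply ENNReal.tsum_le_tsum
          intro j
          have h4 := psi_ge (vs gs) hv j (gs j) (vs_mul hg1 j)
          have h5 : psi (Lam (vs gs)) (gs j) ≠ ∞ := by
            refine ne_top_of_le_ne_top hm ?_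
            unfold psi m1
            have hsupp : Lam (vs gs) (Icc 0 1)ᶜ = 0 := by
              apply Lam_null _ measurableSet_Icc.compl
              · intro k; simp only [mem_compl_iff, not_not]
                exact ⟨(us_pos k).le, by linarith [us_le k]⟩
              · intro k; simp only [mem_compl_iff, not_not]
                exact ⟨by linarith [hv k], by linarith [hv0 k]⟩
            apply lintegral_mono_ae
            filter_upwards [nu_supp hsupp] with u hu
            calc ENNReal.ofReal u ^ gs j ≤ ENNReal.ofReal u ^ 1 := by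
                  apply pow_le_pow_right_of_le_one' _ (hg1 j)
                  rw [ENNReal.ofReal_le_one]; exact hu.2
              _ = _ := pow_one _
          rw [← ENNReal.ofReal_mul (by norm_num)]
          apply ENNReal.ofReal_le_ofReal
          have h6 : (j : ℝ) + 8 ≤ (ENNReal.ofReal (2 ^ j / 32) *
              psi (Lam (vs gs)) (gs j)).toReal := by
            have h7 : (ENNReal.ofReal (2 ^ j / 32) * ENNReal.ofReal (ds j / 2)).toReal =
                (j : ℝ) + 8 := by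
              rw [← ENNReal.ofReal_mul (by positivity), ENNReal.toReal_ofReal
                (by have := ds_pos j; positivity)]
              unfold ds
              field_simp
              norm_num
            rw [← h7]
            apply ENNReal.toReal_mono (ENNReal.mul_ne_top ENNReal.ofReal_ne_top h5)
            gcongr
          calc Real.exp (-(ENNReal.ofReal (2 ^ j / 32) *
              psi (Lam (vs gs)) (gs j)).toReal) ≤ Real.exp (-((j : ℝ) + 8)) := by
                apply Real.exp_le_exp.2; linarith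
            _ ≤ (1 / 2) ^ (j + 8) := exp_le_half j
            _ = 1 / 128 * (1 / 2) ^ (j + 1) := by
                rw [show j + 8 = (j + 1) + 7 by ring, pow_add _ (j + 1) 7]; norm_num; ring
      _ ≤ ENNReal.ofReal (1 / 128) * 1 := by
          rw [ENNReal.tsum_mul_left]
          gcongr
          exact sum_half
      _ = _ := mul_one _
  calc _ ≤ (ENNReal.ofReal (3 / 32) + ENNReal.ofReal (1 / 16)) + ENNReal.ofReal (1 / 128) := by
        gcongr
    _ < 1 := by
        rw [← ENNReal.ofReal_add (by norm_num) (by norm_num),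
          ← ENNReal.ofReal_add (by norm_num) (by norm_num), ENNReal.ofReal_lt_one]
        norm_num

end Pool.Agent.Helper84.Eve
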