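import Pool.Agent.Helper84.Eve.Crit

open MeasureTheory ProbabilityTheory Set Filter
open scoped ENNReal Topology

namespace Pool.Agent.Helper84.Eve

/-- at some step the followed individual `a` has a child at a level at most the position `b` of
the second followed individual -/
def coal : List (Finset ℕ) → ℕ → ℕ → Prop
  | [], _, _ => False
  | κ :: l, a, b => (IsLeast (κ : Set ℕ) a ∧ ∃ j ∈ κ, a < j ∧ j ≤ b) ∨ coal l (pos κ a) (pos κ b)

variable {Λ : Measure ℝ}

/-- `phi` cut off at `n` -/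
noncomputable def phin (Λ : Measure ℝ) (n a : ℕ) : ℝ≥0∞ := if a < n then phi Λ a else 0

lemma phi_anti (hs : Λ (Icc 0 1)ᶜ = 0) {a b : ℕ} (h : a ≤ b) : phi Λ b ≤ phi Λ a := by
  unfold phi
  apply lintegral_mono_ae
  filter_upwards [nu_supp hs] with u hu
  gcongr ENNReal.ofReal u * ?_
  apply pow_le_pow_right_of_le_one' _ h
  rw [ENNReal.ofReal_le_one]; linarith [hu.1]

lemma phi_le_m1 (hs : Λ (Icc 0 1)ᶜ = 0) (a : ℕ) : phi Λ a ≤ m1 Λ := by
  refine (phi_anti hs (Nat.zero_le a)).trans ?_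
  unfold phi m1
  simp

lemma phin_anti (hs : Λ (Icc 0 1)ᶜ = 0) (n : ℕ) {a b : ℕ} (h : a ≤ b) :
    phin Λ n b ≤ phin Λ n a := by
  unfold phin
  split_ifs with h1 h2
  · exact phi_anti hs h
  · omega
  · exact zero_le
  · exact le_rfl

/-- potential of the chain -/
noncomputable def pot (Λ : Measure ℝ) (n : ℕ) (h : ℝ) : ℕ → ℕ → ℝ≥0∞
  | 0, _ => 0
  | m + 1, a => ENNReal.ofReal h * phin Λ n a +
      ∑ κ ∈ (Finset.range n).powerset, wt Λ n h κ * pot Λ n h m (pos κ a)

lemma pot_anti (hs : Λ (Icc 0 1)ᶜ = 0) (n : ℕ) (h : ℝ) (m : ℕ) {a b : ℕ} (hab : a ≤ b) :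
    pot Λ n h m b ≤ pot Λ n h m a := by
  induction m generalizing a b with
  | zero => exact le_rfl
  | succ m ih =>
    unfold pot
    gcongr ENNReal.ofReal h * ?_ + ∑ κ ∈ (Finset.range n).powerset, wt Λ n h κ * ?_ with κ hκ
    · exact phin_anti hs n hab
    · exact ih (pos_mono κ hab)

lemma pot_mono_succ (n : ℕ) (h : ℝ) (m a : ℕ) :
    pot Λ n h m a ≤ pot Λ n h (m + 1) a := by
  induction m generalizing a with
  | zero => exact zero_le
  | succ m ih =>
    conv_lhs => unfold pot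
    conv_rhs => unfold pot
    gcongr with κ hκ
    exact ih _

lemma pot_ne_top (hs : Λ (Icc 0 1)ᶜ = 0) (h1 : m1 Λ ≠ ∞) (n : ℕ) (h : ℝ) (m a : ℕ) :
    pot Λ n h m a ≠ ∞ := by
  have hf := wS_ne_top hs h1 n
  induction m generalizing a with
  | zero => simp [pot]
  | succ m ih =>
    unfold pot
    apply ENNReal.add_ne_top.2
    constructor
    · apply ENNReal.mul_ne_top ENNReal.ofReal_ne_top
      unfold phin
      split_ifs
      · exact ne_top_of_le_ne_top h1 (phi_le_m1 hs a)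
      · simp
    · rw [ENNReal.sum_ne_top]
      intro κ _
      apply ENNReal.mul_ne_top _ (ih _)
      unfold wt
      apply ENNReal.mul_ne_top ENNReal.ofReal_ne_top
      split_ifs with h2
      · simp
      · apply ENNReal.mul_ne_top ENNReal.ofReal_ne_top
        refine ne_top_of_le_ne_top hf (wS_mono n ?_)
        rintro _ rfl
        exact Finset.nonempty_iff_ne_empty.2 h2

/-- the total mass of the chain is at most one -/
lemma wsum_one_le {n : ℕ} {h : ℝ} (hh : 0 ≤ h) (hf : wS Λ n {K | K.Nonempty} ≠ ∞) (m : ℕ) :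
    wsum (wt Λ n h) n m (fun _ => 1) ≤ 1 := by
  induction m with
  | zero => simp [wsum]
  | succ m ih =>
    unfold wsum
    calc ∑ κ ∈ (Finset.range n).powerset, wt Λ n h κ * wsum (wt Λ n h) n m (fun _ => 1)
        ≤ ∑ κ ∈ (Finset.range n).powerset, wt Λ n h κ * 1 := by gcongr
      _ ≤ 1 := by simpa using sum_wt_le_one n hh hf

lemma wS_least_gap (hs : Λ (Icc 0 1)ᶜ = 0) (h1 : m1 Λ ≠ ∞) {n a b : ℕ} (hab : a < b)
    (hb : b < n) :
    wS Λ n {K | IsLeast (K : Set ℕ) a ∧ ∃ j ∈ K, a < j ∧ j ≤ b} + phi Λ b = phi Λ a := by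
  classical
  have ha : a < n := by omega
  rw [show phi Λ a = wS Λ n {K | IsLeast (K : Set ℕ) a} from (wS_least hs ha).symm]
  have h2 : wS Λ n {K | IsLeast (K : Set ℕ) a ∧ ¬ ∃ j ∈ K, a < j ∧ j ≤ b} = phi Λ b := by
    unfold wS
    have : {q : ℝ × (ℕ → ℝ) | pat n (0, q) ∈
        {K : Finset ℕ | IsLeast (K : Set ℕ) a ∧ ¬ ∃ j ∈ K, a < j ∧ j ≤ b}} =
        {q : ℝ × (ℕ → ℝ) | (∀ j ∈ ({a} : Finset ℕ), q.2 j < q.1) ∧
          ∀ j ∈ (Finset.range (b + 1)).erase a, ¬ q.2 j < q.1} := by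
      ext q
      simp only [mem_ofPred_eq, IsLeast, mem_lowerBounds, Finset.mem_coe, mem_pat,
        Finset.mem_singleton, forall_eq, Finset.mem_erase, Finset.mem_range]
      constructor
      · rintro ⟨⟨⟨_, h3⟩, h4⟩, h5⟩
        refine ⟨h3, ?_⟩
        rintro j ⟨h6, h7⟩ h8
        have h9 := h4 j ⟨by omega, h8⟩
        exact h5 ⟨j, ⟨by omega, h8⟩, by omega, by omega⟩
      · rintro ⟨h3, h4⟩
        refine ⟨⟨⟨ha, h3⟩, fun j hj => ?_⟩, ?_⟩
        · by_contra hc
          exact h4 j ⟨by omega, by omega⟩ hj.2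
        · rintro ⟨j, ⟨_, h5⟩, h6, h7⟩
          exact h4 j ⟨by omega, by omega⟩ h5
    rw [this, mk_marks hs (by simp)]
    have h3 : ((Finset.range (b + 1)).erase a).card = b := by
      rw [Finset.card_erase_of_mem (by simpa using by omega)]; simp
    rw [h3]
    simp [phi]
  rw [← h2]
  unfold wS
  rw [← measure_union]
  · congr 1
    ext q
    simp only [mem_union, mem_ofPred_eq]
    constructor
    · rintro (⟨h, _⟩ | ⟨h, _⟩) <;> exact h
    · intro h
      by_cases hB : ∃ j ∈ pat n (0, q), a < j ∧ j ≤ b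
      · exact Or.inl ⟨h, hB⟩
      · exact Or.inr ⟨h, hB⟩
  · rw [Set.disjoint_left]
    rintro q h3 h4
    exact h4.2 h3.2
  · exact measurableSet_pat n _

/-- the potential dominates the probability of the bad event -/
lemma coal_le (hs : Λ (Icc 0 1)ᶜ = 0) (h1 : m1 Λ ≠ ∞) (n : ℕ) {h : ℝ} (hh : 0 ≤ h) (m : ℕ)
    {a b : ℕ} (hab : a < b) :
    wsum (wt Λ n h) n m ({l | coal l a b}.indicator 1) + pot Λ n h m b ≤ pot Λ n h m a := by
  classical
  have hf := wS_ne_top hs h1 n
  induction m generalizing a b with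
  | zero => simp [wsum, coal, pot]
  | succ m ih =>
    unfold wsum pot
    have h2 : ∀ κ ∈ (Finset.range n).powerset, wt Λ n h κ *
        wsum (wt Λ n h) n m (fun l => ({l | coal l a b} : Set (List (Finset ℕ))).indicator
          (1 : List (Finset ℕ) → ℝ≥0∞) (κ :: l)) ≤
        (if κ ∈ {K : Finset ℕ | IsLeast (K : Set ℕ) a ∧ ∃ j ∈ K, a < j ∧ j ≤ b}
          then wt Λ n h κ else 0) +
        wt Λ n h κ * wsum (wt Λ n h) n m ({l | coal l (pos κ a) (pos κ b)}.indicator 1) := by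
      intro κ _
      by_cases hκ : κ ∈ {K : Finset ℕ | IsLeast (K : Set ℕ) a ∧ ∃ j ∈ K, a < j ∧ j ≤ b}
      · rw [if_pos hκ]
        calc _ ≤ wt Λ n h κ * 1 := by
              gcongr
              refine le_trans (wsum_mono _ _ _ fun l => ?_) (wsum_one_le hh hf m)
              exact Set.indicator_le_self' (by intros; simp) _
          _ ≤ _ := by rw [mul_one]; exact le_self_add
      · rw [if_neg hκ, zero_add]
        gcongr
        apply wsum_mono
        intro l
        by_cases h4 : coal l (pos κ a) (pos κ b)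
        · rw [Set.indicator_of_mem (s := {l | coal l (pos κ a) (pos κ b)}) h4]
          exact Set.indicator_le_self' (by intros; simp) _
        · rw [Set.indicator_of_notMem]
          · exact zero_le
          · simp only [mem_ofPred_eq, coal, not_or]
            exact ⟨hκ, h4⟩
    have h3 : ∑ κ ∈ (Finset.range n).powerset,
        (if κ ∈ {K : Finset ℕ | IsLeast (K : Set ℕ) a ∧ ∃ j ∈ K, a < j ∧ j ≤ b}
          then wt Λ n h κ else 0) + ENNReal.ofReal h * phin Λ n b ≤
        ENNReal.ofReal h * phin Λ n a := by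
      rw [← Finset.sum_filter]
      have h4 : ∅ ∉ {K : Finset ℕ | IsLeast (K : Set ℕ) a ∧ ∃ j ∈ K, a < j ∧ j ≤ b} := by
        simp [IsLeast]
      have h5 := sum_wt_le (Λ := Λ) n hh _ h4
      by_cases hb : b < n
      · have h6 := wS_least_gap hs h1 hab hb
        unfold phin
        rw [if_pos hb, if_pos (by omega : a < n), ← h6, mul_add]
        gcongr
      · by_cases ha : a < n
        · unfold phin
          rw [if_neg hb, if_pos ha, mul_zero, add_zero]
          refine h5.trans ?_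
          gcongr
          rw [show phi Λ a = wS Λ n {K | IsLeast (K : Set ℕ) a} from (wS_least hs ha).symm]
          exact wS_mono n fun K hK => hK.1
        · unfold phin
          rw [if_neg hb, if_neg ha, mul_zero, add_zero]
          rw [Finset.sum_eq_zero]
          intro κ hκ
          exfalso
          simp only [Finset.mem_filter] at hκ
          have h7 := Finset.mem_powerset.1 hκ.1 (show a ∈ κ by simpa using hκ.2.1.1)
          simp at h7; omega
    calc _ ≤ (∑ κ ∈ (Finset.range n).powerset,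
        ((if κ ∈ {K : Finset ℕ | IsLeast (K : Set ℕ) a ∧ ∃ j ∈ K, a < j ∧ j ≤ b}
          then wt Λ n h κ else 0) +
        wt Λ n h κ * wsum (wt Λ n h) n m ({l | coal l (pos κ a) (pos κ b)}.indicator 1))) +
        (ENNReal.ofReal h * phin Λ n b +
          ∑ κ ∈ (Finset.range n).powerset, wt Λ n h κ * pot Λ n h m (pos κ b)) := by
          gcongr with κ hκ
          exact h2 κ hκ
      _ = (∑ κ ∈ (Finset.range n).powerset,
        (if κ ∈ {K : Finset ℕ | IsLeast (K : Set ℕ) a ∧ ∃ j ∈ K, a < j ∧ j ≤ b}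
          then wt Λ n h κ else 0) + ENNReal.ofReal h * phin Λ n b) +
          ∑ κ ∈ (Finset.range n).powerset, wt Λ n h κ *
            (wsum (wt Λ n h) n m ({l | coal l (pos κ a) (pos κ b)}.indicator 1) +
              pot Λ n h m (pos κ b)) := by
          rw [Finset.sum_add_distrib]
          simp_rw [mul_add]
          rw [Finset.sum_add_distrib]
          ring
      _ ≤ _ := by
          gcongr with κ hκ
          exact ih (pos_lt_pos κ hab)

/-- second moment of `ν` -/
noncomputable def m2 (Λ : Measure ℝ) : ℝ≥0∞ := ∫⁻ u, ENNReal.ofReal u ^ 2 ∂(nu Λ)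

lemma wS_zero_one (hs : Λ (Icc 0 1)ᶜ = 0) {n : ℕ} (hn : 2 ≤ n) :
    wS Λ n {K | 0 ∈ K ∧ 1 ∈ K} = m2 Λ := by
  unfold wS
  have : {q : ℝ × (ℕ → ℝ) | pat n (0, q) ∈ {K : Finset ℕ | 0 ∈ K ∧ 1 ∈ K}} =
      {q : ℝ × (ℕ → ℝ) | (∀ j ∈ ({0, 1} : Finset ℕ), q.2 j < q.1) ∧
        ∀ j ∈ (∅ : Finset ℕ), ¬ q.2 j < q.1} := by
    ext q
    simp only [mem_ofPred_eq, mem_pat, Finset.mem_insert, Finset.mem_singleton, forall_eq_or_imp,
      forall_eq]
    constructor
    · rintro ⟨⟨_, h1⟩, ⟨_, h2⟩⟩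
      exact ⟨⟨h1, h2⟩, by simp⟩
    · rintro ⟨⟨h1, h2⟩, _⟩
      exact ⟨⟨by omega, h1⟩, ⟨by omega, h2⟩⟩
  rw [this, mk_marks hs (by simp)]
  simp [m2]

lemma pos_gt_of_mem {K : Finset ℕ} {a : ℕ} (ha : 1 ≤ a) (h0 : 0 ∈ K) (h1 : 1 ∈ K) :
    a < pos K a := by
  rw [lt_pos_iff]
  have h2 : 2 ≤ cnt K a := by
    unfold cnt
    have : ({0, 1} : Finset ℕ) ⊆ K.filter (· ≤ a) := by
      intro j hj
      simp only [Finset.mem_insert, Finset.mem_singleton] at hj
      simp only [Finset.mem_filter]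
      rcases hj with rfl | rfl
      · exact ⟨h0, by omega⟩
      · exact ⟨h1, ha⟩
    calc 2 = ({0, 1} : Finset ℕ).card := rfl
      _ ≤ _ := Finset.card_le_card this
  unfold low; omega

/-- one more step of the potential -/
lemma pot_step (hs : Λ (Icc 0 1)ᶜ = 0) (h1 : m1 Λ ≠ ∞) {n : ℕ} (hn : 2 ≤ n) {h : ℝ} (hh : 0 ≤ h)
    (m : ℕ) {a : ℕ} (ha : 1 ≤ a) :
    ENNReal.ofReal (Real.exp (-(h * (wS Λ n {K | K.Nonempty}).toReal))) *
      (ENNReal.ofReal h * m2 Λ) * pot Λ n h (m + 1) a ≤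
    ENNReal.ofReal h * phi Λ a +
      ENNReal.ofReal (Real.exp (-(h * (wS Λ n {K | K.Nonempty}).toReal))) *
      (ENNReal.ofReal h * m2 Λ) * pot Λ n h m (a + 1) := by
  classical
  have hf := wS_ne_top hs h1 n
  set S : Set (Finset ℕ) := {K | 0 ∈ K ∧ 1 ∈ K} with hS
  have hp := sum_wt_eq (Λ := Λ) n h S (by simp [hS])
  have hS1 : wS Λ n S = m2 Λ := wS_zero_one hs hn
  rw [hS1] at hp
  rw [← hp]
  set p := ∑ κ ∈ (Finset.range n).powerset.filter (· ∈ S), wt Λ n h κ with hpd
  set p' := ∑ κ ∈ (Finset.range n).powerset.filter (fun κ => ¬ κ ∈ S), wt Λ n h κ with hpd'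
  have hpp : p + p' ≤ 1 := by
    rw [hpd, hpd', Finset.sum_filter_add_sum_filter_not]
    exact sum_wt_le_one n hh hf
  have hV := pot_ne_top hs h1 n h (m + 1) a
  set V := pot Λ n h (m + 1) a with hVd
  have hVle : V ≤ ENNReal.ofReal h * phi Λ a + (p' * V + p * pot Λ n h m (a + 1)) := by
    rw [hVd]
    conv_lhs => unfold pot
    gcongr ?_ + ?_
    · gcongr
      unfold phin
      split_ifs
      · exact le_rfl
      · exact zero_le
    · rw [← Finset.sum_filter_add_sum_filter_not (Finset.range n).powerset (· ∈ S), add_comm,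
        hpd, hpd', Finset.sum_mul, Finset.sum_mul]
      gcongr with κ hκ κ hκ
      · exact (pot_anti hs n h m (le_pos κ a)).trans (pot_mono_succ n h m a)
      · apply pot_anti hs n h m
        have := (Finset.mem_filter.1 hκ).2
        exact pos_gt_of_mem ha this.1 this.2
  have h4 : p * V + p' * V ≤ V := by
    rw [← add_mul]
    calc (p + p') * V ≤ 1 * V := by gcongr
      _ = V := one_mul V
  have h5 : p * V + p' * V ≤ (ENNReal.ofReal h * phi Λ a + p * pot Λ n h m (a + 1)) + p' * V := by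
    refine h4.trans (hVle.trans (le_of_eq ?_))
    ring
  have hp'V : p' * V ≠ ∞ := by
    apply ENNReal.mul_ne_top _ hV
    exact ne_top_of_le_ne_top ENNReal.one_ne_top (le_add_self.trans hpp)
  exact (ENNReal.add_le_add_iff_right hp'V).1 h5

/-- the probability that the first individual ever gets a child below the second one is small
when they start at the adjacent positions `a, a + 1` -/
lemma coal_adjacent (hs : Λ (Icc 0 1)ᶜ = 0) (h1 : m1 Λ ≠ ∞) {n : ℕ} (hn : 2 ≤ n) {h : ℝ}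
    (hh : 0 < h) (m : ℕ) {a : ℕ} (ha : 1 ≤ a) :
    ENNReal.ofReal (Real.exp (-(h * (wS Λ n {K | K.Nonempty}).toReal))) * m2 Λ *
      wsum (wt Λ n h) n m ({l | coal l a (a + 1)}.indicator 1) ≤ phi Λ a := by
  have h2 := coal_le hs h1 n hh.le m (Nat.lt_succ_self a)
  have h3 := pot_step hs h1 hn hh.le m ha
  have h4 := pot_mono_succ (Λ := Λ) n h m a
  set c := ENNReal.ofReal (Real.exp (-(h * (wS Λ n {K | K.Nonempty}).toReal))) with hc
  set C := wsum (wt Λ n h) n m ({l | coal l a (a + 1)}.indicator 1) with hC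
  have hh' : ENNReal.ofReal h ≠ 0 := by
    rw [Ne, ENNReal.ofReal_eq_zero]; linarith
  have h5 : c * (ENNReal.ofReal h * m2 Λ) * (C + pot Λ n h m (a + 1)) ≤
      ENNReal.ofReal h * phi Λ a + c * (ENNReal.ofReal h * m2 Λ) * pot Λ n h m (a + 1) :=
    le_trans (by gcongr; exact h2.trans h4) h3
  rw [mul_add] at h5
  have hm2 : m2 Λ ≠ ∞ := by
    refine ne_top_of_le_ne_top h1 ?_
    unfold m2 m1
    apply lintegral_mono_ae
    filter_upwards [nu_supp hs] with u hu
    calc ENNReal.ofReal u ^ 2 ≤ ENNReal.ofReal u ^ 1 := by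
          apply pow_le_pow_right_of_le_one' _ (by norm_num)
          rw [ENNReal.ofReal_le_one]; exact hu.2
      _ = _ := pow_one _
  have h6 : c * (ENNReal.ofReal h * m2 Λ) * pot Λ n h m (a + 1) ≠ ∞ := by
    apply ENNReal.mul_ne_top _ (pot_ne_top hs h1 n h m (a + 1))
    exact ENNReal.mul_ne_top ENNReal.ofReal_ne_top (ENNReal.mul_ne_top ENNReal.ofReal_ne_top hm2)
  have h7 := (ENNReal.add_le_add_iff_right h6).1 h5
  have h8 : ENNReal.ofReal h * (c * m2 Λ * C) ≤ ENNReal.ofReal h * phi Λ a := by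
    refine le_trans (le_of_eq ?_) h7
    ring
  exact (ENNReal.mul_le_mul_iff_right hh' ENNReal.ofReal_ne_top).1 h8

end Pool.Agent.Helper84.Eve
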