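import Pool.Agent.Helper84.Eve.Level

open MeasureTheory ProbabilityTheory Set Filter
open scoped ENNReal Topology

namespace Pool.Agent.Helper84.Eve

variable {Λ : Measure ℝ}

/-- on the levels below `n`, all types are `y0` up to level `b`, except `y1` at level `a` and
`y2` at level `b` -/
structure Cfg (n : ℕ) (x : ℕ → ℝ) (y0 y1 y2 : ℝ) (a b : ℕ) : Prop where
  ha : 1 ≤ a
  hab : a < b
  h0 : ∀ i < n, i ≠ a → i < b → x i = y0
  h1 : a < n → x a = y1
  h2 : b < n → x b = y2

lemma anc_le_low (K : Finset ℕ) (i : ℕ) : anc K i ≤ low K i := by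
  unfold anc
  split_ifs with hi
  · set p := sInf (K : Set ℕ) with hp
    have hne : (K : Set ℕ).Nonempty := ⟨i, by simpa using hi⟩
    have h1 : p ≤ i := Nat.sInf_le (by simpa using hi)
    have h2 : cnt K i ≤ i - p + 1 := by
      unfold cnt
      calc (K.filter (· ≤ i)).card ≤ (Finset.Icc p i).card := by
            apply Finset.card_le_card
            intro j hj
            simp only [Finset.mem_filter] at hj
            simp only [Finset.mem_Icc]
            exact ⟨Nat.sInf_le (by simpa using hj.1), hj.2⟩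
        _ = i - p + 1 := by simp; omega
    unfold low; omega
  · exact le_rfl

lemma cnt_of_isLeast {K : Finset ℕ} {a : ℕ} (h : IsLeast (K : Set ℕ) a) : cnt K a ≤ 1 := by
  unfold cnt
  apply Finset.card_le_one.2
  intro x hx y hy
  simp only [Finset.mem_filter] at hx hy
  have h1 := h.2 (show x ∈ (K : Set ℕ) by simpa using hx.1)
  have h2 := h.2 (show y ∈ (K : Set ℕ) by simpa using hy.1)
  omega

lemma anc_pos (K : Finset ℕ) (a : ℕ) : anc K (pos K a) = a := by
  by_cases h : IsLeast (K : Set ℕ) a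
  · have h1 := cnt_of_isLeast h
    rw [pos_of_cnt_le h1, anc_of_cnt_le h1]
  · exact (anc_eq_iff h _).2 rfl

lemma Cfg.step {n : ℕ} {x : ℕ → ℝ} {y0 y1 y2 : ℝ} {a b : ℕ} (hc : Cfg n x y0 y1 y2 a b)
    {κ : Finset ℕ} (hκ : ¬ (IsLeast (κ : Set ℕ) a ∧ ∃ j ∈ κ, a < j ∧ j ≤ b)) :
    Cfg n (fun i => x (anc κ i)) y0 y1 y2 (pos κ a) (pos κ b) := by
  refine ⟨hc.ha.trans (le_pos κ a), pos_lt_pos κ hc.hab, ?_, ?_, ?_⟩
  · intro i hi hia hib
    have h1 : low κ i < b := lt_pos_iff.1 hib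
    have h2 := anc_le_low κ i
    have h3 := anc_le κ i
    apply hc.h0 _ (by omega) _ (by omega)
    intro h4
    by_cases hl : IsLeast (κ : Set ℕ) a
    · have hcb : cnt κ b ≤ 1 := by
        unfold cnt
        apply Finset.card_le_one.2
        intro u hu v hv
        simp only [Finset.mem_filter] at hu hv
        have h5 := hl.2 (show u ∈ (κ : Set ℕ) by simpa using hu.1)
        have h6 := hl.2 (show v ∈ (κ : Set ℕ) by simpa using hv.1)
        have h7 : ¬ a < u := fun h => hκ ⟨hl, u, hu.1, h, hu.2⟩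
        have h8 : ¬ a < v := fun h => hκ ⟨hl, v, hv.1, h, hv.2⟩
        omega
      have hlb : low κ b = b := by unfold low; omega
      have hib' : i ≤ b := by
        by_contra h5
        have := low_mono κ (by omega : b ≤ i)
        omega
      have hci : cnt κ i ≤ 1 := (cnt_mono κ hib').trans hcb
      rw [anc_of_cnt_le hci] at h4
      have hpa : pos κ a = a := pos_of_cnt_le (cnt_of_isLeast hl)
      omega
    · exact hia ((anc_eq_iff hl i).1 h4)
  · intro h1
    simp only [anc_pos]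
    exact hc.h1 (lt_of_le_of_lt (le_pos κ a) h1)
  · intro h1
    simp only [anc_pos]
    exact hc.h2 (lt_of_le_of_lt (le_pos κ b) h1)

lemma Cfg.congr {n : ℕ} {x x' : ℕ → ℝ} {y0 y1 y2 : ℝ} {a b : ℕ} (hc : Cfg n x y0 y1 y2 a b)
    (h : ∀ i < n, x' i = x i) : Cfg n x' y0 y1 y2 a b := by
  refine ⟨hc.ha, hc.hab, ?_, ?_, ?_⟩
  · intro i hi h1 h2
    rw [h i hi]; exact hc.h0 i hi h1 h2
  · intro h1; rw [h a h1]; exact hc.h1 h1
  · intro h1; rw [h b h1]; exact hc.h2 h1

lemma cfg_run {A : Set Ev} {x : ℝ → ℕ → ℝ} (hD : DynOK A x) {n m : ℕ} {h : ℝ} (hh : 0 ≤ h)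
    (hG : Good A n m h) {y0 y1 y2 : ℝ} :
    ∀ (k r a b : ℕ), r + k = m → Cfg n (x (r * h)) y0 y1 y2 a b → ¬ coal (lsts A n h r k) a b →
      ∃ a' b', Cfg n (x (m * h)) y0 y1 y2 a' b' := by
  intro k
  induction k with
  | zero =>
    intro r a b hr hc _
    rw [add_zero] at hr
    subst hr
    exact ⟨a, b, hc⟩
  | succ k ih =>
    intro r a b hr hc hb
    unfold lsts coal at hb
    rw [not_or] at hb
    obtain ⟨hb1, hb2⟩ := hb
    have hrm : r < m := by omega
    have hcell := hG r hrm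
    have hr0 : (0 : ℝ) ≤ r * h := by positivity
    have hstep : (r : ℝ) * h ≤ (r + 1) * h := by nlinarith
    have hc' := (hc.step hb1).congr (x' := x ((r + 1 : ℕ) * h)) (by
      intro i hi
      have h3 := hD.step hr0 hstep hcell hi
      push_cast
      exact h3)
    exact ih (r + 1) _ _ (by omega) hc' hb2

/-- the levels `i < j` are the first two levels whose type is not the type of level `0` -/
def FirstTwo (x : ℕ → ℝ) (i j : ℕ) : Prop :=
  i < j ∧ (∀ k < i, x k = x 0) ∧ x i ≠ x 0 ∧ (∀ k, i < k → k < j → x k = x 0) ∧ x j ≠ x 0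

lemma Cfg.firstTwo {n : ℕ} {x : ℕ → ℝ} {y0 y1 y2 : ℝ} {a b : ℕ} (hc : Cfg n x y0 y1 y2 a b)
    (h01 : y0 ≠ y1) (h02 : y0 ≠ y2) (h12 : y1 ≠ y2) {i j : ℕ} (hj : j < n)
    (hf : FirstTwo x i j) : x i ≠ x j := by
  obtain ⟨hij, h1, h2, h3, h4⟩ := hf
  have ha := hc.ha
  have hab := hc.hab
  have hx0 : x 0 = y0 := hc.h0 0 (by omega) (by omega) (by omega)
  have hia : i = a := by
    by_contra hne
    by_cases hib : i < b
    · exact h2 (by rw [hx0]; exact hc.h0 i (by omega) hne hib)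
    · have h5 := h1 a (by omega)
      rw [hx0, hc.h1 (by omega)] at h5
      exact h01 h5.symm
  have hjb : j = b := by
    by_contra hne
    rcases lt_or_gt_of_ne hne with h5 | h5
    · exact h4 (by rw [hx0]; exact hc.h0 j hj (by omega) h5)
    · have h6 := h3 b (by omega) h5
      rw [hx0, hc.h2 (by omega)] at h6
      exact h02 h6.symm
  rw [hia, hjb, hc.h1 (by omega), hc.h2 (by omega)]
  exact h12

/-- the first two levels with a type different from the one of level `0` carry different types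
with probability bounded below -/
lemma level_bound (hr : DustRegime Λ) : ∃ θ : ℝ≥0∞, θ ≠ 0 ∧ ∀ {Ω : Type*} [MeasurableSpace Ω]
    (P : Measure Ω) [IsProbabilityMeasure P] (L : Lookdown P Λ) (T : ℕ), 1 ≤ T →
    P {ω | ∃ i j, FirstTwo (fun k => L.ξ T k ω) i j ∧ L.ξ T i ω = L.ξ T j ω} + θ ≤ 1 := by
  have := hr.finite
  obtain ⟨θ, hθ, n0, hb⟩ := coal_bound hr
  refine ⟨θ, hθ, ?_⟩
  intro Ω _ P _ L T hT
  have hs := hr.supp
  have h1 := hr.m1_ne_top
  set E : ℕ → Set Ω := fun n => {ω | ∃ i j, j < n ∧ FirstTwo (fun k => L.ξ T k ω) i j ∧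
    L.ξ T i ω = L.ξ T j ω} with hE
  have hmono : Monotone E := by
    intro n n' hn ω
    rintro ⟨i, j, hj, h2⟩
    exact ⟨i, j, by omega, h2⟩
  have hEn : ∀ n, n0 ≤ n → P (E n) + θ ≤ 1 := by
    intro n hn
    have hf := wS_ne_top hs h1 n
    have hlim : Tendsto (fun m : ℕ => (1 : ℝ≥0∞) + (m : ℝ≥0∞) *
        (ENNReal.ofReal ((T : ℝ) / m) * wS Λ n {K | K.Nonempty}) ^ 2) atTop (𝓝 1) := by
      have := (tendsto_err hr n T).const_add (1 : ℝ≥0∞)
      simpa using this
    apply ge_of_tendsto hlim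
    filter_upwards [hb n hn T hT, eventually_ge_atTop 1] with m hm hm1
    have hm0 : (0 : ℝ) < m := by exact_mod_cast hm1
    set h : ℝ := (T : ℝ) / m with hh
    have hh0 : 0 ≤ h := by positivity
    have hmh : (m : ℝ) * h = T := by rw [hh]; field_simp
    set D : Set Ω := {ω | DynOK (L.N ω) (fun t i => L.ξ t i ω) ∧
      ∀ i j, L.ξ 0 i ω = L.ξ 0 j ω → i = j} with hD
    have hDc : P Dᶜ = 0 := by
      have : ∀ᵐ ω ∂P, ω ∈ D := by
        filter_upwards [L.ae_dyn, L.ae_distinct] with ω h1 h2 using ⟨h1, h2⟩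
      exact this
    have hmain : P (E n ∩ D) ≤ wsum (wt Λ n h) n m ({l | coal l 1 2}.indicator 1) +
        m * (ENNReal.ofReal h * wS Λ n {K | K.Nonempty}) ^ 2 := by
      apply grid_bound L.poisson n m hf hh0
      rintro ω ⟨⟨i, j, hj, hft, heq⟩, hdyn, hdist⟩ hG
      rw [lst_eq]
      by_contra hnc
      have hcfg0 : Cfg n (L.ξ 0 · ω) (L.ξ 0 0 ω) (L.ξ 0 1 ω) (L.ξ 0 2 ω) 1 2 := by
        refine ⟨le_rfl, by norm_num, ?_, fun _ => rfl, fun _ => rfl⟩
        intro i _ h2 h3
        have : i = 0 := by omega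
        rw [this]
      obtain ⟨a', b', hc'⟩ := cfg_run hdyn hh0 hG m 0 1 2 (by simp) (by simpa using hcfg0) hnc
      rw [hmh] at hc'
      refine hc'.firstTwo ?_ ?_ ?_ hj hft heq
      · intro h2; have := hdist _ _ h2; omega
      · intro h2; have := hdist _ _ h2; omega
      · intro h2; have := hdist _ _ h2; omega
    have hle : P (E n) ≤ P (E n ∩ D) := by
      calc P (E n) ≤ P ((E n ∩ D) ∪ Dᶜ) := by
            apply measure_mono
            intro ω hω
            by_cases h2 : ω ∈ D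
            · left; exact ⟨hω, h2⟩
            · right; exact h2
        _ ≤ P (E n ∩ D) + P Dᶜ := measure_union_le _ _
        _ = _ := by rw [hDc, add_zero]
    calc P (E n) + θ ≤ (wsum (wt Λ n h) n m ({l | coal l 1 2}.indicator 1) +
        m * (ENNReal.ofReal h * wS Λ n {K | K.Nonempty}) ^ 2) + θ := by
          gcongr; exact hle.trans hmain
      _ = (wsum (wt Λ n h) n m ({l | coal l 1 2}.indicator 1) + θ) +
        m * (ENNReal.ofReal h * wS Λ n {K | K.Nonempty}) ^ 2 := by ring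
      _ ≤ _ := by gcongr
  have hsub : {ω | ∃ i j, FirstTwo (fun k => L.ξ T k ω) i j ∧ L.ξ T i ω = L.ξ T j ω} ⊆
      ⋃ n, E (n + n0) := by
    rintro ω ⟨i, j, h2, h3⟩
    exact mem_iUnion.2 ⟨j + 1, i, j, by omega, h2, h3⟩
  have hθ1 : θ ≠ ∞ := by
    have := hEn n0 le_rfl
    intro h2
    rw [h2] at this
    simp at this
  have h2 : P (⋃ n, E (n + n0)) ≤ 1 - θ := by
    have hm' : Monotone fun n => E (n + n0) := fun a b hab => hmono (by omega)
    rw [hm'.measure_iUnion]
    apply iSup_le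
    intro n
    exact ENNReal.le_sub_of_add_le_right hθ1 (hEn (n + n0) (by omega))
  have hθle : θ ≤ 1 := le_add_self.trans (hEn n0 le_rfl)
  calc _ ≤ (1 - θ) + θ := by gcongr; exact (measure_mono hsub).trans h2
    _ = 1 := tsub_add_cancel_of_le hθle

end Pool.Agent.Helper84.Eve
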