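import Pool.Agent.Helper84.Eve.Dyn

open MeasureTheory ProbabilityTheory Set Filter
open scoped ENNReal Topology

namespace Pool.Agent.Helper84.Eve

variable {Ω : Type*} [MeasurableSpace Ω] {P : Measure Ω} {Λ : Measure ℝ}

lemma Lookdown.ae_dyn (L : Lookdown P Λ) : ∀ᵐ ω ∂P, DynOK (L.N ω) (fun t i => L.ξ t i ω) := by
  filter_upwards [L.rest, L.jump] with ω h1 h2
  exact ⟨h1, h2⟩

lemma unif_singleton (x : ℝ) : unif {x} = 0 := by
  unfold unif
  exact le_antisymm ((Measure.restrict_le_self _).trans (by simp)) zero_le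

lemma Lookdown.ae_ne (L : Lookdown P Λ) {i j : ℕ} (hij : i ≠ j) :
    ∀ᵐ ω ∂P, L.ξ 0 i ω ≠ L.ξ 0 j ω := by
  have h1 : IndepFun (L.ξ 0 i) (L.ξ 0 j) P := L.indep_init.indepFun hij
  have hp : IsProbabilityMeasure P := by
    have : P.map (L.ξ 0 i) univ = 1 := by rw [L.law_init]; simp
    rw [Measure.map_apply (L.measurable_init i) MeasurableSet.univ] at this
    exact ⟨by simpa using this⟩
  rw [indepFun_iff_map_prod_eq_prod_map_map (L.measurable_init i).aemeasurable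
    (L.measurable_init j).aemeasurable, L.law_init, L.law_init] at h1
  have h2 : MeasurableSet {p : ℝ × ℝ | p.1 = p.2} := measurableSet_eq_fun (by fun_prop) (by fun_prop)
  have h3 : (unif.prod unif) {p : ℝ × ℝ | p.1 = p.2} = 0 := by
    rw [Measure.prod_apply h2]
    rw [lintegral_congr (g := fun _ => 0)]
    · simp
    · intro x
      have : Prod.mk x ⁻¹' {p : ℝ × ℝ | p.1 = p.2} = {x} := by
        ext y; simp [eq_comm]
      rw [this, unif_singleton]
  rw [← h1, Measure.map_apply ((L.measurable_init i).prodMk (L.measurable_init j)) h2] at h3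
  rw [ae_iff]
  convert h3 using 2
  ext ω
  simp

lemma Lookdown.ae_distinct (L : Lookdown P Λ) :
    ∀ᵐ ω ∂P, ∀ i j, L.ξ 0 i ω = L.ξ 0 j ω → i = j := by
  rw [ae_all_iff]
  intro i
  rw [ae_all_iff]
  intro j
  by_cases h : i = j
  · filter_upwards with ω _ using h
  · filter_upwards [L.ae_ne h] with ω h1 h2
    exact absurd h2 h1

/-- `∫ u (1-u)^a ν(du)` -/
noncomputable def phi (Λ : Measure ℝ) (a : ℕ) : ℝ≥0∞ :=
  ∫⁻ u, ENNReal.ofReal u * ENNReal.ofReal (1 - u) ^ a ∂(nu Λ)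

/-- `∫ u^g ν(du)` -/
noncomputable def psi (Λ : Measure ℝ) (g : ℕ) : ℝ≥0∞ := ∫⁻ u, ENNReal.ofReal u ^ g ∂(nu Λ)

lemma wS_full (hs : Λ (Icc 0 1)ᶜ = 0) (g : ℕ) : wS Λ g {Finset.range g} = psi Λ g := by
  unfold wS
  have : {q : ℝ × (ℕ → ℝ) | pat g (0, q) ∈ ({Finset.range g} : Set (Finset ℕ))} =
      {q : ℝ × (ℕ → ℝ) | (∀ j ∈ Finset.range g, q.2 j < q.1) ∧
        ∀ j ∈ (∅ : Finset ℕ), ¬ q.2 j < q.1} := by
    ext q
    simp only [mem_ofPred_eq, mem_singleton_iff, Finset.mem_range]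
    constructor
    · intro h1
      refine ⟨fun j hj => ?_, by simp⟩
      have : j ∈ pat g (0, q) := by rw [h1]; simpa using hj
      exact (mem_pat.1 this).2
    · rintro ⟨h1, _⟩
      ext j
      rw [mem_pat]
      constructor
      · rintro ⟨h2, _⟩; simpa using h2
      · intro h2
        have h3 : j < g := by simpa using h2
        exact ⟨h3, h1 j h3⟩
  rw [this, mk_marks hs (by simp)]
  simp [psi]

lemma wS_ne_top (hs : Λ (Icc 0 1)ᶜ = 0) (h1 : m1 Λ ≠ ∞) (n : ℕ) :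
    wS Λ n {K | K.Nonempty} ≠ ∞ :=
  ne_top_of_le_ne_top (ENNReal.mul_ne_top (ENNReal.natCast_ne_top n) h1) (wS_nonempty_le hs n)

/-- index function of the grid -/
def gidx (gs : ℕ → ℕ) (q r : ℕ) : ℕ := if r < q then 1 else gs (Nat.log 2 (r / q))

lemma gidx_low {gs : ℕ → ℕ} {q r : ℕ} (h : r < q) : gidx gs q r = 1 := by simp [gidx, h]

lemma gidx_block {gs : ℕ → ℕ} {q r j : ℕ} (hq : 0 < q) (h1 : 2 ^ j * q ≤ r)
    (h2 : r < 2 ^ (j + 1) * q) : gidx gs q r = gs j := by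
  unfold gidx
  have h3 : ¬ r < q := by
    have : 1 ≤ 2 ^ j := Nat.one_le_two_pow
    nlinarith
  rw [if_neg h3]
  congr 1
  apply Nat.log_eq_of_pow_le_of_lt_pow
  · exact (Nat.le_div_iff_mul_le hq).2 h1
  · exact (Nat.div_lt_iff_lt_mul hq).2 h2

lemma sum_gidx (gs : ℕ → ℕ) {q : ℕ} (hq : 0 < q) (J : ℕ) (f : ℕ → ℝ≥0∞) :
    ∑ r ∈ Finset.range (2 ^ J * q), f (gidx gs q r) =
      q * f 1 + ∑ j ∈ Finset.range J, (2 ^ j * q : ℕ) * f (gs j) := by
  induction J with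
  | zero =>
    simp only [pow_zero, one_mul, Finset.range_zero, Finset.sum_empty, add_zero]
    rw [Finset.sum_congr rfl (g := fun _ => f 1)]
    · simp
    · intro r hr
      rw [gidx_low (Finset.mem_range.1 hr)]
  | succ J ih =>
    have h1 : 2 ^ (J + 1) * q = 2 ^ J * q + 2 ^ J * q := by ring
    rw [h1, Finset.sum_range_add, ih, Finset.sum_range_succ, add_assoc]
    congr 2
    rw [Finset.sum_congr rfl (g := fun _ => f (gs J))]
    · simp
    · intro r hr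
      have := Finset.mem_range.1 hr
      rw [gidx_block hq (j := J)]
      · omega
      · rw [h1]; omega

/-- two levels below `n` carry the type of the second initial individual at some time up to
`T` -/
def twoCar (L : Lookdown P Λ) (T : ℝ) (n : ℕ) : Set Ω :=
  {ω | ∃ t, 0 ≤ t ∧ t ≤ T ∧ ∃ i < n, ∃ j < n, i ≠ j ∧ L.ξ t i ω = L.ξ 0 1 ω ∧ L.ξ t j ω = L.ξ 0 1 ω}

lemma prob_no_full [SFinite Λ] (L : Lookdown P Λ) (hs : Λ (Icc 0 1)ᶜ = 0) (h1 : m1 Λ ≠ ∞)
    {g : ℕ} (hg : 1 ≤ g) (t : ℝ) :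
    P {ω | (L.N ω ∩ cellS g 0 t {Finset.range g}).encard = 0} =
      ENNReal.ofReal (Real.exp (-(ENNReal.ofReal t * psi Λ g).toReal)) := by
  have h2 : intensity Λ (cellS g 0 t {Finset.range g}) = ENNReal.ofReal t * psi Λ g := by
    rw [intensity_cellS g le_rfl, sub_zero, wS_full hs]
  rw [L.poisson.measure_zero (measurableSet_cellS _ _ _ _), h2]
  rw [h2, ← wS_full hs]
  apply ENNReal.mul_ne_top ENNReal.ofReal_ne_top
  refine ne_top_of_le_ne_top (wS_ne_top hs h1 g) (wS_mono g ?_)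
  rintro _ rfl
  exact ⟨0, by simpa using by omega⟩

lemma twoCar_grid [IsProbabilityMeasure P] [SFinite Λ] (L : Lookdown P Λ)
    (hs : Λ (Icc 0 1)ᶜ = 0) (h1 : m1 Λ ≠ ∞) (gs : ℕ → ℕ) (hgs : ∀ j, 1 ≤ gs j)
    (J n : ℕ) {q : ℕ} (hq : 0 < q) :
    P (twoCar L (2 ^ J / 32) n) ≤
      (ENNReal.ofReal (1 / 32) * phi Λ 1 + ∑' j, ENNReal.ofReal (2 ^ j / 32) * phi Λ (gs j)) +
      ∑' j, ENNReal.ofReal (Real.exp (-(ENNReal.ofReal (2 ^ j / 32) * psi Λ (gs j)).toReal)) +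
      (2 ^ J * q : ℕ) * (ENNReal.ofReal (1 / (32 * q)) * wS Λ n {K | K.Nonempty}) ^ 2 := by
  have hf := wS_ne_top hs h1 n
  set h : ℝ := 1 / (32 * q) with hh
  have hq0 : (0 : ℝ) < q := by exact_mod_cast hq
  have hh0 : 0 ≤ h := by positivity
  set Bc : ℕ → Set Ω := fun j =>
    {ω | (L.N ω ∩ cellS (gs j) 0 (2 ^ j / 32) {Finset.range (gs j)}).encard = 0} with hBc
  set D : Set Ω := {ω | DynOK (L.N ω) (fun t i => L.ξ t i ω) ∧
    ∀ i j, L.ξ 0 i ω = L.ξ 0 j ω → i = j} with hD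
  have hDc : P Dᶜ = 0 := by
    have : ∀ᵐ ω ∂P, ω ∈ D := by
      filter_upwards [L.ae_dyn, L.ae_distinct] with ω h1 h2 using ⟨h1, h2⟩
    exact this
  set A : Set Ω := (twoCar L (2 ^ J / 32) n ∩ D) ∩ (⋃ j, Bc j)ᶜ with hA
  have hcover : twoCar L (2 ^ J / 32) n ⊆ (A ∪ ⋃ j, Bc j) ∪ Dᶜ := by
    intro ω hω
    by_cases h2 : ω ∈ D
    · by_cases h3 : ω ∈ ⋃ j, Bc j
      · left; right; exact h3
      · left; left; exact ⟨⟨hω, h2⟩, h3⟩
    · right; exact h2
  have hmain : P A ≤ wsum (wt Λ n h) n (2 ^ J * q)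
      ({l | badl (gidx gs q) l 1 0}.indicator 1) +
      (2 ^ J * q : ℕ) * (ENNReal.ofReal h * wS Λ n {K | K.Nonempty}) ^ 2 := by
    apply grid_bound L.poisson n _ hf hh0
    rintro ω ⟨⟨h2, h3, h4⟩, h5⟩ hG
    rw [lst_eq]
    by_contra hnb
    have hbd := not_bad h3 hh0 hG (gidx gs q) ?_ (L.ξ 0 1 ω) (2 ^ J * q) 0 1 (by simp) le_rfl ?_ ?_
      hnb
    · obtain ⟨t, ht0, htT, i, hi, j, hj, hij, h6, h7⟩ := h2
      obtain ⟨a', ha'⟩ := hbd t (by simpa using ht0) (by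
        have : ((2 ^ J * q : ℕ) : ℝ) * h = 2 ^ J / 32 := by
          rw [hh]; push_cast; field_simp
        rw [this]; exact htT)
      exact hij ((ha' i hi h6).trans (ha' j hj h7).symm)
    · intro r hr
      by_cases hrq : r < q
      · left; rw [gidx_low hrq]
      · right
        have hrq' : q ≤ r := by omega
        have hrq1 : r / q ≠ 0 := by
          have := Nat.div_pos hrq' hq; omega
        set j := Nat.log 2 (r / q) with hj
        have h6 : gidx gs q r = gs j := by simp [gidx, hrq, hj]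
        have h7 : 2 ^ j * q ≤ r := by
          have := Nat.pow_log_le_self 2 hrq1
          exact (Nat.le_div_iff_mul_le hq).1 this
        have h8 : ω ∉ Bc j := fun h9 => h5 (mem_iUnion.2 ⟨j, h9⟩)
        have h9 : (L.N ω ∩ cellS (gs j) 0 (2 ^ j / 32) {Finset.range (gs j)}).Nonempty := by
          rw [← Set.encard_ne_zero]
          exact h8
        obtain ⟨e, he1, he2, he3, he4⟩ := h9
        refine ⟨e, he1, he2, he3.trans ?_, ?_⟩
        · rw [hh]
          have h10 : ((2 : ℝ) ^ j * q) ≤ r := by exact_mod_cast h7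
          rw [mul_one_div, div_le_div_iff₀ (by norm_num) (by positivity)]
          nlinarith
        · rw [h6]
          intro i hi
          have h11 : pat (gs j) e = Finset.range (gs j) := he4
          have : i ∈ pat (gs j) e := by rw [h11]; simpa using hi
          exact (mem_pat.1 this).2
    · intro i _
      simp only [Nat.cast_zero, zero_mul]
      constructor
      · intro h6; exact h4 _ _ h6
      · intro h6; rw [h6]
    · intro e _ he1 he2
      simp only [Nat.cast_zero, zero_mul] at he2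
      linarith
  have hws : wsum (wt Λ n h) n (2 ^ J * q) ({l | badl (gidx gs q) l 1 0}.indicator 1) ≤
      ENNReal.ofReal (1 / 32) * phi Λ 1 + ∑' j, ENNReal.ofReal (2 ^ j / 32) * phi Λ (gs j) := by
    refine (wsum_badl_le hs hh0 hf (gidx gs q) (2 ^ J * q) 1 0).trans ?_
    simp only [zero_add]
    rw [sum_gidx gs hq J (fun a => ENNReal.ofReal h *
        ∫⁻ u, ENNReal.ofReal u * ENNReal.ofReal (1 - u) ^ a ∂(nu Λ))]
    refine add_le_add ?_ ?_
    · rw [← mul_assoc]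
      unfold phi
      gcongr
      rw [← ENNReal.ofReal_natCast, ← ENNReal.ofReal_mul hq0.le]
      apply ENNReal.ofReal_le_ofReal
      rw [hh]; apply le_of_eq; field_simp
    · refine le_trans (Finset.sum_le_sum fun j _ => ?_)
        (ENNReal.sum_le_tsum (f := fun j => ENNReal.ofReal (2 ^ j / 32) * phi Λ (gs j))
          (Finset.range J))
      rw [← mul_assoc]
      unfold phi
      gcongr
      rw [← ENNReal.ofReal_natCast, ← ENNReal.ofReal_mul (by positivity)]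
      apply ENNReal.ofReal_le_ofReal
      rw [hh]; push_cast; apply le_of_eq; field_simp
  calc P (twoCar L (2 ^ J / 32) n) ≤ P ((A ∪ ⋃ j, Bc j) ∪ Dᶜ) := measure_mono hcover
    _ ≤ P A + P (⋃ j, Bc j) + P Dᶜ :=
        (measure_union_le _ _).trans (by gcongr; exact measure_union_le _ _)
    _ ≤ P A + ∑' j, P (Bc j) := by
        rw [hDc, add_zero]
        gcongr
        exact measure_iUnion_le _
    _ ≤ (wsum (wt Λ n h) n (2 ^ J * q)
      ({l | badl (gidx gs q) l 1 0}.indicator 1) +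
      (2 ^ J * q : ℕ) * (ENNReal.ofReal h * wS Λ n {K | K.Nonempty}) ^ 2) +
      ∑' j, ENNReal.ofReal (Real.exp (-(ENNReal.ofReal (2 ^ j / 32) * psi Λ (gs j)).toReal)) := by
        gcongr with j
        exact (prob_no_full L hs h1 (hgs j) _).le
    _ ≤ _ := by
        rw [add_right_comm]
        gcongr

lemma twoCar_le [IsProbabilityMeasure P] [SFinite Λ] (L : Lookdown P Λ)
    (hs : Λ (Icc 0 1)ᶜ = 0) (h1 : m1 Λ ≠ ∞) (gs : ℕ → ℕ) (hgs : ∀ j, 1 ≤ gs j)
    (J n : ℕ) :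
    P (twoCar L (2 ^ J / 32) n) ≤
      (ENNReal.ofReal (1 / 32) * phi Λ 1 + ∑' j, ENNReal.ofReal (2 ^ j / 32) * phi Λ (gs j)) +
      ∑' j, ENNReal.ofReal (Real.exp (-(ENNReal.ofReal (2 ^ j / 32) * psi Λ (gs j)).toReal)) := by
  set K := (ENNReal.ofReal (1 / 32) * phi Λ 1 +
      ∑' j, ENNReal.ofReal (2 ^ j / 32) * phi Λ (gs j)) +
      ∑' j, ENNReal.ofReal (Real.exp (-(ENNReal.ofReal (2 ^ j / 32) * psi Λ (gs j)).toReal))
    with hK
  set M := wS Λ n {K | K.Nonempty} with hM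
  have hf : M ≠ ∞ := wS_ne_top hs h1 n
  have hlim : Tendsto (fun q : ℕ => K + ENNReal.ofReal ((2 ^ J / 1024) / (q : ℝ)) * M ^ 2) atTop
      (𝓝 K) := by
    have h2 : Tendsto (fun q : ℕ => ENNReal.ofReal ((2 ^ J / 1024) / (q : ℝ))) atTop (𝓝 0) := by
      have := ENNReal.tendsto_ofReal (tendsto_const_div_atTop_nhds_zero_nat ((2 : ℝ) ^ J / 1024))
      simpa using this
    have h3 := ENNReal.Tendsto.mul_const (b := M ^ 2) h2 (Or.inr (ENNReal.pow_ne_top hf))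
    have h4 := h3.const_add K
    simpa using h4
  apply ge_of_tendsto hlim
  filter_upwards [eventually_gt_atTop 0] with q hq
  have h2 := twoCar_grid L hs h1 gs hgs J n hq
  refine h2.trans ?_
  rw [hK]
  refine add_le_add le_rfl (le_of_eq ?_)
  rw [mul_pow, ← mul_assoc, ← ENNReal.ofReal_pow (by positivity), ← ENNReal.ofReal_natCast,
    ← ENNReal.ofReal_mul (by positivity)]
  congr 2
  have hq0 : (0 : ℝ) < q := by exact_mod_cast hq
  push_cast
  field_simp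
  norm_num

/-- criterion for the failure of the first question -/
theorem criterion [IsProbabilityMeasure P] [SFinite Λ] (L : Lookdown P Λ)
    (hs : Λ (Icc 0 1)ᶜ = 0) (h1 : m1 Λ ≠ ∞) (gs : ℕ → ℕ) (hgs : ∀ j, 1 ≤ gs j)
    (hK : (ENNReal.ofReal (1 / 32) * phi Λ 1 +
      ∑' j, ENNReal.ofReal (2 ^ j / 32) * phi Λ (gs j)) +
      ∑' j, ENNReal.ofReal (Real.exp (-(ENNReal.ofReal (2 ^ j / 32) * psi Λ (gs j)).toReal)) < 1) :
    P {ω | ∃ t, 0 ≤ t ∧ ∃ i j, i ≠ j ∧ L.ξ t i ω = L.ξ 0 1 ω ∧ L.ξ t j ω = L.ξ 0 1 ω} < 1 := by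
  have hmono : Monotone fun k : ℕ => twoCar L (2 ^ k / 32) k := by
    intro k l hkl ω
    rintro ⟨t, h2, h3, i, hi, j, hj, h4⟩
    refine ⟨t, h2, h3.trans ?_, i, by omega, j, by omega, h4⟩
    have : (2 : ℝ) ^ k ≤ 2 ^ l := pow_le_pow_right₀ (by norm_num) hkl
    linarith
  have hsub : {ω | ∃ t, 0 ≤ t ∧ ∃ i j, i ≠ j ∧ L.ξ t i ω = L.ξ 0 1 ω ∧ L.ξ t j ω = L.ξ 0 1 ω} ⊆
      ⋃ k : ℕ, twoCar L (2 ^ k / 32) k := by
    rintro ω ⟨t, ht, i, j, hij, h2, h3⟩
    obtain ⟨k, hk⟩ := pow_unbounded_of_one_lt (32 * t) (by norm_num : (1 : ℝ) < 2)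
    refine mem_iUnion.2 ⟨k + i + j + 1, t, ht, ?_, i, by omega, j, by omega, hij, h2, h3⟩
    have : (2 : ℝ) ^ k ≤ 2 ^ (k + i + j + 1) := pow_le_pow_right₀ (by norm_num) (by omega)
    rw [le_div_iff₀ (by norm_num)]
    linarith
  refine lt_of_le_of_lt ((measure_mono hsub).trans ?_) hK
  rw [hmono.measure_iUnion]
  exact iSup_le fun k => twoCar_le L hs h1 gs hgs k k

lemma freq_tendsto_zero {x : ℕ → ℝ} {y : ℝ} (h : ∀ i j, x i = y → x j = y → i = j) :
    Tendsto (freq x y) atTop (𝓝 0) := by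
  have h1 : ∀ n, freq x y n ≤ 1 / n := by
    intro n
    unfold freq
    gcongr
    have : {j | j < n ∧ x j = y}.ncard ≤ 1 := by
      have hfin : {j | j < n ∧ x j = y}.Finite :=
        (Set.finite_Iio n).subset fun j hj => hj.1
      apply (Set.ncard_le_one_iff_eq hfin).2
      by_cases hne : {j | j < n ∧ x j = y}.Nonempty
      · right
        obtain ⟨i, hi⟩ := hne
        refine ⟨i, ?_⟩
        ext j
        simp only [mem_ofPred_eq, mem_singleton_iff]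
        constructor
        · rintro ⟨_, h2⟩; exact h _ _ h2 hi.2
        · rintro rfl; exact hi
      · left; exact Set.not_nonempty_iff_eq_empty.1 hne
    exact_mod_cast this
  have h0 : ∀ n, 0 ≤ freq x y n := fun n => by unfold freq; positivity
  exact squeeze_zero h0 h1 tendsto_one_div_atTop_nhds_zero_nat

theorem criterion' [IsProbabilityMeasure P] [SFinite Λ] (L : Lookdown P Λ)
    (hs : Λ (Icc 0 1)ᶜ = 0) (h1 : m1 Λ ≠ ∞) (gs : ℕ → ℕ) (hgs : ∀ j, 1 ≤ gs j)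
    (hK : (ENNReal.ofReal (1 / 32) * phi Λ 1 +
      ∑' j, ENNReal.ofReal (2 ^ j / 32) * phi Λ (gs j)) +
      ∑' j, ENNReal.ofReal (Real.exp (-(ENNReal.ofReal (2 ^ j / 32) * psi Λ (gs j)).toReal)) < 1) :
    ¬ ∀ᵐ ω ∂P, ∀ i, ∃ t, 0 ≤ t ∧
      ¬ Tendsto (freq (fun j => L.ξ t j ω) (L.ξ 0 i ω)) atTop (𝓝 0) := by
  intro hall
  have h2 := criterion L hs h1 gs hgs hK
  have h3 : ∀ᵐ ω ∂P, ω ∈ {ω | ∃ t, 0 ≤ t ∧ ∃ i j, i ≠ j ∧ L.ξ t i ω = L.ξ 0 1 ω ∧
      L.ξ t j ω = L.ξ 0 1 ω} := by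
    filter_upwards [hall] with ω hω
    obtain ⟨t, ht, h4⟩ := hω 1
    by_contra h5
    apply h4
    apply freq_tendsto_zero
    intro i j hi hj
    by_contra hij
    exact h5 ⟨t, ht, i, j, hij, hi, hj⟩
  set S := {ω | ∃ t, 0 ≤ t ∧ ∃ i j, i ≠ j ∧ L.ξ t i ω = L.ξ 0 1 ω ∧ L.ξ t j ω = L.ξ 0 1 ω}
  have h4 : P Sᶜ = 0 := h3
  have h5 : P univ ≤ P S + P Sᶜ := by
    rw [← Set.union_compl_self S]; exact measure_union_le _ _
  rw [measure_univ, h4, add_zero] at h5
  exact absurd h2 (not_lt.2 h5)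

end Pool.Agent.Helper84.Eve
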