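import Mathlib

open MeasureTheory ProbabilityTheory Set Filter
open scoped ENNReal Topology

namespace Pool.Agent.Helper84.Eve

/-- `N` is a Poisson point process with intensity `μ`: the number of points of the random set
`N` in a measurable set `A` is a random variable, it has the Poisson law with mean `μ A` when
`μ A` is finite, and the numbers of points in disjoint sets are independent. -/
structure IsPoisson {Ω : Type*} [MeasurableSpace Ω] {E : Type*} [MeasurableSpace E]
    (P : Measure Ω) (N : Ω → Set E) (μ : Measure E) : Prop where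
  measurable_count : ∀ A, MeasurableSet A → Measurable fun ω => (N ω ∩ A).encard
  count_law : ∀ A, MeasurableSet A → μ A ≠ ∞ → ∀ k : ℕ,
    P {ω | (N ω ∩ A).encard = k} =
      ENNReal.ofReal (Real.exp (-(μ A).toReal) * (μ A).toReal ^ k / k.factorial)
  indep : ∀ (n : ℕ) (A : Fin n → Set E), (∀ i, MeasurableSet (A i)) →
    Pairwise (Function.onFun Disjoint A) → iIndepFun (fun i ω => (N ω ∩ A i).encard) P

/-- The sigma-algebra generated by a point process. -/
noncomputable abbrev sigmaPoints {Ω : Type*} {E : Type*} [MeasurableSpace E] (N : Ω → Set E) : MeasurableSpace Ω :=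
  ⨆ A : {A : Set E // MeasurableSet A},
    MeasurableSpace.comap (fun ω => (N ω ∩ A.1).encard) inferInstance

/-- The uniform law on `[0,1]`. -/
noncomputable def unif : Measure ℝ := volume.restrict (Icc 0 1)

/-- The measure `ν(du) = u⁻² Λ(du)`. -/
noncomputable def nu (Λ : Measure ℝ) : Measure ℝ :=
  Λ.withDensity fun u => ENNReal.ofReal (u ^ 2)⁻¹

/-- A reproduction event: time, size, and one mark in `[0,1]` for every level. Levels are
numbered `0, 1, 2, ...`. -/
abbrev Ev := ℝ × ℝ × (ℕ → ℝ)

/-- Intensity `dt ⊗ ν(du) ⊗ (uniform marks)` of the driving point process. -/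
noncomputable def intensity (Λ : Measure ℝ) : Measure Ev :=
  (volume.restrict (Ioi 0)).prod ((nu Λ).prod (Measure.infinitePi fun _ : ℕ => unif))

/-- Level `j` participates in the event `e = (t, u, v)` iff `v j < u`. -/
def Part (e : Ev) (j : ℕ) : Prop := e.2.2 j < e.2.1

/-- Number of participating levels among `0, ..., i`. -/
noncomputable def numPart (e : Ev) (i : ℕ) : ℕ := {j | j ≤ i ∧ Part e j}.ncard

/-- The level just before the event `e` whose type is the type of level `i` just after `e`: a
participating level takes the type of the lowest participating level, and on the other levels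
the old types are shifted upward, keeping their order. -/
noncomputable def origin (e : Ev) (i : ℕ) : ℕ :=
  open Classical in if Part e i then sInf {j | Part e j} else i - (numPart e i - 1)

/-- The lookdown representation of the `Λ` Fleming-Viot process on a probability space. -/
structure Lookdown {Ω : Type*} [MeasurableSpace Ω] (P : Measure Ω) (Λ : Measure ℝ) where
  /-- the reproduction events -/
  N : Ω → Set Ev
  /-- `ξ t i` is the type of level `i` at time `t` -/
  ξ : ℝ → ℕ → Ω → ℝ
  poisson : IsPoisson P N (intensity Λ)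
  measurable_init : ∀ i, Measurable (ξ 0 i)
  law_init : ∀ i, P.map (ξ 0 i) = unif
  indep_init : iIndepFun (ξ 0) P
  indep : Indep (sigmaPoints N) (⨆ i, MeasurableSpace.comap (ξ 0 i) inferInstance) P
  /-- if no event in `(s,t]` has two participants among the levels up to `i`, the type of level
  `i` stays the same -/
  rest : ∀ᵐ ω ∂P, ∀ (i : ℕ) (s t : ℝ), 0 ≤ s → s ≤ t →
    (∀ e ∈ N ω, s < e.1 → e.1 ≤ t → numPart e i ≤ 1) → ξ t i ω = ξ s i ω
  /-- if exactly one event in `(s,t]` has two participants among the levels up to `i`, the type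
  of level `i` is given by this event -/
  jump : ∀ᵐ ω ∂P, ∀ (i : ℕ) (s t : ℝ), 0 ≤ s → s ≤ t →
    ∀ e ∈ N ω, s < e.1 → e.1 ≤ t → 2 ≤ numPart e i →
    (∀ e' ∈ N ω, s < e'.1 → e'.1 ≤ t → 2 ≤ numPart e' i → e' = e) →
    ξ t i ω = ξ s (origin e i) ω

/-- The intensive-with-dust regime. -/
structure DustRegime (Λ : Measure ℝ) : Prop where
  finite : IsFiniteMeasure Λ
  supp : Λ (Icc 0 1)ᶜ = 0
  zero : Λ {0} = 0
  dust : ∫⁻ u, ENNReal.ofReal u⁻¹ ∂Λ < ∞
  infinite : ∫⁻ u, ENNReal.ofReal (u ^ 2)⁻¹ ∂Λ = ∞

/-- The proportion of the levels `0, ..., n-1` whose type is `y`. -/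
noncomputable def freq (x : ℕ → ℝ) (y : ℝ) (n : ℕ) : ℝ := ({j | j < n ∧ x j = y}.ncard : ℝ) / n

/-- The probability measure `μ` is the limit of the empirical measures
`(1/n) ∑_{i<n} δ_{x i}`, in the weak topology. -/
def EmpLimit (x : ℕ → ℝ) (μ : Measure ℝ) : Prop :=
  IsProbabilityMeasure μ ∧ ∀ f : ℝ → ℝ, Continuous f → (∃ C, ∀ y, |f y| ≤ C) →
    Tendsto (fun n : ℕ => (∑ i ∈ Finset.range n, f (x i)) / n) atTop (𝓝 (∫ y, f y ∂μ))

/-- `ρ` is a version of the Fleming-Viot process of the lookdown system `L`: at every time it is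
almost surely the limit of the empirical measures, and almost surely its path is right-continuous
in the weak topology. -/
structure IsFV {Ω : Type*} [MeasurableSpace Ω] {P : Measure Ω} {Λ : Measure ℝ} (L : Lookdown P Λ)
    (ρ : ℝ → Ω → Measure ℝ) : Prop where
  limit : ∀ t, 0 ≤ t → ∀ᵐ ω ∂P, EmpLimit (fun i => L.ξ t i ω) (ρ t ω)
  cont : ∀ᵐ ω ∂P, ∀ t, 0 ≤ t → IsProbabilityMeasure (ρ t ω) ∧
    ∀ f : ℝ → ℝ, Continuous f → (∃ C, ∀ y, |f y| ≤ C) →
      ContinuousWithinAt (fun s => ∫ y, f y ∂(ρ s ω)) (Ici t) t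

/-- The points `e 0, e 1, ...` form an infinite sequence of Eves for the path `t ↦ μ t`. -/
def IsEves (μ : ℝ → Measure ℝ) (e : ℕ → ℝ) : Prop :=
  Function.Injective e ∧ (∀ i, e i ∈ Icc (0 : ℝ) 1) ∧
    ∀ i, Tendsto (fun t => μ t {e i} / μ t (Icc 0 1 \ e '' {j | j < i})) atTop (𝓝 1)

end Pool.Agent.Helper84.Eve
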