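import Pool.Agent.Helper84.Eve.Grid

open MeasureTheory ProbabilityTheory Set Filter
open scoped ENNReal Topology

namespace Pool.Agent.Helper84.Eve

/-- the deterministic dynamics -/
structure DynOK (A : Set Ev) (x : ℝ → ℕ → ℝ) : Prop where
  rest : ∀ (i : ℕ) (s t : ℝ), 0 ≤ s → s ≤ t →
    (∀ e ∈ A, s < e.1 → e.1 ≤ t → numPart e i ≤ 1) → x t i = x s i
  jump : ∀ (i : ℕ) (s t : ℝ), 0 ≤ s → s ≤ t → ∀ e ∈ A, s < e.1 → e.1 ≤ t → 2 ≤ numPart e i →
    (∀ e' ∈ A, s < e'.1 → e'.1 ≤ t → 2 ≤ numPart e' i → e' = e) → x t i = x s (origin e i)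

lemma numPart_pos {n : ℕ} {e : Ev} {i : ℕ} (hi : i < n) (h : 1 ≤ numPart e i) :
    (pat n e).Nonempty := by
  rw [numPart_eq hi] at h
  obtain ⟨j, hj⟩ := Finset.card_pos.1 h
  exact ⟨j, (Finset.mem_filter.1 hj).1⟩

lemma DynOK.step {A : Set Ev} {x : ℝ → ℕ → ℝ} (hD : DynOK A x) {n : ℕ} {s t : ℝ} (hs : 0 ≤ s)
    (hst : s ≤ t) (h1 : (A ∩ cellS n s t {K | K.Nonempty}).encard ≤ 1) {i : ℕ} (hi : i < n) :
    x t i = x s (anc (kap A n s t) i) := by
  by_cases h : (A ∩ cellS n s t {K | K.Nonempty}).Nonempty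
  · obtain ⟨e, he⟩ := h
    have hk : kap A n s t = pat n e := kap_eq h1 he.1 he.2.1 he.2.2.1 he.2.2.2
    have huniq : ∀ e' ∈ A, s < e'.1 → e'.1 ≤ t → 2 ≤ numPart e' i → e' = e := by
      intro e' h2 h3 h4 h5
      exact Set.encard_le_one_iff.1 h1 _ _ ⟨h2, h3, h4, numPart_pos hi (by omega)⟩ he
    by_cases h2 : 2 ≤ numPart e i
    · rw [hD.jump i s t hs hst e he.1 he.2.1 he.2.2.1 h2 huniq, hk, origin_eq hi]
    · rw [hk, anc_of_cnt_le]
      · apply hD.rest i s t hs hst
        intro e' h3 h4 h5
        by_contra h6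
        have := huniq e' h3 h4 h5 (by omega)
        subst this
        omega
      · rw [← numPart_eq hi]; omega
  · rw [kap_empty h, anc_of_cnt_le (by simp [cnt])]
    apply hD.rest i s t hs hst
    intro e' h3 h4 h5
    by_contra h6
    exact h ⟨e', h3, h4, h5, numPart_pos hi (by omega)⟩

lemma DynOK.inter {A : Set Ev} {x : ℝ → ℕ → ℝ} (hD : DynOK A x) {n : ℕ} {s r t : ℝ} (hs : 0 ≤ s)
    (hsr : s ≤ r) (hrt : r ≤ t) (h1 : (A ∩ cellS n s t {K | K.Nonempty}).encard ≤ 1) :
    (∀ i < n, x r i = x s i) ∨ (∀ i < n, x r i = x t i) := by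
  by_cases h : ∃ e ∈ A, s < e.1 ∧ e.1 ≤ r ∧ (pat n e).Nonempty
  · right
    intro i hi
    obtain ⟨e, h2, h3, h4, h5⟩ := h
    symm
    apply hD.rest i r t (hs.trans hsr) hrt
    intro e' h6 h7 h8
    by_contra h9
    have : e' = e := Set.encard_le_one_iff.1 h1 _ _
      ⟨h6, by linarith, h8, numPart_pos hi (by omega)⟩ ⟨h2, h3, by linarith, h5⟩
    subst this
    linarith
  · left
    intro i hi
    apply hD.rest i s r hs hsr
    intro e' h6 h7 h8
    by_contra h9
    exact h ⟨e', h6, h7, h8, numPart_pos hi (by omega)⟩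

/-- suffixes of the pattern list -/
noncomputable def lsts (A : Set Ev) (n : ℕ) (h : ℝ) : ℕ → ℕ → List (Finset ℕ)
  | _, 0 => []
  | r, k + 1 => kap A n (r * h) ((r + 1) * h) :: lsts A n h (r + 1) k

lemma lsts_eq (A : Set Ev) (n : ℕ) (h : ℝ) (r k : ℕ) :
    lsts A n h r k = List.ofFn fun i : Fin k => kap A n (((r + i : ℕ) : ℝ) * h)
      ((((r + i : ℕ) : ℝ) + 1) * h) := by
  induction k generalizing r with
  | zero => simp [lsts]
  | succ k ih =>
    unfold lsts
    rw [List.ofFn_succ, ih]
    congr 1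
    congr 1
    funext i
    have : (((r + 1 + (i : ℕ) : ℕ)) : ℝ) = ((r + (i.succ : ℕ) : ℕ) : ℝ) := by
      push_cast [Fin.val_succ]; ring
    rw [this]

lemma lst_eq (A : Set Ev) (n m : ℕ) (h : ℝ) : lst A n m h = lsts A n h 0 m := by
  rw [lsts_eq]; simp [lst]

/-- the bad patterns for the first question: at some step the parent is the followed
individual -/
def badl (g : ℕ → ℕ) : List (Finset ℕ) → ℕ → ℕ → Prop
  | [], _, _ => False
  | κ :: l, a, r => (IsLeast (κ : Set ℕ) a ∧ g r ≤ a) ∨ badl g l (pos κ a) (r + 1)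

lemma not_bad {A : Set Ev} {x : ℝ → ℕ → ℝ} (hD : DynOK A x) {n m : ℕ} {h : ℝ} (hh : 0 ≤ h)
    (hG : Good A n m h) (g : ℕ → ℕ)
    (hB : ∀ r < m, g r ≤ 1 ∨ ∃ e ∈ A, 0 < e.1 ∧ e.1 ≤ r * h ∧ ∀ j < g r, Part e j) (y : ℝ) :
    ∀ (k r a : ℕ), r + k = m → 1 ≤ a → (∀ i < n, x (r * h) i = y ↔ i = a) →
      (∀ e ∈ A, 0 < e.1 → e.1 ≤ r * h → ∀ g', (∀ j < g', Part e j) → min g' n ≤ a) →
      ¬ badl g (lsts A n h r k) a r →
      ∀ t : ℝ, r * h ≤ t → t ≤ m * h → ∃ a', ∀ i < n, x t i = y → i = a' := by
  intro k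
  induction k with
  | zero =>
    intro r a hr ha hc hI hb t h1 h2
    have : t = r * h := by
      rw [add_zero] at hr
      rw [hr] at h1 ⊢
      exact le_antisymm h2 h1
    rw [this]
    exact ⟨a, fun i hi => (hc i hi).1⟩
  | succ k ih =>
    intro r a hr ha hc hI hb t h1 h2
    unfold lsts badl at hb
    push Not at hb
    obtain ⟨hb1, hb2⟩ := hb
    have hrm : r < m := by omega
    have hcell := hG r hrm
    set κ := kap A n (r * h) ((r + 1) * h) with hκ
    have hr0 : (0 : ℝ) ≤ r * h := by positivity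
    have hstep : (r : ℝ) * h ≤ (r + 1) * h := by nlinarith
    -- `a` is not the parent
    have hnl : ¬ IsLeast (κ : Set ℕ) a := by
      intro hl
      have h3 := hb1 hl
      have h4 : a < n := by
        have := kap_mem A n (r * h) ((r + 1) * h)
        have h5 := Finset.mem_powerset.1 this (show a ∈ kap A n (r * h) ((r + 1) * h) from by
          simpa using hl.1)
        simpa using h5
      rcases hB r hrm with h5 | ⟨e, h5, h6, h7, h8⟩
      · omega
      · have := hI e h5 h6 h7 (g r) h8
        omega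
    have hc' : ∀ i < n, x ((r + 1 : ℕ) * h) i = y ↔ i = pos κ a := by
      intro i hi
      have h3 := hD.step hr0 hstep hcell hi
      rw [← hκ] at h3
      push_cast
      rw [h3, hc _ (lt_of_le_of_lt (anc_le κ i) hi)]
      exact anc_eq_iff hnl i
    have hI' : ∀ e ∈ A, 0 < e.1 → e.1 ≤ (r + 1 : ℕ) * h → ∀ g', (∀ j < g', Part e j) →
        min g' n ≤ pos κ a := by
      intro e he h3 h4 g' hg'
      rcases le_or_gt e.1 (r * h) with h5 | h5
      · exact (hI e he h3 h5 g' hg').trans (le_pos κ a)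
      · rcases Nat.eq_zero_or_pos (min g' n) with h6 | h6
        · omega
        · have h7 : (pat n e).Nonempty := ⟨0, mem_pat.2 ⟨by omega, hg' 0 (by omega)⟩⟩
          push_cast at h4
          have h8 : κ = pat n e := kap_eq hcell he h5 h4 h7
          apply le_pos_of_full _ ha
          intro j hj
          rw [h8]
          exact mem_pat.2 ⟨by omega, hg' j (by omega)⟩
    rcases le_or_gt t ((r + 1) * h) with h3 | h3
    · rcases hD.inter hr0 h1 h3 hcell with h4 | h4
      · exact ⟨a, fun i hi h5 => (hc i hi).1 (by rw [← h4 i hi]; exact h5)⟩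
      · refine ⟨pos κ a, fun i hi h5 => (hc' i hi).1 ?_⟩
        push_cast
        rw [← h4 i hi]; exact h5
    · apply ih (r + 1) (pos κ a) (by omega) (ha.trans (le_pos κ a)) hc' hI' hb2 t _ h2
      push_cast; exact h3.le

lemma wsum_badl_le {Λ : Measure ℝ} (hsupp : Λ (Icc 0 1)ᶜ = 0) {n : ℕ} {h : ℝ} (hh : 0 ≤ h)
    (hf : wS Λ n {K | K.Nonempty} ≠ ∞) (g : ℕ → ℕ) (m : ℕ) :
    ∀ a r : ℕ, wsum (wt Λ n h) n m ({l | badl g l a r}.indicator 1) ≤
      ∑ j ∈ Finset.range m, ENNReal.ofReal h *
        ∫⁻ u, ENNReal.ofReal u * ENNReal.ofReal (1 - u) ^ (g (r + j)) ∂(nu Λ) := by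
  classical
  induction m with
  | zero => intro a r; simp [wsum, badl]
  | succ m ih =>
    intro a r
    unfold wsum
    have h1 : ∀ κ ∈ (Finset.range n).powerset, wt Λ n h κ *
        wsum (wt Λ n h) n m (fun l => ({l | badl g l a r} : Set (List (Finset ℕ))).indicator
          (1 : List (Finset ℕ) → ℝ≥0∞) (κ :: l)) ≤
        (if IsLeast (κ : Set ℕ) a ∧ g r ≤ a then wt Λ n h κ else 0) + wt Λ n h κ *
          ∑ j ∈ Finset.range m, ENNReal.ofReal h *
            ∫⁻ u, ENNReal.ofReal u * ENNReal.ofReal (1 - u) ^ (g (r + 1 + j)) ∂(nu Λ) := by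
      intro κ _
      by_cases hκ : IsLeast (κ : Set ℕ) a ∧ g r ≤ a
      · rw [if_pos hκ]
        have h2 : wsum (wt Λ n h) n m (fun l =>
            ({l | badl g l a r} : Set (List (Finset ℕ))).indicator
            (1 : List (Finset ℕ) → ℝ≥0∞) (κ :: l)) ≤ wsum (wt Λ n h) n m (fun _ => 1) := by
          apply wsum_mono
          intro l
          exact Set.indicator_le_self' (by intros; simp) _
        have h3 : ∀ m, wsum (wt Λ n h) n m (fun _ => 1) ≤ 1 := by
          intro m
          induction m with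
          | zero => simp [wsum]
          | succ m ih2 =>
            unfold wsum
            calc ∑ κ ∈ (Finset.range n).powerset, wt Λ n h κ * wsum (wt Λ n h) n m (fun _ => 1)
                ≤ ∑ κ ∈ (Finset.range n).powerset, wt Λ n h κ * 1 := by gcongr
              _ ≤ 1 := by simpa using sum_wt_le_one n hh hf
        calc _ ≤ wt Λ n h κ * 1 := by gcongr; exact h2.trans (h3 m)
          _ ≤ _ := by rw [mul_one]; exact le_self_add
      · rw [if_neg hκ, zero_add]
        gcongr
        refine le_trans (wsum_mono _ _ _ ?_) (ih (pos κ a) (r + 1))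
        intro l
        by_cases h4 : badl g l (pos κ a) (r + 1)
        · rw [Set.indicator_of_mem (s := {l | badl g l (pos κ a) (r + 1)}) h4]
          exact Set.indicator_le_self' (by intros; simp) _
        · rw [Set.indicator_of_notMem]
          · exact zero_le
          · simp only [mem_ofPred_eq, badl, not_or]
            exact ⟨hκ, h4⟩
    refine (Finset.sum_le_sum h1).trans ?_
    rw [Finset.sum_add_distrib, Finset.sum_range_succ']
    rw [add_comm]
    gcongr
    · rw [← Finset.sum_mul]
      calc _ ≤ 1 * ∑ j ∈ Finset.range m, ENNReal.ofReal h *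
            ∫⁻ u, ENNReal.ofReal u * ENNReal.ofReal (1 - u) ^ (g (r + 1 + j)) ∂(nu Λ) := by
            gcongr
            exact sum_wt_le_one n hh hf
        _ = _ := by
            rw [one_mul]
            apply Finset.sum_congr rfl
            intro j _
            have : r + 1 + j = r + (j + 1) := by ring
            rw [this]
    · rw [← Finset.sum_filter, add_zero]
      by_cases hga : g r ≤ a
      · by_cases han : a < n
        · calc _ ≤ ∑ κ ∈ (Finset.range n).powerset.filter
                (· ∈ {K : Finset ℕ | IsLeast (K : Set ℕ) a}), wt Λ n h κ := by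
                apply Finset.sum_le_sum_of_subset
                intro κ hκ
                simp only [Finset.mem_filter] at hκ ⊢
                exact ⟨hκ.1, hκ.2.1⟩
            _ ≤ ENNReal.ofReal h * wS Λ n {K : Finset ℕ | IsLeast (K : Set ℕ) a} := by
                apply sum_wt_le n hh
                simp [IsLeast]
            _ ≤ _ := by
                rw [wS_least hsupp han]
                gcongr ENNReal.ofReal h * ?_
                apply lintegral_mono_ae
                filter_upwards [nu_supp hsupp] with u hu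
                gcongr ENNReal.ofReal u * ?_
                apply pow_le_pow_right_of_le_one' _ hga
                rw [ENNReal.ofReal_le_one]; linarith [hu.1]
        · rw [Finset.sum_eq_zero]
          · exact zero_le
          · intro κ hκ
            exfalso
            simp only [Finset.mem_filter] at hκ
            have h5 := Finset.mem_powerset.1 hκ.1 (show a ∈ κ by simpa using hκ.2.1.1)
            simp at h5; omega
      · rw [Finset.sum_eq_zero]
        · exact zero_le
        · intro κ hκ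
          exfalso
          simp only [Finset.mem_filter] at hκ
          exact hga hκ.2.2

end Pool.Agent.Helper84.Eve
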