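import Pool.Agent.Helper84.Eve.Crit

open MeasureTheory ProbabilityTheory Set Filter
open scoped ENNReal Topology

namespace Pool.Agent.Helper84.Eve

/-- `l` lists the events of `F` in increasing order of time -/
def TL (l : List Ev) (F : Set Ev) : Prop :=
  l.Pairwise (fun e e' => e.1 < e'.1) ∧ ∀ e, e ∈ l ↔ e ∈ F

lemma TL.unique {l l' : List Ev} {F : Set Ev} (h : TL l F) (h' : TL l' F) : l = l' := by
  have h1 : l.Nodup := h.1.imp (fun hlt => by rintro rfl; exact lt_irrefl _ hlt)
  have h2 : l'.Nodup := h'.1.imp (fun hlt => by rintro rfl; exact lt_irrefl _ hlt)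
  have h3 : l.Perm l' := (List.perm_ext_iff_of_nodup h1 h2).2 fun e =>
    (h.2 e).trans (h'.2 e).symm
  exact List.Perm.eq_of_pairwise (fun a b _ _ h4 h5 => absurd (h4.trans h5) (lt_irrefl _))
    h.1 h'.1 h3

lemma TL.exists_of_finite {F : Set Ev} (hF : F.Finite)
    (hd : ∀ e ∈ F, ∀ e' ∈ F, e.1 = e'.1 → e = e') : ∃ l, TL l F := by
  classical
  induction hn : F.ncard generalizing F with
  | zero =>
    have : F = ∅ := (Set.ncard_eq_zero hF).1 hn
    subst this
    exact ⟨[], List.Pairwise.nil, by simp⟩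
  | succ n ih =>
    have hne : F.Nonempty := by
      rw [← Set.ncard_pos hF]; omega
    obtain ⟨e, he, hmax⟩ := Set.exists_max_image F (fun e => e.1) hF hne
    obtain ⟨l, hl1, hl2⟩ := ih (F := F \ {e}) (hF.subset Set.sdiff_subset)
      (fun a ha b hb => hd a ha.1 b hb.1) (by
        rw [Set.ncard_sdiff_singleton_of_mem he, hn]; rfl)
    refine ⟨l ++ [e], ?_, ?_⟩
    · rw [List.pairwise_append]
      refine ⟨hl1, List.pairwise_singleton _ _, ?_⟩
      intro a ha b hb
      rw [List.mem_singleton] at hb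
      subst hb
      have h1 := (hl2 a).1 ha
      apply lt_of_le_of_ne (hmax a h1.1)
      intro h2
      exact h1.2 (hd a h1.1 b he h2)
    · intro a
      rw [List.mem_append, List.mem_singleton, hl2]
      constructor
      · rintro (h | h)
        · exact h.1
        · rw [h]; exact he
      · intro h
        by_cases h1 : a = e
        · right; exact h1
        · left; exact ⟨h, h1⟩

/-- ancestral level through a list of events -/
noncomputable def ancE : List Ev → ℕ → ℕ
  | [], j => j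
  | e :: l, j => origin e (ancE l j)

lemma origin_le (e : Ev) (i : ℕ) : origin e i ≤ i := by
  rw [origin_eq (Nat.lt_succ_self i)]; exact anc_le _ _

lemma numPart_mono (e : Ev) {i j : ℕ} (h : i ≤ j) : numPart e i ≤ numPart e j := by
  rw [numPart_eq (Nat.lt_succ_of_le h), numPart_eq (Nat.lt_succ_self j)]
  exact cnt_mono _ h

lemma origin_triv {e : Ev} {i j : ℕ} (h : numPart e i ≤ 1) (hj : j ≤ i) : origin e j = j := by
  rw [origin_eq (Nat.lt_succ_self j)]
  apply anc_of_cnt_le
  rw [← numPart_eq (Nat.lt_succ_self j)]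
  exact (numPart_mono e hj).trans h

lemma ancE_le (l : List Ev) (j : ℕ) : ancE l j ≤ j := by
  induction l with
  | nil => exact le_rfl
  | cons e l ih => exact (origin_le e _).trans ih

lemma ancE_append (l l' : List Ev) (j : ℕ) : ancE (l ++ l') j = ancE l (ancE l' j) := by
  induction l with
  | nil => rfl
  | cons e l ih =>
    rw [List.cons_append]
    unfold ancE
    rw [ih]

lemma ancE_filter (l : List Ev) {i j : ℕ} (hj : j ≤ i) :
    ancE (l.filter fun e => decide (2 ≤ numPart e i)) j = ancE l j := by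
  induction l with
  | nil => rfl
  | cons e l ih =>
    by_cases h : 2 ≤ numPart e i
    · rw [List.filter_cons_of_pos (by simpa using h)]
      unfold ancE
      rw [ih]
    · rw [List.filter_cons_of_neg (by simpa using h), ih]
      conv_rhs => unfold ancE
      rw [origin_triv (i := i) (by omega) ((ancE_le l j).trans hj)]

/-- the events that matter for level `i` up to time `t` -/
def rel (A : Set Ev) (t : ℝ) (i : ℕ) : Set Ev := {e | e ∈ A ∧ 0 < e.1 ∧ e.1 ≤ t ∧ 2 ≤ numPart e i}

/-- a good set of events -/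
def GoodA (A : Set Ev) : Prop := ∀ (t : ℝ) (i : ℕ), (rel A t i).Finite ∧
  ∀ e ∈ rel A t i, ∀ e' ∈ rel A t i, e.1 = e'.1 → e = e'

lemma GoodA.exists_TL {A : Set Ev} (h : GoodA A) (t : ℝ) (i : ℕ) : ∃ l, TL l (rel A t i) :=
  TL.exists_of_finite (h t i).1 (h t i).2

open Classical in
/-- ancestral level at time `0` -/
noncomputable def ancT (A : Set Ev) (t : ℝ) (i : ℕ) : ℕ :=
  if h : ∃ l, TL l (rel A t i) then ancE h.choose i else i

lemma ancT_eq {A : Set Ev} {t : ℝ} {i : ℕ} {l : List Ev} (h : TL l (rel A t i)) :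
    ancT A t i = ancE l i := by
  have h1 : ∃ l, TL l (rel A t i) := ⟨l, h⟩
  unfold ancT
  rw [dif_pos h1, TL.unique h1.choose_spec h]

lemma ancT_zero (A : Set Ev) {t : ℝ} (ht : t ≤ 0) (i : ℕ) : ancT A t i = i := by
  have : TL [] (rel A t i) := by
    refine ⟨List.Pairwise.nil, fun e => ?_⟩
    simp only [List.not_mem_nil, false_iff]
    rintro ⟨_, h1, h2, _⟩
    linarith
  rw [ancT_eq this]; rfl

lemma dynOK_ancT {A : Set Ev} (hA : GoodA A) (x0 : ℕ → ℝ) :
    DynOK A (fun t i => x0 (ancT A t i)) := by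
  constructor
  · intro i s t hs hst h
    have h1 : rel A t i = rel A s i := by
      ext e
      constructor
      · rintro ⟨h2, h3, h4, h5⟩
        refine ⟨h2, h3, ?_, h5⟩
        by_contra h6
        have := h e h2 (not_le.1 h6) h4
        omega
      · rintro ⟨h2, h3, h4, h5⟩
        exact ⟨h2, h3, h4.trans hst, h5⟩
    unfold ancT
    rw [h1]
  · intro i s t hs hst e he hse het hp huniq
    obtain ⟨l, hl⟩ := hA.exists_TL s i
    have h1 : TL (l ++ [e]) (rel A t i) := by
      refine ⟨?_, ?_⟩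
      · rw [List.pairwise_append]
        refine ⟨hl.1, List.pairwise_singleton _ _, ?_⟩
        intro a ha b hb
        rw [List.mem_singleton] at hb
        subst hb
        have := (hl.2 a).1 ha
        exact lt_of_le_of_lt this.2.2.1 hse
      · intro a
        rw [List.mem_append, List.mem_singleton, hl.2]
        constructor
        · rintro (⟨h2, h3, h4, h5⟩ | h)
          · exact ⟨h2, h3, h4.trans hst, h5⟩
          · rw [h]; exact ⟨he, lt_of_le_of_lt hs hse, het, hp⟩
        · rintro ⟨h2, h3, h4, h5⟩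
          by_cases h6 : a.1 ≤ s
          · left; exact ⟨h2, h3, h6, h5⟩
          · right; exact huniq a h2 (not_le.1 h6) h4 h5
    have h2 : TL (l.filter fun e' => decide (2 ≤ numPart e' (origin e i)))
        (rel A s (origin e i)) := by
      refine ⟨hl.1.filter _, ?_⟩
      intro a
      rw [List.mem_filter, hl.2]
      simp only [decide_eq_true_eq]
      constructor
      · rintro ⟨⟨h2, h3, h4, h5⟩, h6⟩
        exact ⟨h2, h3, h4, h6⟩
      · rintro ⟨h2, h3, h4, h5⟩
        exact ⟨⟨h2, h3, h4, h5.trans (numPart_mono a (origin_le e i))⟩, h5⟩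
    rw [ancT_eq h1, ancT_eq h2, ancE_filter _ le_rfl, ancE_append]
    rfl

lemma cell_exists {h x : ℝ} (hh : 0 < h) (hx : 0 < x) {m : ℕ} (hm : x ≤ m * h) :
    ∃ r < m, (r : ℝ) * h < x ∧ x ≤ (r + 1) * h := by
  have h1 : 0 < x / h := div_pos hx hh
  have h2 : 0 < ⌈x / h⌉₊ := Nat.ceil_pos.2 h1
  refine ⟨⌈x / h⌉₊ - 1, ?_, ?_, ?_⟩
  · have h3 : ⌈x / h⌉₊ ≤ m := by
      apply Nat.ceil_le.2
      rw [div_le_iff₀ hh]; exact hm
    omega
  · have h3 : ((⌈x / h⌉₊ - 1 : ℕ) : ℝ) < x / h := by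
      rw [← Nat.lt_ceil]; omega
    rwa [lt_div_iff₀ hh] at h3
  · have h3 : x / h ≤ ⌈x / h⌉₊ := Nat.le_ceil _
    have h4 : ((⌈x / h⌉₊ - 1 : ℕ) : ℝ) + 1 = ⌈x / h⌉₊ := by
      have : ⌈x / h⌉₊ - 1 + 1 = ⌈x / h⌉₊ := by omega
      exact_mod_cast this
    rw [h4]
    rwa [div_le_iff₀ hh] at h3

lemma goodA_of_grid {A : Set Ev} (h : ∀ n T : ℕ, 1 ≤ T → ∃ m : ℕ, 1 ≤ m ∧ Good A n m (T / m)) :
    GoodA A := by
  intro t i
  obtain ⟨T, hT⟩ := exists_nat_ge (max t 1)
  have hT1 : (1 : ℝ) ≤ T := (le_max_right _ _).trans hT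
  have hTt : t ≤ T := (le_max_left _ _).trans hT
  obtain ⟨m, hm, hG⟩ := h (i + 1) T (by exact_mod_cast hT1)
  have hm0 : (0 : ℝ) < m := by exact_mod_cast hm
  set δ : ℝ := T / m with hδ
  have hδ0 : 0 < δ := by positivity
  have hcell : ∀ e ∈ rel A t i, ∃ r < m, e ∈ A ∩ cellS (i + 1) (r * δ) ((r + 1) * δ)
      {K | K.Nonempty} := by
    rintro e ⟨h1, h2, h3, h4⟩
    obtain ⟨r, hr, h5, h6⟩ := cell_exists hδ0 h2 (m := m) (by
      rw [hδ]
      have : (m : ℝ) * (T / m) = T := by field_simp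
      rw [this]; linarith)
    exact ⟨r, hr, h1, h5, h6, numPart_pos (Nat.lt_succ_self i) (by omega)⟩
  constructor
  · apply Set.Finite.subset (Set.Finite.biUnion (Set.finite_Iio m)
      (t := fun r => A ∩ cellS (i + 1) (r * δ) ((r + 1) * δ) {K | K.Nonempty}) ?_)
    · intro e he
      obtain ⟨r, hr, h1⟩ := hcell e he
      exact mem_biUnion (show r ∈ Iio m from hr) h1
    · intro r hr
      apply Set.finite_of_encard_le_coe (k := 1)
      exact hG r hr
  · intro e he e' he' heq
    obtain ⟨r, hr, h1⟩ := hcell e he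
    have h2 : e' ∈ A ∩ cellS (i + 1) (r * δ) ((r + 1) * δ) {K | K.Nonempty} := by
      refine ⟨he'.1, ?_, ?_, numPart_pos (Nat.lt_succ_self i) (by have := he'.2.2.2; omega)⟩
      · rw [← heq]; exact h1.2.1
      · rw [← heq]; exact h1.2.2.1
    exact Set.encard_le_one_iff.1 (hG r hr) _ _ h1 h2

section prob

variable {Ω : Type*} [MeasurableSpace Ω] {P : Measure Ω} {N : Ω → Set Ev} {Λ : Measure ℝ}

lemma ae_grid [IsProbabilityMeasure P] [SFinite Λ] (hN : IsPoisson P N (intensity Λ))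
    (hs : Λ (Icc 0 1)ᶜ = 0) (h1 : m1 Λ ≠ ∞) (n T : ℕ) :
    ∀ᵐ ω ∂P, ∃ m : ℕ, 1 ≤ m ∧ Good (N ω) n m (T / m) := by
  rw [ae_iff]
  set M := wS Λ n {K | K.Nonempty} with hM
  have hf : M ≠ ∞ := wS_ne_top hs h1 n
  have hlim : Tendsto (fun m : ℕ => ENNReal.ofReal ((T : ℝ) ^ 2 / (m : ℝ)) * M ^ 2) atTop
      (𝓝 0) := by
    have h2 : Tendsto (fun m : ℕ => ENNReal.ofReal ((T : ℝ) ^ 2 / (m : ℝ))) atTop (𝓝 0) := by
      have := ENNReal.tendsto_ofReal (tendsto_const_div_atTop_nhds_zero_nat ((T : ℝ) ^ 2))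
      simpa using this
    have h3 := ENNReal.Tendsto.mul_const (b := M ^ 2) h2 (Or.inr (ENNReal.pow_ne_top hf))
    simpa using h3
  apply le_antisymm _ zero_le
  apply ge_of_tendsto hlim
  filter_upwards [eventually_ge_atTop 1] with m hm
  have hm0 : (0 : ℝ) < m := by exact_mod_cast hm
  calc P {ω | ¬ ∃ m : ℕ, 1 ≤ m ∧ Good (N ω) n m (T / m)} ≤ P {ω | ¬ Good (N ω) n m (T / m)} := by
        apply measure_mono
        intro ω hω hg
        exact hω ⟨m, hm, hg⟩
    _ ≤ m * (ENNReal.ofReal (T / m) * M) ^ 2 := prob_not_good hN n m hf (by positivity)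
    _ = _ := by
        rw [mul_pow, ← mul_assoc, ← ENNReal.ofReal_pow (by positivity), ← ENNReal.ofReal_natCast,
          ← ENNReal.ofReal_mul (by positivity)]
        congr 2
        field_simp

lemma ae_goodA [IsProbabilityMeasure P] [SFinite Λ] (hN : IsPoisson P N (intensity Λ))
    (hs : Λ (Icc 0 1)ᶜ = 0) (h1 : m1 Λ ≠ ∞) : ∀ᵐ ω ∂P, GoodA (N ω) := by
  have h2 : ∀ᵐ ω ∂P, ∀ n T : ℕ, ∃ m : ℕ, 1 ≤ m ∧ Good (N ω) n m (T / m) := by
    rw [ae_all_iff]; intro n
    rw [ae_all_iff]; intro T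
    exact ae_grid hN hs h1 n T
  filter_upwards [h2] with ω hω
  exact goodA_of_grid fun n T _ => hω n T

lemma iIndepFun_comp_mp {Ω' : Type*} [MeasurableSpace Ω'] {P' : Measure Ω'} {ι : Type*}
    {β : ι → Type*} {mβ : ∀ i, MeasurableSpace (β i)} {X : ∀ i, Ω → β i}
    (hX : ∀ i, Measurable (X i)) (h : iIndepFun X P) {f : Ω' → Ω} (hf : MeasurePreserving f P' P) :
    iIndepFun (fun i ω' => X i (f ω')) P' := by
  rw [iIndepFun_iff_measure_inter_preimage_eq_mul] at h ⊢
  intro S sets hsets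
  have h1 := h S hsets
  have h2 : (⋂ i ∈ S, (fun ω' => X i (f ω')) ⁻¹' sets i) = f ⁻¹' (⋂ i ∈ S, X i ⁻¹' sets i) := by
    ext ω'; simp
  rw [h2, hf.measure_preimage, h1]
  · apply Finset.prod_congr rfl
    intro i hi
    have h3 : (fun ω' => X i (f ω')) ⁻¹' sets i = f ⁻¹' (X i ⁻¹' sets i) := rfl
    rw [h3, hf.measure_preimage ((hX i) (hsets i hi)).nullMeasurableSet]
  · exact (Finset.measurableSet_biInter _ fun i hi => (hX i) (hsets i hi)).nullMeasurableSet

lemma IsPoisson.comp_mp {E : Type*} [MeasurableSpace E] {N : Ω → Set E} {μ : Measure E}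
    (hN : IsPoisson P N μ) {Ω' : Type*} [MeasurableSpace Ω'] {P' : Measure Ω'} {f : Ω' → Ω}
    (hf : MeasurePreserving f P' P) : IsPoisson P' (fun ω' => N (f ω')) μ := by
  refine ⟨fun A hA => (hN.measurable_count A hA).comp hf.measurable, ?_, ?_⟩
  · intro A hA hμ k
    rw [← hN.count_law A hA hμ k]
    have : {ω' | (N (f ω') ∩ A).encard = k} = f ⁻¹' {ω | (N ω ∩ A).encard = k} := rfl
    rw [this, hf.measure_preimage]
    exact ((hN.measurable_count A hA) (MeasurableSet.singleton _)).nullMeasurableSet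
  · intro n A hA hd
    exact iIndepFun_comp_mp (fun i => hN.measurable_count (A i) (hA i)) (hN.indep n A hA hd) hf

/-- existence of the lookdown process, given the driving Poisson point process -/
theorem exists_lookdown_of_poisson [IsProbabilityMeasure P] [SFinite Λ]
    (hN : IsPoisson P N (intensity Λ)) (hs : Λ (Icc 0 1)ᶜ = 0) (h1 : m1 Λ ≠ ∞) :
    Nonempty (Lookdown (P.prod (Measure.infinitePi fun _ : ℕ => unif)) Λ) := by
  have hfst : MeasurePreserving (Prod.fst : Ω × (ℕ → ℝ) → Ω)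
      (P.prod (Measure.infinitePi fun _ : ℕ => unif)) P := measurePreserving_fst
  have hsnd : MeasurePreserving (Prod.snd : Ω × (ℕ → ℝ) → (ℕ → ℝ))
      (P.prod (Measure.infinitePi fun _ : ℕ => unif))
      (Measure.infinitePi fun _ : ℕ => unif) := measurePreserving_snd
  have hgood : ∀ᵐ p ∂(P.prod (Measure.infinitePi fun _ : ℕ => unif)), GoodA (N p.1) :=
    hfst.quasiMeasurePreserving.ae (ae_goodA hN hs h1)
  have hzero : ∀ i, (fun p : Ω × (ℕ → ℝ) => p.2 (ancT (N p.1) 0 i)) = fun p => p.2 i := by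
    intro i; funext p; rw [ancT_zero _ le_rfl]
  have hmeas : ∀ i : ℕ, Measurable fun p : Ω × (ℕ → ℝ) => p.2 i := fun i => by fun_prop
  refine ⟨{ N := fun p => N p.1
            ξ := fun t i p => p.2 (ancT (N p.1) t i)
            poisson := hN.comp_mp hfst
            measurable_init := ?_
            law_init := ?_
            indep_init := ?_
            indep := ?_
            rest := ?_
            jump := ?_ }⟩
  · intro i; rw [hzero i]; exact hmeas i
  · intro i
    rw [hzero i]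
    have h2 : (fun p : Ω × (ℕ → ℝ) => p.2 i) = (fun v : ℕ → ℝ => v i) ∘ Prod.snd := rfl
    rw [h2, ← Measure.map_map (by fun_prop) (by fun_prop), hsnd.map_eq]
    exact (measurePreserving_eval_infinitePi (fun _ : ℕ => unif) i).map_eq
  · have h2 : (fun i (p : Ω × (ℕ → ℝ)) => p.2 (ancT (N p.1) 0 i)) = fun i p => p.2 i := by
      funext i; exact hzero i
    rw [h2]
    exact iIndepFun_comp_mp (X := fun (i : ℕ) (v : ℕ → ℝ) => v i) (fun i => by fun_prop)
      (iIndepFun_infinitePi (P := fun _ : ℕ => unif) (X := fun _ x => x)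
        (fun _ => measurable_id)) hsnd
  · have h2 : IndepFun (Prod.fst : Ω × (ℕ → ℝ) → Ω) (Prod.snd : Ω × (ℕ → ℝ) → (ℕ → ℝ))
        (P.prod (Measure.infinitePi fun _ : ℕ => unif)) := by
      rw [indepFun_iff_map_prod_eq_prod_map_map (by fun_prop) (by fun_prop), hfst.map_eq,
        hsnd.map_eq]
      exact Measure.map_id
    refine indep_of_indep_of_le_left (indep_of_indep_of_le_right h2 ?_) ?_
    · apply iSup_le
      intro i
      rw [hzero i]
      have h3 : (fun p : Ω × (ℕ → ℝ) => p.2 i) = (fun v : ℕ → ℝ => v i) ∘ Prod.snd := rfl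
      rw [h3, ← MeasurableSpace.comap_comp]
      exact MeasurableSpace.comap_mono (measurable_pi_apply i).comap_le
    · apply iSup_le
      rintro ⟨A, hA⟩
      have h3 : (fun p : Ω × (ℕ → ℝ) => (N p.1 ∩ A).encard) =
          (fun ω => (N ω ∩ A).encard) ∘ Prod.fst := rfl
      simp only
      rw [h3, ← MeasurableSpace.comap_comp]
      exact MeasurableSpace.comap_mono (hN.measurable_count A hA).comap_le
  · filter_upwards [hgood] with p hp
    exact (dynOK_ancT hp p.2).rest
  · filter_upwards [hgood] with p hp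
    exact (dynOK_ancT hp p.2).jump

end prob

end Pool.Agent.Helper84.Eve
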