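import Pool.Agent.Helper84.Eve.Cells

open MeasureTheory ProbabilityTheory Set Filter
open scoped ENNReal Topology

namespace Pool.Agent.Helper84.Eve

set_option linter.unusedSectionVars false

/-- dyadic cells -/
def cell (k a : ℕ) : Set ℝ := Ico ((a : ℝ) / 2 ^ k) (((a : ℝ) + 1) / 2 ^ k)

lemma cell_unique {k a a' : ℕ} {y : ℝ} (h : y ∈ cell k a) (h' : y ∈ cell k a') : a = a' := by
  have hk : (0 : ℝ) < 2 ^ k := by positivity
  have h1 : (a : ℝ) < a' + 1 := by
    have := lt_of_le_of_lt h.1 h'.2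
    rwa [div_lt_div_iff_of_pos_right hk] at this
  have h2 : (a' : ℝ) < a + 1 := by
    have := lt_of_le_of_lt h'.1 h.2
    rwa [div_lt_div_iff_of_pos_right hk] at this
  have h3 : a < a' + 1 := by exact_mod_cast h1
  have h4 : a' < a + 1 := by exact_mod_cast h2
  omega

lemma cell_exists' {k : ℕ} {y : ℝ} (hy : y ∈ Icc (0 : ℝ) 1) :
    ∃ a, a < 2 ^ k + 1 ∧ y ∈ cell k a := by
  have hk : (0 : ℝ) < 2 ^ k := by positivity
  have h0 : 0 ≤ y * 2 ^ k := mul_nonneg hy.1 hk.le
  refine ⟨⌊y * 2 ^ k⌋₊, ?_, ?_, ?_⟩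
  · have h1 : (⌊y * 2 ^ k⌋₊ : ℝ) ≤ y * 2 ^ k := Nat.floor_le h0
    have h2 : y * 2 ^ k ≤ 2 ^ k := by nlinarith [hy.2]
    have h3 : (⌊y * 2 ^ k⌋₊ : ℝ) < ((2 ^ k + 1 : ℕ) : ℝ) := by push_cast; linarith
    exact_mod_cast h3
  · rw [div_le_iff₀ hk]; exact Nat.floor_le h0
  · rw [lt_div_iff₀ hk]; exact Nat.lt_floor_add_one _

lemma cell_sep {u v : ℝ} (h : u ≠ v) : ∀ᶠ k in atTop, ∀ a, u ∈ cell k a → v ∉ cell k a := by
  have h1 : 0 < |u - v| := abs_pos.2 (sub_ne_zero.2 h)
  have h2 : Tendsto (fun k : ℕ => (1 / 2 : ℝ) ^ k) atTop (𝓝 0) :=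
    tendsto_pow_atTop_nhds_zero_of_lt_one (by norm_num) (by norm_num)
  filter_upwards [h2.eventually (gt_mem_nhds h1)] with k hk a hu hv
  have h3 : ((a : ℝ) + 1) / 2 ^ k - (a : ℝ) / 2 ^ k = (1 / 2 : ℝ) ^ k := by
    rw [one_div_pow]; ring
  have h4 : |u - v| < (1 / 2 : ℝ) ^ k := by
    rw [abs_lt]
    constructor
    · linarith [hu.1, hv.2]
    · linarith [hu.2, hv.1]
  linarith

/-- the sets of a pattern -/
def Bpat (k a b p q : ℕ) (i : ℕ) : Set ℝ :=
  if i = p + 1 ∨ i = p + q + 2 then cell k b else cell k a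

/-- the pattern: levels `0..p` in the cell `a`, level `p+1` in the cell `b`, levels
`p+2..p+q+1` in the cell `a`, level `p+q+2` in the cell `b` -/
def PatX (x : ℕ → ℝ) (k a b p q : ℕ) : Prop := ∀ i : Fin (p + q + 3), x i ∈ Bpat k a b p q i

lemma PatX.zero {x : ℕ → ℝ} {k a b p q : ℕ} (h : PatX x k a b p q) : x 0 ∈ cell k a := by
  have := h ⟨0, by omega⟩
  simpa [Bpat] using this

lemma PatX.first {x : ℕ → ℝ} {k a b p q : ℕ} (h : PatX x k a b p q) : x (p + 1) ∈ cell k b := by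
  have := h ⟨p + 1, by omega⟩
  simpa [Bpat] using this

lemma PatX.second {x : ℕ → ℝ} {k a b p q : ℕ} (h : PatX x k a b p q) :
    x (p + q + 2) ∈ cell k b := by
  have := h ⟨p + q + 2, by omega⟩
  simpa [Bpat] using this

lemma PatX.other {x : ℕ → ℝ} {k a b p q i : ℕ} (h : PatX x k a b p q) (h1 : i < p + q + 3)
    (h2 : i ≠ p + 1) (h3 : i ≠ p + q + 2) : x i ∈ cell k a := by
  have := h ⟨i, h1⟩
  simpa [Bpat, h2, h3] using this

lemma PatX.unique {x : ℕ → ℝ} {k a b p q a' b' p' q' : ℕ} (h : PatX x k a b p q) (hab : a ≠ b)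
    (h' : PatX x k a' b' p' q') (hab' : a' ≠ b') : a = a' ∧ b = b' ∧ p = p' ∧ q = q' := by
  have ha : a = a' := cell_unique h.zero h'.zero
  subst ha
  have hp : p = p' := by
    rcases lt_trichotomy p p' with h1 | h1 | h1
    · exfalso
      exact hab (cell_unique (h'.other (i := p + 1) (by omega) (by omega) (by omega)) h.first)
    · exact h1
    · exfalso
      exact hab' (cell_unique (h.other (i := p' + 1) (by omega) (by omega) (by omega)) h'.first)
  subst hp
  have hb : b = b' := cell_unique h.first h'.first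
  subst hb
  refine ⟨rfl, rfl, rfl, ?_⟩
  rcases lt_trichotomy q q' with h1 | h1 | h1
  · exfalso
    exact hab (cell_unique (h'.other (i := p + q + 2) (by omega) (by omega) (by omega)) h.second)
  · exact h1
  · exfalso
    exact hab (cell_unique (h.other (i := p + q' + 2) (by omega) (by omega) (by omega)) h'.second)

lemma eventually_no_pat {x : ℕ → ℝ} (hx : ¬ ∃ i j, FirstTwo x i j ∧ x i = x j) :
    ∀ᶠ k in atTop, ∀ a b p q, a ≠ b → ¬ PatX x k a b p q := by
  classical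
  have hne : ∀ {k a b i : ℕ}, a ≠ b → x 0 ∈ cell k a → x i ∈ cell k b → x i ≠ x 0 := by
    intro k a b i hab h0 hi heq
    rw [heq] at hi
    exact hab (cell_unique h0 hi)
  by_cases hA : ∃ i, x i ≠ x 0
  · set L1 := Nat.find hA with hL1
    have h1 : x L1 ≠ x 0 := Nat.find_spec hA
    have h1' : ∀ i < L1, x i = x 0 := fun i hi => by
      have := Nat.find_min hA hi
      simpa using this
    by_cases hB : ∃ j, L1 < j ∧ x j ≠ x 0
    · set L2 := Nat.find hB with hL2
      have h2 : L1 < L2 ∧ x L2 ≠ x 0 := Nat.find_spec hB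
      have h2' : ∀ j, L1 < j → j < L2 → x j = x 0 := fun j hj hj2 => by
        have := Nat.find_min hB hj2
        by_contra hc
        exact this ⟨hj, hc⟩
      have hft : FirstTwo x L1 L2 := ⟨h2.1, h1', h1, h2', h2.2⟩
      have h3 : x L1 ≠ x L2 := fun h => hx ⟨L1, L2, hft, h⟩
      filter_upwards [cell_sep h1, cell_sep h2.2, cell_sep h3] with k s1 s2 s3 a b p q hab hP
      have e1 := hne hab hP.zero hP.first
      have e2 := hne hab hP.zero hP.second
      have hp : p + 1 = L1 := by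
        rcases lt_trichotomy (p + 1) L1 with h | h | h
        · exact absurd (h1' _ h) e1
        · exact h
        · exact absurd hP.zero (s1 a (hP.other (i := L1) (by omega) (by omega) (by omega)))
      have hq : p + q + 2 = L2 := by
        rcases lt_trichotomy (p + q + 2) L2 with h | h | h
        · exact absurd (h2' _ (by omega) h) e2
        · exact h
        · exact absurd hP.zero (s2 a (hP.other (i := L2) (by omega) (by omega) (by omega)))
      have f1 := hP.first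
      have f2 := hP.second
      rw [hp] at f1
      rw [hq] at f2
      exact s3 b f1 f2
    · push Not at hB
      filter_upwards with k a b p q hab hP
      have e1 := hne hab hP.zero hP.first
      have e2 := hne hab hP.zero hP.second
      have g1 : p + 1 = L1 := by
        rcases lt_trichotomy (p + 1) L1 with h | h | h
        · exact absurd (h1' _ h) e1
        · exact h
        · exact absurd (hB _ h) e1
      exact absurd (hB (p + q + 2) (by omega)) e2
  · push Not at hA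
    filter_upwards with k a b p q hab hP
    exact hne hab hP.zero hP.first (hA _)

section prob

variable {Ω : Type*} [MeasurableSpace Ω] {P : Measure Ω} [IsProbabilityMeasure P] {Λ : Measure ℝ}

lemma cell_measurable (k a : ℕ) : MeasurableSet (cell k a) := measurableSet_Ico

lemma Bpat_measurable (k a b p q i : ℕ) : MeasurableSet (Bpat k a b p q i) := by
  unfold Bpat; split_ifs <;> exact cell_measurable _ _

lemma prod_Bpat (k a b p q : ℕ) (f : Set ℝ → ℝ≥0∞) :
    ∏ i : Fin (p + q + 3), f (Bpat k a b p q i) = f (cell k a) ^ (p + q + 1) * f (cell k b) ^ 2 := by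
  rw [Fin.prod_univ_eq_prod_range (fun i => f (Bpat k a b p q i)) (p + q + 3)]
  have h1 : ∀ i ∈ Finset.range (p + q + 3), f (Bpat k a b p q i) =
      if i = p + 1 ∨ i = p + q + 2 then f (cell k b) else f (cell k a) := by
    intro i _; unfold Bpat; split_ifs <;> rfl
  rw [Finset.prod_congr rfl h1, Finset.prod_ite, Finset.prod_const, Finset.prod_const]
  have h2 : (Finset.range (p + q + 3)).filter (fun i => i = p + 1 ∨ i = p + q + 2) =
      {p + 1, p + q + 2} := by
    ext i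
    simp only [Finset.mem_filter, Finset.mem_range, Finset.mem_insert, Finset.mem_singleton]
    omega
  have h3 : ((Finset.range (p + q + 3)).filter (fun i => i = p + 1 ∨ i = p + q + 2)).card = 2 := by
    rw [h2, Finset.card_pair (by omega)]
  have h4 := Finset.card_filter_add_card_filter_not (s := Finset.range (p + q + 3))
    (fun i => i = p + 1 ∨ i = p + q + 2)
  rw [h3, Finset.card_range] at h4
  have h5 : ((Finset.range (p + q + 3)).filter
      (fun i => ¬ (i = p + 1 ∨ i = p + q + 2))).card = p + q + 1 := by omega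
  rw [h3, h5, mul_comm]

/-- a.s. the empirical frequencies of all cells converge -/
lemma ae_cells (hr : DustRegime Λ) (L : Lookdown P Λ) (T : ℕ) (ρ : Ω → Measure ℝ)
    (hρ : ∀ᵐ ω ∂P, EmpLimit (fun i => L.ξ T i ω) (ρ ω)) :
    ∀ᵐ ω ∂P, ∀ k a, Tendsto (fun n => emp (fun i => L.ξ T i ω) n (cell k a)) atTop
      (𝓝 (ρ ω (cell k a)).toReal) := by
  have h1 : ∀ᵐ ω ∂P, ∀ k a : ℕ, ρ ω {(a : ℝ) / 2 ^ k} = 0 := by
    rw [ae_all_iff]; intro k
    rw [ae_all_iff]; intro a
    exact ae_no_atom hr L T ρ hρ _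
  filter_upwards [h1, hρ] with ω h2 h3 k a
  apply h3.tendsto_emp (h2 k a)
  have := h2 k (a + 1)
  push_cast at this
  exact this

lemma pat_ge (hr : DustRegime Λ) (L : Lookdown P Λ) (T : ℕ) (ρ : Ω → Measure ℝ)
    (hρ : ∀ᵐ ω ∂P, EmpLimit (fun i => L.ξ T i ω) (ρ ω)) (k a b p q : ℕ) :
    ∫⁻ ω, ρ ω (cell k a) ^ (p + q + 1) * ρ ω (cell k b) ^ 2 ∂P ≤
      P {ω | PatX (fun i => L.ξ T i ω) k a b p q} := by
  have h1 := moment_limit hr L T (J := p + q + 3) (B := fun i => Bpat k a b p q i)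
    (fun i => Bpat_measurable _ _ _ _ _ _)
    (fun ω i => (ρ ω (Bpat k a b p q i)).toReal) (by
      filter_upwards [ae_cells hr L T ρ hρ] with ω hω i
      unfold Bpat
      split_ifs
      · exact hω k b
      · exact hω k a)
  refine le_trans (le_of_eq ?_) h1
  apply lintegral_congr_ae
  filter_upwards [hρ] with ω hω
  have := hω.1
  rw [ENNReal.ofReal_prod_of_nonneg (fun _ _ => ENNReal.toReal_nonneg)]
  rw [← prod_Bpat k a b p q (fun B => ρ ω B)]
  apply Finset.prod_congr rfl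
  intro i _
  rw [ENNReal.ofReal_toReal (measure_ne_top _ _)]

/-- the sum over patterns -/
noncomputable def FF (ρ : Measure ℝ) (k : ℕ) : ℝ≥0∞ :=
  ∑' c : ℕ × ℕ × ℕ × ℕ, if c.1 ≠ c.2.1 then
    ρ (cell k c.1) ^ (c.2.2.1 + c.2.2.2 + 1) * ρ (cell k c.2.1) ^ 2 else 0

lemma cell_aem (hr : DustRegime Λ) (L : Lookdown P Λ) (T : ℕ) (ρ : Ω → Measure ℝ)
    (hρ : ∀ᵐ ω ∂P, EmpLimit (fun i => L.ξ T i ω) (ρ ω)) (k a : ℕ) :
    AEMeasurable (fun ω => ρ ω (cell k a)) P := by
  have h1 : AEMeasurable (fun ω => (ρ ω (cell k a)).toReal) P := by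
    apply aemeasurable_of_tendsto_metrizable_ae atTop
      (f := fun n ω => emp (fun i => L.ξ T i ω) n (cell k a))
    · intro n
      unfold emp
      apply AEMeasurable.div_const
      apply Finset.aemeasurable_fun_sum
      intro i _
      have h2 : (fun ω => (cell k a).indicator (fun _ => (1 : ℝ)) (L.ξ T i ω)) =
          ((cell k a).indicator (fun _ => (1 : ℝ))) ∘ (L.ξ T i) := rfl
      rw [h2]
      exact (measurable_const.indicator (cell_measurable k a)).comp_aemeasurable (aemeas hr L T i)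
    · filter_upwards [ae_cells hr L T ρ hρ] with ω hω using hω k a
  have h2 : (fun ω => ρ ω (cell k a)) =ᵐ[P] fun ω => ENNReal.ofReal (ρ ω (cell k a)).toReal := by
    filter_upwards [hρ] with ω hω
    have := hω.1
    rw [ENNReal.ofReal_toReal (measure_ne_top _ _)]
  exact h1.ennreal_ofReal.congr h2.symm

lemma FF_aem (hr : DustRegime Λ) (L : Lookdown P Λ) (T : ℕ) (ρ : Ω → Measure ℝ)
    (hρ : ∀ᵐ ω ∂P, EmpLimit (fun i => L.ξ T i ω) (ρ ω)) (k : ℕ) :
    AEMeasurable (fun ω => FF (ρ ω) k) P := by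
  unfold FF
  apply AEMeasurable.tsum
  intro c
  split_ifs
  · exact ((cell_aem hr L T ρ hρ k _).pow_const _).mul ((cell_aem hr L T ρ hρ k _).pow_const _)
  · exact aemeasurable_const

/-- union of the patterns -/
def Phi (x : ℕ → ℝ) (k : ℕ) : Prop := ∃ a b p q, a ≠ b ∧ PatX x k a b p q

lemma pat_null (hr : DustRegime Λ) (L : Lookdown P Λ) (T k a b p q : ℕ) :
    NullMeasurableSet {ω | PatX (fun i => L.ξ T i ω) k a b p q} P := by
  have hset : MeasurableSet
      {x : Fin (p + q + 3) → ℝ | ∀ i : Fin (p + q + 3), x i ∈ Bpat k a b p q i} := by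
    have : {x : Fin (p + q + 3) → ℝ | ∀ i : Fin (p + q + 3), x i ∈ Bpat k a b p q i} =
        ⋂ i : Fin (p + q + 3), {x : Fin (p + q + 3) → ℝ | x i ∈ Bpat k a b p q i} := by
      ext x; simp
    rw [this]
    exact MeasurableSet.iInter fun i => (measurable_pi_apply i) (Bpat_measurable _ _ _ _ _ _)
  have hae : AEMeasurable (fun ω (i : Fin (p + q + 3)) => L.ξ T i ω) P :=
    aemeasurable_pi_lambda _ fun i => aemeas hr L T i
  exact hae.nullMeasurableSet_preimage hset

lemma Phi_eq (x : Ω → ℕ → ℝ) (k : ℕ) : {ω | Phi (x ω) k} =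
    ⋃ c : ℕ × ℕ × ℕ × ℕ, {ω | c.1 ≠ c.2.1 ∧ PatX (x ω) k c.1 c.2.1 c.2.2.1 c.2.2.2} := by
  ext ω
  simp only [Phi, mem_ofPred_eq, mem_iUnion, Prod.exists]

lemma Phi_null (hr : DustRegime Λ) (L : Lookdown P Λ) (T k : ℕ) :
    NullMeasurableSet {ω | Phi (fun i => L.ξ T i ω) k} P := by
  rw [Phi_eq]
  apply NullMeasurableSet.iUnion
  intro c
  by_cases h : c.1 ≠ c.2.1
  · have : {ω | c.1 ≠ c.2.1 ∧ PatX (fun i => L.ξ T i ω) k c.1 c.2.1 c.2.2.1 c.2.2.2} =
        {ω | PatX (fun i => L.ξ T i ω) k c.1 c.2.1 c.2.2.1 c.2.2.2} := by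
      ext ω; simp [h]
    rw [this]
    exact pat_null hr L T _ _ _ _ _
  · have : {ω | c.1 ≠ c.2.1 ∧ PatX (fun i => L.ξ T i ω) k c.1 c.2.1 c.2.2.1 c.2.2.2} = ∅ := by
      ext ω; simp [h]
    rw [this]
    exact nullMeasurableSet_empty

lemma FF_le (hr : DustRegime Λ) (L : Lookdown P Λ) (T : ℕ) (ρ : Ω → Measure ℝ)
    (hρ : ∀ᵐ ω ∂P, EmpLimit (fun i => L.ξ T i ω) (ρ ω)) (k : ℕ) :
    ∫⁻ ω, FF (ρ ω) k ∂P ≤ P {ω | Phi (fun i => L.ξ T i ω) k} := by
  rw [Phi_eq, measure_iUnion₀]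
  · unfold FF
    rw [lintegral_tsum]
    · apply ENNReal.tsum_le_tsum
      intro c
      by_cases h : c.1 ≠ c.2.1
      · have h1 := pat_ge hr L T ρ hρ k c.1 c.2.1 c.2.2.1 c.2.2.2
        have : {ω | c.1 ≠ c.2.1 ∧ PatX (fun i => L.ξ T i ω) k c.1 c.2.1 c.2.2.1 c.2.2.2} =
            {ω | PatX (fun i => L.ξ T i ω) k c.1 c.2.1 c.2.2.1 c.2.2.2} := by
          ext ω; simp [h]
        rw [this]
        simp only [if_pos h]
        exact h1
      · simp only [if_neg h]; simp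
    · intro c
      split_ifs
      · exact ((cell_aem hr L T ρ hρ k _).pow_const _).mul
          ((cell_aem hr L T ρ hρ k _).pow_const _)
      · exact aemeasurable_const
  · intro c c' hcc
    apply Disjoint.aedisjoint
    rw [Set.disjoint_left]
    rintro ω ⟨h1, h2⟩ ⟨h3, h4⟩
    obtain ⟨e1, e2, e3, e4⟩ := h2.unique h1 h4 h3
    exact hcc (Prod.ext e1 (Prod.ext e2 (Prod.ext e3 e4)))
  · intro c
    by_cases h : c.1 ≠ c.2.1
    · have : {ω | c.1 ≠ c.2.1 ∧ PatX (fun i => L.ξ T i ω) k c.1 c.2.1 c.2.2.1 c.2.2.2} =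
          {ω | PatX (fun i => L.ξ T i ω) k c.1 c.2.1 c.2.2.1 c.2.2.2} := by
        ext ω; simp [h]
      rw [this]
      exact pat_null hr L T _ _ _ _ _
    · have : {ω | c.1 ≠ c.2.1 ∧ PatX (fun i => L.ξ T i ω) k c.1 c.2.1 c.2.2.1 c.2.2.2} = ∅ := by
        ext ω; simp [h]
      rw [this]
      exact nullMeasurableSet_empty

/-- lower bound of the sum over patterns -/
lemma FF_ge {ρ : Measure ℝ} {k a b : ℕ} (hab : a ≠ b) :
    ρ (cell k a) * ((1 - ρ (cell k a))⁻¹ * ρ (cell k b)) ^ 2 ≤ FF ρ k := by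
  set x := ρ (cell k a) with hx
  set y := ρ (cell k b) with hy
  have h1 : ∑' c : ℕ × ℕ, x ^ (c.1 + c.2 + 1) * y ^ 2 ≤ FF ρ k := by
    unfold FF
    have hinj : Function.Injective (fun c : ℕ × ℕ => ((a, b, c.1, c.2) : ℕ × ℕ × ℕ × ℕ)) := by
      rintro ⟨p, q⟩ ⟨p', q'⟩ h
      simp only [Prod.mk.injEq] at h
      rw [h.2.2.1, h.2.2.2]
    refine le_trans (le_of_eq ?_) (ENNReal.tsum_comp_le_tsum_of_injective hinj _)
    congr 1
    funext c
    simp only [if_pos hab]
    rfl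
  refine le_trans (le_of_eq ?_) h1
  rw [ENNReal.tsum_prod (f := fun p q => x ^ (p + q + 1) * y ^ 2)]
  have h2 : ∀ p : ℕ, ∑' q : ℕ, x ^ (p + q + 1) * y ^ 2 = x ^ p * (x * y ^ 2 * (1 - x)⁻¹) := by
    intro p
    have h3 : ∀ q : ℕ, x ^ (p + q + 1) * y ^ 2 = (x ^ p * (x * y ^ 2)) * x ^ q := by
      intro q; ring
    simp_rw [h3]
    rw [ENNReal.tsum_mul_left, ENNReal.tsum_geometric]
    ring
  simp_rw [h2]
  rw [ENNReal.tsum_mul_right, ENNReal.tsum_geometric]
  ring

lemma exists_cells {ρ : Measure ℝ} {e0 e1 : ℝ} (h0 : e0 ∈ Icc (0 : ℝ) 1) (h1 : e1 ∈ Icc (0 : ℝ) 1)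
    (hne : e0 ≠ e1) (hsupp : ρ (Icc 0 1)ᶜ = 0) [IsProbabilityMeasure ρ] :
    ρ {e0} * (ρ {e1} / ρ (Icc 0 1 \ {e0})) ^ 2 ≤ liminf (fun k => FF ρ k) atTop := by
  have hIcc : ρ (Icc 0 1) = 1 := by
    have := measure_add_measure_compl (μ := ρ) (measurableSet_Icc (a := (0 : ℝ)) (b := 1))
    rw [hsupp, add_zero, measure_univ] at this
    exact this
  have hdiff : ρ (Icc 0 1 \ {e0}) = 1 - ρ {e0} := by
    rw [measure_sdiff (by simpa using h0) (measurableSet_singleton e0).nullMeasurableSet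
      (measure_ne_top _ _), hIcc]
  refine le_liminf_of_le (by isBoundedDefault) ?_
  filter_upwards [cell_sep hne] with k hk
  obtain ⟨a, _, ha⟩ := cell_exists' (k := k) h0
  obtain ⟨b, _, hb⟩ := cell_exists' (k := k) h1
  have hab : a ≠ b := by
    rintro rfl
    exact hk a ha hb
  refine le_trans ?_ (FF_ge (ρ := ρ) hab)
  have h2 : ρ {e0} ≤ ρ (cell k a) := measure_mono (by simpa using ha)
  have h3 : ρ {e1} ≤ ρ (cell k b) := measure_mono (by simpa using hb)
  rw [hdiff, ENNReal.div_eq_inv_mul]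
  gcongr

end prob

end Pool.Agent.Helper84.Eve
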