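import Pool.Agent.Helper84.Eve.Intensity

open MeasureTheory ProbabilityTheory Set Filter
open scoped ENNReal Topology

namespace Pool.Agent.Helper84.Eve

section poisson

variable {Ω : Type*} [MeasurableSpace Ω] {E : Type*} [MeasurableSpace E]
  {P : Measure Ω} {N : Ω → Set E} {μ : Measure E}

lemma IsPoisson.indep_fintype (hN : IsPoisson P N μ) {ι : Type*} [Fintype ι] (A : ι → Set E)
    (hA : ∀ i, MeasurableSet (A i)) (hd : Pairwise (Function.onFun Disjoint A)) :
    iIndepFun (fun i ω => (N ω ∩ A i).encard) P := by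
  classical
  let e := Fintype.equivFin ι
  have h1 := hN.indep (Fintype.card ι) (fun k => A (e.symm k)) (fun k => hA _)
    (fun i j hij => hd (fun h => hij (e.symm.injective h)))
  have h2 := h1.precomp e.injective
  convert h2 using 3
  simp

lemma IsPoisson.measure_eq_prod (hN : IsPoisson P N μ) {ι : Type*} [Fintype ι] (A : ι → Set E)
    (hA : ∀ i, MeasurableSet (A i)) (hd : Pairwise (Function.onFun Disjoint A)) (z : ι → ℕ∞) :
    P {ω | ∀ i, (N ω ∩ A i).encard = z i} = ∏ i, P {ω | (N ω ∩ A i).encard = z i} := by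
  have h := (hN.indep_fintype A hA hd).measure_inter_preimage_eq_mul Finset.univ
    (sets := fun i => {z i}) (fun i _ => MeasurableSet.singleton _)
  have h2 : {ω | ∀ i, (N ω ∩ A i).encard = z i} =
      ⋂ i ∈ Finset.univ, (fun ω => (N ω ∩ A i).encard) ⁻¹' {z i} := by
    ext ω
    simp
  rw [h2, h]
  rfl

lemma IsPoisson.measure_zero (hN : IsPoisson P N μ) {A : Set E} (hA : MeasurableSet A)
    (hf : μ A ≠ ∞) : P {ω | (N ω ∩ A).encard = 0} = ENNReal.ofReal (Real.exp (-(μ A).toReal)) := by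
  have := hN.count_law A hA hf 0
  simpa using this

lemma IsPoisson.measure_one (hN : IsPoisson P N μ) {A : Set E} (hA : MeasurableSet A)
    (hf : μ A ≠ ∞) : P {ω | (N ω ∩ A).encard = 1} =
      ENNReal.ofReal (Real.exp (-(μ A).toReal)) * μ A := by
  have := hN.count_law A hA hf 1
  simp only [Nat.cast_one, pow_one, Nat.factorial_one, div_one] at this
  rw [this, ENNReal.ofReal_mul (Real.exp_pos _).le, ENNReal.ofReal_toReal hf]

lemma exp_bound {x : ℝ} (hx : 0 ≤ x) : 1 - Real.exp (-x) * (1 + x) ≤ x ^ 2 := by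
  have h1 : 1 - x ≤ Real.exp (-x) := by
    have := Real.add_one_le_exp (-x)
    linarith
  nlinarith

lemma IsPoisson.measure_two_le [IsProbabilityMeasure P] (hN : IsPoisson P N μ) {A : Set E}
    (hA : MeasurableSet A) (hf : μ A ≠ ∞) :
    P {ω | ¬ (N ω ∩ A).encard ≤ 1} ≤ μ A ^ 2 := by
  have hm := hN.measurable_count A hA
  have h0 : MeasurableSet {ω | (N ω ∩ A).encard = 0} := hm (MeasurableSet.singleton 0)
  have h1 : MeasurableSet {ω | (N ω ∩ A).encard = 1} := hm (MeasurableSet.singleton 1)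
  have hle : {ω | ¬ (N ω ∩ A).encard ≤ 1} =
      ({ω | (N ω ∩ A).encard = 0} ∪ {ω | (N ω ∩ A).encard = 1})ᶜ := by
    ext ω
    simp only [mem_ofPred_eq, mem_compl_iff, mem_union]
    rw [not_iff_not]
    constructor
    · intro h
      rcases h.lt_or_eq with h | h
      · left; exact Order.lt_one_iff.1 h
      · right; exact h
    · rintro (h | h)
      · rw [h]; exact zero_le_one
      · exact h.le
  rw [hle, prob_compl_eq_one_sub (h0.union h1), measure_union _ h1, hN.measure_zero hA hf,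
    hN.measure_one hA hf]
  · set x := (μ A).toReal with hx
    have hx0 : 0 ≤ x := ENNReal.toReal_nonneg
    have hxe : μ A = ENNReal.ofReal x := (ENNReal.ofReal_toReal hf).symm
    rw [hxe, ← ENNReal.ofReal_mul (Real.exp_pos _).le, ← ENNReal.ofReal_add (Real.exp_pos _).le
      (by positivity), ← ENNReal.ofReal_one, ← ENNReal.ofReal_sub _ (by positivity),
      ← ENNReal.ofReal_pow hx0]
    apply ENNReal.ofReal_le_ofReal
    have := exp_bound hx0
    linarith
  · rw [Set.disjoint_left]
    intro ω h2 h3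
    simp only [mem_ofPred_eq] at h2 h3
    rw [h2] at h3
    exact zero_ne_one h3

end poisson

/-- weighted sum over sequences of patterns -/
noncomputable def wsum (w : Finset ℕ → ℝ≥0∞) (n : ℕ) : ℕ → (List (Finset ℕ) → ℝ≥0∞) → ℝ≥0∞
  | 0, F => F []
  | m + 1, F => ∑ κ ∈ (Finset.range n).powerset, w κ * wsum w n m (fun l => F (κ :: l))

/-- patterns on the first `n` levels -/
abbrev PatT (n : ℕ) := {K : Finset ℕ // K ∈ (Finset.range n).powerset}

lemma wsum_eq (w : Finset ℕ → ℝ≥0∞) (n m : ℕ) (F : List (Finset ℕ) → ℝ≥0∞) :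
    wsum w n m F = ∑ k : Fin m → PatT n, (∏ i, w (k i)) * F (List.ofFn fun i => (k i).1) := by
  induction m generalizing F with
  | zero => simp [wsum]
  | succ m ih =>
    unfold wsum
    rw [← (Fin.consEquiv (fun _ : Fin (m + 1) => PatT n)).sum_comp, Fintype.sum_prod_type]
    rw [← Finset.sum_coe_sort]
    apply Finset.sum_congr rfl
    intro κ _
    rw [ih, Finset.mul_sum]
    apply Finset.sum_congr rfl
    intro k _
    rw [Fin.prod_univ_succ, List.ofFn_succ]
    simp [Fin.consEquiv, mul_assoc]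

lemma wsum_mono (w : Finset ℕ → ℝ≥0∞) (n m : ℕ) {F G : List (Finset ℕ) → ℝ≥0∞}
    (h : ∀ l, F l ≤ G l) : wsum w n m F ≤ wsum w n m G := by
  induction m generalizing F G with
  | zero => exact h []
  | succ m ih =>
    unfold wsum
    exact Finset.sum_le_sum fun κ _ => mul_le_mul_right (ih fun l => h _) _

lemma wsum_add (w : Finset ℕ → ℝ≥0∞) (n m : ℕ) (F G : List (Finset ℕ) → ℝ≥0∞) :
    wsum w n m (fun l => F l + G l) = wsum w n m F + wsum w n m G := by
  induction m generalizing F G with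
  | zero => rfl
  | succ m ih =>
    unfold wsum
    rw [← Finset.sum_add_distrib]
    apply Finset.sum_congr rfl
    intro κ _
    rw [← mul_add, ← ih]

/-- the weight of a pattern in a time interval of length `h` -/
noncomputable def wt (Λ : Measure ℝ) (n : ℕ) (h : ℝ) (κ : Finset ℕ) : ℝ≥0∞ :=
  ENNReal.ofReal (Real.exp (-(h * (wS Λ n {K | K.Nonempty}).toReal))) *
    (if κ = ∅ then 1 else ENNReal.ofReal h * wS Λ n {κ})

lemma wt_le {Λ : Measure ℝ} {n : ℕ} {h : ℝ} (hh : 0 ≤ h) {κ : Finset ℕ} (hκ : κ ≠ ∅) :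
    wt Λ n h κ ≤ ENNReal.ofReal h * wS Λ n {κ} := by
  unfold wt
  rw [if_neg hκ]
  calc _ ≤ 1 * (ENNReal.ofReal h * wS Λ n {κ}) := by
        gcongr
        rw [ENNReal.ofReal_le_one, Real.exp_le_one_iff]
        have : 0 ≤ h * (wS Λ n {K | K.Nonempty}).toReal := mul_nonneg hh ENNReal.toReal_nonneg
        linarith
    _ = _ := one_mul _

lemma sum_wt_eq {Λ : Measure ℝ} (n : ℕ) (h : ℝ) (S : Set (Finset ℕ)) [DecidablePred (· ∈ S)]
    (hS : ∅ ∉ S) :
    ∑ κ ∈ (Finset.range n).powerset.filter (· ∈ S), wt Λ n h κ =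
      ENNReal.ofReal (Real.exp (-(h * (wS Λ n {K | K.Nonempty}).toReal))) *
        (ENNReal.ofReal h * wS Λ n S) := by
  rw [wS_sum n S, Finset.mul_sum, Finset.mul_sum]
  apply Finset.sum_congr rfl
  intro κ hκ
  unfold wt
  rw [if_neg]
  rintro rfl
  exact hS (Finset.mem_filter.1 hκ).2

lemma sum_wt_le {Λ : Measure ℝ} (n : ℕ) {h : ℝ} (hh : 0 ≤ h) (S : Set (Finset ℕ))
    [DecidablePred (· ∈ S)] (hS : ∅ ∉ S) :
    ∑ κ ∈ (Finset.range n).powerset.filter (· ∈ S), wt Λ n h κ ≤ ENNReal.ofReal h * wS Λ n S := by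
  rw [wS_sum n S, Finset.mul_sum]
  apply Finset.sum_le_sum
  intro κ hκ
  apply wt_le hh
  rintro rfl
  exact hS (Finset.mem_filter.1 hκ).2

lemma sum_wt_le_one {Λ : Measure ℝ} (n : ℕ) {h : ℝ} (hh : 0 ≤ h)
    (hf : wS Λ n {K | K.Nonempty} ≠ ∞) :
    ∑ κ ∈ (Finset.range n).powerset, wt Λ n h κ ≤ 1 := by
  classical
  have h1 := Finset.sum_filter_add_sum_filter_not (Finset.range n).powerset
    (fun K : Finset ℕ => K ∈ {K : Finset ℕ | K.Nonempty}) (wt Λ n h)
  rw [← h1, sum_wt_eq n h {K | K.Nonempty} (by simp)]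
  have h2 : (Finset.range n).powerset.filter
      (fun K : Finset ℕ => ¬ K ∈ {K : Finset ℕ | K.Nonempty}) = {∅} := by
    ext K
    simp only [Finset.mem_filter, Finset.mem_powerset, mem_ofPred_eq,
      Finset.not_nonempty_iff_eq_empty, Finset.mem_singleton]
    constructor
    · rintro ⟨_, h⟩; exact h
    · rintro rfl; exact ⟨Finset.empty_subset _, rfl⟩
  rw [h2, Finset.sum_singleton]
  unfold wt
  rw [if_pos rfl, mul_one]
  set M := wS Λ n {K | K.Nonempty} with hM
  have hM1 : M = ENNReal.ofReal M.toReal := (ENNReal.ofReal_toReal hf).symm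
  set x := M.toReal
  have hx : 0 ≤ x := ENNReal.toReal_nonneg
  rw [hM1, ← ENNReal.ofReal_mul hh, ← ENNReal.ofReal_mul (Real.exp_pos _).le,
    ← ENNReal.ofReal_add (by positivity) (by positivity), ENNReal.ofReal_le_one]
  have h3 : 1 + h * x ≤ Real.exp (h * x) := by
    have := Real.add_one_le_exp (h * x)
    linarith
  calc Real.exp (-(h * x)) * (h * x) + Real.exp (-(h * x)) = Real.exp (-(h * x)) * (1 + h * x) := by
        ring
    _ ≤ Real.exp (-(h * x)) * Real.exp (h * x) := by gcongr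
    _ = 1 := by rw [← Real.exp_add]; simp

section process

variable {Ω : Type*} [MeasurableSpace Ω] {P : Measure Ω} {N : Ω → Set Ev} {Λ : Measure ℝ}

lemma count_prob [SFinite Λ] (hN : IsPoisson P N (intensity Λ)) (n : ℕ)
    (hf : wS Λ n {K | K.Nonempty} ≠ ∞) {s t : ℝ} (hs : 0 ≤ s) (K : Finset ℕ)
    (hK : K.Nonempty) (κ : Finset ℕ) :
    P {ω | (N ω ∩ cellS n s t {K}).encard = if K = κ then 1 else 0} =
      ENNReal.ofReal (Real.exp (-(ENNReal.ofReal (t - s) * wS Λ n {K}).toReal)) *
        (if K = κ then ENNReal.ofReal (t - s) * wS Λ n {K} else 1) := by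
  have hfin : intensity Λ (cellS n s t {K}) ≠ ∞ := by
    rw [intensity_cellS n hs]
    apply ENNReal.mul_ne_top ENNReal.ofReal_ne_top
    exact ne_top_of_le_ne_top hf (wS_mono n (by rintro _ rfl; exact hK))
  split_ifs with h
  · rw [hN.measure_one (measurableSet_cellS _ _ _ _) hfin, intensity_cellS n hs]
  · rw [hN.measure_zero (measurableSet_cellS _ _ _ _) hfin, intensity_cellS n hs, mul_one]

lemma prod_count [SFinite Λ] (n : ℕ) (hf : wS Λ n {K | K.Nonempty} ≠ ∞) {h : ℝ} (hh : 0 ≤ h)
    (κ : Finset ℕ) (hκ : κ ∈ (Finset.range n).powerset) :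
    ∏ K ∈ (Finset.range n).powerset.filter (·.Nonempty),
      (ENNReal.ofReal (Real.exp (-(ENNReal.ofReal h * wS Λ n {K}).toReal)) *
        (if K = κ then ENNReal.ofReal h * wS Λ n {K} else 1)) = wt Λ n h κ := by
  classical
  rw [Finset.prod_mul_distrib]
  unfold wt
  congr 1
  · rw [← ENNReal.ofReal_prod_of_nonneg (fun _ _ => (Real.exp_pos _).le), ← Real.exp_sum]
    congr 2
    rw [Finset.sum_neg_distrib]
    congr 1
    have h1 : h * (wS Λ n {K | K.Nonempty}).toReal =
        (ENNReal.ofReal h * wS Λ n {K | K.Nonempty}).toReal := by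
      rw [ENNReal.toReal_mul, ENNReal.toReal_ofReal hh]
    rw [h1, wS_sum n {K : Finset ℕ | K.Nonempty}, Finset.mul_sum, ENNReal.toReal_sum]
    · apply Finset.sum_congr _ (fun _ _ => rfl)
      ext K; simp
    · intro K hK
      apply ENNReal.mul_ne_top ENNReal.ofReal_ne_top
      refine ne_top_of_le_ne_top hf (wS_mono n ?_)
      rintro _ rfl
      exact (Finset.mem_filter.1 hK).2
  · rw [Finset.prod_ite]
    rw [Finset.prod_const_one, mul_one]
    split_ifs with h1
    · subst h1
      rw [Finset.prod_eq_one]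
      intro K hK
      simp only [Finset.mem_filter] at hK
      exfalso
      have := hK.1.2
      rw [hK.2] at this
      exact Finset.not_nonempty_empty this
    · have : ((Finset.range n).powerset.filter (·.Nonempty)).filter (· = κ) = {κ} := by
        ext K
        simp only [Finset.mem_filter, Finset.mem_singleton]
        constructor
        · rintro ⟨_, h⟩; exact h
        · rintro rfl
          exact ⟨⟨hκ, Finset.nonempty_iff_ne_empty.2 h1⟩, rfl⟩
      rw [this, Finset.prod_singleton]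

/-- the pattern of the (unique) relevant event in `(s,t]` -/
noncomputable def kap (A : Set Ev) (n : ℕ) (s t : ℝ) : Finset ℕ :=
  open Classical in if h : (A ∩ cellS n s t {K | K.Nonempty}).Nonempty then pat n h.some else ∅

lemma kap_mem (A : Set Ev) (n : ℕ) (s t : ℝ) : kap A n s t ∈ (Finset.range n).powerset := by
  classical
  unfold kap
  split_ifs with h
  · exact Finset.mem_powerset.2 (Finset.filter_subset _ _)
  · simp

lemma kap_eq {A : Set Ev} {n : ℕ} {s t : ℝ}
    (h1 : (A ∩ cellS n s t {K | K.Nonempty}).encard ≤ 1) {e : Ev} (he : e ∈ A) (hs : s < e.1)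
    (ht : e.1 ≤ t) (hp : (pat n e).Nonempty) : kap A n s t = pat n e := by
  have hmem : e ∈ A ∩ cellS n s t {K | K.Nonempty} := ⟨he, hs, ht, hp⟩
  have hne : (A ∩ cellS n s t {K | K.Nonempty}).Nonempty := ⟨e, hmem⟩
  unfold kap
  rw [dif_pos hne]
  congr 1
  exact Set.encard_le_one_iff.1 h1 _ _ hne.some_mem hmem

lemma kap_empty {A : Set Ev} {n : ℕ} {s t : ℝ}
    (h : ¬ (A ∩ cellS n s t {K | K.Nonempty}).Nonempty) : kap A n s t = ∅ := by
  unfold kap; rw [dif_neg h]

lemma count_kap {A : Set Ev} {n : ℕ} {s t : ℝ}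
    (h1 : (A ∩ cellS n s t {K | K.Nonempty}).encard ≤ 1) (K : Finset ℕ) (hK : K.Nonempty) :
    (A ∩ cellS n s t {K}).encard = if K = kap A n s t then 1 else 0 := by
  by_cases h : (A ∩ cellS n s t {K | K.Nonempty}).Nonempty
  · obtain ⟨e, he⟩ := h
    have hk : kap A n s t = pat n e := kap_eq h1 he.1 he.2.1 he.2.2.1 he.2.2.2
    rw [hk]
    split_ifs with h2
    · have : A ∩ cellS n s t {K} = {e} := by
        ext e'
        simp only [mem_singleton_iff]
        constructor
        · rintro ⟨h3, h4, h5, h6⟩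
          have h6' : pat n e' = K := h6
          exact Set.encard_le_one_iff.1 h1 _ _ ⟨h3, h4, h5, by rw [h6']; exact hK⟩ he
        · rintro rfl
          exact ⟨he.1, he.2.1, he.2.2.1, h2.symm⟩
      rw [this, Set.encard_singleton]
    · rw [Set.encard_eq_zero]
      ext e'
      simp only [mem_empty_iff_false, iff_false]
      rintro ⟨h3, h4, h5, h6⟩
      have h6' : pat n e' = K := h6
      have : e' = e := Set.encard_le_one_iff.1 h1 _ _ ⟨h3, h4, h5, by rw [h6']; exact hK⟩ he
      subst this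
      exact h2 h6'.symm
  · rw [kap_empty h, if_neg (Finset.nonempty_iff_ne_empty.1 hK), Set.encard_eq_zero]
    ext e'
    simp only [mem_empty_iff_false, iff_false]
    rintro ⟨h3, h4, h5, h6⟩
    have h6' : pat n e' = K := h6
    exact h ⟨e', h3, h4, h5, by rw [h6']; exact hK⟩

/-- the grid is good: every interval has at most one relevant event -/
def Good (A : Set Ev) (n m : ℕ) (h : ℝ) : Prop :=
  ∀ r < m, (A ∩ cellS n (r * h) ((r + 1) * h) {K | K.Nonempty}).encard ≤ 1

/-- the list of patterns -/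
noncomputable def lst (A : Set Ev) (n m : ℕ) (h : ℝ) : List (Finset ℕ) :=
  List.ofFn fun r : Fin m => kap A n (r * h) ((r + 1) * h)

lemma prob_seq [SFinite Λ] (hN : IsPoisson P N (intensity Λ)) (n m : ℕ)
    (hf : wS Λ n {K | K.Nonempty} ≠ ∞) {h : ℝ} (hh : 0 ≤ h) (k : Fin m → PatT n) :
    P {ω | ∀ (r : Fin m) (K : Finset ℕ), K ∈ (Finset.range n).powerset.filter (·.Nonempty) →
      (N ω ∩ cellS n (r * h) ((r + 1) * h) {K}).encard = if K = (k r).1 then 1 else 0} =
      ∏ r, wt Λ n h (k r) := by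
  classical
  let ι := Fin m × {K : Finset ℕ // K ∈ (Finset.range n).powerset.filter (·.Nonempty)}
  have hset : {ω | ∀ (r : Fin m) (K : Finset ℕ),
      K ∈ (Finset.range n).powerset.filter (·.Nonempty) →
      (N ω ∩ cellS n (r * h) ((r + 1) * h) {K}).encard = if K = (k r).1 then 1 else 0} =
      {ω | ∀ p : ι, (N ω ∩ cellS n (p.1 * h) ((p.1 + 1) * h) {p.2.1}).encard =
        if p.2.1 = (k p.1).1 then 1 else 0} := by
    ext ω
    simp only [mem_ofPred_eq]
    constructor
    · intro h1 p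
      exact h1 p.1 p.2.1 p.2.2
    · intro h1 r K hK
      exact h1 (r, ⟨K, hK⟩)
  rw [hset, hN.measure_eq_prod (fun p : ι => cellS n (p.1 * h) ((p.1 + 1) * h) {p.2.1})
    (fun p => measurableSet_cellS _ _ _ _) _ (fun p => if p.2.1 = (k p.1).1 then 1 else 0)]
  · rw [Fintype.prod_prod_type]
    apply Finset.prod_congr rfl
    intro r _
    rw [← prod_count n hf hh (k r).1 (k r).2]
    refine Eq.trans ?_ (Finset.prod_coe_sort ((Finset.range n).powerset.filter (·.Nonempty)) _)
    apply Finset.prod_congr rfl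
    intro K _
    have h1 := count_prob (s := r * h) (t := (r + 1) * h) hN n hf (by positivity) K.1
      (Finset.mem_filter.1 K.2).2 (k r).1
    have h2 : ((r : ℝ) + 1) * h - r * h = h := by ring
    rw [h2] at h1
    exact h1
  · rintro ⟨r, K⟩ ⟨r', K'⟩ hne
    rw [Function.onFun, Set.disjoint_left]
    rintro e ⟨h1, h2, h3⟩ ⟨h4, h5, h6⟩
    simp only at h1 h2 h3 h4 h5 h6
    have hK : K = K' := by
      apply Subtype.ext
      rw [← (h3 : pat n e = K.1), ← (h6 : pat n e = K'.1)]
    have hr : r = r' := by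
      rcases lt_trichotomy r r' with h7 | h7 | h7
      · exfalso
        have h8 : ((r : ℕ) : ℝ) + 1 ≤ (r' : ℕ) := by exact_mod_cast h7
        have : ((r : ℕ) + 1 : ℝ) * h ≤ (r' : ℕ) * h := by gcongr
        linarith
      · exact h7
      · exfalso
        have h8 : ((r' : ℕ) : ℝ) + 1 ≤ (r : ℕ) := by exact_mod_cast h7
        have : ((r' : ℕ) + 1 : ℝ) * h ≤ (r : ℕ) * h := by gcongr
        linarith
    apply hne
    rw [hK, hr]

lemma prob_not_good [IsProbabilityMeasure P] [SFinite Λ] (hN : IsPoisson P N (intensity Λ))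
    (n m : ℕ) (hf : wS Λ n {K | K.Nonempty} ≠ ∞) {h : ℝ} (hh : 0 ≤ h) :
    P {ω | ¬ Good (N ω) n m h} ≤ m * (ENNReal.ofReal h * wS Λ n {K | K.Nonempty}) ^ 2 := by
  have hsub : {ω | ¬ Good (N ω) n m h} ⊆ ⋃ r ∈ Finset.range m,
      {ω | ¬ (N ω ∩ cellS n (r * h) ((r + 1) * h) {K | K.Nonempty}).encard ≤ 1} := by
    intro ω hω
    simp only [mem_ofPred_eq, Good, not_forall] at hω
    obtain ⟨r, hr, h1⟩ := hω
    simp only [mem_iUnion]
    exact ⟨r, Finset.mem_range.2 hr, h1⟩
  calc P {ω | ¬ Good (N ω) n m h} ≤ P (⋃ r ∈ Finset.range m,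
      {ω | ¬ (N ω ∩ cellS n (r * h) ((r + 1) * h) {K | K.Nonempty}).encard ≤ 1}) :=
        measure_mono hsub
    _ ≤ ∑ r ∈ Finset.range m,
      P {ω | ¬ (N ω ∩ cellS n (r * h) ((r + 1) * h) {K | K.Nonempty}).encard ≤ 1} :=
        measure_biUnion_finset_le _ _
    _ ≤ ∑ r ∈ Finset.range m, (ENNReal.ofReal h * wS Λ n {K | K.Nonempty}) ^ 2 := by
        apply Finset.sum_le_sum
        intro r _
        have h2 : ((r : ℝ) + 1) * h - r * h = h := by ring
        have h1 := intensity_cellS (Λ := Λ) n (s := r * h) (t := (r + 1) * h) (by positivity)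
          {K | K.Nonempty}
        rw [h2] at h1
        rw [← h1]
        apply hN.measure_two_le (measurableSet_cellS _ _ _ _)
        rw [h1]
        exact ENNReal.mul_ne_top ENNReal.ofReal_ne_top hf
    _ = _ := by simp

/-- the main reduction -/
lemma grid_bound [IsProbabilityMeasure P] [SFinite Λ] (hN : IsPoisson P N (intensity Λ))
    (n m : ℕ) (hf : wS Λ n {K | K.Nonempty} ≠ ∞) {h : ℝ} (hh : 0 ≤ h)
    (S : Set (List (Finset ℕ))) (A : Set Ω)
    (hA : ∀ ω ∈ A, Good (N ω) n m h → lst (N ω) n m h ∈ S) :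
    P A ≤ wsum (wt Λ n h) n m (S.indicator 1) +
      m * (ENNReal.ofReal h * wS Λ n {K | K.Nonempty}) ^ 2 := by
  classical
  let G : (Fin m → PatT n) → Set Ω := fun k =>
    {ω | ∀ (r : Fin m) (K : Finset ℕ), K ∈ (Finset.range n).powerset.filter (·.Nonempty) →
      (N ω ∩ cellS n (r * h) ((r + 1) * h) {K}).encard = if K = (k r).1 then 1 else 0}
  have hsub : A ⊆ (⋃ k ∈ (Finset.univ : Finset (Fin m → PatT n)).filter
      (fun k => (List.ofFn fun i => (k i).1) ∈ S), G k) ∪ {ω | ¬ Good (N ω) n m h} := by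
    intro ω hω
    by_cases hg : Good (N ω) n m h
    · left
      have h1 := hA ω hω hg
      simp only [mem_iUnion, Finset.mem_filter, Finset.mem_univ, true_and]
      refine ⟨fun r => ⟨kap (N ω) n (r * h) ((r + 1) * h), kap_mem _ _ _ _⟩, h1, ?_⟩
      intro r K hK
      exact count_kap (hg r r.2) K (Finset.mem_filter.1 hK).2
    · right; exact hg
  calc P A ≤ P ((⋃ k ∈ (Finset.univ : Finset (Fin m → PatT n)).filter
      (fun k => (List.ofFn fun i => (k i).1) ∈ S), G k) ∪ {ω | ¬ Good (N ω) n m h}) :=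
        measure_mono hsub
    _ ≤ (∑ k ∈ (Finset.univ : Finset (Fin m → PatT n)).filter
      (fun k => (List.ofFn fun i => (k i).1) ∈ S), P (G k)) + P {ω | ¬ Good (N ω) n m h} := by
        refine (measure_union_le _ _).trans ?_
        gcongr
        exact measure_biUnion_finset_le _ _
    _ ≤ wsum (wt Λ n h) n m (S.indicator 1) +
      m * (ENNReal.ofReal h * wS Λ n {K | K.Nonempty}) ^ 2 := by
        gcongr
        · rw [wsum_eq, Finset.sum_filter]
          apply Finset.sum_le_sum
          intro k _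
          split_ifs with h1
          · rw [Set.indicator_of_mem h1]
            simp only [Pi.one_apply, mul_one]
            exact (prob_seq hN n m hf hh k).le
          · exact zero_le
        · exact prob_not_good hN n m hf hh

end process

end Pool.Agent.Helper84.Eve
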