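import Pool.Agent.Helper84.Eve.Anc

open MeasureTheory ProbabilityTheory Set Filter
open scoped ENNReal Topology

namespace Pool.Agent.Helper84.Eve

instance : IsProbabilityMeasure unif := ⟨by simp [unif]⟩

lemma unif_lt {u : ℝ} (h1 : u ≤ 1) : unif {x | x < u} = ENNReal.ofReal u := by
  unfold unif
  rw [Measure.restrict_apply' measurableSet_Icc]
  have : {x | x < u} ∩ Icc (0 : ℝ) 1 = Ico 0 u := by
    ext x
    simp only [mem_inter_iff, mem_ofPred_eq, mem_Icc, mem_Ico]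
    constructor
    · rintro ⟨a, b, c⟩; exact ⟨b, a⟩
    · rintro ⟨a, b⟩; exact ⟨b, a, by linarith⟩
  rw [this, Real.volume_Ico, sub_zero]

lemma unif_not_lt {u : ℝ} (h0 : 0 ≤ u) : unif {x | ¬ x < u} = ENNReal.ofReal (1 - u) := by
  unfold unif
  rw [Measure.restrict_apply' measurableSet_Icc]
  have : {x | ¬ x < u} ∩ Icc (0 : ℝ) 1 = Icc u 1 := by
    ext x
    simp only [mem_inter_iff, mem_ofPred_eq, mem_Icc, not_lt]
    constructor
    · rintro ⟨a, b, c⟩; exact ⟨a, c⟩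
    · rintro ⟨a, b⟩; exact ⟨a, by linarith, b⟩
  rw [this, Real.volume_Icc]

/-- sizes and marks -/
noncomputable def mk (Λ : Measure ℝ) : Measure (ℝ × (ℕ → ℝ)) :=
  (nu Λ).prod (Measure.infinitePi fun _ : ℕ => unif)

lemma nu_supp {Λ : Measure ℝ} (h : Λ (Icc 0 1)ᶜ = 0) : ∀ᵐ u ∂(nu Λ), 0 ≤ u ∧ u ≤ 1 := by
  have h1 : nu Λ (Icc 0 1)ᶜ = 0 := withDensity_absolutelyContinuous _ _ h
  have := (ae_iff (μ := nu Λ) (p := fun u => u ∈ Icc (0 : ℝ) 1)).2 h1
  filter_upwards [this] with u hu using hu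

lemma measurableSet_marks (T F : Finset ℕ) :
    MeasurableSet {q : ℝ × (ℕ → ℝ) | (∀ j ∈ T, q.2 j < q.1) ∧ ∀ j ∈ F, ¬ q.2 j < q.1} := by
  have h1 : ∀ j : ℕ, MeasurableSet {q : ℝ × (ℕ → ℝ) | q.2 j < q.1} := fun j =>
    measurableSet_lt (by fun_prop) (by fun_prop)
  have : {q : ℝ × (ℕ → ℝ) | (∀ j ∈ T, q.2 j < q.1) ∧ ∀ j ∈ F, ¬ q.2 j < q.1} =
      (⋂ j ∈ T, {q | q.2 j < q.1}) ∩ ⋂ j ∈ F, {q | q.2 j < q.1}ᶜ := by
    ext q; simp
  rw [this]
  exact (Finset.measurableSet_biInter _ fun j _ => h1 j).inter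
    (Finset.measurableSet_biInter _ fun j _ => (h1 j).compl)

lemma mk_marks {Λ : Measure ℝ} (h : Λ (Icc 0 1)ᶜ = 0) {T F : Finset ℕ} (hTF : Disjoint T F) :
    mk Λ {q | (∀ j ∈ T, q.2 j < q.1) ∧ ∀ j ∈ F, ¬ q.2 j < q.1} =
      ∫⁻ u, ENNReal.ofReal u ^ T.card * ENNReal.ofReal (1 - u) ^ F.card ∂(nu Λ) := by
  classical
  unfold mk
  rw [Measure.prod_apply (measurableSet_marks T F)]
  apply lintegral_congr_ae
  filter_upwards [nu_supp h] with u hu
  have : (Prod.mk u ⁻¹' {q : ℝ × (ℕ → ℝ) | (∀ j ∈ T, q.2 j < q.1) ∧ ∀ j ∈ F, ¬ q.2 j < q.1}) =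
      Set.pi (T ∪ F : Finset ℕ) (fun j => if j ∈ T then {x : ℝ | x < u} else {x | ¬ x < u}) := by
    ext v
    simp only [mem_preimage, mem_ofPred_eq, Set.mem_pi, Finset.coe_union, Set.mem_union,
      Finset.mem_coe]
    constructor
    · rintro ⟨h1, h2⟩ j (hj | hj)
      · rw [if_pos hj]; exact h1 j hj
      · rw [if_neg (Finset.disjoint_right.1 hTF hj)]; exact h2 j hj
    · intro h1
      refine ⟨fun j hj => ?_, fun j hj => ?_⟩
      · have := h1 j (Or.inl hj)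
        rwa [if_pos hj] at this
      · have := h1 j (Or.inr hj)
        rwa [if_neg (Finset.disjoint_right.1 hTF hj)] at this
  rw [this, Measure.infinitePi_pi]
  · rw [Finset.prod_union hTF]
    congr 1
    · rw [Finset.prod_congr rfl (g := fun _ => ENNReal.ofReal u)]
      · simp
      · intro j hj
        rw [if_pos hj, unif_lt hu.2]
    · rw [Finset.prod_congr rfl (g := fun _ => ENNReal.ofReal (1 - u))]
      · simp
      · intro j hj
        rw [if_neg (Finset.disjoint_right.1 hTF hj), unif_not_lt hu.1]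
  · intro j _
    split_ifs
    · exact measurableSet_lt measurable_id measurable_const
    · exact (measurableSet_lt measurable_id measurable_const).compl

/-- the events in `(s,t]` whose pattern on the first `n` levels is in `S` -/
def cellS (n : ℕ) (s t : ℝ) (S : Set (Finset ℕ)) : Set Ev := {e | s < e.1 ∧ e.1 ≤ t ∧ pat n e ∈ S}

/-- weight of a set of patterns -/
noncomputable def wS (Λ : Measure ℝ) (n : ℕ) (S : Set (Finset ℕ)) : ℝ≥0∞ :=
  mk Λ {q | pat n (0, q) ∈ S}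

lemma measurableSet_pat (n : ℕ) (S : Set (Finset ℕ)) :
    MeasurableSet {q : ℝ × (ℕ → ℝ) | pat n (0, q) ∈ S} := by
  classical
  have : {q : ℝ × (ℕ → ℝ) | pat n (0, q) ∈ S} =
      ⋃ K ∈ (Finset.range n).powerset.filter (· ∈ S),
        {q : ℝ × (ℕ → ℝ) | (∀ j ∈ K, q.2 j < q.1) ∧ ∀ j ∈ Finset.range n \ K, ¬ q.2 j < q.1} := by
    ext q
    simp only [mem_ofPred_eq, Finset.mem_filter, Finset.mem_powerset, Finset.mem_sdiff,
      Finset.mem_range, mem_iUnion, exists_prop]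
    constructor
    · intro hq
      refine ⟨pat n (0, q), ⟨?_, hq⟩, ?_, ?_⟩
      · exact Finset.filter_subset _ _
      · intro j hj; exact (mem_pat.1 hj).2
      · intro j hj h2
        exact hj.2 (mem_pat.2 ⟨hj.1, h2⟩)
    · rintro ⟨K, ⟨hK, hS⟩, h1, h2⟩
      have : pat n (0, q) = K := by
        ext j
        rw [mem_pat]
        constructor
        · rintro ⟨h3, h4⟩
          by_contra h5
          exact h2 j ⟨h3, h5⟩ h4
        · intro hj
          exact ⟨by simpa using hK hj, h1 j hj⟩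
      rw [this]; exact hS
  rw [this]
  exact Finset.measurableSet_biUnion _ fun K _ => measurableSet_marks _ _

lemma cellS_eq (n : ℕ) (s t : ℝ) (S : Set (Finset ℕ)) :
    cellS n s t S = (Ioc s t) ×ˢ {q : ℝ × (ℕ → ℝ) | pat n (0, q) ∈ S} := by
  ext ⟨a, q⟩
  simp only [cellS, mem_ofPred_eq, mem_prod, mem_Ioc]
  have : pat n (a, q) = pat n (0, q) := rfl
  rw [this, and_assoc]

lemma measurableSet_cellS (n : ℕ) (s t : ℝ) (S : Set (Finset ℕ)) : MeasurableSet (cellS n s t S) := by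
  rw [cellS_eq]
  exact measurableSet_Ioc.prod (measurableSet_pat n S)

lemma intensity_cellS {Λ : Measure ℝ} [SFinite Λ] (n : ℕ) {s t : ℝ} (hs : 0 ≤ s)
    (S : Set (Finset ℕ)) : intensity Λ (cellS n s t S) = ENNReal.ofReal (t - s) * wS Λ n S := by
  have : SFinite (nu Λ) := by unfold nu; infer_instance
  rw [cellS_eq]
  unfold intensity wS mk
  rw [Measure.prod_prod]
  congr 1
  rw [Measure.restrict_apply measurableSet_Ioc]
  have : Ioc s t ∩ Ioi 0 = Ioc s t := by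
    ext x
    simp only [mem_inter_iff, mem_Ioc, mem_Ioi]
    constructor
    · rintro ⟨a, _⟩; exact a
    · intro a; exact ⟨a, by linarith [a.1]⟩
  rw [this, Real.volume_Ioc]

/-- first moment of `ν` -/
noncomputable def m1 (Λ : Measure ℝ) : ℝ≥0∞ := ∫⁻ u, ENNReal.ofReal u ∂(nu Λ)

lemma lintegral_nu {Λ : Measure ℝ} {f : ℝ → ℝ≥0∞} (hf : Measurable f) :
    ∫⁻ u, f u ∂(nu Λ) = ∫⁻ u, ENNReal.ofReal (u ^ 2)⁻¹ * f u ∂Λ := by
  unfold nu
  rw [lintegral_withDensity_eq_lintegral_mul _ (by fun_prop) hf]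
  rfl

lemma m1_eq {Λ : Measure ℝ} (h : Λ (Icc 0 1)ᶜ = 0) :
    m1 Λ = ∫⁻ u, ENNReal.ofReal u⁻¹ ∂Λ := by
  unfold m1
  rw [lintegral_nu (by fun_prop)]
  have h2 := (ae_iff (μ := Λ) (p := fun u => u ∈ Icc (0 : ℝ) 1)).2 h
  apply lintegral_congr_ae
  filter_upwards [h2] with u hu
  rw [← ENNReal.ofReal_mul (by positivity)]
  congr 1
  rcases eq_or_lt_of_le hu.1 with h3 | h3
  · rw [← h3]; simp
  · field_simp

lemma wS_mono {Λ : Measure ℝ} (n : ℕ) {S T : Set (Finset ℕ)} (h : S ⊆ T) : wS Λ n S ≤ wS Λ n T :=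
  measure_mono fun _ hq => h hq

lemma wS_least {Λ : Measure ℝ} (h : Λ (Icc 0 1)ᶜ = 0) {n a : ℕ} (ha : a < n) :
    wS Λ n {K | IsLeast (K : Set ℕ) a} =
      ∫⁻ u, ENNReal.ofReal u * ENNReal.ofReal (1 - u) ^ a ∂(nu Λ) := by
  unfold wS
  have : {q : ℝ × (ℕ → ℝ) | pat n (0, q) ∈ {K : Finset ℕ | IsLeast (K : Set ℕ) a}} =
      {q : ℝ × (ℕ → ℝ) | (∀ j ∈ ({a} : Finset ℕ), q.2 j < q.1) ∧
        ∀ j ∈ Finset.range a, ¬ q.2 j < q.1} := by
    ext q
    simp only [mem_ofPred_eq, IsLeast, mem_lowerBounds, Finset.mem_coe, mem_pat,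
      Finset.mem_singleton, forall_eq, Finset.mem_range]
    constructor
    · rintro ⟨⟨_, h1⟩, h2⟩
      refine ⟨h1, fun j hj hj2 => ?_⟩
      have := h2 j ⟨by omega, hj2⟩
      omega
    · rintro ⟨h1, h2⟩
      refine ⟨⟨ha, h1⟩, fun j hj => ?_⟩
      by_contra hc
      exact h2 j (by omega) hj.2
  rw [this, mk_marks h]
  · simp
  · simp

lemma wS_mem {Λ : Measure ℝ} (h : Λ (Icc 0 1)ᶜ = 0) {n a : ℕ} (ha : a < n) :
    wS Λ n {K | a ∈ K} = m1 Λ := by
  unfold wS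
  have : {q : ℝ × (ℕ → ℝ) | pat n (0, q) ∈ {K : Finset ℕ | a ∈ K}} =
      {q : ℝ × (ℕ → ℝ) | (∀ j ∈ ({a} : Finset ℕ), q.2 j < q.1) ∧
        ∀ j ∈ (∅ : Finset ℕ), ¬ q.2 j < q.1} := by
    ext q
    simp only [mem_ofPred_eq, mem_pat, Finset.mem_singleton, forall_eq]
    constructor
    · rintro ⟨_, h1⟩
      exact ⟨h1, by simp⟩
    · rintro ⟨h1, _⟩
      exact ⟨ha, h1⟩
  rw [this, mk_marks h (by simp)]
  simp [m1]

lemma wS_nonempty_le {Λ : Measure ℝ} (h : Λ (Icc 0 1)ᶜ = 0) (n : ℕ) :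
    wS Λ n {K | K.Nonempty} ≤ n * m1 Λ := by
  unfold wS
  calc mk Λ {q | pat n (0, q) ∈ {K : Finset ℕ | K.Nonempty}}
      ≤ mk Λ (⋃ j ∈ Finset.range n, {q | pat n (0, q) ∈ {K : Finset ℕ | j ∈ K}}) := by
        apply measure_mono
        rintro q ⟨j, hj⟩
        simp only [mem_iUnion, Finset.mem_range, exists_prop]
        exact ⟨j, (mem_pat.1 hj).1, hj⟩
    _ ≤ ∑ j ∈ Finset.range n, mk Λ {q | pat n (0, q) ∈ {K : Finset ℕ | j ∈ K}} :=
        measure_biUnion_finset_le _ _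
    _ = ∑ j ∈ Finset.range n, m1 Λ := by
        apply Finset.sum_congr rfl
        intro j hj
        exact wS_mem h (Finset.mem_range.1 hj)
    _ = n * m1 Λ := by simp

lemma wS_sum {Λ : Measure ℝ} (n : ℕ) (S : Set (Finset ℕ)) [DecidablePred (· ∈ S)] :
    wS Λ n S = ∑ K ∈ (Finset.range n).powerset.filter (· ∈ S), wS Λ n {K} := by
  classical
  unfold wS
  rw [← measure_biUnion_finset]
  · congr 1
    ext q
    simp only [mem_ofPred_eq, mem_iUnion, Finset.mem_filter, Finset.mem_powerset, exists_prop,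
      mem_singleton_iff]
    constructor
    · intro hq
      exact ⟨_, ⟨Finset.filter_subset _ _, hq⟩, rfl⟩
    · rintro ⟨K, ⟨_, hK⟩, h⟩
      rw [h]; exact hK
  · intro K _ K' _ hKK
    rw [Function.onFun, Set.disjoint_left]
    rintro q h1 h2
    apply hKK
    simp only [mem_ofPred_eq, mem_singleton_iff] at h1 h2
    rw [← h1, ← h2]
  · intro K _
    exact measurableSet_pat n {K}

end Pool.Agent.Helper84.Eve
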