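import Pool.Agent.Helper84.Eve.Exch
import Pool.Agent.Helper84.Eve.Exist

open MeasureTheory ProbabilityTheory Set Filter
open scoped ENNReal Topology

namespace Pool.Agent.Helper84.Eve

section

variable {Ω : Type*}

/-- the event that the patterns are given by `k` -/
def Gset (N : Ω → Set Ev) (n m : ℕ) (h : ℝ) (k : Fin m → PatT n) : Set Ω :=
  {ω | ∀ (r : Fin m) (K : Finset ℕ), K ∈ (Finset.range n).powerset.filter (·.Nonempty) →
      (N ω ∩ cellS n (r * h) ((r + 1) * h) {K}).encard = if K = (k r).1 then 1 else 0}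

lemma Gset_measurable (N : Ω → Set Ev) (n m : ℕ) (h : ℝ) (k : Fin m → PatT n) :
    MeasurableSet[sigmaPoints N] (Gset N n m h k) := by
  have : Gset N n m h k = ⋂ (r : Fin m), ⋂ K ∈ (Finset.range n).powerset.filter (·.Nonempty),
      {ω | (N ω ∩ cellS n (r * h) ((r + 1) * h) {K}).encard = if K = (k r).1 then 1 else 0} := by
    ext ω
    simp only [Gset, mem_ofPred_eq, mem_iInter]
  rw [this]
  refine @MeasurableSet.iInter _ _ (sigmaPoints N) _ _ fun r => ?_
  refine @Finset.measurableSet_biInter _ _ (sigmaPoints N) _ _ fun K _ => ?_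
  have hle : MeasurableSpace.comap
      (fun ω => (N ω ∩ cellS n (r * h) ((r + 1) * h) {K}).encard) inferInstance ≤ sigmaPoints N :=
    le_iSup (fun A : {A : Set Ev // MeasurableSet A} =>
      MeasurableSpace.comap (fun ω => (N ω ∩ A.1).encard) inferInstance)
      ⟨_, measurableSet_cellS n (r * h) ((r + 1) * h) {K}⟩
  apply hle
  exact ⟨{if K = (k r).1 then 1 else 0}, MeasurableSet.singleton _, rfl⟩

lemma Gset_good {N : Ω → Set Ev} {n m : ℕ} {h : ℝ} {k : Fin m → PatT n} {ω : Ω}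
    (hω : ω ∈ Gset N n m h k) : Good (N ω) n m h ∧
      lst (N ω) n m h = List.ofFn fun i => (k i).1 := by
  classical
  have hmem : ∀ (r : Fin m) (e : Ev), e ∈ N ω ∩ cellS n (r * h) ((r + 1) * h) {K | K.Nonempty} →
      pat n e = (k r).1 := by
    intro r e he
    by_contra hne
    have h1 := hω r (pat n e) (by
      simp only [Finset.mem_filter]
      exact ⟨Finset.mem_powerset.2 (Finset.filter_subset _ _), he.2.2.2⟩)
    rw [if_neg hne, Set.encard_eq_zero] at h1
    have : e ∈ N ω ∩ cellS n (r * h) ((r + 1) * h) {pat n e} := ⟨he.1, he.2.1, he.2.2.1, rfl⟩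
    rw [h1] at this
    exact this
  have hgood : Good (N ω) n m h := by
    intro r hr
    rw [Set.encard_le_one_iff]
    intro e e' he he'
    have h2 := hmem ⟨r, hr⟩ e he
    have h3 := hmem ⟨r, hr⟩ e' he'
    have h4 : (k ⟨r, hr⟩).1.Nonempty := by rw [← h2]; exact he.2.2.2
    have h1 := hω ⟨r, hr⟩ (k ⟨r, hr⟩).1 (by
      simp only [Finset.mem_filter]
      exact ⟨(k ⟨r, hr⟩).2, h4⟩)
    rw [if_pos rfl] at h1
    exact Set.encard_le_one_iff.1 h1.le _ _ ⟨he.1, he.2.1, he.2.2.1, h2⟩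
      ⟨he'.1, he'.2.1, he'.2.2.1, h3⟩
  refine ⟨hgood, ?_⟩
  unfold lst
  congr 1
  funext r
  by_cases hne : (N ω ∩ cellS n (r * h) ((r + 1) * h) {K | K.Nonempty}).Nonempty
  · obtain ⟨e, he⟩ := hne
    rw [kap_eq (hgood r r.2) he.1 he.2.1 he.2.2.1 he.2.2.2]
    exact hmem r e he
  · rw [kap_empty hne]
    by_contra hk
    have hk' : (k r).1.Nonempty := Finset.nonempty_iff_ne_empty.2 (Ne.symm hk)
    have h1 := hω r (k r).1 (by
      simp only [Finset.mem_filter]
      exact ⟨(k r).2, hk'⟩)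
    rw [if_pos rfl] at h1
    have h2 : (N ω ∩ cellS n (r * h) ((r + 1) * h) {(k r).1}).Nonempty := by
      rw [← Set.encard_ne_zero, h1]; simp
    obtain ⟨e, he1, he2, he3, he4⟩ := h2
    have he4' : pat n e = (k r).1 := he4
    exact hne ⟨e, he1, he2, he3, by rw [he4']; exact hk'⟩

lemma mem_Gset_of_good {N : Ω → Set Ev} {n m : ℕ} {h : ℝ} {ω : Ω} (hg : Good (N ω) n m h) :
    ω ∈ Gset N n m h (fun r => ⟨kap (N ω) n (r * h) ((r + 1) * h), kap_mem _ _ _ _⟩) := by
  intro r K hK
  exact count_kap (hg r r.2) K (Finset.mem_filter.1 hK).2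

lemma Gset_disjoint (N : Ω → Set Ev) (n m : ℕ) (h : ℝ) {k k' : Fin m → PatT n} (hk : k ≠ k') :
    Disjoint (Gset N n m h k) (Gset N n m h k') := by
  rw [Set.disjoint_left]
  intro ω h1 h2
  apply hk
  have h3 := (Gset_good h1).2.symm.trans (Gset_good h2).2
  have h4 := List.ofFn_injective h3
  funext i
  exact Subtype.ext (congrFun h4 i)

end

lemma types_eq {A : Set Ev} {x : ℝ → ℕ → ℝ} (hD : DynOK A x) {n m : ℕ} {h : ℝ} (hh : 0 ≤ h)
    (hG : Good A n m h) : ∀ (k r : ℕ), r + k = m → ∀ i : Fin n,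
      x (m * h) i = x (r * h) (ancL n (lsts A n h r k) i) := by
  intro k
  induction k with
  | zero =>
    intro r hr i
    rw [add_zero] at hr
    subst hr
    rfl
  | succ k ih =>
    intro r hr i
    unfold lsts ancL
    rw [ih (r + 1) (by omega) i]
    have hr0 : (0 : ℝ) ≤ r * h := by positivity
    have hstep : (r : ℝ) * h ≤ (r + 1) * h := by nlinarith
    have h3 := hD.step hr0 hstep (hG r (by omega)) (ancL n (lsts A n h (r + 1) k) i).2
    push_cast
    exact h3

section prob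

set_option linter.unusedSectionVars false

variable {Ω : Type*} [MeasurableSpace Ω] {P : Measure Ω} [IsProbabilityMeasure P] {Λ : Measure ℝ}

/-- probability of an event about the initial types -/
noncomputable def Fev (L : Lookdown P Λ) {n : ℕ} (B : Fin n → Set ℝ) (A : Fin n → Fin n) :
    ℝ≥0∞ := P {ω | ∀ i, L.ξ 0 (A i) ω ∈ B i}

lemma Fev_eq (L : Lookdown P Λ) {n : ℕ} {B : Fin n → Set ℝ} (hB : ∀ i, MeasurableSet (B i))
    (A : Fin n → Fin n) :
    Fev L B A = ∏ j : Fin n, unif (⋂ i : {i // A i = j}, B i) := by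
  unfold Fev
  have h1 : {ω | ∀ i, L.ξ 0 (A i) ω ∈ B i} =
      ⋂ j ∈ (Finset.univ : Finset (Fin n)), (fun ω => L.ξ 0 j ω) ⁻¹' (⋂ i : {i // A i = j}, B i) := by
    ext ω
    simp only [mem_ofPred_eq, Finset.mem_univ, iInter_true, mem_iInter, mem_preimage]
    constructor
    · rintro h2 j ⟨i, rfl⟩
      exact h2 i
    · intro h2 i
      exact h2 (A i) ⟨i, rfl⟩
  have h2 : iIndepFun (fun j : Fin n => L.ξ 0 j) P :=
    L.indep_init.precomp (g := fun j : Fin n => (j : ℕ)) Fin.val_injective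
  have h3 := h2.measure_inter_preimage_eq_mul Finset.univ
    (sets := fun j => ⋂ i : {i // A i = j}, B i) (fun j _ => MeasurableSet.iInter fun i => hB _)
  rw [h1, h3]
  apply Finset.prod_congr rfl
  intro j _
  rw [← L.law_init j, Measure.map_apply (L.measurable_init j) (MeasurableSet.iInter fun i => hB _)]

lemma Fev_perm (L : Lookdown P Λ) {n : ℕ} {B : Fin n → Set ℝ} (hB : ∀ i, MeasurableSet (B i))
    (π : Equiv.Perm (Fin n)) (A : Fin n → Fin n) : Fev L B (fun i => π (A i)) = Fev L B A := by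
  rw [Fev_eq L hB, Fev_eq L hB, ← Equiv.prod_comp π]
  apply Finset.prod_congr rfl
  intro j _
  congr 1
  ext x
  simp only [mem_iInter]
  constructor
  · rintro h ⟨i, hi⟩; exact h ⟨i, by rw [hi]⟩
  · rintro h ⟨i, hi⟩; exact h ⟨i, π.injective hi⟩

lemma Hset_measurable (L : Lookdown P Λ) {n : ℕ} {B : Fin n → Set ℝ}
    (hB : ∀ i, MeasurableSet (B i)) (A : Fin n → Fin n) :
    MeasurableSet[⨆ i, MeasurableSpace.comap (L.ξ 0 i) inferInstance]
      {ω | ∀ i, L.ξ 0 (A i) ω ∈ B i} := by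
  have : {ω | ∀ i, L.ξ 0 (A i) ω ∈ B i} = ⋂ i, {ω | L.ξ 0 (A i) ω ∈ B i} := by
    ext ω; simp
  rw [this]
  refine @MeasurableSet.iInter _ _ (⨆ i, MeasurableSpace.comap (L.ξ 0 i) inferInstance) _ _
    fun i => ?_
  have hle : MeasurableSpace.comap (L.ξ 0 (A i)) inferInstance ≤
      ⨆ i, MeasurableSpace.comap (L.ξ 0 i) inferInstance :=
    le_iSup (fun i => MeasurableSpace.comap (L.ξ 0 i) inferInstance) _
  exact hle _ ⟨B i, hB i, rfl⟩

lemma prob_G_H [SFinite Λ] (L : Lookdown P Λ) (n m : ℕ)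
    (hf : wS Λ n {K | K.Nonempty} ≠ ∞) {h : ℝ} (hh : 0 ≤ h) {B : Fin n → Set ℝ}
    (hB : ∀ i, MeasurableSet (B i)) (A : Fin n → Fin n) (k : Fin m → PatT n) :
    P (Gset L.N n m h k ∩ {ω | ∀ i, L.ξ 0 (A i) ω ∈ B i}) =
      (∏ r, wt Λ n h (k r)) * Fev L B A := by
  have h1 := (Indep_iff _ _ _).1 L.indep _ _ (Gset_measurable L.N n m h k)
    (Hset_measurable L hB A)
  rw [h1, ← prob_seq L.poisson n m hf hh k]
  rfl

lemma sum_G_H (L : Lookdown P Λ) (n m : ℕ) (h : ℝ) (B : Fin n → Set ℝ) (τ : Fin n → Fin n) :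
    ∑ k : Fin m → PatT n, (∏ r, wt Λ n h (k r)) *
      Fev L B (fun i => ancL n (List.ofFn fun i => (k i).1) (τ i)) =
    wsum (wt Λ n h) n m (fun l => Fev L B (fun i => ancL n l (τ i))) := by
  rw [wsum_eq]

lemma types_T {L : Lookdown P Λ} {T : ℕ} {n m : ℕ} (hm : 1 ≤ m) {ω : Ω}
    (hdyn : DynOK (L.N ω) (fun t i => L.ξ t i ω)) (hG : Good (L.N ω) n m (T / m)) (i : Fin n) :
    L.ξ T i ω = L.ξ 0 (ancL n (lst (L.N ω) n m (T / m)) i) ω := by
  have hm0 : (0 : ℝ) < m := by exact_mod_cast hm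
  have h1 := types_eq hdyn (h := (T : ℝ) / m) (by positivity) hG m 0 (by simp) i
  rw [← lst_eq] at h1
  have h2 : (m : ℝ) * ((T : ℝ) / m) = T := by field_simp
  rw [h2] at h1
  simpa using h1

lemma upper_bound [SFinite Λ] (L : Lookdown P Λ) (hf : ∀ n, wS Λ n {K | K.Nonempty} ≠ ∞)
    (T n m : ℕ) (hm : 1 ≤ m) {B : Fin n → Set ℝ} (hB : ∀ i, MeasurableSet (B i))
    (τ : Fin n → Fin n) :
    P {ω | ∀ i, L.ξ T (τ i) ω ∈ B i} ≤
      wsum (wt Λ n (T / m)) n m (fun l => Fev L B (fun i => ancL n l (τ i))) +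
        m * (ENNReal.ofReal (T / m) * wS Λ n {K | K.Nonempty}) ^ 2 := by
  classical
  have hm0 : (0 : ℝ) < m := by exact_mod_cast hm
  set h : ℝ := (T : ℝ) / m with hh
  have hh0 : 0 ≤ h := by positivity
  have hsub : {ω | ∀ i, L.ξ T (τ i) ω ∈ B i} ⊆
      ((⋃ k ∈ (Finset.univ : Finset (Fin m → PatT n)), (Gset L.N n m h k ∩
        {ω | ∀ i, L.ξ 0 (ancL n (List.ofFn fun i => (k i).1) (τ i)) ω ∈ B i})) ∪
      {ω | ¬ Good (L.N ω) n m h}) ∪ {ω | DynOK (L.N ω) (fun t i => L.ξ t i ω)}ᶜ := by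
    intro ω hω
    by_cases h1 : DynOK (L.N ω) (fun t i => L.ξ t i ω)
    · left
      by_cases h2 : Good (L.N ω) n m h
      · left
        have h3 := mem_Gset_of_good h2
        simp only [mem_iUnion, Finset.mem_univ, exists_true_left]
        refine ⟨_, h3, fun i => ?_⟩
        rw [← (Gset_good h3).2]
        have h4 := types_T hm h1 h2 (τ i)
        rw [← h4]
        exact hω i
      · right; exact h2
    · right; exact h1
  have hD : P {ω | DynOK (L.N ω) (fun t i => L.ξ t i ω)}ᶜ = 0 := L.ae_dyn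
  calc _ ≤ _ := measure_mono hsub
    _ ≤ (∑ k : Fin m → PatT n, P (Gset L.N n m h k ∩
        {ω | ∀ i, L.ξ 0 (ancL n (List.ofFn fun i => (k i).1) (τ i)) ω ∈ B i})) +
        P {ω | ¬ Good (L.N ω) n m h} + P {ω | DynOK (L.N ω) (fun t i => L.ξ t i ω)}ᶜ := by
        refine (measure_union_le _ _).trans ?_
        gcongr
        refine (measure_union_le _ _).trans ?_
        gcongr
        exact measure_biUnion_finset_le _ _
    _ ≤ _ := by
        rw [hD, add_zero, ← sum_G_H L n m h B τ]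
        gcongr with k _
        · exact (prob_G_H L n m (hf n) hh0 hB _ k).le
        · exact prob_not_good L.poisson n m (hf n) hh0

lemma lower_bound [SFinite Λ] (L : Lookdown P Λ) (hf : ∀ n, wS Λ n {K | K.Nonempty} ≠ ∞)
    (T n m : ℕ) (hm : 1 ≤ m) {B : Fin n → Set ℝ} (hB : ∀ i, MeasurableSet (B i))
    (τ : Fin n → Fin n) :
    wsum (wt Λ n (T / m)) n m (fun l => Fev L B (fun i => ancL n l (τ i))) ≤
      P {ω | ∀ i, L.ξ T (τ i) ω ∈ B i} := by
  classical
  have hm0 : (0 : ℝ) < m := by exact_mod_cast hm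
  set h : ℝ := (T : ℝ) / m with hh
  have hh0 : 0 ≤ h := by positivity
  have hle1 : sigmaPoints L.N ≤ (inferInstance : MeasurableSpace Ω) := by
    apply iSup_le
    rintro ⟨A, hA⟩
    exact (L.poisson.measurable_count A hA).comap_le
  have hle2 : (⨆ i, MeasurableSpace.comap (L.ξ 0 i) inferInstance) ≤
      (inferInstance : MeasurableSpace Ω) := iSup_le fun i => (L.measurable_init i).comap_le
  rw [← sum_G_H L n m h B τ]
  calc _ = ∑ k : Fin m → PatT n, P (Gset L.N n m h k ∩
        {ω | ∀ i, L.ξ 0 (ancL n (List.ofFn fun i => (k i).1) (τ i)) ω ∈ B i}) := by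
        apply Finset.sum_congr rfl
        intro k _
        rw [prob_G_H L n m (hf n) hh0 hB _ k]
    _ = P (⋃ k ∈ (Finset.univ : Finset (Fin m → PatT n)), (Gset L.N n m h k ∩
        {ω | ∀ i, L.ξ 0 (ancL n (List.ofFn fun i => (k i).1) (τ i)) ω ∈ B i})) := by
        rw [measure_biUnion_finset]
        · intro k _ k' _ hkk
          exact (Gset_disjoint L.N n m h hkk).mono inter_subset_left inter_subset_left
        · intro k _
          exact (hle1 _ (Gset_measurable L.N n m h k)).inter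
            (hle2 _ (Hset_measurable L hB _))
    _ ≤ P ({ω | ∀ i, L.ξ T (τ i) ω ∈ B i} ∪ {ω | DynOK (L.N ω) (fun t i => L.ξ t i ω)}ᶜ) := by
        apply measure_mono
        intro ω hω
        simp only [mem_iUnion, Finset.mem_univ, exists_true_left] at hω
        obtain ⟨k, h1, h2⟩ := hω
        by_cases h3 : DynOK (L.N ω) (fun t i => L.ξ t i ω)
        · left
          intro i
          obtain ⟨h4, h5⟩ := Gset_good h1
          have h6 := types_T hm h3 h4 (τ i)
          rw [h6, ← hh, h5]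
          exact h2 i
        · right; exact h3
    _ ≤ _ := by
        refine (measure_union_le _ _).trans ?_
        have hD : P {ω | DynOK (L.N ω) (fun t i => L.ξ t i ω)}ᶜ = 0 := L.ae_dyn
        rw [hD, add_zero]

/-- exchangeability of the types at time `T` -/
lemma exch (hr : DustRegime Λ) (L : Lookdown P Λ) (T n : ℕ) {B : Fin n → Set ℝ}
    (hB : ∀ i, MeasurableSet (B i)) (σ : Equiv.Perm (Fin n)) :
    P {ω | ∀ i, L.ξ T (σ i) ω ∈ B i} ≤ P {ω | ∀ i : Fin n, L.ξ T i ω ∈ B i} := by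
  have := hr.finite
  have hs := hr.supp
  have hf := fun n => wS_ne_top hs hr.m1_ne_top n
  have hlim := (tendsto_err hr n T).const_add (P {ω | ∀ i : Fin n, L.ξ T i ω ∈ B i})
  rw [add_zero] at hlim
  apply ge_of_tendsto hlim
  filter_upwards [eventually_ge_atTop 1] with m hm
  refine (upper_bound L hf T n m hm hB σ).trans ?_
  gcongr
  rw [wsum_perm hs n _ m σ (Fev L B) (fun π A => Fev_perm L hB π A)]
  exact lower_bound L hf T n m hm hB id

/-- each type is uniform -/
lemma law_le (hr : DustRegime Λ) (L : Lookdown P Λ) (T i : ℕ) {B : Set ℝ}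
    (hB : MeasurableSet B) : P {ω | L.ξ T i ω ∈ B} ≤ unif B := by
  classical
  have := hr.finite
  have hs := hr.supp
  have hf := fun n => wS_ne_top hs hr.m1_ne_top n
  have hlim := (tendsto_err hr (i + 1) T).const_add (unif B)
  rw [add_zero] at hlim
  apply ge_of_tendsto hlim
  filter_upwards [eventually_ge_atTop 1] with m hm
  have hm0 : (0 : ℝ) < m := by exact_mod_cast hm
  set B' : Fin (i + 1) → Set ℝ := fun j => if j = Fin.last i then B else univ with hB'
  have hB'm : ∀ j, MeasurableSet (B' j) := by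
    intro j; simp only [hB']; split_ifs
    · exact hB
    · exact MeasurableSet.univ
  have h1 := upper_bound L hf T (i + 1) m hm hB'm id
  have h2 : {ω | ∀ j : Fin (i + 1), L.ξ T ((id j : Fin (i + 1)) : ℕ) ω ∈ B' j} =
      {ω | L.ξ T i ω ∈ B} := by
    ext ω
    simp only [mem_ofPred_eq, hB', id]
    constructor
    · intro h; simpa using h (Fin.last i)
    · intro h j
      split_ifs with h3
      · rw [h3]; simpa using h
      · trivial
  rw [h2] at h1
  refine h1.trans ?_
  gcongr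
  have h3 : ∀ A : Fin (i + 1) → Fin (i + 1), Fev L B' A ≤ unif B := by
    intro A
    unfold Fev
    calc _ ≤ P ((L.ξ 0 (A (Fin.last i))) ⁻¹' B) := by
          apply measure_mono
          intro ω hω
          have := hω (Fin.last i)
          simpa [hB'] using this
      _ = unif B := by
          rw [← L.law_init (A (Fin.last i)), Measure.map_apply (L.measurable_init _) hB]
  calc _ ≤ wsum (wt Λ (i + 1) (T / m)) (i + 1) m (fun l => unif B) :=
        wsum_mono _ _ _ fun l => h3 _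
    _ = unif B * wsum (wt Λ (i + 1) (T / m)) (i + 1) m (fun l => 1) := by
        have := wsum_sum (wt Λ (i + 1) (T / m)) (i + 1) m ({()} : Finset Unit)
          (fun _ => unif B) (fun _ _ => 1)
        simpa using this
    _ ≤ unif B * 1 := by
        gcongr
        exact wsum_one_le (by positivity) (hf _) m
    _ = _ := mul_one _

end prob

end Pool.Agent.Helper84.Eve
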