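import Pool.Agent.Helper84.Eve.Restart

open MeasureTheory ProbabilityTheory Set Filter
open scoped ENNReal Topology

namespace Pool.Agent.Helper84.Eve

variable {Λ : Measure ℝ}

lemma tendsto_c (n T : ℕ) : Tendsto (fun m : ℕ => ENNReal.ofReal (Real.exp
    (-((T : ℝ) / m * (wS Λ n {K | K.Nonempty}).toReal)))) atTop (𝓝 1) := by
  have h1 : Tendsto (fun m : ℕ => (T : ℝ) / m * (wS Λ n {K | K.Nonempty}).toReal) atTop (𝓝 0) := by
    have := (tendsto_const_div_atTop_nhds_zero_nat (T : ℝ)).mul_const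
      (wS Λ n {K | K.Nonempty}).toReal
    simpa using this
  have h2 := ENNReal.tendsto_ofReal ((Real.continuous_exp.tendsto _).comp h1.neg)
  simpa using h2

lemma tendsto_err (hr : DustRegime Λ) (n T : ℕ) : Tendsto (fun m : ℕ => (m : ℝ≥0∞) *
    (ENNReal.ofReal ((T : ℝ) / m) * wS Λ n {K | K.Nonempty}) ^ 2) atTop (𝓝 0) := by
  set M := wS Λ n {K | K.Nonempty} with hM
  have hf : M ≠ ∞ := wS_ne_top hr.supp hr.m1_ne_top n
  have h2 : Tendsto (fun m : ℕ => ENNReal.ofReal ((T : ℝ) ^ 2 / (m : ℝ))) atTop (𝓝 0) := by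
    have := ENNReal.tendsto_ofReal (tendsto_const_div_atTop_nhds_zero_nat ((T : ℝ) ^ 2))
    simpa using this
  have h3 := ENNReal.Tendsto.mul_const (b := M ^ 2) h2 (Or.inr (ENNReal.pow_ne_top hf))
  rw [zero_mul] at h3
  refine h3.congr' ?_
  filter_upwards [eventually_ge_atTop 1] with m hm
  have hm0 : (0 : ℝ) < m := by exact_mod_cast hm
  rw [mul_pow, ← mul_assoc, ← ENNReal.ofReal_pow (by positivity), ← ENNReal.ofReal_natCast,
    ← ENNReal.ofReal_mul (by positivity)]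
  congr 2
  field_simp

lemma tendsto_err' (hr : DustRegime Λ) (n T : ℕ) : Tendsto (fun m : ℕ =>
    ENNReal.ofReal ((T : ℝ) / m) * (wS Λ n {K | K.Nonempty}) ^ 2) atTop (𝓝 0) := by
  set M := wS Λ n {K | K.Nonempty} with hM
  have hf : M ≠ ∞ := wS_ne_top hr.supp hr.m1_ne_top n
  have h2 : Tendsto (fun m : ℕ => ENNReal.ofReal ((T : ℝ) / (m : ℝ))) atTop (𝓝 0) := by
    have := ENNReal.tendsto_ofReal (tendsto_const_div_atTop_nhds_zero_nat (T : ℝ))
    simpa using this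
  have h3 := ENNReal.Tendsto.mul_const (b := M ^ 2) h2 (Or.inr (ENNReal.pow_ne_top hf))
  rwa [zero_mul] at h3

/-- uniform bound on the probability of the bad event -/
lemma coal_bound (hr : DustRegime Λ) : ∃ θ : ℝ≥0∞, θ ≠ 0 ∧ ∃ n0 : ℕ, ∀ n ≥ n0, ∀ T : ℕ, 1 ≤ T →
    ∀ᶠ m : ℕ in atTop,
      wsum (wt Λ n (T / m)) n m ({l | coal l 1 2}.indicator 1) + θ ≤ 1 := by
  classical
  have hs := hr.supp
  have h1 := hr.m1_ne_top
  have hm20 := m2_ne_zero hr
  have hm2' := m2_ne_top hs h1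
  obtain ⟨g, hg1, hg2⟩ : ∃ g : ℕ, phi Λ g ≤ m2 Λ / 8 ∧ 2 ≤ g := by
    have h2 : (0 : ℝ≥0∞) < m2 Λ / 8 := ENNReal.div_pos hm20 (by simp)
    obtain ⟨g, h3, h4⟩ := (((phi_tendsto hr).eventually (gt_mem_nhds h2)).and
      (eventually_ge_atTop 2)).exists
    exact ⟨g, h3.le, h4⟩
  set B := wS Λ (g + 2) {K | K.Nonempty} with hB
  have hBf : B ≠ ∞ := wS_ne_top hs h1 _
  set pg := ∫⁻ u, ENNReal.ofReal u ^ g * ENNReal.ofReal (1 - u) ^ 2 ∂(nu Λ) with hpg
  have hpg0 : pg ≠ 0 := pg_ne_zero hr g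
  set θ : ℝ≥0∞ := min 1 (pg / (4 * (B + 1))) with hθ
  have hB4 : 4 * (B + 1) ≠ ∞ := ENNReal.mul_ne_top (by simp) (by simp [hBf])
  have hB40 : 4 * (B + 1) ≠ 0 := by simp
  have hθ1 : θ ≤ 1 := min_le_left _ _
  have hθ2 : θ * (B + 1) ≤ pg / 4 := by
    calc θ * (B + 1) ≤ pg / (4 * (B + 1)) * (B + 1) := by gcongr; exact min_le_right _ _
      _ = pg / 4 := by
        rw [ENNReal.div_eq_inv_mul, ENNReal.div_eq_inv_mul,
          ENNReal.mul_inv (by simp) (by simp)]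
        have : (B + 1)⁻¹ * (B + 1) = 1 := ENNReal.inv_mul_cancel (by simp) (by simp [hBf])
        calc 4⁻¹ * (B + 1)⁻¹ * pg * (B + 1) = 4⁻¹ * pg * ((B + 1)⁻¹ * (B + 1)) := by ring
          _ = _ := by rw [this, mul_one]
  refine ⟨θ, ?_, g + 2, ?_⟩
  · rw [hθ]
    apply ne_of_gt
    rw [lt_min_iff]
    exact ⟨by simp, ENNReal.div_pos hpg0 hB4⟩
  intro n hn T hT
  have hf := wS_ne_top hs h1 n
  have e1 : ∀ᶠ m : ℕ in atTop, (1 / 2 : ℝ≥0∞) ≤ ENNReal.ofReal (Real.exp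
      (-((T : ℝ) / m * (wS Λ n {K | K.Nonempty}).toReal))) := by
    have h2 : (1 / 2 : ℝ≥0∞) < 1 := by
      rw [one_div]; exact ENNReal.one_half_lt_one
    filter_upwards [(tendsto_c n T).eventually (lt_mem_nhds h2)] with m hm using hm.le
  have e2 : ∀ᶠ m : ℕ in atTop,
      ENNReal.ofReal ((T : ℝ) / m) * (wS Λ n {K | K.Nonempty}) ^ 2 ≤ 1 := by
    filter_upwards [(tendsto_err' hr n T).eventually (gt_mem_nhds (zero_lt_one))] with m hm
      using hm.le
  have e3 : ∀ᶠ m : ℕ in atTop, (m : ℝ≥0∞) *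
      (ENNReal.ofReal ((T : ℝ) / m) * wS Λ n {K | K.Nonempty}) ^ 2 ≤ 1 / 4 := by
    have h2 : (0 : ℝ≥0∞) < 1 / 4 := ENNReal.div_pos (by simp) (by simp)
    filter_upwards [(tendsto_err hr n T).eventually (gt_mem_nhds h2)] with m hm using hm.le
  filter_upwards [e1, e2, e3, eventually_ge_atTop 1] with m hm1 hm2 hm3 hm4
  have hm0 : (0 : ℝ) < m := by exact_mod_cast hm4
  have hT0 : (0 : ℝ) < T := by exact_mod_cast hT
  set h : ℝ := (T : ℝ) / m with hh
  have hh0 : 0 < h := by positivity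
  set M := wS Λ n {K | K.Nonempty} with hM
  set c := ENNReal.ofReal (Real.exp (-(h * M.toReal))) with hc
  have hc1 : c ≤ 1 := by
    rw [hc, ENNReal.ofReal_le_one, Real.exp_le_one_iff]
    have : 0 ≤ h * M.toReal := mul_nonneg hh0.le ENNReal.toReal_nonneg
    linarith
  -- lower bound started from adjacent positions
  have hDs : ∀ j ≤ m, (1 / 2 : ℝ≥0∞) ≤ dd Λ n h j g (g + 1) := by
    intro j hj
    have h2 := coal_adjacent hs h1 (n := n) (by omega) hh0 j (a := g) (by omega)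
    rw [← hM, ← hc] at h2
    set C := wsum (wt Λ n h) n j ({l | coal l g (g + 1)}.indicator 1) with hC
    have hC4 : C ≤ 1 / 4 := by
      have h3 : (m2 Λ / 2) * C ≤ (m2 Λ / 2) * (1 / 4) := by
        calc (m2 Λ / 2) * C = 1 / 2 * m2 Λ * C := by
              rw [ENNReal.div_eq_inv_mul, one_div]
          _ ≤ c * m2 Λ * C := by gcongr
          _ ≤ m2 Λ / 8 := h2.trans hg1
          _ = (m2 Λ / 2) * (1 / 4) := by
              rw [ENNReal.div_eq_inv_mul, ENNReal.div_eq_inv_mul, one_div]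
              have : (8 : ℝ≥0∞)⁻¹ = 2⁻¹ * 4⁻¹ := by
                rw [← ENNReal.mul_inv (by simp) (by simp)]; norm_num
              rw [this]; ring
      have h4 : m2 Λ / 2 ≠ 0 := (ENNReal.div_pos hm20 (by simp)).ne'
      have h5 : m2 Λ / 2 ≠ ∞ := ENNReal.div_ne_top (m2_ne_top hs h1) (by simp)
      exact (ENNReal.mul_le_mul_iff_right h4 h5).1 h3
    have h3 := one_le_wsum_one (Λ := Λ) (n := n) hh0.le hf j
    rw [← dd_add n h j g (g + 1)] at h3
    have h4 : (j : ℝ≥0∞) * (ENNReal.ofReal h * M) ^ 2 ≤ 1 / 4 := by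
      refine le_trans ?_ hm3
      gcongr
    have h5 : (1 : ℝ≥0∞) ≤ dd Λ n h j g (g + 1) + 1 / 2 := by
      calc (1 : ℝ≥0∞) ≤ C + dd Λ n h j g (g + 1) + j * (ENNReal.ofReal h * M) ^ 2 := h3
        _ ≤ 1 / 4 + dd Λ n h j g (g + 1) + 1 / 4 := by gcongr
        _ = dd Λ n h j g (g + 1) + (1 / 4 + 1 / 4) := by ring
        _ = _ := by
            congr 1
            have h6 : (1 : ℝ≥0∞) / 4 + 1 / 4 = 2 * 4⁻¹ := by rw [one_div]; ring
            have h7 : (1 : ℝ≥0∞) / 2 = 2 * 4⁻¹ := by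
              rw [show (4 : ℝ≥0∞) = 2 * 2 by norm_num, ENNReal.mul_inv (by simp) (by simp),
                ← mul_assoc, ENNReal.mul_inv_cancel (by simp) (by simp), one_mul, one_div]
            rw [h6, h7]
    have h6 : (1 : ℝ≥0∞) = 1 / 2 + 1 / 2 := by
      rw [one_div]; exact ENNReal.inv_two_add_inv_two.symm
    have h7 : (1 : ℝ≥0∞) / 2 + 1 / 2 ≤ dd Λ n h j g (g + 1) + 1 / 2 := by
      rw [← h6]; exact h5
    have h8 : (1 : ℝ≥0∞) / 2 ≠ ∞ := by simp
    exact (ENNReal.add_le_add_iff_right h8).1 h7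
  -- the step inequality
  have hstep : θ ≤ θ * ∑ κ ∈ (Finset.range n).powerset.filter (fun κ => cnt κ (g + 1) ≤ 1),
        wt Λ n h κ +
      (1 / 2) * ∑ κ ∈ (Finset.range n).powerset.filter
        (fun κ => κ.filter (· ≤ g + 1) = Finset.range g), wt Λ n h κ := by
    have hwg := sum_wt_eq (Λ := Λ) n h
      {K : Finset ℕ | K.filter (· ≤ g + 1) = Finset.range g} (by
        simp only [mem_ofPred_eq, Finset.filter_empty]
        intro h2
        have := congrArg Finset.card h2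
        simp at this
        omega)
    rw [wS_good hs hn, ← hM, ← hc, ← hpg] at hwg
    have hwn := sum_wt_le (Λ := Λ) n hh0.le {K : Finset ℕ | ¬ cnt K (g + 1) ≤ 1} (by
      simp [cnt])
    have hwn' := hwn.trans (mul_le_mul_right (wS_nontrivial_le hn) (ENNReal.ofReal h))
    rw [← hB] at hwn'
    have hall := one_le_sum_wt (Λ := Λ) (n := n) hh0.le hf
    rw [← Finset.sum_filter_add_sum_filter_not (Finset.range n).powerset
      (fun κ => cnt κ (g + 1) ≤ 1) (wt Λ n h)] at hall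
    set wtr := ∑ κ ∈ (Finset.range n).powerset.filter (fun κ => cnt κ (g + 1) ≤ 1), wt Λ n h κ
    have hall2 : 1 ≤ wtr + ENNReal.ofReal h * (B + 1) := by
      calc (1 : ℝ≥0∞) ≤ wtr + _ + (ENNReal.ofReal h * M) ^ 2 := hall
        _ ≤ wtr + ENNReal.ofReal h * B + ENNReal.ofReal h * 1 := by
            gcongr wtr + ?_ + ?_
            · exact hwn'
            · calc (ENNReal.ofReal h * M) ^ 2 = ENNReal.ofReal h * (ENNReal.ofReal h * M ^ 2) := by
                    ring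
                _ ≤ _ := by gcongr
        _ = _ := by ring
    have hwg' : (1 / 2 : ℝ≥0∞) * (c * (ENNReal.ofReal h * pg)) =
        (1 / 2 : ℝ≥0∞) * ∑ κ ∈ (Finset.range n).powerset.filter
        (fun κ => κ.filter (· ≤ g + 1) = Finset.range g), wt Λ n h κ := by
      rw [← hwg]
      congr 1
    rw [← hwg']
    calc θ = θ * 1 := (mul_one _).symm
      _ ≤ θ * (wtr + ENNReal.ofReal h * (B + 1)) := by gcongr
      _ = θ * wtr + ENNReal.ofReal h * (θ * (B + 1)) := by ring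
      _ ≤ θ * wtr + ENNReal.ofReal h * (pg / 4) := by gcongr
      _ = θ * wtr + 1 / 2 * (1 / 2 * (ENNReal.ofReal h * pg)) := by
          congr 1
          rw [ENNReal.div_eq_inv_mul, one_div, show (4 : ℝ≥0∞) = 2 * 2 by norm_num,
            ENNReal.mul_inv (by simp) (by simp)]
          ring
      _ ≤ _ := by gcongr
  have hD := dd_ge hg2 θ (1 / 2) hθ1 hstep m hDs
  calc wsum (wt Λ n h) n m ({l | coal l 1 2}.indicator 1) + θ
      ≤ wsum (wt Λ n h) n m ({l | coal l 1 2}.indicator 1) + dd Λ n h m 1 2 := by gcongr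
    _ = wsum (wt Λ n h) n m (fun _ => 1) := dd_add n h m 1 2
    _ ≤ 1 := wsum_one_le hh0.le hf m

end Pool.Agent.Helper84.Eve
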