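import Pool.Agent.Helper84.Eve.Weak

open MeasureTheory ProbabilityTheory Set Filter
open scoped ENNReal Topology

namespace Pool.Agent.Helper84.Eve

set_option linter.unusedSectionVars false

lemma poisson_tsum_one {x : ℝ} (hx : 0 ≤ x) :
    ∑' k : ℕ, ENNReal.ofReal (Real.exp (-x) * x ^ k / k.factorial) = 1 := by
  have h : HasSum (fun n : ℕ => Real.exp (-x) * x ^ n / n.factorial) 1 :=
    hasSum_one_poissonMeasure ⟨x, hx⟩
  rw [← ENNReal.ofReal_tsum_of_nonneg _ h.summable]
  · rw [h.tsum_eq]; simp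
  · intro n; positivity

lemma poisson_tsum_mean {x : ℝ} (hx : 0 ≤ x) :
    ∑' k : ℕ, (k : ℝ≥0∞) * ENNReal.ofReal (Real.exp (-x) * x ^ k / k.factorial) =
      ENNReal.ofReal x := by
  have h1 := poisson_tsum_one hx
  rw [tsum_eq_zero_add' ENNReal.summable]
  simp only [Nat.cast_zero, zero_mul, zero_add]
  have h3 : ∀ k : ℕ, ((k + 1 : ℕ) : ℝ≥0∞) *
      ENNReal.ofReal (Real.exp (-x) * x ^ (k + 1) / (k + 1).factorial) =
      ENNReal.ofReal x * ENNReal.ofReal (Real.exp (-x) * x ^ k / k.factorial) := by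
    intro k
    rw [← ENNReal.ofReal_natCast, ← ENNReal.ofReal_mul (by positivity),
      ← ENNReal.ofReal_mul hx]
    congr 1
    rw [Nat.factorial_succ]
    push_cast
    have : (k.factorial : ℝ) ≠ 0 := by positivity
    field_simp
    ring
  simp_rw [h3]
  rw [ENNReal.tsum_mul_left, h1, mul_one]

section poisson

variable {Ω : Type*} [MeasurableSpace Ω] {E : Type*} [MeasurableSpace E]
  {P : Measure Ω} {N : Ω → Set E} {μ : Measure E}

lemma IsPoisson.mean_count [IsProbabilityMeasure P] (hN : IsPoisson P N μ) {A : Set E}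
    (hA : MeasurableSet A) (hf : μ A ≠ ∞) :
    ∫⁻ ω, (((N ω ∩ A).encard : ℕ∞) : ℝ≥0∞) ∂P = μ A := by
  have hm := hN.measurable_count A hA
  set x := (μ A).toReal with hx
  have hx0 : 0 ≤ x := ENNReal.toReal_nonneg
  set D : ℕ → Set Ω := fun k => {ω | (N ω ∩ A).encard = k} with hD
  have hDm : ∀ k, MeasurableSet (D k) := fun k => hm (MeasurableSet.singleton _)
  have hDP : ∀ k, P (D k) = ENNReal.ofReal (Real.exp (-x) * x ^ k / k.factorial) :=
    fun k => hN.count_law A hA hf k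
  have hdis : Pairwise (Function.onFun Disjoint D) := by
    intro k l hkl
    rw [Function.onFun, Set.disjoint_left]
    intro ω h1 h2
    simp only [hD, mem_ofPred_eq] at h1 h2
    rw [h1] at h2
    exact hkl (by exact_mod_cast h2)
  have h1 : P (⋃ k, D k) = 1 := by
    rw [measure_iUnion hdis hDm]
    simp_rw [hDP]
    exact poisson_tsum_one hx0
  have h2 : ∀ᵐ ω ∂P, ω ∈ ⋃ k, D k := by
    rw [ae_iff]
    have : {ω | ω ∉ ⋃ k, D k} = (⋃ k, D k)ᶜ := rfl
    rw [this, prob_compl_eq_zero_iff (MeasurableSet.iUnion hDm)]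
    exact h1
  have h3 : P.restrict (⋃ k, D k) = P := Measure.restrict_eq_self_of_ae_mem h2
  calc ∫⁻ ω, (((N ω ∩ A).encard : ℕ∞) : ℝ≥0∞) ∂P
      = ∫⁻ ω in ⋃ k, D k, (((N ω ∩ A).encard : ℕ∞) : ℝ≥0∞) ∂P := by rw [h3]
    _ = ∑' k, ∫⁻ ω in D k, (((N ω ∩ A).encard : ℕ∞) : ℝ≥0∞) ∂P :=
        lintegral_iUnion hDm hdis _
    _ = ∑' k : ℕ, (k : ℝ≥0∞) * ENNReal.ofReal (Real.exp (-x) * x ^ k / k.factorial) := by
        congr 1
        funext k
        rw [setLIntegral_congr_fun (hDm k) (g := fun _ => (k : ℝ≥0∞))]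
        · rw [setLIntegral_const, hDP]
        · intro ω hω
          simp only [hD, mem_ofPred_eq] at hω
          simp only [hω]
          rfl
    _ = ENNReal.ofReal x := poisson_tsum_mean hx0
    _ = μ A := ENNReal.ofReal_toReal hf

lemma IsPoisson.ae_finite [IsProbabilityMeasure P] (hN : IsPoisson P N μ) {A : Set E}
    (hA : MeasurableSet A) (hf : μ A ≠ ∞) : ∀ᵐ ω ∂P, (N ω ∩ A).Finite := by
  have h1 := hN.mean_count hA hf
  have hm := hN.measurable_count A hA
  have h2 : Measurable fun ω => (((N ω ∩ A).encard : ℕ∞) : ℝ≥0∞) :=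
    (Measurable.of_discrete (f := fun k : ℕ∞ => (k : ℝ≥0∞))).comp hm
  have h3 := ae_lt_top h2 (by rw [h1]; exact hf)
  filter_upwards [h3] with ω hω
  rw [← Set.encard_lt_top_iff]
  by_contra h4
  rw [not_lt, top_le_iff] at h4
  rw [h4] at hω
  simp at hω

end poisson

/-- intensity of the participations of level `j` in small events -/
lemma measurableSet_small (η T : ℝ) (j : ℕ) :
    MeasurableSet (partS {e : Ev | e.2.1 ≤ η} T j) := by
  have : partS {e : Ev | e.2.1 ≤ η} T j =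
      {e : Ev | 0 < e.1} ∩ ({e : Ev | e.1 ≤ T} ∩ ({e : Ev | e.2.1 ≤ η} ∩ {e : Ev | e.2.2 j < e.2.1})) := by
    ext e; rfl
  rw [this]
  refine (measurableSet_lt ?_ ?_).inter ((measurableSet_le ?_ ?_).inter
    ((measurableSet_le ?_ ?_).inter (measurableSet_lt ?_ ?_))) <;> fun_prop

lemma intensity_small {Λ : Measure ℝ} [SFinite Λ] (hs : Λ (Icc 0 1)ᶜ = 0) (η : ℝ) {T : ℝ}
    (hT : 0 ≤ T) (j : ℕ) : intensity Λ (partS {e : Ev | e.2.1 ≤ η} T j) =
      ENNReal.ofReal T * ∫⁻ u in Iic η, ENNReal.ofReal u ∂(nu Λ) := by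
  have : SFinite (nu Λ) := by unfold nu; infer_instance
  have h1 : partS {e : Ev | e.2.1 ≤ η} T j =
      (Ioc 0 T) ×ˢ {q : ℝ × (ℕ → ℝ) | q.1 ≤ η ∧ q.2 j < q.1} := by
    ext e
    simp only [partS, Part, mem_ofPred_eq, mem_prod, mem_Ioc, and_assoc]
  rw [h1]
  unfold intensity
  rw [Measure.prod_prod]
  congr 1
  · rw [Measure.restrict_apply measurableSet_Ioc]
    have : Ioc 0 T ∩ Ioi 0 = Ioc 0 T := by
      ext x
      simp only [mem_inter_iff, mem_Ioc, mem_Ioi]
      constructor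
      · rintro ⟨a, _⟩; exact a
      · intro a; exact ⟨a, a.1⟩
    rw [this, Real.volume_Ioc, sub_zero]
  · have hm : MeasurableSet {q : ℝ × (ℕ → ℝ) | q.1 ≤ η ∧ q.2 j < q.1} :=
      (measurableSet_le (f := fun q : ℝ × (ℕ → ℝ) => q.1) (g := fun _ => η) (by fun_prop)
        (by fun_prop)).inter (measurableSet_lt (f := fun q : ℝ × (ℕ → ℝ) => q.2 j)
        (g := fun q => q.1) (by fun_prop) (by fun_prop))
    rw [Measure.prod_apply hm, ← lintegral_indicator measurableSet_Iic]
    apply lintegral_congr_ae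
    filter_upwards [nu_supp hs] with u hu
    by_cases hη : u ≤ η
    · rw [indicator_of_mem (by exact hη)]
      have : Prod.mk u ⁻¹' {q : ℝ × (ℕ → ℝ) | q.1 ≤ η ∧ q.2 j < q.1} =
          Function.eval j ⁻¹' {x : ℝ | x < u} := by
        ext v; simp [hη]
      have hI : MeasurableSet {x : ℝ | x < u} := measurableSet_Iio
      rw [this, (measurePreserving_eval_infinitePi (fun _ : ℕ => unif) j).measure_preimage
        hI.nullMeasurableSet]
      exact unif_lt hu.2
    · rw [indicator_of_notMem (by exact hη)]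
      have : Prod.mk u ⁻¹' {q : ℝ × (ℕ → ℝ) | q.1 ≤ η ∧ q.2 j < q.1} = ∅ := by
        ext v; simp [hη]
      rw [this, measure_empty]

/-- the first moment of the small sizes vanishes -/
lemma small_tendsto {Λ : Measure ℝ} (h1 : m1 Λ ≠ ∞) :
    Tendsto (fun k : ℕ => ∫⁻ u in Iic (1 / ((k : ℝ) + 1)), ENNReal.ofReal u ∂(nu Λ)) atTop
      (𝓝 0) := by
  set M := (nu Λ).withDensity fun u => ENNReal.ofReal u with hM
  have hMS : ∀ s, MeasurableSet s → M s = ∫⁻ u in s, ENNReal.ofReal u ∂(nu Λ) := fun s hs =>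
    withDensity_apply _ hs
  have h2 : Tendsto (fun k : ℕ => M (Iic (1 / ((k : ℝ) + 1)))) atTop
      (𝓝 (M (⋂ k : ℕ, Iic (1 / ((k : ℝ) + 1))))) := by
    apply tendsto_measure_iInter_atTop
    · intro k; exact measurableSet_Iic.nullMeasurableSet
    · intro k l hkl
      apply Iic_subset_Iic.2
      apply one_div_le_one_div_of_le (by positivity)
      have : (k : ℝ) ≤ l := by exact_mod_cast hkl
      linarith
    · refine ⟨0, ?_⟩
      rw [hMS _ measurableSet_Iic]
      exact ne_top_of_le_ne_top h1 (setLIntegral_le_lintegral _ _)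
  have h3 : (⋂ k : ℕ, Iic (1 / ((k : ℝ) + 1))) = Iic 0 := by
    ext u
    simp only [mem_iInter, mem_Iic]
    constructor
    · intro h
      exact ge_of_tendsto' tendsto_one_div_add_atTop_nhds_zero_nat h
    · intro h k
      exact h.trans (by positivity)
  rw [h3, hMS _ measurableSet_Iic] at h2
  have h4 : ∫⁻ u in Iic 0, ENNReal.ofReal u ∂(nu Λ) = 0 := by
    rw [setLIntegral_congr_fun (g := fun _ => 0) measurableSet_Iic]
    · simp
    · intro u hu
      exact ENNReal.ofReal_of_nonpos hu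
  rw [h4] at h2
  refine h2.congr fun k => hMS _ measurableSet_Iic

/-- intensity of the big events -/
lemma intensity_big {Λ : Measure ℝ} [IsFiniteMeasure Λ] {η : ℝ} (hη : 0 < η) (T : ℝ) :
    intensity Λ {e : Ev | e.1 ≤ T ∧ η < e.2.1} ≠ ∞ := by
  have : SFinite (nu Λ) := by unfold nu; infer_instance
  have h1 : {e : Ev | e.1 ≤ T ∧ η < e.2.1} = (Iic T) ×ˢ ((Ioi η) ×ˢ (univ : Set (ℕ → ℝ))) := by
    ext e
    simp
  rw [h1]
  unfold intensity
  rw [Measure.prod_prod, Measure.prod_prod]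
  apply ENNReal.mul_ne_top
  · rw [Measure.restrict_apply measurableSet_Iic]
    have h2 : Iic T ∩ Ioi 0 = Ioc 0 T := by ext x; simp [and_comm]
    rw [h2, Real.volume_Ioc]
    exact ENNReal.ofReal_ne_top
  · apply ENNReal.mul_ne_top _ (measure_ne_top _ _)
    unfold nu
    rw [withDensity_apply _ measurableSet_Ioi]
    refine ne_top_of_le_ne_top (b := ENNReal.ofReal (η ^ 2)⁻¹ * Λ univ)
      (ENNReal.mul_ne_top ENNReal.ofReal_ne_top (measure_ne_top _ _)) ?_
    calc ∫⁻ u in Ioi η, ENNReal.ofReal (u ^ 2)⁻¹ ∂Λ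
        ≤ ∫⁻ u in Ioi η, ENNReal.ofReal (η ^ 2)⁻¹ ∂Λ := by
          apply setLIntegral_mono measurable_const
          intro u hu
          apply ENNReal.ofReal_le_ofReal
          have : η < u := hu
          gcongr
      _ ≤ _ := by
          rw [setLIntegral_const]
          gcongr
          exact subset_univ _

lemma measurableSet_big (η T : ℝ) : MeasurableSet {e : Ev | e.1 ≤ T ∧ η < e.2.1} :=
  (measurableSet_le (f := fun e : Ev => e.1) (g := fun _ => T) (by fun_prop) (by fun_prop)).inter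
    (measurableSet_lt (f := fun _ : Ev => η) (g := fun e => e.2.1) (by fun_prop) (by fun_prop))

end Pool.Agent.Helper84.Eve
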