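import Pool.Agent.Helper84.Eve.Coal

open MeasureTheory ProbabilityTheory Set Filter
open scoped ENNReal Topology

namespace Pool.Agent.Helper84.Eve

variable {Λ : Measure ℝ}

lemma cnt_congr {K K' : Finset ℕ} {m i : ℕ} (h : K.filter (· ≤ m) = K') (hi : i ≤ m) :
    cnt K i = cnt K' i := by
  unfold cnt
  congr 1
  ext j
  simp only [Finset.mem_filter]
  constructor
  · rintro ⟨h1, h2⟩
    refine ⟨?_, h2⟩
    rw [← h]; simp only [Finset.mem_filter]; exact ⟨h1, by omega⟩
  · rintro ⟨h1, h2⟩
    rw [← h] at h1
    simp only [Finset.mem_filter] at h1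
    exact ⟨h1.1, h2⟩

lemma pos_of_cnt_le {K : Finset ℕ} {a : ℕ} (h : cnt K a ≤ 1) : pos K a = a := by
  apply le_antisymm _ (le_pos K a)
  rw [pos_le_iff]
  unfold low; omega

lemma cnt_range {g i : ℕ} : cnt (Finset.range g) i = min g (i + 1) := by
  unfold cnt
  have : (Finset.range g).filter (· ≤ i) = Finset.range (min g (i + 1)) := by
    ext j
    simp only [Finset.mem_filter, Finset.mem_range]
    omega
  rw [this, Finset.card_range]

lemma pos_good_one {K : Finset ℕ} {g : ℕ} (hg : 2 ≤ g)
    (h : K.filter (· ≤ g + 1) = Finset.range g) : pos K 1 = g := by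
  apply le_antisymm
  · rw [pos_le_iff]
    unfold low
    rw [cnt_congr h (by omega), cnt_range]
    omega
  · by_contra hc
    have h1 := le_low_pos K 1
    unfold low at h1
    rw [cnt_congr h (by omega), cnt_range] at h1
    omega

lemma pos_good_two {K : Finset ℕ} {g : ℕ} (hg : 2 ≤ g)
    (h : K.filter (· ≤ g + 1) = Finset.range g) : pos K 2 = g + 1 := by
  apply le_antisymm
  · rw [pos_le_iff]
    unfold low
    rw [cnt_congr h (by omega), cnt_range]
    omega
  · by_contra hc
    have h1 := le_low_pos K 2
    unfold low at h1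
    rw [cnt_congr h (by omega), cnt_range] at h1
    omega

/-- the mass of the chain is close to one -/
lemma one_le_sum_wt {n : ℕ} {h : ℝ} (hh : 0 ≤ h) (hf : wS Λ n {K | K.Nonempty} ≠ ∞) :
    1 ≤ ∑ κ ∈ (Finset.range n).powerset, wt Λ n h κ +
      (ENNReal.ofReal h * wS Λ n {K | K.Nonempty}) ^ 2 := by
  classical
  have h1 := Finset.sum_filter_add_sum_filter_not (Finset.range n).powerset
    (fun K : Finset ℕ => K ∈ {K : Finset ℕ | K.Nonempty}) (wt Λ n h)
  rw [← h1, sum_wt_eq n h {K | K.Nonempty} (by simp)]
  have h2 : (Finset.range n).powerset.filter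
      (fun K : Finset ℕ => ¬ K ∈ {K : Finset ℕ | K.Nonempty}) = {∅} := by
    ext K
    simp only [Finset.mem_filter, Finset.mem_powerset, mem_ofPred_eq,
      Finset.not_nonempty_iff_eq_empty, Finset.mem_singleton]
    constructor
    · rintro ⟨_, h⟩; exact h
    · rintro rfl; exact ⟨Finset.empty_subset _, rfl⟩
  rw [h2, Finset.sum_singleton]
  unfold wt
  rw [if_pos rfl, mul_one]
  set M := wS Λ n {K | K.Nonempty} with hM
  have hM1 : M = ENNReal.ofReal M.toReal := (ENNReal.ofReal_toReal hf).symm
  set x := M.toReal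
  have hx : 0 ≤ x := ENNReal.toReal_nonneg
  rw [hM1, ← ENNReal.ofReal_mul hh, ← ENNReal.ofReal_mul (Real.exp_pos _).le,
    ← ENNReal.ofReal_pow (by positivity), ← ENNReal.ofReal_add (by positivity) (by positivity),
    ← ENNReal.ofReal_add (by positivity) (by positivity), ENNReal.one_le_ofReal]
  have := exp_bound (x := h * x) (by positivity)
  nlinarith

lemma one_le_wsum_one {n : ℕ} {h : ℝ} (hh : 0 ≤ h) (hf : wS Λ n {K | K.Nonempty} ≠ ∞) (m : ℕ) :
    1 ≤ wsum (wt Λ n h) n m (fun _ => 1) + m * (ENNReal.ofReal h * wS Λ n {K | K.Nonempty}) ^ 2 := by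
  induction m with
  | zero => simp [wsum]
  | succ m ih =>
    unfold wsum
    rw [← Finset.sum_mul]
    set S := ∑ κ ∈ (Finset.range n).powerset, wt Λ n h κ with hS
    set y := (ENNReal.ofReal h * wS Λ n {K | K.Nonempty}) ^ 2 with hy
    have h1 : 1 ≤ S + y := one_le_sum_wt hh hf
    have h2 : S ≤ 1 := sum_wt_le_one n hh hf
    calc 1 ≤ S + y := h1
      _ = S * 1 + y := by rw [mul_one]
      _ ≤ S * (wsum (wt Λ n h) n m (fun _ => 1) + m * y) + y := by gcongr
      _ = S * wsum (wt Λ n h) n m (fun _ => 1) + S * (m * y) + y := by ring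
      _ ≤ S * wsum (wt Λ n h) n m (fun _ => 1) + 1 * (m * y) + y := by gcongr
      _ = _ := by push_cast; ring

/-- mass of the sequences without the bad event -/
noncomputable def dd (Λ : Measure ℝ) (n : ℕ) (h : ℝ) (m a b : ℕ) : ℝ≥0∞ :=
  wsum (wt Λ n h) n m ({l | ¬ coal l a b}.indicator 1)

lemma dd_add (n : ℕ) (h : ℝ) (m a b : ℕ) :
    wsum (wt Λ n h) n m ({l | coal l a b}.indicator 1) + dd Λ n h m a b =
      wsum (wt Λ n h) n m (fun _ => 1) := by
  classical
  unfold dd
  rw [← wsum_add]
  congr 1
  funext l
  by_cases hl : coal l a b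
  · simp [hl]
  · simp [hl]

/-- lower bound for the mass started from positions `1, 2` -/
lemma dd_ge {n g : ℕ} (hg : 2 ≤ g) {h : ℝ} (θ Ds : ℝ≥0∞) (hθ : θ ≤ 1)
    (hstep : θ ≤ θ * ∑ κ ∈ (Finset.range n).powerset.filter (fun κ => cnt κ (g + 1) ≤ 1),
        wt Λ n h κ +
      Ds * ∑ κ ∈ (Finset.range n).powerset.filter
        (fun κ => κ.filter (· ≤ g + 1) = Finset.range g), wt Λ n h κ) (m : ℕ)
    (hDs : ∀ j ≤ m, Ds ≤ dd Λ n h j g (g + 1)) : θ ≤ dd Λ n h m 1 2 := by
  classical
  induction m with
  | zero =>
    unfold dd wsum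
    rw [Set.indicator_of_mem (by simp [coal])]
    simpa using hθ
  | succ m ih =>
    have h1 := ih fun j hj => hDs j (by omega)
    have h2 := hDs m (by omega)
    refine hstep.trans ?_
    unfold dd wsum
    have hdisj : Disjoint ((Finset.range n).powerset.filter (fun κ => cnt κ (g + 1) ≤ 1))
        ((Finset.range n).powerset.filter
          (fun κ => κ.filter (· ≤ g + 1) = Finset.range g)) := by
      rw [Finset.disjoint_left]
      intro κ h3 h4
      have h5 := (Finset.mem_filter.1 h3).2
      have h6 := (Finset.mem_filter.1 h4).2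
      rw [cnt_congr h6 le_rfl, cnt_range] at h5
      omega
    calc _ ≤ (∑ κ ∈ (Finset.range n).powerset.filter (fun κ => cnt κ (g + 1) ≤ 1),
          wt Λ n h κ * dd Λ n h m 1 2) +
        ∑ κ ∈ (Finset.range n).powerset.filter
          (fun κ => κ.filter (· ≤ g + 1) = Finset.range g), wt Λ n h κ * dd Λ n h m g (g + 1) := by
          rw [Finset.mul_sum, Finset.mul_sum]
          gcongr ?_ + ?_
          · apply Finset.sum_le_sum
            intro κ _
            rw [mul_comm]
            gcongr
          · apply Finset.sum_le_sum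
            intro κ _
            rw [mul_comm]
            gcongr
      _ ≤ ∑ κ ∈ ((Finset.range n).powerset.filter (fun κ => cnt κ (g + 1) ≤ 1)) ∪
          ((Finset.range n).powerset.filter
          (fun κ => κ.filter (· ≤ g + 1) = Finset.range g)),
          wt Λ n h κ * wsum (wt Λ n h) n m (fun l =>
            ({l | ¬ coal l 1 2} : Set (List (Finset ℕ))).indicator
            (1 : List (Finset ℕ) → ℝ≥0∞) (κ :: l)) := by
          rw [Finset.sum_union hdisj]
          gcongr ?_ + ?_
          · apply Finset.sum_le_sum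
            intro κ hκ
            have h3 := (Finset.mem_filter.1 hκ).2
            gcongr
            unfold dd
            apply wsum_mono
            intro l
            have hp1 : pos κ 1 = 1 := pos_of_cnt_le ((cnt_mono κ (by omega)).trans h3)
            have hp2 : pos κ 2 = 2 := pos_of_cnt_le ((cnt_mono κ (by omega)).trans h3)
            by_cases hl : coal l 1 2
            · rw [Set.indicator_of_notMem (by simpa using hl)]
              exact zero_le
            · rw [Set.indicator_of_mem (show l ∈ {l | ¬ coal l 1 2} from hl),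
                Set.indicator_of_mem]
              · simp
              · simp only [mem_ofPred_eq, coal, hp1, hp2, not_or]
                refine ⟨?_, hl⟩
                rintro ⟨h4, j, h5, h6, h7⟩
                have h8 : 2 ≤ cnt κ (g + 1) := by
                  unfold cnt
                  have : ({1, 2} : Finset ℕ) ⊆ κ.filter (· ≤ g + 1) := by
                    intro i hi
                    simp only [Finset.mem_insert, Finset.mem_singleton] at hi
                    simp only [Finset.mem_filter]
                    have hj2 : j = 2 := by omega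
                    subst hj2
                    rcases hi with rfl | rfl
                    · exact ⟨by simpa using h4.1, by omega⟩
                    · exact ⟨h5, by omega⟩
                  calc 2 = ({1, 2} : Finset ℕ).card := rfl
                    _ ≤ _ := Finset.card_le_card this
                omega
          · apply Finset.sum_le_sum
            intro κ hκ
            have h3 := (Finset.mem_filter.1 hκ).2
            gcongr
            unfold dd
            apply wsum_mono
            intro l
            have hp1 : pos κ 1 = g := pos_good_one hg h3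
            have hp2 : pos κ 2 = g + 1 := pos_good_two hg h3
            by_cases hl : coal l g (g + 1)
            · rw [Set.indicator_of_notMem (by simpa using hl)]
              exact zero_le
            · rw [Set.indicator_of_mem (show l ∈ {l | ¬ coal l g (g + 1)} from hl),
                Set.indicator_of_mem]
              · simp
              · simp only [mem_ofPred_eq, coal, hp1, hp2, not_or]
                refine ⟨?_, hl⟩
                rintro ⟨h4, _⟩
                have h5 : (0 : ℕ) ∈ κ := by
                  have : (0 : ℕ) ∈ κ.filter (· ≤ g + 1) := by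
                    rw [h3]; simp; omega
                  exact (Finset.mem_filter.1 this).1
                have := h4.2 (show (0 : ℕ) ∈ (κ : Set ℕ) by simpa using h5)
                omega
      _ ≤ _ := by
          apply Finset.sum_le_sum_of_subset
          intro κ hκ
          rcases Finset.mem_union.1 hκ with h3 | h3
          · exact (Finset.mem_filter.1 h3).1
          · exact (Finset.mem_filter.1 h3).1

lemma wS_good (hs : Λ (Icc 0 1)ᶜ = 0) {n g : ℕ} (hn : g + 2 ≤ n) :
    wS Λ n {K | K.filter (· ≤ g + 1) = Finset.range g} =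
      ∫⁻ u, ENNReal.ofReal u ^ g * ENNReal.ofReal (1 - u) ^ 2 ∂(nu Λ) := by
  unfold wS
  have : {q : ℝ × (ℕ → ℝ) | pat n (0, q) ∈
      {K : Finset ℕ | K.filter (· ≤ g + 1) = Finset.range g}} =
      {q : ℝ × (ℕ → ℝ) | (∀ j ∈ Finset.range g, q.2 j < q.1) ∧
        ∀ j ∈ ({g, g + 1} : Finset ℕ), ¬ q.2 j < q.1} := by
    ext q
    simp only [mem_ofPred_eq, Finset.mem_range, Finset.mem_insert, Finset.mem_singleton,
      forall_eq_or_imp, forall_eq]
    constructor
    · intro h
      have h1 : ∀ j ≤ g + 1, q.2 j < q.1 ↔ j < g := by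
        intro j hj
        have h2 : j ∈ (pat n (0, q)).filter (· ≤ g + 1) ↔ j ∈ Finset.range g := by rw [h]
        simp only [Finset.mem_filter, mem_pat, Finset.mem_range] at h2
        constructor
        · intro h3; exact h2.1 ⟨⟨by omega, h3⟩, hj⟩
        · intro h3; exact (h2.2 h3).1.2
      refine ⟨fun j hj => (h1 j (by omega)).2 hj, fun h2 => ?_, fun h2 => ?_⟩
      · have := (h1 g (by omega)).1 h2; omega
      · have := (h1 (g + 1) (by omega)).1 h2; omega
    · rintro ⟨h1, h2, h3⟩
      ext j
      simp only [Finset.mem_filter, mem_pat, Finset.mem_range]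
      constructor
      · rintro ⟨⟨h4, h5⟩, h6⟩
        by_contra h7
        have : j = g ∨ j = g + 1 := by omega
        rcases this with rfl | rfl
        · exact h2 h5
        · exact h3 h5
      · intro h4
        exact ⟨⟨by omega, h1 j h4⟩, by omega⟩
  rw [this, mk_marks hs]
  · have : ({g, g + 1} : Finset ℕ).card = 2 := by
      rw [Finset.card_pair]; omega
    rw [this, Finset.card_range]
  · rw [Finset.disjoint_left]
    intro j h1 h2
    simp only [Finset.mem_range, Finset.mem_insert, Finset.mem_singleton] at h1 h2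
    omega

lemma wS_nontrivial_le {n g : ℕ} (hn : g + 2 ≤ n) :
    wS Λ n {K | ¬ cnt K (g + 1) ≤ 1} ≤ wS Λ (g + 2) {K | K.Nonempty} := by
  unfold wS
  apply measure_mono
  intro q hq
  have h1 : ¬ cnt (pat n (0, q)) (g + 1) ≤ 1 := hq
  rw [← numPart_eq (by omega)] at h1
  exact numPart_pos (i := g + 1) (by omega) (by omega)

lemma nu_univ_eq : nu Λ univ = ∫⁻ u, ENNReal.ofReal (u ^ 2)⁻¹ ∂Λ := by
  unfold nu
  rw [withDensity_apply _ MeasurableSet.univ, Measure.restrict_univ]

lemma nu_singleton (x : ℝ) : nu Λ {x} = ENNReal.ofReal (x ^ 2)⁻¹ * Λ {x} := by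
  unfold nu
  rw [withDensity_apply _ (measurableSet_singleton x), lintegral_singleton]

/-- sizes in the open interval have positive mass -/
lemma nu_Ioo_ne_zero (hr : DustRegime Λ) : nu Λ (Ioo 0 1) ≠ 0 := by
  intro h
  have hfin := hr.finite
  have h1 : nu Λ (Icc 0 1)ᶜ = 0 := withDensity_absolutelyContinuous _ _ hr.supp
  have h2 : nu Λ univ ≤ nu Λ (Icc 0 1)ᶜ + nu Λ (Ioo 0 1) + nu Λ {0} + nu Λ {1} := by
    have : (univ : Set ℝ) ⊆ (((Icc 0 1)ᶜ ∪ Ioo 0 1) ∪ {0}) ∪ {1} := by
      intro x _
      simp only [mem_union, mem_compl_iff, mem_Icc, mem_Ioo, mem_singleton_iff]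
      by_cases hx0 : x = 0
      · left; right; exact hx0
      · by_cases hx1 : x = 1
        · right; exact hx1
        · left; left
          by_cases hx : 0 ≤ x ∧ x ≤ 1
          · right
            exact ⟨lt_of_le_of_ne hx.1 (Ne.symm hx0), lt_of_le_of_ne hx.2 hx1⟩
          · left; exact hx
    refine (measure_mono this).trans ((measure_union_le _ _).trans ?_)
    gcongr
    refine (measure_union_le _ _).trans ?_
    gcongr
    exact measure_union_le _ _
  rw [h1, h, nu_singleton, nu_singleton, nu_univ_eq, hr.infinite] at h2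
  have h3 : Λ {1} ≠ ∞ := measure_ne_top _ _
  simp at h2

lemma pg_ne_zero (hr : DustRegime Λ) (g : ℕ) :
    ∫⁻ u, ENNReal.ofReal u ^ g * ENNReal.ofReal (1 - u) ^ 2 ∂(nu Λ) ≠ 0 := by
  intro h
  rw [lintegral_eq_zero_iff (by fun_prop)] at h
  apply nu_Ioo_ne_zero hr
  rw [Filter.EventuallyEq, ae_iff] at h
  refine measure_mono_null ?_ h
  intro u hu
  simp only [mem_ofPred_eq, Pi.zero_apply, mul_eq_zero, not_or]
  refine ⟨?_, ?_⟩
  · apply pow_ne_zero
    rw [Ne, ENNReal.ofReal_eq_zero, not_le]; exact hu.1
  · apply pow_ne_zero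
    rw [Ne, ENNReal.ofReal_eq_zero, not_le]; linarith [hu.2]

lemma m2_ne_zero (hr : DustRegime Λ) : m2 Λ ≠ 0 := by
  intro h
  apply pg_ne_zero hr 2
  apply le_antisymm _ zero_le
  rw [← h]
  unfold m2
  apply lintegral_mono_ae
  filter_upwards [nu_supp hr.supp] with u hu
  calc _ ≤ ENNReal.ofReal u ^ 2 * 1 := by
        gcongr
        apply pow_le_one₀ (by simp)
        rw [ENNReal.ofReal_le_one]; linarith [hu.1]
    _ = _ := mul_one _

lemma m2_ne_top (hs : Λ (Icc 0 1)ᶜ = 0) (h1 : m1 Λ ≠ ∞) : m2 Λ ≠ ∞ := by
  refine ne_top_of_le_ne_top h1 ?_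
  unfold m2 m1
  apply lintegral_mono_ae
  filter_upwards [nu_supp hs] with u hu
  calc ENNReal.ofReal u ^ 2 ≤ ENNReal.ofReal u ^ 1 := by
        apply pow_le_pow_right_of_le_one' _ (by norm_num)
        rw [ENNReal.ofReal_le_one]; exact hu.2
    _ = _ := pow_one _

lemma DustRegime.m1_ne_top (hr : DustRegime Λ) : m1 Λ ≠ ∞ := by
  rw [m1_eq hr.supp]; exact hr.dust.ne

lemma phi_tendsto (hr : DustRegime Λ) : Tendsto (phi Λ) atTop (𝓝 0) := by
  have h1 := tendsto_lintegral_of_dominated_convergence (μ := nu Λ)
    (F := fun a u => ENNReal.ofReal u * ENNReal.ofReal (1 - u) ^ a)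
    (f := fun _ => 0) (fun u => ENNReal.ofReal u)
    (fun n => by fun_prop)
    (fun n => by
      filter_upwards [nu_supp hr.supp] with u hu
      calc _ ≤ ENNReal.ofReal u * 1 := by
            gcongr
            apply pow_le_one₀ (by simp)
            rw [ENNReal.ofReal_le_one]; linarith [hu.1]
        _ = _ := mul_one _)
    hr.m1_ne_top
    (by
      filter_upwards [nu_supp hr.supp] with u hu
      rcases eq_or_lt_of_le hu.1 with h2 | h2
      · rw [← h2]; simp
      · have h3 : Tendsto (fun a => ENNReal.ofReal (1 - u) ^ a) atTop (𝓝 0) := by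
          apply ENNReal.tendsto_pow_atTop_nhds_zero_of_lt_one
          rw [ENNReal.ofReal_lt_one]; linarith
        have h4 := ENNReal.Tendsto.const_mul (a := ENNReal.ofReal u) h3
          (Or.inr ENNReal.ofReal_ne_top)
        simpa using h4)
  rw [lintegral_zero] at h1
  exact h1

end Pool.Agent.Helper84.Eve
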