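import Pool.Agent.Helper84.Eve.Exist
import Pool.Agent.Helper84.Eve.Restart
import Pool.Agent.Helper86.Ppp3

open MeasureTheory ProbabilityTheory Set Filter
open scoped ENNReal Topology

namespace Pool.Agent.Helper84.Eve

lemma sigmaFinite_intensity {Λ : Measure ℝ} [IsFiniteMeasure Λ] : SigmaFinite (intensity Λ) := by
  have : SigmaFinite (nu Λ) := by
    unfold nu
    exact SigmaFinite.withDensity_of_ne_top (Eventually.of_forall fun _ => ENNReal.ofReal_ne_top)
  unfold intensity
  infer_instance

/-- every `Λ` in the regime has a lookdown system -/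
theorem exists_lookdown {Λ : Measure ℝ} (hr : DustRegime Λ) :
    ∃ (Ω : Type) (_ : MeasurableSpace Ω) (P : Measure Ω), IsProbabilityMeasure P ∧
      Nonempty (Lookdown P Λ) := by
  have := hr.finite
  have := sigmaFinite_intensity (Λ := Λ)
  have : SigmaFinite (nu Λ) := by
    unfold nu
    exact SigmaFinite.withDensity_of_ne_top (Eventually.of_forall fun _ => ENNReal.ofReal_ne_top)
  obtain ⟨P, N, h0, h1, h2, h3⟩ := Pool.Agent.Helper86.Ppp.exists_poisson (intensity Λ)
    (fun e : Ev => e.1) measurable_fst (by
      intro x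
      have : (fun e : Ev => e.1) ⁻¹' {x} = {x} ×ˢ (univ : Set (ℝ × (ℕ → ℝ))) := by
        ext e; simp
      rw [this]
      unfold intensity
      rw [Measure.prod_prod]
      have h4 : (volume.restrict (Ioi (0 : ℝ))) {x} = 0 :=
        le_antisymm ((Measure.restrict_le_self _).trans (by simp)) zero_le
      rw [h4, zero_mul])
  have hN : IsPoisson P N (intensity Λ) := ⟨h1, h2, h3⟩
  refine ⟨_, inferInstance, P.prod (Measure.infinitePi fun _ : ℕ => unif), inferInstance, ?_⟩
  exact exists_lookdown_of_poisson hN hr.supp hr.m1_ne_top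

end Pool.Agent.Helper84.Eve
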