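import Pool.Agent.Helper84.Eve.Law

open MeasureTheory ProbabilityTheory Set Filter
open scoped ENNReal Topology

namespace Pool.Agent.Helper84.Eve

set_option linter.unusedSectionVars false

variable {Ω : Type*} [MeasurableSpace Ω] {P : Measure Ω} [IsProbabilityMeasure P] {Λ : Measure ℝ}

lemma card_inj (n J : ℕ) [DecidablePred fun l : Fin J → Fin n => Function.Injective l] :
    ((Finset.univ : Finset (Fin J → Fin n)).filter fun l => Function.Injective l).card =
      n.descFactorial J := by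
  rw [← Fintype.card_subtype, Fintype.card_congr (Equiv.subtypeInjectiveEquivEmbedding _ _),
    Fintype.card_embedding_eq, Fintype.card_fin, Fintype.card_fin]

lemma sum_inj (n J : ℕ) [DecidablePred fun l : Fin J → Fin n => Function.Injective l]
    {p : ℝ≥0∞} :
    (∑ l : Fin J → Fin n, if Function.Injective l then p else 1) ≤
      (n : ℝ≥0∞) ^ J * p + ((n ^ J - n.descFactorial J : ℕ) : ℝ≥0∞) := by
  classical
  have hle : n.descFactorial J ≤ n ^ J := Nat.descFactorial_le_pow n J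
  rw [Finset.sum_ite, Finset.sum_const, Finset.sum_const, card_inj, nsmul_eq_mul, nsmul_eq_mul,
    mul_one]
  have h1 : ((Finset.univ : Finset (Fin J → Fin n)).filter fun l => ¬ Function.Injective l).card =
      n ^ J - n.descFactorial J := by
    have h2 := Finset.card_filter_add_card_filter_not (s := (Finset.univ : Finset (Fin J → Fin n)))
      (fun l => Function.Injective l)
    rw [card_inj] at h2
    have h3 : (Finset.univ : Finset (Fin J → Fin n)).card = n ^ J := by
      simp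
    omega
  rw [h1]
  gcongr
  exact_mod_cast hle

lemma aemeas (hr : DustRegime Λ) (L : Lookdown P Λ) (T i : ℕ) : AEMeasurable (L.ξ T i) P := by
  have := hr.finite
  have hs := hr.supp
  set S : (Σ m : ℕ, (Fin m → PatT (i + 1))) → Set Ω := fun p =>
    if 1 ≤ p.1 then Gset L.N (i + 1) p.1 (T / p.1) p.2 else ∅ with hS
  have hle1 : sigmaPoints L.N ≤ (inferInstance : MeasurableSpace Ω) := by
    apply iSup_le
    rintro ⟨A, hA⟩
    exact (L.poisson.measurable_count A hA).comap_le
  have hcover : ∀ᵐ ω ∂P, ω ∈ ⋃ p, S p := by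
    filter_upwards [ae_grid L.poisson hs hr.m1_ne_top (i + 1) T] with ω hω
    obtain ⟨m, hm, hG⟩ := hω
    refine mem_iUnion.2 ⟨⟨m, fun r => ⟨kap (L.N ω) (i + 1) (r * (T / m)) ((r + 1) * (T / m)),
      kap_mem _ _ _ _⟩⟩, ?_⟩
    simp only [hS]
    rw [if_pos hm]
    exact mem_Gset_of_good hG
  have hres : P.restrict (⋃ p, S p) = P := Measure.restrict_eq_self_of_ae_mem hcover
  suffices h : AEMeasurable (L.ξ T i) (P.restrict (⋃ p, S p)) by rwa [hres] at h
  rw [aemeasurable_iUnion_iff]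
  rintro ⟨m, k⟩
  by_cases hm : 1 ≤ m
  · have hSeq : S ⟨m, k⟩ = Gset L.N (i + 1) m (T / m) k := by simp only [hS]; rw [if_pos hm]
    rw [hSeq]
    set j := ancL (i + 1) (List.ofFn fun i => (k i).1) (Fin.last i) with hj
    refine ⟨L.ξ 0 j, L.measurable_init j, ?_⟩
    have hmeas : MeasurableSet (Gset L.N (i + 1) m (T / m) k) :=
      hle1 _ (Gset_measurable L.N (i + 1) m (T / m) k)
    rw [Filter.EventuallyEq, ae_restrict_iff' hmeas]
    filter_upwards [L.ae_dyn] with ω hdyn hω
    obtain ⟨h1, h2⟩ := Gset_good hω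
    have h3 := types_T hm hdyn h1 (Fin.last i)
    rw [h2] at h3
    simpa using h3
  · have hSeq : S ⟨m, k⟩ = ∅ := by simp only [hS]; rw [if_neg hm]
    rw [hSeq]; simp

/-- exchangeability for tuples of distinct levels -/
lemma exch_tuple (hr : DustRegime Λ) (L : Lookdown P Λ) (T : ℕ) {J : ℕ} {B : Fin J → Set ℝ}
    (hB : ∀ i, MeasurableSet (B i)) {l : Fin J → ℕ} (hl : Function.Injective l) :
    P {ω | ∀ k, L.ξ T (l k) ω ∈ B k} ≤ P {ω | ∀ k : Fin J, L.ξ T k ω ∈ B k} := by
  classical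
  set n := J + (∑ k, l k) + 1 with hn
  have h1 : ∀ k, l k < n := by
    intro k
    have := Finset.single_le_sum (f := l) (fun _ _ => Nat.zero_le _) (Finset.mem_univ k)
    omega
  have h2 : ∀ k : Fin J, (k : ℕ) < n := fun k => by have := k.2; omega
  obtain ⟨π, hπ⟩ := exists_perm_of_ker (n := n) (fun k : Fin J => ⟨l k, h1 k⟩)
    (fun k : Fin J => ⟨k, h2 k⟩) (by
      intro i j
      simp only [Fin.mk.injEq]
      rw [hl.eq_iff, Fin.val_inj])
  set B' : Fin n → Set ℝ := fun i => if h : (i : ℕ) < J then B ⟨i, h⟩ else univ with hB'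
  have hB'm : ∀ i, MeasurableSet (B' i) := by
    intro i; simp only [hB']; split_ifs
    · exact hB _
    · exact MeasurableSet.univ
  have h3 := exch hr L T n hB'm π
  have h4 : {ω | ∀ i, L.ξ T (π i) ω ∈ B' i} = {ω | ∀ k, L.ξ T (l k) ω ∈ B k} := by
    ext ω
    simp only [mem_ofPred_eq, hB']
    constructor
    · intro h k
      have h5 := h ⟨k, h2 k⟩
      rw [← hπ k] at h5
      simpa using h5
    · intro h i
      split_ifs with h5
      · have h6 := hπ ⟨i, h5⟩
        have h7 : (⟨((⟨i, h5⟩ : Fin J) : ℕ), h2 ⟨i, h5⟩⟩ : Fin n) = i := rfl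
        rw [h7] at h6
        rw [← h6]
        exact h ⟨i, h5⟩
      · trivial
  have h5 : {ω | ∀ i : Fin n, L.ξ T i ω ∈ B' i} = {ω | ∀ k : Fin J, L.ξ T k ω ∈ B k} := by
    ext ω
    simp only [mem_ofPred_eq, hB']
    constructor
    · intro h k
      have h6 := h ⟨k, h2 k⟩
      simpa using h6
    · intro h i
      split_ifs with h6
      · exact h ⟨i, h6⟩
      · trivial
  rw [h4, h5] at h3
  exact h3

/-- empirical frequency of a set -/
noncomputable def emp (x : ℕ → ℝ) (n : ℕ) (B : Set ℝ) : ℝ :=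
  (∑ i : Fin n, B.indicator (fun _ => (1 : ℝ)) (x i)) / n

lemma emp_nonneg (x : ℕ → ℝ) (n : ℕ) (B : Set ℝ) : 0 ≤ emp x n B := by
  unfold emp
  apply div_nonneg _ (Nat.cast_nonneg n)
  apply Finset.sum_nonneg
  intro i _
  exact Set.indicator_nonneg (fun _ _ => zero_le_one) _

lemma prod_emp (x : ℕ → ℝ) (n : ℕ) {J : ℕ} (B : Fin J → Set ℝ) :
    ∏ k, emp x n (B k) = (∑ l : Fin J → Fin n,
      ({x : Fin J → ℝ | ∀ k, x k ∈ B k}.indicator (fun _ => (1 : ℝ)) (fun k => x (l k)))) /
        (n : ℝ) ^ J := by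
  classical
  unfold emp
  rw [Finset.prod_div_distrib, Finset.prod_univ_sum, Fintype.piFinset_univ]
  congr 1
  · apply Finset.sum_congr rfl
    intro l _
    by_cases h : ∀ k, x (l k) ∈ B k
    · rw [Set.indicator_of_mem (show (fun k => x (l k)) ∈ {x : Fin J → ℝ | ∀ k, x k ∈ B k} from h)]
      apply Finset.prod_eq_one
      intro k _
      rw [Set.indicator_of_mem (h k)]
    · rw [Set.indicator_of_notMem (show (fun k => x (l k)) ∉ {x : Fin J → ℝ | ∀ k, x k ∈ B k}
        from h)]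
      push Not at h
      obtain ⟨k, hk⟩ := h
      apply Finset.prod_eq_zero (Finset.mem_univ k)
      rw [Set.indicator_of_notMem hk]
  · simp

lemma moment_bound (hr : DustRegime Λ) (L : Lookdown P Λ) (T : ℕ) {J : ℕ} {B : Fin J → Set ℝ}
    (hB : ∀ i, MeasurableSet (B i)) {n : ℕ} (hn : 1 ≤ n) :
    ∫⁻ ω, ENNReal.ofReal (∏ k, emp (fun i => L.ξ T i ω) n (B k)) ∂P ≤
      P {ω | ∀ k : Fin J, L.ξ T k ω ∈ B k} +
        ENNReal.ofReal (1 - (n.descFactorial J : ℝ) / (n : ℝ) ^ J) := by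
  classical
  have hn0 : (0 : ℝ) < n := by exact_mod_cast hn
  set p := P {ω | ∀ k : Fin J, L.ξ T k ω ∈ B k} with hp
  have hp1 : p ≤ 1 := prob_le_one
  have hset : MeasurableSet {x : Fin J → ℝ | ∀ k, x k ∈ B k} := by
    have : {x : Fin J → ℝ | ∀ k, x k ∈ B k} = ⋂ k, {x : Fin J → ℝ | x k ∈ B k} := by
      ext x; simp
    rw [this]
    exact MeasurableSet.iInter fun k => (measurable_pi_apply k) (hB k)
  have hae : ∀ l : Fin J → Fin n, AEMeasurable (fun ω k => L.ξ T (l k) ω) P := fun l =>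
    aemeasurable_pi_lambda _ fun k => aemeas hr L T (l k)
  have hnull : ∀ l : Fin J → Fin n, NullMeasurableSet {ω | ∀ k, L.ξ T (l k) ω ∈ B k} P := fun l =>
    (hae l).nullMeasurableSet_preimage hset
  have h1 : ∀ ω, ENNReal.ofReal (∏ k, emp (fun i => L.ξ T i ω) n (B k)) =
      (∑ l : Fin J → Fin n, {ω | ∀ k, L.ξ T (l k) ω ∈ B k}.indicator (fun _ => (1 : ℝ≥0∞)) ω) /
        (n : ℝ≥0∞) ^ J := by
    intro ω
    rw [prod_emp, ENNReal.ofReal_div_of_pos (by positivity), ENNReal.ofReal_sum_of_nonneg]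
    · congr 1
      · apply Finset.sum_congr rfl
        intro l _
        by_cases h : ∀ k, L.ξ T (l k) ω ∈ B k
        · rw [Set.indicator_of_mem (show (fun k => L.ξ T (l k) ω) ∈
            {x : Fin J → ℝ | ∀ k, x k ∈ B k} from h), Set.indicator_of_mem (show ω ∈
            {ω | ∀ k, L.ξ T (l k) ω ∈ B k} from h), ENNReal.ofReal_one]
        · rw [Set.indicator_of_notMem (show (fun k => L.ξ T (l k) ω) ∉
            {x : Fin J → ℝ | ∀ k, x k ∈ B k} from h), Set.indicator_of_notMem (show ω ∉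
            {ω | ∀ k, L.ξ T (l k) ω ∈ B k} from h), ENNReal.ofReal_zero]
      · rw [ENNReal.ofReal_pow hn0.le, ENNReal.ofReal_natCast]
    · intro l _
      exact Set.indicator_nonneg (fun _ _ => zero_le_one) _
  simp_rw [h1]
  have hn1 : (n : ℝ≥0∞) ^ J ≠ 0 := pow_ne_zero _ (by
    exact_mod_cast (by omega : n ≠ 0))
  have hn2 : (n : ℝ≥0∞) ^ J ≠ ∞ := ENNReal.pow_ne_top (ENNReal.natCast_ne_top n)
  simp_rw [div_eq_mul_inv]
  rw [lintegral_mul_const' _ _ (ENNReal.inv_ne_top.2 hn1), lintegral_finsetSum']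
  · have h2 : ∀ l : Fin J → Fin n, ∫⁻ ω, {ω | ∀ k, L.ξ T (l k) ω ∈ B k}.indicator
        (fun _ => (1 : ℝ≥0∞)) ω ∂P ≤ if Function.Injective l then p else 1 := by
      intro l
      rw [lintegral_indicator_const₀ (hnull l), one_mul]
      split_ifs with h3
      · exact exch_tuple hr L T hB (l := fun k => (l k : ℕ)) (Fin.val_injective.comp h3)
      · exact prob_le_one
    calc _ ≤ (∑ l : Fin J → Fin n, if Function.Injective l then p else 1) * ((n : ℝ≥0∞) ^ J)⁻¹ := by
          gcongr with l _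
          exact h2 l
      _ ≤ ((n : ℝ≥0∞) ^ J * p + ((n ^ J - n.descFactorial J : ℕ) : ℝ≥0∞)) *
            ((n : ℝ≥0∞) ^ J)⁻¹ := by
          gcongr
          exact sum_inj n J
      _ = p + ((n ^ J - n.descFactorial J : ℕ) : ℝ≥0∞) * ((n : ℝ≥0∞) ^ J)⁻¹ := by
          rw [add_mul, mul_comm ((n : ℝ≥0∞) ^ J) p, mul_assoc, ENNReal.mul_inv_cancel hn1 hn2,
            mul_one]
      _ ≤ _ := by
          gcongr
          apply le_of_eq
          have hle : n.descFactorial J ≤ n ^ J := Nat.descFactorial_le_pow n J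
          have h3 : 1 - (n.descFactorial J : ℝ) / (n : ℝ) ^ J =
              ((n ^ J - n.descFactorial J : ℕ) : ℝ) / (n : ℝ) ^ J := by
            rw [Nat.cast_sub hle]
            push_cast
            field_simp
          rw [← div_eq_mul_inv (n.descFactorial J : ℝ), h3,
            ENNReal.ofReal_div_of_pos (by positivity), ENNReal.ofReal_natCast,
            ENNReal.ofReal_pow hn0.le, ENNReal.ofReal_natCast, div_eq_mul_inv]
  · intro l _
    exact (aemeasurable_const.indicator₀ (hnull l))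

lemma descFactorial_ratio (J : ℕ) : Tendsto (fun n : ℕ =>
    ENNReal.ofReal (1 - (n.descFactorial J : ℝ) / (n : ℝ) ^ J)) atTop (𝓝 0) := by
  have h1 : Tendsto (fun n : ℕ => 1 - ((1 : ℝ) - J / n) ^ J) atTop (𝓝 0) := by
    have h2 : Tendsto (fun n : ℕ => (1 : ℝ) - J / n) atTop (𝓝 1) := by
      have := (tendsto_const_div_atTop_nhds_zero_nat (J : ℝ)).const_sub 1
      simpa using this
    have h3 := (h2.pow J).const_sub 1
    simpa using h3
  have h4 := ENNReal.tendsto_ofReal h1
  rw [ENNReal.ofReal_zero] at h4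
  refine tendsto_of_tendsto_of_tendsto_of_le_of_le' tendsto_const_nhds h4
    (Eventually.of_forall fun _ => zero_le) ?_
  filter_upwards [eventually_ge_atTop (J + 1)] with n hn
  apply ENNReal.ofReal_le_ofReal
  have hn0 : (0 : ℝ) < n := by
    have : 0 < n := by omega
    exact_mod_cast this
  have h5 : (n + 1 - J) ^ J ≤ n.descFactorial J := Nat.pow_sub_le_descFactorial n J
  have h6 : ((n : ℝ) - J) ^ J ≤ (n.descFactorial J : ℝ) := by
    calc ((n : ℝ) - J) ^ J ≤ ((n + 1 - J : ℕ) : ℝ) ^ J := by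
          apply pow_le_pow_left₀
          · have : (J : ℝ) ≤ n := by exact_mod_cast (by omega : J ≤ n)
            linarith
          · rw [Nat.cast_sub (by omega)]; push_cast; linarith
      _ ≤ _ := by exact_mod_cast h5
  have h7 : ((1 : ℝ) - J / n) ^ J = ((n : ℝ) - J) ^ J / (n : ℝ) ^ J := by
    rw [← div_pow]; congr 1; field_simp
  rw [h7]
  gcongr

/-- moment inequality -/
lemma moment_limit (hr : DustRegime Λ) (L : Lookdown P Λ) (T : ℕ) {J : ℕ} {B : Fin J → Set ℝ}
    (hB : ∀ i, MeasurableSet (B i)) (R : Ω → Fin J → ℝ)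
    (hR : ∀ᵐ ω ∂P, ∀ k, Tendsto (fun n => emp (fun i => L.ξ T i ω) n (B k)) atTop (𝓝 (R ω k))) :
    ∫⁻ ω, ENNReal.ofReal (∏ k, R ω k) ∂P ≤ P {ω | ∀ k : Fin J, L.ξ T k ω ∈ B k} := by
  have hmeas : ∀ n, AEMeasurable (fun ω => ENNReal.ofReal
      (∏ k, emp (fun i => L.ξ T i ω) n (B k))) P := by
    intro n
    apply AEMeasurable.ennreal_ofReal
    apply Finset.aemeasurable_fun_prod
    intro k _
    unfold emp
    apply AEMeasurable.div_const
    apply Finset.aemeasurable_fun_sum
    intro i _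
    have h1 := (aemeas hr L T i)
    have h2 : (fun ω => (B k).indicator (fun _ => (1 : ℝ)) (L.ξ T i ω)) =
        ((B k).indicator (fun _ => (1 : ℝ))) ∘ (L.ξ T i) := rfl
    rw [h2]
    exact (measurable_const.indicator (hB k)).comp_aemeasurable h1
  have h1 : ∫⁻ ω, ENNReal.ofReal (∏ k, R ω k) ∂P =
      ∫⁻ ω, liminf (fun n => ENNReal.ofReal
        (∏ k, emp (fun i => L.ξ T i ω) n (B k))) atTop ∂P := by
    apply lintegral_congr_ae
    filter_upwards [hR] with ω hω
    have h2 : Tendsto (fun n => ENNReal.ofReal (∏ k, emp (fun i => L.ξ T i ω) n (B k))) atTop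
        (𝓝 (ENNReal.ofReal (∏ k, R ω k))) :=
      ENNReal.tendsto_ofReal (tendsto_finsetProd _ fun k _ => hω k)
    exact h2.liminf_eq.symm
  rw [h1]
  refine (lintegral_liminf_le' hmeas).trans ?_
  have h3 := (descFactorial_ratio J).const_add (P {ω | ∀ k : Fin J, L.ξ T k ω ∈ B k})
  rw [add_zero] at h3
  rw [← h3.liminf_eq]
  refine liminf_le_liminf ?_
  filter_upwards [eventually_ge_atTop 1] with n hn
  exact moment_bound hr L T hB hn

end Pool.Agent.Helper84.Eve
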