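import Pool.Agent.Helper84.Eve.Final

open MeasureTheory ProbabilityTheory Set Filter
open scoped ENNReal Topology

namespace Pool.Agent.Helper84.Eve

set_option linter.unusedSectionVars false

section prob

variable {Ω : Type*} [MeasurableSpace Ω] {P : Measure Ω} [IsProbabilityMeasure P] {Λ : Measure ℝ}

/-- the patterns are eventually contained in the event that the first two other levels carry
equal types -/
lemma Phi_limit (hr : DustRegime Λ) (L : Lookdown P Λ) (T : ℕ) :
    limsup (fun k => P {ω | Phi (fun i => L.ξ T i ω) k}) atTop ≤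
      P {ω | ∃ i j, FirstTwo (fun k => L.ξ T k ω) i j ∧ L.ξ T i ω = L.ξ T j ω} := by
  set E := {ω | ∃ i j, FirstTwo (fun k => L.ξ T k ω) i j ∧ L.ξ T i ω = L.ξ T j ω} with hE
  set E' := toMeasurable P E with hE'
  have hE'm : MeasurableSet E' := measurableSet_toMeasurable _ _
  have hE'P : P E' = P E := measure_toMeasurable _
  set Φ : ℕ → Set Ω := fun k => {ω | Phi (fun i => L.ξ T i ω) k} with hΦ
  have hΦn : ∀ k, NullMeasurableSet (Φ k) P := fun k => Phi_null hr L T k
  have hd : ∀ k, NullMeasurableSet (Φ k \ E') P := fun k => (hΦn k).diff hE'm.nullMeasurableSet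
  have h0 : Tendsto (fun k => P (Φ k \ E')) atTop (𝓝 0) := by
    have h1 : Tendsto (fun k => ∫⁻ ω, (Φ k \ E').indicator (fun _ => (1 : ℝ≥0∞)) ω ∂P) atTop
        (𝓝 (∫⁻ _, 0 ∂P)) := by
      apply tendsto_lintegral_of_dominated_convergence' (fun _ => 1)
      · intro k; exact aemeasurable_const.indicator₀ (hd k)
      · intro k
        filter_upwards with ω
        exact indicator_le_self' (by simp) ω
      · simp
      · filter_upwards with ω
        by_cases h : ω ∈ E'
        · have : ∀ k, (Φ k \ E').indicator (fun _ => (1 : ℝ≥0∞)) ω = 0 := by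
            intro k; rw [indicator_of_notMem]; exact fun h' => h'.2 h
          simp_rw [this]; exact tendsto_const_nhds
        · have hωE : ω ∉ E := fun h' => h (subset_toMeasurable _ _ h')
          have := eventually_no_pat (x := fun i => L.ξ T i ω) hωE
          apply tendsto_const_nhds.congr'
          filter_upwards [this] with k hk
          rw [indicator_of_notMem]
          rintro ⟨⟨a, b, p, q, hab, hp⟩, _⟩
          exact hk a b p q hab hp
    simp only [lintegral_zero] at h1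
    refine h1.congr fun k => ?_
    rw [lintegral_indicator₀ (hd k)]
    simp
  have h2 : ∀ k, P (Φ k) ≤ P E + P (Φ k \ E') := by
    intro k
    calc P (Φ k) ≤ P (E' ∪ (Φ k \ E')) := measure_mono (by
          intro ω hω; by_cases h : ω ∈ E'
          · left; exact h
          · right; exact ⟨hω, h⟩)
      _ ≤ P E' + P (Φ k \ E') := measure_union_le _ _
      _ = _ := by rw [hE'P]
  have h3 : Tendsto (fun k => P E + P (Φ k \ E')) atTop (𝓝 (P E + 0)) :=
    tendsto_const_nhds.add h0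
  rw [add_zero] at h3
  calc limsup (fun k => P (Φ k)) atTop ≤ limsup (fun k => P E + P (Φ k \ E')) atTop :=
        limsup_le_limsup (Eventually.of_forall h2)
    _ = P E := h3.limsup_eq

lemma FF_fatou (hr : DustRegime Λ) (L : Lookdown P Λ) (T : ℕ) (ρ : Ω → Measure ℝ)
    (hρ : ∀ᵐ ω ∂P, EmpLimit (fun i => L.ξ T i ω) (ρ ω)) :
    ∫⁻ ω, liminf (fun k => FF (ρ ω) k) atTop ∂P ≤
      P {ω | ∃ i j, FirstTwo (fun k => L.ξ T k ω) i j ∧ L.ξ T i ω = L.ξ T j ω} := by
  calc ∫⁻ ω, liminf (fun k => FF (ρ ω) k) atTop ∂P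
      ≤ liminf (fun k => ∫⁻ ω, FF (ρ ω) k ∂P) atTop :=
        lintegral_liminf_le' (fun k => FF_aem hr L T ρ hρ k)
    _ ≤ liminf (fun k => P {ω | Phi (fun i => L.ξ T i ω) k}) atTop :=
        liminf_le_liminf (Eventually.of_forall fun k => FF_le hr L T ρ hρ k)
    _ ≤ limsup (fun k => P {ω | Phi (fun i => L.ξ T i ω) k}) atTop := liminf_le_limsup
    _ ≤ _ := Phi_limit hr L T

/-- the pathwise consequence of the existence of the first two Eves -/
lemma eves_liminf {μ : ℕ → Measure ℝ} {e0 e1 : ℝ} (h0 : e0 ∈ Icc (0 : ℝ) 1)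
    (h1 : e1 ∈ Icc (0 : ℝ) 1) (hne : e0 ≠ e1)
    (hμ : ∀ n, 1 ≤ n → IsProbabilityMeasure (μ n) ∧ μ n (Icc 0 1)ᶜ = 0)
    (hl0 : Tendsto (fun n => μ n {e0}) atTop (𝓝 1))
    (hl1 : Tendsto (fun n => μ n {e1} / μ n (Icc 0 1 \ {e0})) atTop (𝓝 1)) :
    1 ≤ liminf (fun n => liminf (fun k => FF (μ n) k) atTop) atTop := by
  have h2 : Tendsto (fun n => μ n {e0} * (μ n {e1} / μ n (Icc 0 1 \ {e0})) ^ 2) atTop
      (𝓝 (1 * 1 ^ 2)) := by
    apply ENNReal.Tendsto.mul hl0 (by simp) _ (by simp)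
    exact ENNReal.Tendsto.pow hl1
  rw [one_pow, mul_one] at h2
  rw [← h2.liminf_eq]
  refine liminf_le_liminf ?_
  filter_upwards [eventually_ge_atTop 1] with n hn
  obtain ⟨hp, hs⟩ := hμ n hn
  exact exists_cells h0 h1 hne hs

end prob

/-- there is no infinite sequence of Eves, for every `Λ` in the regime -/
theorem q2 {Λ : Measure ℝ} (hr : DustRegime Λ) {Ω : Type*} [MeasurableSpace Ω] (P : Measure Ω)
    [IsProbabilityMeasure P] (L : Lookdown P Λ) (ρ : ℝ → Ω → Measure ℝ)
    (hρ : ∀ t, 0 ≤ t → ∀ᵐ ω ∂P, EmpLimit (fun i => L.ξ t i ω) (ρ t ω)) :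
    ¬ ∀ᵐ ω ∂P, ∃ e : ℕ → ℝ, IsEves (fun t => ρ t ω) e := by
  intro hE
  obtain ⟨θ, hθ, hb⟩ := level_bound hr
  have hρn : ∀ n : ℕ, ∀ᵐ ω ∂P, EmpLimit (fun i => L.ξ (n : ℕ) i ω) (ρ (n : ℕ) ω) :=
    fun n => hρ n (Nat.cast_nonneg n)
  set G : ℕ → Ω → ℝ≥0∞ := fun n ω => liminf (fun k => FF (ρ n ω) k) atTop with hG
  have hGm : ∀ n, AEMeasurable (G n) P := fun n =>
    aem_liminf fun k => FF_aem hr L n (ρ n) (hρn n) k
  have h1 : ∀ᵐ ω ∂P, 1 ≤ liminf (fun n => G n ω) atTop := by
    have ha := ae_all_iff.2 hρn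
    have hb' := ae_all_iff.2 fun n : ℕ => ae_supp hr L n (ρ n) (hρn n)
    filter_upwards [hE, ha, hb'] with ω ⟨e, hinj, hmem, hlim⟩ h2 h3
    have hIcc : ∀ n : ℕ, ρ n ω (Icc 0 1) = 1 := by
      intro n
      have := (h2 n).1
      have h4 := measure_add_measure_compl (μ := ρ n ω) (measurableSet_Icc (a := (0 : ℝ)) (b := 1))
      rw [h3 n, add_zero, measure_univ] at h4
      exact h4
    apply eves_liminf (μ := fun n : ℕ => ρ n ω) (hmem 0) (hmem 1)
      (fun h => absurd (hinj h) (by norm_num)) (fun n _ => ⟨(h2 n).1, h3 n⟩)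
    · have h4 := (hlim 0).comp tendsto_natCast_atTop_atTop
      refine h4.congr fun n => ?_
      have h5 : e '' {j : ℕ | j < 0} = ∅ := by simp
      simp only [Function.comp_apply, h5, sdiff_empty]
      rw [hIcc n, div_one]
    · have h4 := (hlim 1).comp tendsto_natCast_atTop_atTop
      refine h4.congr fun n => ?_
      have h5 : e '' {j : ℕ | j < 1} = {e 0} := by
        have : {j : ℕ | j < 1} = {0} := by ext j; simp
        rw [this, image_singleton]
      simp only [Function.comp_apply, h5]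
  have h2 : (1 : ℝ≥0∞) ≤ 1 - θ := by
    calc (1 : ℝ≥0∞) = ∫⁻ _, 1 ∂P := by simp
      _ ≤ ∫⁻ ω, liminf (fun n => G n ω) atTop ∂P := lintegral_mono_ae h1
      _ ≤ liminf (fun n => ∫⁻ ω, G n ω ∂P) atTop := lintegral_liminf_le' hGm
      _ ≤ liminf (fun _ : ℕ => (1 - θ : ℝ≥0∞)) atTop := by
          refine liminf_le_liminf ?_
          filter_upwards [eventually_ge_atTop 1] with n hn
          refine (FF_fatou hr L n (ρ n) (hρn n)).trans ?_
          apply ENNReal.le_sub_of_add_le_right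
          · intro h
            have := hb P L 1 le_rfl
            rw [h] at this
            simp at this
          · exact hb P L n hn
      _ = 1 - θ := by simp
  have h3 : (1 : ℝ≥0∞) - θ < 1 := ENNReal.sub_lt_self (by simp) (by simp) hθ
  exact absurd (lt_of_le_of_lt h2 h3) (lt_irrefl _)

end Pool.Agent.Helper84.Eve
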